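import Mathlib

/-! Weighted 3-graphs: expectations, optimal weightings, regularity and the entropy inequality. -/

namespace Pool.Agent.P.MP_fc6a29_co

open Finset

variable {V : Type} [Fintype V]

/-- Expectation with respect to the weights `w`. -/
def Ex (w : V → ℝ) (f : V → ℝ) : ℝ := ∑ v, w v * f v

section ex
variable {w : V → ℝ}

theorem Ex_add (f g : V → ℝ) : Ex w (fun v => f v + g v) = Ex w f + Ex w g := by
  simp [Ex, mul_add, sum_add_distrib]

theorem Ex_sub (f g : V → ℝ) : Ex w (fun v => f v - g v) = Ex w f - Ex w g := by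
  simp [Ex, mul_sub, sum_sub_distrib]

theorem Ex_mul_left (c : ℝ) (f : V → ℝ) : Ex w (fun v => c * f v) = c * Ex w f := by
  simp only [Ex, mul_sum]; exact sum_congr rfl fun v _ => by ring

theorem Ex_mul_right (c : ℝ) (f : V → ℝ) : Ex w (fun v => f v * c) = Ex w f * c := by
  simp only [Ex, sum_mul]; exact sum_congr rfl fun v _ => by ring

theorem Ex_neg (f : V → ℝ) : Ex w (fun v => - f v) = - Ex w f := by
  simp [Ex]

theorem Ex_const (h : ∑ v, w v = 1) (c : ℝ) : Ex w (fun _ => c) = c := by
  simp [Ex, ← sum_mul, h]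

theorem Ex_zero : Ex w (fun _ => 0) = 0 := by simp [Ex]

theorem Ex_nonneg (hw : ∀ v, 0 ≤ w v) {f : V → ℝ} (hf : ∀ v, 0 ≤ f v) : 0 ≤ Ex w f :=
  sum_nonneg fun v _ => mul_nonneg (hw v) (hf v)

theorem Ex_mono (hw : ∀ v, 0 ≤ w v) {f g : V → ℝ} (hf : ∀ v, f v ≤ g v) : Ex w f ≤ Ex w g :=
  sum_le_sum fun v _ => mul_le_mul_of_nonneg_left (hf v) (hw v)

theorem Ex_comm (f : V → V → ℝ) :
    Ex w (fun a => Ex w fun b => f a b) = Ex w fun b => Ex w fun a => f a b := by
  simp only [Ex, mul_sum]
  rw [sum_comm]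
  exact sum_congr rfl fun a _ => sum_congr rfl fun b _ => by ring

theorem Ex_congr {f g : V → ℝ} (h : ∀ v, f v = g v) : Ex w f = Ex w g := by
  rw [funext h]

theorem Ex_single [DecidableEq V] (v : V) (f : V → ℝ) :
    Ex w (fun x => (if x = v then 1 else 0) * f x) = w v * f v := by
  simp [Ex]

theorem exists_pos_of_Ex_pos (hw : ∀ v, 0 ≤ w v) {f : V → ℝ} (h : 0 < Ex w f) : ∃ v, 0 < f v := by
  by_contra hc
  push Not at hc
  have := Ex_mono hw hc
  rw [Ex_zero] at this
  linarith

end ex

/-- Integer dot product of two lists. -/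
def dot : List ℤ → List ℤ → ℤ
  | a :: l, b :: m => Int.add (Int.mul a b) (dot l m)
  | _, _ => 0

theorem dot_eq (a b : List ℤ) : dot a b = a.headD 0 * b.headD 0 + dot a.tail b.tail := by
  cases a <;> cases b <;> simp [dot]

theorem dot_psd_aux {ι : Type} [Fintype ι] (c : ι → ℝ) (n : ℕ) :
    ∀ u : ι → List ℤ, (∀ i, (u i).length ≤ n) →
      0 ≤ ∑ i, ∑ j, c i * c j * (dot (u i) (u j) : ℝ) := by
  induction n with
  | zero =>
    intro u hu
    have : ∀ i, u i = [] := fun i => List.length_eq_zero_iff.1 (Nat.le_zero.1 (hu i))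
    simp [this, dot]
  | succ n ih =>
    intro u hu
    have h1 := ih (fun i => (u i).tail) (fun i => by have := hu i; simp; omega)
    have h2 : ∑ i, ∑ j, c i * c j * (dot (u i) (u j) : ℝ) =
        (∑ i, c i * ((u i).headD 0 : ℤ)) ^ 2 +
          ∑ i, ∑ j, c i * c j * (dot (u i).tail (u j).tail : ℝ) := by
      rw [sq, sum_mul_sum, ← sum_add_distrib]
      refine sum_congr rfl fun i _ => ?_
      rw [← sum_add_distrib]
      refine sum_congr rfl fun j _ => ?_
      rw [dot_eq]; push_cast; ring
    rw [h2]; positivity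

theorem dot_psd {ι : Type} [Fintype ι] (c : ι → ℝ) (u : ι → List ℤ) :
    0 ≤ ∑ i, ∑ j, c i * c j * (dot (u i) (u j) : ℝ) :=
  dot_psd_aux c (∑ i, (u i).length) u fun i =>
    single_le_sum (f := fun i => (u i).length) (fun _ _ => Nat.zero_le _) (mem_univ i)

theorem sos1 (w : V → ℝ) (u : V → List ℤ) :
    0 ≤ Ex w fun a => Ex w fun b => (dot (u a) (u b) : ℝ) := by
  have := dot_psd w u
  simp only [Ex, mul_sum]
  convert this using 3
  ring

theorem sos2 (w : V → ℝ) (u : V → V → List ℤ) :
    0 ≤ Ex w fun a => Ex w fun b => Ex w fun c => Ex w fun d => (dot (u a b) (u c d) : ℝ) := by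
  have := dot_psd (fun x : V × V => w x.1 * w x.2) (fun x => u x.1 x.2)
  simp only [Fintype.sum_prod_type] at this
  simp only [Ex, mul_sum]
  convert this using 5
  ring

/-- Indicator of an edge as a natural number. -/
def eN (E : V → V → V → Bool) (a b c : V) : ℕ := (E a b c).toNat

/-- The trilinear form of the weighted 3-graph. -/
def Tri (w : V → ℝ) (E : V → V → V → Bool) (f g h : V → ℝ) : ℝ :=
  Ex w fun a => Ex w fun b => Ex w fun c => f a * g b * h c * (eN E a b c : ℝ)

/-- The bilinear form of the link of a vertex. -/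
def Lk (w : V → ℝ) (E : V → V → V → Bool) (v : V) (g h : V → ℝ) : ℝ :=
  Ex w fun b => Ex w fun c => g b * h c * (eN E v b c : ℝ)

/-- A 3-graph without tight closed walk of length five. -/
structure Free (E : V → V → V → Bool) : Prop where
  s1 : ∀ a b c, E a b c = E b a c
  s2 : ∀ a b c, E a b c = E a c b
  irr : ∀ a c, E a a c = false
  free : ∀ a b c d e, E a b c = true → E b c d = true → E c d e = true → E d e a = true →
    E e a b = true → False

/-- An optimal positive weighting with value `p`. -/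
structure Good (w : V → ℝ) (E : V → V → V → Bool) (p : ℝ) : Prop extends Free E where
  pos : ∀ v, 0 < w v
  tot : ∑ v, w v = 1
  val : Tri w E (fun _ => 1) (fun _ => 1) (fun _ => 1) = p
  opt : ∀ g : V → ℝ, (∀ v, 0 ≤ g v) → Tri w E g g g ≤ p * Ex w g ^ 3

variable {w : V → ℝ} {E : V → V → V → Bool} {p : ℝ}

omit [Fintype V] in
theorem eN_le (a b c : V) : (eN E a b c : ℝ) ≤ 1 := by
  unfold eN; cases E a b c <;> simp

omit [Fintype V] in
theorem eN_nonneg (a b c : V) : (0 : ℝ) ≤ (eN E a b c : ℝ) := Nat.cast_nonneg _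

theorem Tri_add1 (f f' g h : V → ℝ) :
    Tri w E (fun v => f v + f' v) g h = Tri w E f g h + Tri w E f' g h := by
  simp only [Tri, ← Ex_add]
  exact Ex_congr fun a => Ex_congr fun b => Ex_congr fun c => by ring

theorem Tri_smul1 (t : ℝ) (f g h : V → ℝ) :
    Tri w E (fun v => t * f v) g h = t * Tri w E f g h := by
  simp only [Tri, ← Ex_mul_left]
  exact Ex_congr fun a => Ex_congr fun b => Ex_congr fun c => by ring

theorem Free.tri12 (hE : Free E) (f g h : V → ℝ) : Tri w E f g h = Tri w E g f h := by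
  unfold Tri
  rw [Ex_comm]
  exact Ex_congr fun a => Ex_congr fun b => Ex_congr fun c => by
    simp only [eN, hE.s1 a b c]; ring

theorem Free.tri23 (hE : Free E) (f g h : V → ℝ) : Tri w E f g h = Tri w E f h g := by
  unfold Tri
  refine Ex_congr fun a => ?_
  rw [Ex_comm]
  exact Ex_congr fun b => Ex_congr fun c => by
    simp only [eN, hE.s2 a b c]; ring

theorem Free.lk_comm (hE : Free E) (v : V) (g h : V → ℝ) : Lk w E v g h = Lk w E v h g := by
  unfold Lk
  rw [Ex_comm]
  exact Ex_congr fun b => Ex_congr fun c => by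
    simp only [eN, hE.s2 v b c]; ring

theorem Tri_single [DecidableEq V] (v : V) (g h : V → ℝ) :
    Tri w E (fun x => if x = v then 1 else 0) g h = w v * Lk w E v g h := by
  rw [← Ex_single (w := w) v (fun a => Lk w E a g h)]
  simp only [Tri, Lk, ← Ex_mul_left]
  exact Ex_congr fun a => Ex_congr fun b => Ex_congr fun c => by ring

theorem Free.lk_single [DecidableEq V] (hE : Free E) (v : V) (h : V → ℝ) :
    Lk w E v (fun x => if x = v then 1 else 0) h = 0 := by
  have : Lk w E v (fun x => if x = v then 1 else 0) h =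
      Ex w (fun x => (if x = v then 1 else 0) * Ex w fun c => h c * (eN E v x c : ℝ)) := by
    simp only [Lk, ← Ex_mul_left]
    exact Ex_congr fun b => Ex_congr fun c => by ring
  rw [this, Ex_single]
  simp [eN, hE.irr, Ex_zero]

/-- Changing the three arguments at one vertex. -/
theorem Free.tri_shift [DecidableEq V] (hE : Free E) (v : V) (f g h : V → ℝ) (r s t : ℝ) :
    Tri w E (fun x => f x + r * if x = v then 1 else 0) (fun x => g x + s * if x = v then 1 else 0)
      (fun x => h x + t * if x = v then 1 else 0) =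
      Tri w E f g h + w v * (r * Lk w E v g h + s * Lk w E v f h + t * Lk w E v f g) := by
  set d : V → ℝ := fun x => if x = v then 1 else 0 with hd
  have e1 : ∀ f g h : V → ℝ, ∀ r : ℝ, Tri w E (fun x => f x + r * d x) g h =
      Tri w E f g h + r * Tri w E d g h := fun f g h r => by
    rw [Tri_add1 f (fun x => r * d x), Tri_smul1]
  have e2 : ∀ f g h : V → ℝ, ∀ r : ℝ, Tri w E g (fun x => f x + r * d x) h =
      Tri w E g f h + r * Tri w E d g h := fun f g h r => by
    rw [hE.tri12, e1, hE.tri12 f g]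
  have e3 : ∀ f g h : V → ℝ, ∀ r : ℝ, Tri w E g h (fun x => f x + r * d x) =
      Tri w E g h f + r * Tri w E d g h := fun f g h r => by
    rw [hE.tri23, e2, hE.tri23 g f]
  have z1 : ∀ h : V → ℝ, Tri w E d d h = 0 := fun h => by
    rw [hd, Tri_single, hE.lk_single, mul_zero]
  have s1 : ∀ g h : V → ℝ, Tri w E d g h = w v * Lk w E v g h := fun g h => Tri_single v g h
  show Tri w E (fun x => f x + r * d x) (fun x => g x + s * d x) (fun x => h x + t * d x) = _
  rw [e1, e2, e2, e3, e3, e3, z1, z1, z1, s1, s1, s1]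
  ring

theorem Good.nn (hG : Good w E p) (v : V) : 0 ≤ w v := (hG.pos v).le

theorem Good.p_nonneg (hG : Good w E p) : 0 ≤ p := by
  rw [← hG.val]
  exact Ex_nonneg hG.nn fun a => Ex_nonneg hG.nn fun b => Ex_nonneg hG.nn fun c => by
    simp

/-- Every vertex of an optimal positive weighting has degree `p`. -/
theorem Good.reg (hG : Good w E p) (v : V) : Lk w E v (fun _ => 1) (fun _ => 1) = p := by
  classical
  have hle : ∀ v, Lk w E v (fun _ => 1) (fun _ => 1) ≤ p := by
    intro v
    refine le_of_forall_pos_le_add fun ε hε => ?_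
    have hp := hG.p_nonneg
    have hv := hG.pos v
    set s : ℝ := min 1 (ε / (2 * p + 1)) with hs
    have hs0 : 0 < s := lt_min one_pos (by positivity)
    have hs1 : s ≤ 1 := min_le_left _ _
    have hs2 : s * (2 * p + 1) ≤ ε := by
      have : s ≤ ε / (2 * p + 1) := min_le_right _ _
      rwa [le_div_iff₀ (by positivity)] at this
    have h := hG.opt (fun x => 1 + s / w v * if x = v then 1 else 0) (fun x => by
      split_ifs <;> positivity)
    rw [hG.toFree.tri_shift, hG.val] at h
    have h2 : Ex w (fun x => 1 + s / w v * if x = v then 1 else 0) = 1 + s := by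
      rw [Ex_add, Ex_const hG.tot, Ex_mul_left]
      have := Ex_single (w := w) v (fun _ => 1)
      simp only [mul_one] at this
      rw [this]; field_simp
    rw [h2] at h
    set L := Lk w E v (fun _ => 1) (fun _ => 1)
    have h3 : w v * (s / w v * L + s / w v * L + s / w v * L) = 3 * s * L := by
      field_simp; ring
    rw [h3] at h
    have h4 : s * (3 * L) ≤ s * (3 * p + 3 * p * s + p * s ^ 2) := by nlinarith
    have h5 := le_of_mul_le_mul_left h4 hs0
    have h6 : p * s ^ 2 ≤ p * s := by
      have : s ^ 2 ≤ s := by nlinarith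
      exact mul_le_mul_of_nonneg_left this hp
    nlinarith [mul_nonneg hp hs0.le]
  have hsum : ∑ x, w x * (p - Lk w E x (fun _ => 1) (fun _ => 1)) = 0 := by
    have h1 : Ex w (fun x => p - Lk w E x (fun _ => 1) (fun _ => 1)) = 0 := by
      rw [Ex_sub, Ex_const hG.tot]
      have : Ex w (fun x => Lk w E x (fun _ => 1) (fun _ => 1)) = p := by
        rw [← hG.val]; simp [Tri, Lk]
      rw [this, sub_self]
    exact h1
  rw [sum_eq_zero_iff_of_nonneg (fun x _ => mul_nonneg (hG.nn x) (sub_nonneg.2 (hle x)))] at hsum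
  have := hsum v (mem_univ v)
  rcases mul_eq_zero.1 this with h | h
  · exact absurd h (hG.pos v).ne'
  · linarith

end Pool.Agent.P.MP_fc6a29_co
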