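import Pool.Agent.P.MP_fc6a29_co.Upper

/-! The upper bound for 3-graphs without tight 5-cycle. -/

namespace Pool.Agent.P.MP_fc6a29_co

open Finset

variable {V : Type} [Fintype V] {E : V → V → V → Bool}

theorem Ex_supp {w : V → ℝ} (hw : ∀ v, 0 ≤ w v) [DecidablePred fun v => 0 < w v] (f : V → ℝ) :
    Ex (fun v : {v // 0 < w v} => w v.1) (fun v => f v.1) = Ex w f := by
  unfold Ex
  rw [← Finset.sum_subtype (p := fun v => 0 < w v) (univ.filter fun v => 0 < w v) (by simp)
    (fun v => w v * f v), sum_filter]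
  refine sum_congr rfl fun v _ => ?_
  split_ifs with h
  · rfl
  · rw [le_antisymm (not_lt.1 h) (hw v), zero_mul]

theorem Tri_supp {w : V → ℝ} (hw : ∀ v, 0 ≤ w v) [DecidablePred fun v => 0 < w v] (g : V → ℝ) :
    Tri (fun v : {v // 0 < w v} => w v.1) (fun a b c => E a.1 b.1 c.1) (fun v => g v.1)
      (fun v => g v.1) (fun v => g v.1) = Tri w E g g g := by
  unfold Tri
  rw [← Ex_supp hw]
  refine Ex_congr fun a => ?_
  rw [← Ex_supp hw]
  refine Ex_congr fun b => ?_
  rw [← Ex_supp hw]
  rfl

theorem Tri_weight (w g : V → ℝ) :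
    Tri w E g g g = Tri (fun v => w v * g v) E (fun _ => 1) (fun _ => 1) (fun _ => 1) := by
  simp only [Tri, Ex, mul_sum]
  exact sum_congr rfl fun a _ => sum_congr rfl fun b _ => sum_congr rfl fun c _ => by ring

theorem Tri_scale (w : V → ℝ) (t : ℝ) :
    Tri (fun v => t * w v) E (fun _ => 1) (fun _ => 1) (fun _ => 1) =
      t ^ 3 * Tri w E (fun _ => 1) (fun _ => 1) (fun _ => 1) := by
  simp only [Tri, Ex, mul_sum]
  exact sum_congr rfl fun a _ => sum_congr rfl fun b _ => sum_congr rfl fun c _ => by ring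

theorem Free.lagr [Nonempty V] (hE : Free E) (u : V → ℝ) (hu : ∀ v, 0 ≤ u v) :
    Tri u E (fun _ => 1) (fun _ => 1) (fun _ => 1) ≤ (2 * √3 - 3) * (∑ v, u v) ^ 3 := by
  classical
  set F : (V → ℝ) → ℝ := fun u => Tri u E (fun _ => 1) (fun _ => 1) (fun _ => 1) with hF
  have hc : Continuous F := by
    simp only [hF, Tri, Ex]
    fun_prop
  obtain ⟨w, hw, hm⟩ := (isCompact_stdSimplex ℝ V).exists_isMaxOn
    ⟨_, single_mem_stdSimplex ℝ (Classical.arbitrary V)⟩ hc.continuousOn
  have key : ∀ u : V → ℝ, (∀ v, 0 ≤ u v) → F u ≤ F w * (∑ v, u v) ^ 3 := by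
    intro u hu
    have h0 : 0 ≤ ∑ v, u v := sum_nonneg fun v _ => hu v
    rcases h0.eq_or_lt with h | h
    · have hz : u = fun _ => 0 := funext fun v =>
        (sum_eq_zero_iff_of_nonneg fun v _ => hu v).1 h.symm v (mem_univ v)
      rw [← h, hz]
      simp [hF, Tri, Ex]
    · set S := ∑ v, u v with hS
      have h1 : (fun v => S⁻¹ * u v) ∈ stdSimplex ℝ V :=
        ⟨fun v => mul_nonneg (inv_nonneg.2 h0) (hu v), by
          rw [← mul_sum, inv_mul_cancel₀ h.ne']⟩
      have h2 : F (fun v => S⁻¹ * u v) ≤ F w := hm h1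
      simp only [hF, Tri_scale] at h2 ⊢
      rw [inv_pow, inv_mul_le_iff₀ (by positivity)] at h2
      linarith
  have hG : Good (fun v : {v // 0 < w v} => w v.1) (fun a b c => E a.1 b.1 c.1) (F w) :=
    { s1 := fun a b c => hE.s1 _ _ _
      s2 := fun a b c => hE.s2 _ _ _
      irr := fun a c => hE.irr _ _
      free := fun a b c d e => hE.free _ _ _ _ _
      pos := fun v => v.2
      tot := by
        have := Ex_supp hw.1 (fun _ => 1)
        simp only [Ex, mul_one] at this
        rw [this, hw.2]
      val := Tri_supp hw.1 (fun _ => 1)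
      opt := fun g hg => by
        set g' : V → ℝ := fun v => if h : 0 < w v then g ⟨v, h⟩ else 0 with hg'
        have e : g = fun v => g' v.1 := funext fun v => by simp [hg', v.2]
        have g0 : ∀ v, 0 ≤ g' v := fun v => by
          simp only [hg']
          split_ifs
          · exact hg _
          · exact le_rfl
        rw [e, Tri_supp hw.1, Ex_supp hw.1, Tri_weight]
        exact key _ fun v => mul_nonneg (hw.1 v) (g0 v) }
  exact (key u hu).trans (mul_le_mul_of_nonneg_right hG.upper
    (pow_nonneg (sum_nonneg fun v _ => hu v) 3))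

theorem inj5 {α : Type} {a b c d e : α} (h1 : a ≠ b) (h2 : a ≠ c) (h3 : d ≠ a) (h4 : e ≠ a)
    (h5 : b ≠ c) (h6 : b ≠ d) (h7 : e ≠ b) (h8 : c ≠ d) (h9 : c ≠ e) (h10 : d ≠ e) :
    Function.Injective ![a, b, c, d, e] := by
  intro i j hij
  fin_cases i <;> fin_cases j <;> first | rfl | exact absurd hij (by assumption) | exact absurd hij.symm (by assumption)

theorem upper_bound {n : ℕ} (hn : 0 < n) (H : Finset (Finset (Fin n))) (h3 : ∀ e ∈ H, e.card = 3)
    (h5 : ¬ ∃ f : Fin 5 → Fin n, Function.Injective f ∧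
      ∀ i : Fin 5, ({f i, f (i + 1), f (i + 2)} : Finset (Fin n)) ∈ H) :
    6 * (H.card : ℝ) ≤ (2 * √3 - 3) * (n : ℝ) ^ 3 := by
  have : Nonempty (Fin n) := ⟨⟨0, hn⟩⟩
  set E : Fin n → Fin n → Fin n → Bool := fun a b c => decide ({a, b, c} ∈ H) with hE
  have dist : ∀ a b c : Fin n, ({a, b, c} : Finset (Fin n)) ∈ H → a ≠ b ∧ a ≠ c ∧ b ≠ c := by
    intro a b c h
    have h1 := h3 _ h
    refine ⟨?_, ?_, ?_⟩ <;> rintro rfl
    · have := card_le_two (a := a) (b := c)
      simp only [mem_insert, true_or, insert_eq_of_mem] at h1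
      omega
    · have := card_le_two (a := a) (b := b)
      rw [pair_comm b a] at h1
      simp only [mem_insert, true_or, insert_eq_of_mem] at h1
      omega
    · have := card_le_two (a := a) (b := b)
      simp only [mem_singleton, insert_eq_of_mem] at h1
      omega
  have hF : Free E :=
    { s1 := fun a b c => by simp only [hE, insert_comm a b]
      s2 := fun a b c => by simp only [hE, pair_comm b c]
      irr := fun a c => by
        simp only [hE, decide_eq_false_iff_not]
        exact fun h => (dist _ _ _ h).1 rfl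
      free := fun a b c d e h1 h2 h3 h4 h6 => by
        simp only [hE, decide_eq_true_eq] at h1 h2 h3 h4 h6
        have d1 := dist _ _ _ h1
        have d2 := dist _ _ _ h2
        have d3 := dist _ _ _ h3
        have d4 := dist _ _ _ h4
        have d5 := dist _ _ _ h6
        refine h5 ⟨![a, b, c, d, e], inj5 d1.1 d1.2.1 d4.2.1 d4.2.2 d1.2.2 d2.2.1 d5.2.1 d2.2.2
          d3.2.1 d3.2.2, fun i => ?_⟩
        fin_cases i
        exacts [h1, h2, h3, h4, h6] }
  have h := hF.lagr (fun _ => 1) (fun _ => zero_le_one)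
  simp only [sum_const, card_univ, Fintype.card_fin, nsmul_eq_mul, mul_one] at h
  refine le_trans ?_ h
  have hc := mul_card_image_le_card_of_maps_to
    (s := univ.filter fun q : Fin n × Fin n × Fin n => ({q.1, q.2.1, q.2.2} : Finset (Fin n)) ∈ H)
    (t := H) (f := fun q => {q.1, q.2.1, q.2.2}) (fun q hq => (mem_filter.1 hq).2) 6
    (fun e he => by
      obtain ⟨x, y, z, hxy, hxz, hyz, rfl⟩ := card_eq_three.1 (h3 e he)
      have hs : ({(x, y, z), (x, z, y), (y, x, z), (y, z, x), (z, x, y), (z, y, x)} :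
          Finset (Fin n × Fin n × Fin n)).card = 6 := by
        rw [card_insert_of_notMem, card_insert_of_notMem, card_insert_of_notMem,
          card_insert_of_notMem, card_insert_of_notMem, card_singleton] <;>
          simp [hxy, hxz, hyz, hxy.symm, hxz.symm, hyz.symm]
      rw [← hs]
      refine card_le_card fun q hq => ?_
      have hq2 : ({q.1, q.2.1, q.2.2} : Finset (Fin n)) = {x, y, z} := by
        simp only [mem_insert, mem_singleton] at hq
        rcases hq with rfl | rfl | rfl | rfl | rfl | rfl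
        · rfl
        · exact congrArg _ (pair_comm _ _)
        · exact insert_comm _ _ _
        · exact (congrArg _ (pair_comm _ _)).trans (insert_comm _ _ _)
        · exact (insert_comm _ _ _).trans (congrArg _ (pair_comm _ _))
        · exact (congrArg _ (pair_comm _ _)).trans ((insert_comm _ _ _).trans
            (congrArg _ (pair_comm _ _))) |>.trans (by rw [pair_comm])
      simp only [mem_filter, mem_univ, hq2, he, and_self])
  have h2 : Tri (fun _ => 1) E (fun _ => 1) (fun _ => 1) (fun _ => 1) =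
      ((univ.filter fun q : Fin n × Fin n × Fin n =>
        ({q.1, q.2.1, q.2.2} : Finset (Fin n)) ∈ H).card : ℝ) := by
    rw [card_filter]
    push_cast
    simp only [Tri, Ex, one_mul, Fintype.sum_prod_type, eN, hE]
    refine sum_congr rfl fun a _ => sum_congr rfl fun b _ => sum_congr rfl fun c _ => ?_
    split_ifs with g <;> simp [g]
  rw [h2]
  exact_mod_cast hc

end Pool.Agent.P.MP_fc6a29_co
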