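import Pool.Agent.P.MP_fc6a29_co.Count2
import Pool.Agent.P.MP_fc6a29_co.Opt

/-! Families of triples and Boolean edge functions; the two extremal functions. -/

namespace Pool.Agent.P.MP_fc6a29_co

open Finset

/-- `H` contains no tight 5-cycle. -/
def C5Free {n : ℕ} (H : Finset (Finset (Fin n))) : Prop :=
  ¬ ∃ f : Fin 5 → Fin n, Function.Injective f ∧
    ∀ i : Fin 5, ({f i, f (i + 1), f (i + 2)} : Finset (Fin n)) ∈ H

/-- Any two different members of `F` share at most one vertex. -/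
def Linear {n : ℕ} (F : Finset (Finset (Fin n))) : Prop :=
  ∀ e ∈ F, ∀ f ∈ F, e ≠ f → (e ∩ f).card ≤ 1

/-- The Turán number of the tight 5-cycle: the largest number of triples on `n` vertices
without tight 5-cycle. -/
noncomputable def exC5 (n : ℕ) : ℕ :=
  sSup {m : ℕ | ∃ H : Finset (Finset (Fin n)), (∀ e ∈ H, e.card = 3) ∧ C5Free H ∧ H.card = m}

/-- The packing number: the largest number of triples on `n` vertices any two of which share at
most one vertex. -/
noncomputable def pack (n : ℕ) : ℕ :=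
  sSup {m : ℕ | ∃ F : Finset (Finset (Fin n)), (∀ e ∈ F, e.card = 3) ∧ Linear F ∧ F.card = m}

theorem le_exC5 {n : ℕ} {H : Finset (Finset (Fin n))} (h3 : ∀ e ∈ H, e.card = 3) (h : C5Free H) :
    H.card ≤ exC5 n :=
  le_csSup ⟨Fintype.card (Finset (Fin n)), by
    rintro m ⟨H, -, -, rfl⟩
    exact card_le_univ H⟩ ⟨H, h3, h, rfl⟩

theorem le_pack {n : ℕ} {H : Finset (Finset (Fin n))} (h3 : ∀ e ∈ H, e.card = 3) (h : Linear H) :
    H.card ≤ pack n :=
  le_csSup ⟨Fintype.card (Finset (Fin n)), by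
    rintro m ⟨H, -, -, rfl⟩
    exact card_le_univ H⟩ ⟨H, h3, h, rfl⟩

theorem exists_exC5 (n : ℕ) :
    ∃ H : Finset (Finset (Fin n)), (∀ e ∈ H, e.card = 3) ∧ C5Free H ∧ H.card = exC5 n :=
  Nat.sSup_mem (s := {m : ℕ | ∃ H : Finset (Finset (Fin n)),
    (∀ e ∈ H, e.card = 3) ∧ C5Free H ∧ H.card = m}) ⟨0, ∅, by simp, by simp [C5Free], rfl⟩
    ⟨Fintype.card (Finset (Fin n)), by
      rintro m ⟨H, -, -, rfl⟩
      exact card_le_univ H⟩

theorem exists_pack (n : ℕ) :
    ∃ H : Finset (Finset (Fin n)), (∀ e ∈ H, e.card = 3) ∧ Linear H ∧ H.card = pack n :=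
  Nat.sSup_mem (s := {m : ℕ | ∃ H : Finset (Finset (Fin n)),
    (∀ e ∈ H, e.card = 3) ∧ Linear H ∧ H.card = m}) ⟨0, ∅, by simp, by simp [Linear], rfl⟩
    ⟨Fintype.card (Finset (Fin n)), by
      rintro m ⟨H, -, -, rfl⟩
      exact card_le_univ H⟩

section fam

variable {V : Type} [DecidableEq V]

theorem six_of_eq {a b c x y z : V} (h : ({a, b, c} : Finset V) = {x, y, z}) (h1 : x ≠ y)
    (h2 : x ≠ z) (h3 : y ≠ z) :
    (a, b, c) ∈ ({(x, y, z), (x, z, y), (y, x, z), (y, z, x), (z, x, y), (z, y, x)} :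
      Finset (V × V × V)) := by
  have ha : a ∈ ({x, y, z} : Finset V) := h ▸ by simp
  have hb : b ∈ ({x, y, z} : Finset V) := h ▸ by simp
  have hc : c ∈ ({x, y, z} : Finset V) := h ▸ by simp
  have hx : x ∈ ({a, b, c} : Finset V) := h ▸ by simp
  have hy : y ∈ ({a, b, c} : Finset V) := h ▸ by simp
  have hz : z ∈ ({a, b, c} : Finset V) := h ▸ by simp
  clear h
  simp only [mem_insert, mem_singleton] at ha hb hc hx hy hz
  have g1 := h1.symm
  have g2 := h2.symm
  have g3 := h3.symm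
  rcases ha with rfl | rfl | rfl <;> rcases hb with rfl | rfl | rfl <;>
    rcases hc with rfl | rfl | rfl <;> simp_all

theorem dist3 {a b c : V} (h1 : ({a, b, c} : Finset V).card = 3) : a ≠ b ∧ a ≠ c ∧ b ≠ c := by
  refine ⟨?_, ?_, ?_⟩ <;> rintro rfl
  · have := card_le_two (a := a) (b := c)
    simp only [mem_insert, true_or, insert_eq_of_mem] at h1
    omega
  · have := card_le_two (a := a) (b := b)
    rw [pair_comm b a] at h1
    simp only [mem_insert, true_or, insert_eq_of_mem] at h1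
    omega
  · have := card_le_two (a := a) (b := b)
    simp only [mem_singleton, insert_eq_of_mem] at h1
    omega

/-- The edge function of a family. -/
def ef (H : Finset (Finset V)) (a b c : V) : Bool := decide ({a, b, c} ∈ H)

theorem ef_iff {H : Finset (Finset V)} {a b c : V} : ef H a b c = true ↔ {a, b, c} ∈ H :=
  decide_eq_true_iff

theorem ef_s1 (H : Finset (Finset V)) (a b c : V) : ef H a b c = ef H b a c := by
  simp only [ef, insert_comm a b]

theorem ef_s2 (H : Finset (Finset V)) (a b c : V) : ef H a b c = ef H a c b := by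
  simp only [ef, pair_comm b c]

theorem ef_irr {H : Finset (Finset V)} (h3 : ∀ e ∈ H, e.card = 3) (a c : V) :
    ef H a a c = false := by
  simp only [ef, decide_eq_false_iff_not]
  exact fun h => (dist3 (h3 _ h)).1 rfl

theorem S3_ef {H : Finset (Finset V)} (h3 : ∀ e ∈ H, e.card = 3) (A : Finset V) :
    S3 (ef H) A = 6 * ((H.filter (· ⊆ A)).card : ℝ) := by
  set T := (A ×ˢ A ×ˢ A).filter fun q : V × V × V => ({q.1, q.2.1, q.2.2} : Finset V) ∈ H with hT
  have h1 : S3 (ef H) A = (T.card : ℝ) := by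
    rw [hT, card_filter]
    push_cast
    simp only [S3, sum_product, eN, ef]
    refine sum_congr rfl fun a _ => sum_congr rfl fun b _ => sum_congr rfl fun c _ => ?_
    split_ifs with g <;> simp [g]
  have h2 := card_eq_sum_card_fiberwise (s := T) (t := H.filter (· ⊆ A))
    (f := fun q => {q.1, q.2.1, q.2.2}) (fun q hq => by
      obtain ⟨g1, g2⟩ := mem_filter.1 (mem_coe.1 hq)
      simp only [mem_product] at g1
      refine mem_coe.2 (mem_filter.2 ⟨g2, ?_⟩)
      simp [insert_subset_iff, g1.1, g1.2.1, g1.2.2])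
  have h4 : ∀ e ∈ H.filter (· ⊆ A),
      (T.filter fun q => ({q.1, q.2.1, q.2.2} : Finset V) = e).card = 6 := by
    intro e he
    obtain ⟨he, hA⟩ := mem_filter.1 he
    obtain ⟨x, y, z, hxy, hxz, hyz, rfl⟩ := card_eq_three.1 (h3 e he)
    have hs : ({(x, y, z), (x, z, y), (y, x, z), (y, z, x), (z, x, y), (z, y, x)} :
        Finset (V × V × V)).card = 6 := by
      rw [card_insert_of_notMem, card_insert_of_notMem, card_insert_of_notMem,
        card_insert_of_notMem, card_insert_of_notMem, card_singleton] <;>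
        simp [hxy, hxz, hyz, hxy.symm, hxz.symm, hyz.symm]
    rw [← hs]
    congr 1
    ext q
    refine ⟨fun hq => six_of_eq (mem_filter.1 hq).2 hxy hxz hyz, fun hq => ?_⟩
    have hq2 : ({q.1, q.2.1, q.2.2} : Finset V) = {x, y, z} := by
      simp only [mem_insert, mem_singleton] at hq
      rcases hq with rfl | rfl | rfl | rfl | rfl | rfl <;> ext t <;>
        simp only [mem_insert, mem_singleton] <;> tauto
    have hs2 : ({q.1, q.2.1, q.2.2} : Finset V) ⊆ A := hq2 ▸ hA
    simp only [insert_subset_iff, singleton_subset_iff] at hs2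
    simp only [hT, mem_filter, mem_product, hq2, he, hs2, and_self]
  rw [h1, h2, sum_congr rfl h4, sum_const, smul_eq_mul]
  push_cast
  ring

theorem S3_ef_univ [Fintype V] {H : Finset (Finset V)} (h3 : ∀ e ∈ H, e.card = 3) :
    S3 (ef H) univ = 6 * (H.card : ℝ) := by
  rw [S3_ef h3, filter_true_of_mem fun e _ => subset_univ e]

theorem exists_fam [Fintype V] {E : V → V → V → Bool} (s1 : ∀ a b c, E a b c = E b a c)
    (s2 : ∀ a b c, E a b c = E a c b) (irr : ∀ a c, E a a c = false) :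
    ∃ H : Finset (Finset V), (∀ e ∈ H, e.card = 3) ∧ ef H = E := by
  have dist : ∀ a b c, E a b c = true → a ≠ b ∧ a ≠ c ∧ b ≠ c := fun a b c h => by
    refine ⟨?_, ?_, ?_⟩ <;> rintro rfl
    · rw [irr] at h; exact absurd h (by simp)
    · rw [s2, irr] at h; exact absurd h (by simp)
    · rw [s1, s2, irr] at h; exact absurd h (by simp)
  refine ⟨univ.filter fun s => ∃ a b c, s = {a, b, c} ∧ E a b c = true, fun e he => ?_, ?_⟩
  · obtain ⟨a, b, c, rfl, h⟩ := (mem_filter.1 he).2
    obtain ⟨d1, d2, d3⟩ := dist a b c h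
    exact card_eq_three.2 ⟨a, b, c, d1, d2, d3, rfl⟩
  · funext a b c
    rw [Bool.eq_iff_iff, ef_iff, mem_filter]
    refine ⟨fun h => ?_, fun h => ⟨mem_univ _, a, b, c, rfl, h⟩⟩
    obtain ⟨x, y, z, e, h⟩ := h.2
    obtain ⟨d1, d2, d3⟩ := dist x y z h
    have := six_of_eq e d1 d2 d3
    simp only [mem_insert, mem_singleton, Prod.mk.injEq] at this
    rcases this with ⟨rfl, rfl, rfl⟩ | ⟨rfl, rfl, rfl⟩ | ⟨rfl, rfl, rfl⟩ | ⟨rfl, rfl, rfl⟩ |
      ⟨rfl, rfl, rfl⟩ | ⟨rfl, rfl, rfl⟩
    · exact h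
    · rw [s2]; exact h
    · rw [s1]; exact h
    · rw [s2, s1]; exact h
    · rw [s1, s2]; exact h
    · rw [s1, s2, s1]; exact h

theorem third {e : Finset V} (h : e.card = 3) {u v : V} (hu : u ∈ e) (hv : v ∈ e) (huv : u ≠ v) :
    ∃ x, e = {x, u, v} := by
  have hs : ({u, v} : Finset V) ⊆ e := by simp [insert_subset_iff, hu, hv]
  have hc : (e \ {u, v}).card = 1 := by rw [card_sdiff_of_subset hs, h, card_pair huv]
  obtain ⟨x, hx⟩ := card_eq_one.1 hc
  exact ⟨x, by rw [← sdiff_union_of_subset hs, hx]; rfl⟩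

end fam

theorem free_ef {n : ℕ} {H : Finset (Finset (Fin n))} (h3 : ∀ e ∈ H, e.card = 3) (h5 : C5Free H) :
    Free (ef H) where
  s1 := ef_s1 H
  s2 := ef_s2 H
  irr := ef_irr h3
  free := fun a b c d e h1 h2 h4 h6 h7 => by
    rw [ef_iff] at h1 h2 h4 h6 h7
    have d1 := dist3 (h3 _ h1)
    have d2 := dist3 (h3 _ h2)
    have d3 := dist3 (h3 _ h4)
    have d4 := dist3 (h3 _ h6)
    have d5 := dist3 (h3 _ h7)
    refine h5 ⟨![a, b, c, d, e], inj5 d1.1 d1.2.1 d4.2.1 d4.2.2 d1.2.2 d2.2.1 d5.2.1 d2.2.2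
      d3.2.1 d3.2.2, fun i => ?_⟩
    fin_cases i
    exacts [h1, h2, h4, h6, h7]

theorem lin_ef {n : ℕ} {H : Finset (Finset (Fin n))} (h3 : ∀ e ∈ H, e.card = 3)
    {A : Finset (Fin n)} (h : Linear (H.filter (· ⊆ A))) :
    Lin (fun a b c => ef (H.filter (· ⊆ A)) a b c) A where
  s1 := ef_s1 _
  s2 := ef_s2 _
  irr := ef_irr fun e he => h3 e (mem_filter.1 he).1
  lin := fun x _ y _ u v h1 h2 => by
    rw [ef_iff] at h1 h2
    have d1 := dist3 (h3 _ (mem_filter.1 h1).1)
    have d2 := dist3 (h3 _ (mem_filter.1 h2).1)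
    by_contra c
    have := h _ h1 _ h2 fun q => by
      have : x ∈ ({y, u, v} : Finset (Fin n)) := q ▸ by simp
      simp [c, d1.1, d1.2.1] at this
    have s : ({u, v} : Finset (Fin n)) ⊆ {x, u, v} ∩ {y, u, v} := by
      simp [insert_subset_iff]
    have := card_le_card s
    rw [card_pair d1.2.2] at this
    omega

variable {V : Type} {E F : V → V → V → Bool}

theorem sum_fin (A : Finset V) (f : V → ℝ) :
    ∑ i : Fin A.card, f (A.equivFin.symm i) = ∑ x ∈ A, f x := by
  rw [Equiv.sum_comp A.equivFin.symm (fun x : A => f x), sum_coe_sort]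

theorem S3_fin (E : V → V → V → Bool) (A : Finset V) :
    S3 (fun a b c : Fin A.card => E (A.equivFin.symm a) (A.equivFin.symm b) (A.equivFin.symm c))
      univ = S3 E A := by
  unfold S3
  rw [← sum_fin A]
  refine sum_congr rfl fun a _ => ?_
  rw [← sum_fin A]
  refine sum_congr rfl fun b _ => ?_
  rw [← sum_fin A]
  rfl

theorem Free.S3_le (hE : Free E) (A : Finset V) : S3 E A ≤ 6 * (exC5 A.card : ℝ) := by
  obtain ⟨H, h3, e⟩ := exists_fam (E := fun a b c : Fin A.card =>
    E (A.equivFin.symm a) (A.equivFin.symm b) (A.equivFin.symm c)) (fun _ _ _ => hE.s1 _ _ _)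
    (fun _ _ _ => hE.s2 _ _ _) (fun _ _ => hE.irr _ _)
  have h5 : C5Free H := by
    rintro ⟨f, -, hf⟩
    have g : ∀ a b c, ({a, b, c} : Finset (Fin A.card)) ∈ H →
        E (A.equivFin.symm a) (A.equivFin.symm b) (A.equivFin.symm c) = true := fun a b c h => by
      have := ef_iff.2 h
      rwa [e] at this
    exact hE.free _ _ _ _ _ (g _ _ _ (hf 0)) (g _ _ _ (hf 1)) (g _ _ _ (hf 2)) (g _ _ _ (hf 3))
      (g _ _ _ (hf 4))
  rw [← S3_fin, ← e, S3_ef_univ h3]
  have : (H.card : ℝ) ≤ exC5 A.card := by exact_mod_cast le_exC5 h3 h5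
  linarith

theorem Lin.S3_le {A : Finset V} (hF : Lin F A) : S3 F A ≤ 6 * (pack A.card : ℝ) := by
  obtain ⟨H, h3, e⟩ := exists_fam (E := fun a b c : Fin A.card =>
    F (A.equivFin.symm a) (A.equivFin.symm b) (A.equivFin.symm c)) (fun _ _ _ => hF.s1 _ _ _)
    (fun _ _ _ => hF.s2 _ _ _) (fun _ _ => hF.irr _ _)
  have h5 : Linear H := by
    intro s hs t ht hst
    by_contra c
    obtain ⟨u, hu, v, hv, huv⟩ := one_lt_card.1 (not_le.1 c)
    obtain ⟨x, rfl⟩ := third (h3 s hs) (mem_inter.1 hu).1 (mem_inter.1 hv).1 huv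
    obtain ⟨y, rfl⟩ := third (h3 t ht) (mem_inter.1 hu).2 (mem_inter.1 hv).2 huv
    have g1 := ef_iff.2 hs
    have g2 := ef_iff.2 ht
    rw [e] at g1 g2
    have := hF.lin _ (A.equivFin.symm x).2 _ (A.equivFin.symm y).2 _ _ g1 g2
    exact hst (by rw [A.equivFin.symm.injective (Subtype.ext this)])
  rw [← S3_fin, ← e, S3_ef_univ h3]
  have : (H.card : ℝ) ≤ pack A.card := by exact_mod_cast le_pack h3 h5
  linarith

theorem pack_lower (a : ℕ) (ha : 0 < a) : (a : ℝ) ^ 2 - 3 * a ≤ 6 * (pack a : ℝ) := by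
  have : NeZero a := ⟨ha.ne'⟩
  set F : ZMod a → ZMod a → ZMod a → Bool :=
    fun x y u => decide (x + y + u = 0 ∧ x ≠ y ∧ y ≠ u ∧ x ≠ u) with hF
  have hL : Lin F univ :=
    { s1 := fun x y u => by
        simp only [hF, decide_eq_decide, add_comm x y]; tauto
      s2 := fun x y u => by
        simp only [hF, decide_eq_decide, add_right_comm x y u]; tauto
      irr := fun x u => by simp [hF]
      lin := fun x _ y _ u v h1 h2 => by
        simp only [hF, decide_eq_true_eq] at h1 h2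
        linear_combination h1.1 - h2.1 }
  have h := hL.S3_le
  rw [card_univ, ZMod.card] at h
  refine le_trans ?_ h
  have p : ∀ x y : ZMod a, 1 - ind (x = y) - ind (-(2 * y) = x) - ind (-(2 * x) = y) ≤
      ∑ u, (eN F x y u : ℝ) := fun x y => by
    have i1 := ind_nonneg (x = y)
    have i2 := ind_nonneg (-(2 * y) = x)
    have i3 := ind_nonneg (-(2 * x) = y)
    have i0 : 0 ≤ ∑ u, (eN F x y u : ℝ) := sum_nonneg fun _ _ => eN_nonneg _ _ _
    by_cases c1 : x = y
    · rw [ind_pos c1]; linarith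
    · by_cases c2 : -(2 * y) = x
      · rw [ind_pos c2]; linarith
      · by_cases c3 : -(2 * x) = y
        · rw [ind_pos c3]; linarith
        · have q : F x y (-x - y) = true := by
            simp only [hF, decide_eq_true_eq]
            exact ⟨by ring, c1, fun d => c2 (by linear_combination -d),
              fun d => c3 (by linear_combination -d)⟩
          have := single_le_sum (f := fun u => (eN F x y u : ℝ)) (fun _ _ => eN_nonneg _ _ _)
            (mem_univ (-x - y))
          rw [eN_true q] at this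
          linarith
  have t := sum_le_sum fun x (_ : x ∈ univ) => sum_le_sum fun y (_ : y ∈ univ) => p x y
  simp only [sum_sub_distrib, sum_const, card_univ, ZMod.card, nsmul_eq_mul, mul_one] at t
  have e1 : ∑ x : ZMod a, ∑ y : ZMod a, ind (x = y) ≤ a := by
    simpa using sum_le_sum fun x (_ : x ∈ (univ : Finset (ZMod a))) => sum_ind_eq (A := univ) x
  have e2 : ∑ x : ZMod a, ∑ y : ZMod a, ind (-(2 * x) = y) ≤ a := by
    simpa using sum_le_sum fun x (_ : x ∈ (univ : Finset (ZMod a))) =>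
      sum_ind_eq (A := univ) (-(2 * x))
  have e3 : ∑ x : ZMod a, ∑ y : ZMod a, ind (-(2 * y) = x) ≤ a := by rw [sum_comm]; exact e2
  unfold S3
  nlinarith

end Pool.Agent.P.MP_fc6a29_co
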