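import Pool.Agent.P.MP_fc6a29_co.Data6

/-! Checking the tables. -/

namespace Pool.Agent.P.MP_fc6a29_co

open Finset Equiv

noncomputable section

theorem kf0 : allP (chk4 cs) 12 0 = true := by decide +kernel
theorem kf1 : allP (chk4 cs) 12 1 = true := by decide +kernel
theorem kf2 : allP (chk4 cs) 12 2 = true := by decide +kernel
theorem kf3 : allP (chk4 cs) 12 3 = true := by decide +kernel
theorem kf4 : allP (chk4 cs) 12 4 = true := by decide +kernel
theorem kf5 : allP (chk4 cs) 12 5 = true := by decide +kernel
theorem kf6 : allP (chk4 cs) 12 6 = true := by decide +kernel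
theorem kf7 : allP (chk4 cs) 12 7 = true := by decide +kernel

end

end Pool.Agent.P.MP_fc6a29_co
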