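import Pool.Agent.P.MP_fc6a29_co.Data6

/-! Checking the tables. -/

namespace Pool.Agent.P.MP_fc6a29_co

open Finset Equiv

noncomputable section

theorem kf8 : allP (chk4 cs) 12 8 = true := by decide +kernel
theorem kf9 : allP (chk4 cs) 12 9 = true := by decide +kernel
theorem kf10 : allP (chk4 cs) 12 10 = true := by decide +kernel
theorem kf11 : allP (chk4 cs) 12 11 = true := by decide +kernel
theorem kf12 : allP (chk4 cs) 12 12 = true := by decide +kernel
theorem kf13 : allP (chk4 cs) 12 13 = true := by decide +kernel
theorem kf14 : allP (chk4 cs) 12 14 = true := by decide +kernel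
theorem kf15 : allP (chk4 cs) 12 15 = true := by decide +kernel

end

end Pool.Agent.P.MP_fc6a29_co
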