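import Pool.Agent.P.MP_fc6a29_co.Data6

/-! Checking the listed 3-graphs. -/

namespace Pool.Agent.P.MP_fc6a29_co

open Finset Equiv

noncomputable section

theorem kg0 : allP (chk6 cs) 4 0 = true := by decide +kernel
theorem kg1 : allP (chk6 cs) 4 1 = true := by decide +kernel
theorem kg2 : allP (chk6 cs) 4 2 = true := by decide +kernel
theorem kg3 : allP (chk6 cs) 4 3 = true := by decide +kernel
theorem kg4 : allP (chk6 cs) 4 4 = true := by decide +kernel
theorem kg5 : allP (chk6 cs) 4 5 = true := by decide +kernel
theorem kg6 : allP (chk6 cs) 4 6 = true := by decide +kernel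
theorem kg7 : allP (chk6 cs) 4 7 = true := by decide +kernel
theorem kg8 : allP (chk6 cs) 4 8 = true := by decide +kernel
theorem kg9 : allP (chk6 cs) 4 9 = true := by decide +kernel
theorem kg10 : allP (chk6 cs) 4 10 = true := by decide +kernel
theorem kg11 : allP (chk6 cs) 4 11 = true := by decide +kernel
theorem kg12 : allP (chk6 cs) 4 12 = true := by decide +kernel
theorem kg13 : allP (chk6 cs) 4 13 = true := by decide +kernel

end

end Pool.Agent.P.MP_fc6a29_co
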