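import Pool.Agent.P.MP_fc6a29_co.Data6

/-! Checking the listed 3-graphs. -/

namespace Pool.Agent.P.MP_fc6a29_co

open Finset Equiv

noncomputable section

theorem kg14 : allP (chk6 cs) 4 14 = true := by decide +kernel
theorem kg15 : allP (chk6 cs) 4 15 = true := by decide +kernel
theorem kg16 : allP (chk6 cs) 4 16 = true := by decide +kernel
theorem kg17 : allP (chk6 cs) 4 17 = true := by decide +kernel
theorem kg18 : allP (chk6 cs) 4 18 = true := by decide +kernel
theorem kg19 : allP (chk6 cs) 4 19 = true := by decide +kernel
theorem kg20 : allP (chk6 cs) 4 20 = true := by decide +kernel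
theorem kg21 : allP (chk6 cs) 4 21 = true := by decide +kernel
theorem kg22 : allP (chk6 cs) 4 22 = true := by decide +kernel
theorem kg23 : allP (chk6 cs) 4 23 = true := by decide +kernel
theorem kg24 : allP (chk6 cs) 4 24 = true := by decide +kernel
theorem kg25 : allP (chk6 cs) 4 25 = true := by decide +kernel
theorem kg26 : allP (chk6 cs) 4 26 = true := by decide +kernel
theorem kg27 : allP (chk6 cs) 4 27 = true := by decide +kernel

end

end Pool.Agent.P.MP_fc6a29_co
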