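import Pool.Agent.P.MP_fc6a29_co.Data6

/-! Checking the listed 3-graphs. -/

namespace Pool.Agent.P.MP_fc6a29_co

open Finset Equiv

noncomputable section

theorem kg28 : allP (chk6 cs) 4 28 = true := by decide +kernel
theorem kg29 : allP (chk6 cs) 4 29 = true := by decide +kernel
theorem kg30 : allP (chk6 cs) 4 30 = true := by decide +kernel
theorem kg31 : allP (chk6 cs) 4 31 = true := by decide +kernel
theorem kg32 : allP (chk6 cs) 4 32 = true := by decide +kernel
theorem kg33 : allP (chk6 cs) 4 33 = true := by decide +kernel
theorem kg34 : allP (chk6 cs) 4 34 = true := by decide +kernel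
theorem kg35 : allP (chk6 cs) 4 35 = true := by decide +kernel
theorem kg36 : allP (chk6 cs) 4 36 = true := by decide +kernel
theorem kg37 : allP (chk6 cs) 4 37 = true := by decide +kernel
theorem kg38 : allP (chk6 cs) 4 38 = true := by decide +kernel
theorem kg39 : allP (chk6 cs) 4 39 = true := by decide +kernel
theorem kg40 : allP (chk6 cs) 4 40 = true := by decide +kernel
theorem kg41 : allP (chk6 cs) 4 41 = true := by decide +kernel

end

end Pool.Agent.P.MP_fc6a29_co
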