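import Pool.Agent.P.MP_fc6a29_co.Data6

/-! Checking the listed 3-graphs. -/

namespace Pool.Agent.P.MP_fc6a29_co

open Finset Equiv

noncomputable section

theorem kg42 : allP (chk6 cs) 4 42 = true := by decide +kernel
theorem kg43 : allP (chk6 cs) 4 43 = true := by decide +kernel
theorem kg44 : allP (chk6 cs) 4 44 = true := by decide +kernel
theorem kg45 : allP (chk6 cs) 4 45 = true := by decide +kernel
theorem kg46 : allP (chk6 cs) 4 46 = true := by decide +kernel
theorem kg47 : allP (chk6 cs) 4 47 = true := by decide +kernel
theorem kg48 : allP (chk6 cs) 4 48 = true := by decide +kernel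
theorem kg49 : allP (chk6 cs) 4 49 = true := by decide +kernel
theorem kg50 : allP (chk6 cs) 4 50 = true := by decide +kernel
theorem kg51 : allP (chk6 cs) 4 51 = true := by decide +kernel
theorem kg52 : allP (chk6 cs) 4 52 = true := by decide +kernel

end

end Pool.Agent.P.MP_fc6a29_co
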