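import Pool.Agent.P.MP_fc6a29_co.Data6

/-! Checking the tables. -/

namespace Pool.Agent.P.MP_fc6a29_co

open Finset Equiv

noncomputable section

theorem kc0 : allP (chkC cs) 11 0 = true := by decide +kernel
theorem kc1 : allP (chkC cs) 11 1 = true := by decide +kernel
theorem kc2 : allP (chkC cs) 11 2 = true := by decide +kernel
theorem kc3 : allP (chkC cs) 11 3 = true := by decide +kernel
theorem k2 : allP (chk2 cs) 8 0 = true := by decide +kernel

end

end Pool.Agent.P.MP_fc6a29_co
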