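import Pool.Agent.P.MP_fc6a29_co.Data6

/-! Checking the tables. -/

namespace Pool.Agent.P.MP_fc6a29_co

open Finset Equiv

noncomputable section

theorem kc4 : allP (chkC cs) 11 4 = true := by decide +kernel
theorem kc5 : allP (chkC cs) 11 5 = true := by decide +kernel
theorem kc6 : allP (chkC cs) 11 6 = true := by decide +kernel
theorem kc7 : allP (chkC cs) 11 7 = true := by decide +kernel
theorem kd : allP (chkD cs) 10 0 = true := by decide +kernel

end

end Pool.Agent.P.MP_fc6a29_co
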