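import Pool.Agent.P.MP_fc6a29_co.Dcfin

/-! Checking the final certificate. -/

namespace Pool.Agent.P.MP_fc6a29_co

open Finset Equiv

noncomputable section

theorem cfin_ok0 : allP (chkFin cfin) 5 0 = true := by decide +kernel
theorem cfin_ok1 : allP (chkFin cfin) 5 1 = true := by decide +kernel
theorem cfin_ok2 : allP (chkFin cfin) 5 2 = true := by decide +kernel
theorem cfin_ok3 : allP (chkFin cfin) 5 3 = true := by decide +kernel
theorem cfin_ok4 : allP (chkFin cfin) 5 4 = true := by decide +kernel

end

end Pool.Agent.P.MP_fc6a29_co
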