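import Pool.Agent.P.MP_fc6a29_co.Dcfin

/-! Checking the final certificate. -/

namespace Pool.Agent.P.MP_fc6a29_co

open Finset Equiv

noncomputable section

theorem cfin_ok5 : allP (chkFin cfin) 5 5 = true := by decide +kernel
theorem cfin_ok6 : allP (chkFin cfin) 5 6 = true := by decide +kernel
theorem cfin_ok7 : allP (chkFin cfin) 5 7 = true := by decide +kernel
theorem cfin_ok8 : allP (chkFin cfin) 5 8 = true := by decide +kernel
theorem cfin_ok9 : allP (chkFin cfin) 5 9 = true := by decide +kernel

end

end Pool.Agent.P.MP_fc6a29_co
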