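import Pool.Agent.P.MP_fc6a29_co.Slack

/-! Checking the final certificate with slack. -/

namespace Pool.Agent.P.MP_fc6a29_co

open Finset Equiv

noncomputable section

theorem csl_ok10 : allP (chkSl cfin) 5 10 = true := by decide +kernel
theorem csl_ok11 : allP (chkSl cfin) 5 11 = true := by decide +kernel
theorem csl_ok12 : allP (chkSl cfin) 5 12 = true := by decide +kernel
theorem csl_ok13 : allP (chkSl cfin) 5 13 = true := by decide +kernel

end

end Pool.Agent.P.MP_fc6a29_co
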