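import Pool.Agent.P.MP_fc6a29_co.Exact

/-! The extremal 3-graphs without tight 5-cycle. -/

namespace Pool.Agent.P.MP_fc6a29_co

open Finset

variable {n : ℕ} {H : Finset (Finset (Fin n))} {A : Finset (Fin n)}

theorem two_one {e A : Finset (Fin n)} (h3 : e.card = 3) (h2 : (e ∩ A).card = 2) :
    ∃ x ∈ A, ∃ u ∈ A, ∃ z ∉ A, x ≠ u ∧ e = {x, u, z} := by
  have h1 : (e \ A).card = 1 := by
    have := card_sdiff_add_card_inter e A
    omega
  obtain ⟨x, u, hxu, e2⟩ := card_eq_two.1 h2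
  obtain ⟨z, e1⟩ := card_eq_one.1 h1
  have hx : x ∈ e ∩ A := e2 ▸ by simp
  have hu : u ∈ e ∩ A := e2 ▸ by simp
  have hz : z ∈ e \ A := e1 ▸ by simp
  refine ⟨x, (mem_inter.1 hx).2, u, (mem_inter.1 hu).2, z, (mem_sdiff.1 hz).2, hxu, ?_⟩
  rw [← sdiff_union_inter e A, e1, e2]
  ext t
  simp only [mem_union, mem_insert, mem_singleton]
  tauto

theorem one_two {e A : Finset (Fin n)} (h3 : e.card = 3) (h1 : (e ∩ A).card = 1) :
    ∃ x ∈ A, ∃ z ∉ A, ∃ y ∉ A, e = {x, z, y} := by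
  have h2 : (e \ A).card = 2 := by
    have := card_sdiff_add_card_inter e A
    omega
  obtain ⟨z, y, -, e2⟩ := card_eq_two.1 h2
  obtain ⟨x, e1⟩ := card_eq_one.1 h1
  have hz : z ∈ e \ A := e2 ▸ by simp
  have hy : y ∈ e \ A := e2 ▸ by simp
  have hx : x ∈ e ∩ A := e1 ▸ by simp
  refine ⟨x, (mem_inter.1 hx).2, z, (mem_sdiff.1 hz).2, y, (mem_sdiff.1 hy).2, ?_⟩
  rw [← sdiff_union_inter e A, e1, e2]
  ext t
  simp only [mem_union, mem_insert, mem_singleton]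
  tauto

theorem full_of (h : ∀ e : Finset (Fin n), e.card = 3 → (e ∩ A).card = 2 → e ∈ H) {x u z : Fin n}
    (hx : x ∈ A) (hu : u ∈ A) (hz : z ∉ A) (hxu : x ≠ u) : ef H x u z = true := by
  refine ef_iff.2 (h _ (card_eq_three.2 ⟨x, u, z, hxu, ?_, ?_, rfl⟩) ?_)
  · rintro rfl; exact hz hx
  · rintro rfl; exact hz hu
  · rw [insert_inter_of_mem hx, insert_inter_of_mem hu, singleton_inter_of_notMem hz]
    exact card_pair hxu

theorem none_of (h : ∀ e ∈ H, (e ∩ A).card ≠ 1) {x z y : Fin n}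
    (hx : x ∈ A) (hz : z ∉ A) (hy : y ∉ A) : ef H x z y = false := by
  rw [← Bool.not_eq_true, ef_iff]
  intro g
  refine h _ g ?_
  rw [insert_inter_of_mem hx, insert_inter_of_notMem hz, singleton_inter_of_notMem hy]
  rfl

theorem ef_filter {x y z : Fin n} (hx : x ∈ A) (hy : y ∈ A) (hz : z ∈ A)
    (h : ef H x y z = true) : ef (H.filter (· ⊆ A)) x y z = true :=
  ef_iff.2 (mem_filter.2 ⟨ef_iff.1 h, by simp [insert_subset_iff, hx, hy, hz]⟩)

theorem free_of_split (h3 : ∀ e ∈ H, e.card = 3) (h1 : ∀ e ∈ H, (e ∩ A).card ≠ 1)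
    (hl : Linear (H.filter (· ⊆ A))) (h5 : C5Free (H.filter (· ⊆ Aᶜ))) : Free (ef H) := by
  have L := lin_ef h3 hl
  have G := free_ef (fun e he => h3 e (mem_filter.1 he).1) h5
  refine ⟨ef_s1 H, ef_s2 H, ef_irr h3, ?_⟩
  have irr : ∀ a b, ef H a b a ≠ true := fun a b h => by
    rw [ef_s2, ef_irr h3] at h; exact absurd h (by simp)
  have key : ∀ a b c d e, a ∈ A → b ∈ A → c ∈ A → d ∈ A → ef H a b c = true → ef H b c d = true →
      ef H d e a = true → False := fun a b c d e ha hb hc hd g1 g2 g3 => by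
    have := L.lin a ha d hd b c (ef_filter ha hb hc g1)
      (ef_filter hd hb hc (by rw [ef_s1, ef_s2, g2]))
    rw [this] at g3
    exact irr _ _ g3
  have no : ∀ a b c, ef H a b c = true → (a ∈ A → b ∈ A ∨ c ∈ A) ∧ (b ∈ A → a ∈ A ∨ c ∈ A) ∧
      (c ∈ A → a ∈ A ∨ b ∈ A) := fun a b c g => by
    refine ⟨fun q => ?_, fun q => ?_, fun q => ?_⟩ <;> by_contra d <;> push Not at d
    · rw [none_of h1 q d.1 d.2] at g; exact absurd g (by simp)
    · rw [ef_s1, none_of h1 q d.1 d.2] at g; exact absurd g (by simp)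
    · rw [ef_s2, ef_s1, none_of h1 q d.1 d.2] at g; exact absurd g (by simp)
  intro a b c d e g1 g2 g3 g4 g5
  have n1 := no _ _ _ g1
  have n2 := no _ _ _ g2
  have n3 := no _ _ _ g3
  have n4 := no _ _ _ g4
  have n5 := no _ _ _ g5
  have k1 := fun p q r s => key a b c d e p q r s g1 g2 g4
  have k2 := fun p q r s => key b c d e a p q r s g2 g3 g5
  have k3 := fun p q r s => key c d e a b p q r s g3 g4 g1
  have k4 := fun p q r s => key d e a b c p q r s g4 g5 g2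
  have k5 := fun p q r s => key e a b c d p q r s g5 g1 g3
  have k0 : a ∉ A → b ∉ A → c ∉ A → d ∉ A → e ∉ A → False := fun p q r s t =>
    G.free a b c d e (ef_filter (mem_compl.2 p) (mem_compl.2 q) (mem_compl.2 r) g1)
      (ef_filter (mem_compl.2 q) (mem_compl.2 r) (mem_compl.2 s) g2)
      (ef_filter (mem_compl.2 r) (mem_compl.2 s) (mem_compl.2 t) g3)
      (ef_filter (mem_compl.2 s) (mem_compl.2 t) (mem_compl.2 p) g4)
      (ef_filter (mem_compl.2 t) (mem_compl.2 p) (mem_compl.2 q) g5)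
  clear key no irr L G g1 g2 g3 g4 g5
  by_cases a ∈ A <;> by_cases b ∈ A <;> by_cases c ∈ A <;> by_cases d ∈ A <;> by_cases e ∈ A <;>
    simp_all

theorem c5free_of_free (hE : Free (ef H)) : C5Free H := by
  rintro ⟨f, -, hf⟩
  exact hE.free _ _ _ _ _ (ef_iff.2 (hf 0)) (ef_iff.2 (hf 1)) (ef_iff.2 (hf 2)) (ef_iff.2 (hf 3))
    (ef_iff.2 (hf 4))

theorem card_split (h3 : ∀ e ∈ H, e.card = 3) (hE : Free (ef H))
    (h2 : ∀ e : Finset (Fin n), e.card = 3 → (e ∩ A).card = 2 → e ∈ H)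
    (h1 : ∀ e ∈ H, (e ∩ A).card ≠ 1) :
    H.card = A.card.choose 2 * (n - A.card) + (H.filter (· ⊆ A)).card +
      (H.filter (· ⊆ Aᶜ)).card := by
  have s := hE.split A
  have e1 : Mm (ef H) A Aᶜ = 0 := by
    rw [hE.Mm_eq]
    refine sum_eq_zero fun x hx => sum_eq_zero fun u hu => ?_
    by_cases d : x = u
    · rw [ind_neg (by simp [d]), zero_mul]
    · rw [nv, sum_eq_zero fun z hz => by
        rw [eN_true (full_of h2 hx hu (mem_compl.1 hz) d), sub_self], mul_zero]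
  have e2 : ∑ x ∈ A, ∑ z ∈ Aᶜ, ∑ y ∈ Aᶜ, (eN (ef H) x z y : ℝ) = 0 :=
    sum_eq_zero fun x hx => sum_eq_zero fun z hz => sum_eq_zero fun y hy =>
      eN_false (none_of h1 hx (mem_compl.1 hz) (mem_compl.1 hy))
  rw [e1, e2, S3_ef_univ h3, S3_ef h3, S3_ef h3] at s
  have e3 : n - A.card = Aᶜ.card := by rw [card_compl, Fintype.card_fin]
  have : (H.card : ℝ) = ((A.card.choose 2 * Aᶜ.card + (H.filter (· ⊆ A)).card +
      (H.filter (· ⊆ Aᶜ)).card : ℕ) : ℝ) := by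
    push_cast
    rw [Nat.cast_choose_two]
    linarith
  rw [e3]
  exact_mod_cast this

theorem value_le (a : ℕ) (ha : a ≤ n) :
    a.choose 2 * (n - a) + pack a + exC5 (n - a) ≤ exC5 n := by
  have := glue_le a (n - a)
  rwa [Nat.add_sub_cancel' ha] at this

theorem extremal_split (hn : 10 ^ 24 ≤ n) (h3 : ∀ e ∈ H, e.card = 3) (h5 : C5Free H)
    (hm : H.card = exC5 n) : ∃ A : Finset (Fin n), A.Nonempty ∧
      (∀ e : Finset (Fin n), e.card = 3 → (e ∩ A).card = 2 → e ∈ H) ∧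
      (∀ e ∈ H, (e ∩ A).card ≠ 1) ∧ Linear (H.filter (· ⊆ A)) ∧
      (H.filter (· ⊆ A)).card = pack A.card ∧ (H.filter (· ⊆ Aᶜ)).card = exC5 (n - A.card) ∧
      exC5 n = A.card.choose 2 * (n - A.card) + pack A.card + exC5 (n - A.card) := by
  have hE := free_ef h3 h5
  obtain ⟨A, ne, s1, s2, s3⟩ := hE.shape (by rwa [Fintype.card_fin])
    (by rw [S3_ef_univ h3, hm, Fintype.card_fin])
  have h2 : ∀ e : Finset (Fin n), e.card = 3 → (e ∩ A).card = 2 → e ∈ H := fun e c3 c2 => by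
    obtain ⟨x, hx, u, hu, z, hz, d, rfl⟩ := two_one c3 c2
    exact ef_iff.1 (s1 x hx u hu z hz d)
  have h1 : ∀ e ∈ H, (e ∩ A).card ≠ 1 := fun e he c => by
    obtain ⟨x, hx, z, hz, y, hy, rfl⟩ := one_two (h3 e he) c
    have := s2 x hx z hz y hy
    rw [ef_iff.2 he] at this
    exact absurd this (by simp)
  have hl : Linear (H.filter (· ⊆ A)) := by
    intro s hs t ht hst
    obtain ⟨hs, sA⟩ := mem_filter.1 hs
    obtain ⟨ht, tA⟩ := mem_filter.1 ht
    by_contra c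
    obtain ⟨u, hu, v, hv, huv⟩ := one_lt_card.1 (not_le.1 c)
    obtain ⟨x, rfl⟩ := third (h3 s hs) (mem_inter.1 hu).1 (mem_inter.1 hv).1 huv
    obtain ⟨y, rfl⟩ := third (h3 t ht) (mem_inter.1 hu).2 (mem_inter.1 hv).2 huv
    exact hst (by rw [s3 x (sA (by simp)) y (tA (by simp)) u (sA (by simp)) v (sA (by simp))
      (ef_iff.2 hs) (ef_iff.2 ht)])
  have c := card_split h3 hE h2 h1
  have v := value_le (n := n) A.card (by simpa using card_le_univ A)
  have b1 : (H.filter (· ⊆ A)).card ≤ pack A.card := by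
    have g := (lin_ef h3 hl).S3_le
    rw [S3_ef (fun e he => h3 e (mem_filter.1 he).1), filter_filter] at g
    simp only [and_self] at g
    exact_mod_cast (show ((H.filter (· ⊆ A)).card : ℝ) ≤ pack A.card by linarith)
  have b2 : (H.filter (· ⊆ Aᶜ)).card ≤ exC5 (n - A.card) := by
    have g := hE.S3_le Aᶜ
    rw [S3_ef h3, card_compl, Fintype.card_fin] at g
    exact_mod_cast (show ((H.filter (· ⊆ Aᶜ)).card : ℝ) ≤ exC5 (n - A.card) by linarith)
  exact ⟨A, ne, h2, h1, hl, by omega, by omega, by omega⟩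

theorem classify (hn : 10 ^ 24 ≤ n) (h3 : ∀ e ∈ H, e.card = 3) :
    (C5Free H ∧ H.card = exC5 n) ↔ ∃ A : Finset (Fin n), A.Nonempty ∧
      (∀ e : Finset (Fin n), e.card = 3 → (e ∩ A).card = 2 → e ∈ H) ∧
      (∀ e ∈ H, (e ∩ A).card ≠ 1) ∧
      (Linear (H.filter (· ⊆ A)) ∧ (H.filter (· ⊆ A)).card = pack A.card) ∧
      (C5Free (H.filter (· ⊆ Aᶜ)) ∧ (H.filter (· ⊆ Aᶜ)).card = exC5 (n - A.card)) ∧
      ∀ a, 1 ≤ a → a ≤ n → a.choose 2 * (n - a) + pack a + exC5 (n - a) ≤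
        A.card.choose 2 * (n - A.card) + pack A.card + exC5 (n - A.card) := by
  constructor
  · rintro ⟨h5, hm⟩
    obtain ⟨A, ne, h2, h1, hl, c1, c2, c3⟩ := extremal_split hn h3 h5 hm
    exact ⟨A, ne, h2, h1, ⟨hl, c1⟩,
      ⟨fun ⟨f, hf, g⟩ => h5 ⟨f, hf, fun i => (mem_filter.1 (g i)).1⟩, c2⟩,
      fun a _ ha => c3 ▸ value_le a ha⟩
  · rintro ⟨A, -, h2, h1, ⟨hl, c1⟩, ⟨h5, c2⟩, hv⟩
    have hE := free_of_split h3 h1 hl h5
    have c := card_split h3 hE h2 h1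
    obtain ⟨G, g3, g5, gm⟩ := exists_exC5 n
    obtain ⟨B, ne, -, -, -, -, -, c3⟩ := extremal_split hn g3 g5 gm
    have v := hv B.card (card_pos.2 ne) (by simpa using card_le_univ B)
    have u := le_exC5 h3 (c5free_of_free hE)
    exact ⟨c5free_of_free hE, by omega⟩

end Pool.Agent.P.MP_fc6a29_co
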