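import Pool.Agent.P.MP_fc6a29_co.Stage1

/-! From the certificates to the bound on the value of an optimal weighting. -/

namespace Pool.Agent.P.MP_fc6a29_co

open Finset Equiv

variable {V : Type} [Fintype V] {w : V → ℝ} {E : V → V → V → Bool} {p : ℝ}

theorem Tri_le (hw : ∀ v, 0 ≤ w v) {f g h : V → ℝ} (hf : ∀ v, 0 ≤ f v) (hg : ∀ v, 0 ≤ g v)
    (hh : ∀ v, 0 ≤ h v) : Tri w E f g h ≤ Ex w f * Ex w g * Ex w h := by
  have : Ex w f * Ex w g * Ex w h =
      Ex w fun a => Ex w fun b => Ex w fun c => f a * g b * h c := by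
    simp only [Ex_mul_left, Ex_mul_right]
  rw [this]
  exact Ex_mono hw fun a => Ex_mono hw fun b => Ex_mono hw fun c =>
    mul_le_of_le_one_right (mul_nonneg (mul_nonneg (hf a) (hg b)) (hh c)) (eN_le _ _ _)

theorem Tri_mono3 (hw : ∀ v, 0 ≤ w v) {f g h h' : V → ℝ} (hf : ∀ v, 0 ≤ f v) (hg : ∀ v, 0 ≤ g v)
    (hh : ∀ v, h v ≤ h' v) : Tri w E f g h ≤ Tri w E f g h' :=
  Ex_mono hw fun a => Ex_mono hw fun b => Ex_mono hw fun c =>
    mul_le_mul_of_nonneg_right (mul_le_mul_of_nonneg_left (hh c) (mul_nonneg (hf a) (hg b)))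
      (eN_nonneg _ _ _)

theorem psi_ex (ht : ∑ v, w v = 1) (f : V → ℕ) :
    (Ex w fun x => Ex w fun y => Ex w fun z => (psi (f x) (f y) (f z) (eN E x y z) : ℝ)) =
      300000000000000 * Tri w E (fun x => pA (f x)) (fun x => pA (f x)) (fun x => pB (f x)) +
        18650000000000 * ((1 - Ex w fun x => pL (f x)) ^ 2 * Ex w fun x => pB (f x)) -
        50961000000000 * (1 - Ex w fun x => pL (f x)) ^ 3 -
        40000 * ((10000 * (Ex w fun x => pL (f x)) - 55) *
          (1000 * (Ex w fun x => pL (f x)) - 634) ^ 2) := by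
  simp only [psi, Tri]
  push_cast
  simp only [Ex_add, Ex_sub, Ex_mul_left (300000000000000 : ℝ)]
  simp only [Ex_mul_left, Ex_mul_right, Ex_sub, Ex_const ht]
  ring

theorem p_sum (a b c : Bool) :
    pA (ofL [a, b, c]) + pB (ofL [a, b, c]) + pL (ofL [a, b, c]) = 1 := by
  cases a <;> cases b <;> cases c <;> decide

theorem cubic_bound {a b : ℝ} (ha : 0 ≤ a) (hb : 0 ≤ b) :
    300000 * (a * a * b) + 18650 * ((a + b) ^ 2 * b) ≤ 50961 * (a + b) ^ 3 := by
  nlinarith [mul_nonneg (sq_nonneg (b - 0.36602 * (a + b))) ha,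
    mul_nonneg (sq_nonneg (b - 0.36602 * (a + b))) hb, mul_nonneg (mul_nonneg ha ha) ha,
    mul_nonneg (mul_nonneg ha ha) hb, mul_nonneg (mul_nonneg ha hb) hb,
    mul_nonneg (mul_nonneg hb hb) hb]

/-- The value maximised by a colouring. -/
def Ph (w : V → ℝ) (E : V → V → V → Bool) (χ : V → Bool) : ℝ :=
  30000 * Tri w E (iA χ) (iA χ) (iB χ) + 1865 * Ex w (iB χ)

theorem Good.psi_le (hG : Good w E p) (a b c : V) :
    (Ex w fun x => Ex w fun y => Ex w fun z =>
      (psi (pt E a b c x) (pt E a b c y) (pt E a b c z) (eN E x y z) : ℝ)) ≤ 884303200000 ∧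
    (0 < (Ex w fun x => Ex w fun y => Ex w fun z =>
      (psi (pt E a b c x) (pt E a b c y) (pt E a b c z) (eN E x y z) : ℝ)) →
      ∃ χ, 5007 ≤ Ph w E χ) := by
  have nn := hG.nn
  rw [psi_ex hG.tot]
  set A : V → ℝ := fun x => pA (pt E a b c x) with hA
  set B : V → ℝ := fun x => pB (pt E a b c x) with hB
  set L : V → ℝ := fun x => pL (pt E a b c x) with hL
  have A0 : ∀ x, 0 ≤ A x := fun x => by simp [hA, pA]
  have B0 : ∀ x, 0 ≤ B x := fun x => by simp [hB, pB]
  have L0 : ∀ x, 0 ≤ L x := fun x => by simp [hL, pL]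
  have hs : ∀ x, A x + B x + L x = 1 := fun x => by
    simp only [hA, hB, hL, pt]; exact_mod_cast p_sum _ _ _
  have hs2 : Ex w A + Ex w B + Ex w L = 1 := by
    rw [← Ex_add, ← Ex_add, Ex_congr hs, Ex_const hG.tot]
  have a0 := Ex_nonneg nn A0
  have b0 := Ex_nonneg nn B0
  have l0 := Ex_nonneg nn L0
  have t1 := Tri_le (E := E) nn A0 A0 B0
  have t2 := cubic_bound a0 b0
  rw [show Ex w A + Ex w B = 1 - Ex w L by linarith] at t2
  set l := Ex w L
  refine ⟨?_, fun h => ?_⟩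
  · have : -((10000 * l - 55) * (1000 * l - 634) ^ 2) ≤ 55 * 634 ^ 2 := by
      rcases le_total l 0.0055 with g | g
      · have g1 : (1000 * l - 634) ^ 2 ≤ 634 ^ 2 := by nlinarith
        nlinarith [mul_nonneg l0 (sq_nonneg (1000 * l - 634))]
      · have := mul_nonneg (show 0 ≤ 10000 * l - 55 by linarith) (sq_nonneg (1000 * l - 634))
        linarith
    linarith
  · have hl : l < 0.0055 := by
      by_contra g
      push Not at g
      have := mul_nonneg (show 0 ≤ 10000 * l - 55 by linarith) (sq_nonneg (1000 * l - 634))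
      linarith
    refine ⟨fun x => !Nat.testBit 232 (pt E a b c x), ?_⟩
    have e1 : iA (fun x => !Nat.testBit 232 (pt E a b c x)) = A := by
      funext x
      simp only [iA, cN, hA, pA, bt_eq]
      cases Nat.testBit 232 (pt E a b c x) <;> simp
    have e2 : iB (fun x => !Nat.testBit 232 (pt E a b c x)) = fun x => B x + L x := by
      funext x
      have h1 := congrFun e1 x
      have h2 := hs x
      simp only [iA] at h1
      simp only [iB]
      linarith
    rw [Ph, e1, e2, Ex_add]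
    have t3 : Tri w E A A B ≤ Tri w E A A (fun x => B x + L x) :=
      Tri_mono3 nn A0 A0 fun x => by linarith [L0 x]
    have t4 : (1 - l) ^ 2 * Ex w B ≤ Ex w B := mul_le_of_le_one_left b0 (by nlinarith)
    have t5 : 50070000000000 ≤ 50961000000000 * (1 - l) ^ 3 +
        40000 * ((10000 * l - 55) * (1000 * l - 634) ^ 2) := by
      nlinarith [mul_nonneg l0 (sub_nonneg.2 hl.le), mul_nonneg l0 (mul_nonneg l0 l0),
        mul_nonneg l0 (mul_nonneg l0 (sub_nonneg.2 hl.le))]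
    linarith

theorem Good.first (hG : Good w E p) {C : Cs} (H : CsOK C) (hp : 4641 < 10000 * p) :
    10000 * p ≤ 4646 ∧ ∃ χ, 5007 ≤ Ph w E χ := by
  have nn := hG.nn
  have h := hG.stage1 H hp.le
  refine ⟨?_, ?_⟩
  · have h2 := h.trans (Ex_mono nn fun a => Ex_mono nn fun b => Ex_mono nn fun c =>
      mul_le_mul_of_nonneg_left (hG.psi_le a b c).1 (eN_nonneg a b c))
    simp only [Ex_mul_right, hG.deg, Ex_const hG.tot] at h2
    linarith
  · obtain ⟨a, ha⟩ := exists_pos_of_Ex_pos nn (lt_of_lt_of_le (by linarith) h)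
    obtain ⟨b, hb⟩ := exists_pos_of_Ex_pos nn ha
    obtain ⟨c, hc⟩ := exists_pos_of_Ex_pos nn hb
    refine (hG.psi_le a b c).2 (lt_of_not_ge fun g => ?_)
    exact absurd hc (not_lt.2 (mul_nonpos_of_nonneg_of_nonpos (eN_nonneg a b c) g))

theorem Good.col (hG : Good w E p) {C : Cs} (H : CsOK C) (hp : 4641 < 10000 * p) :
    ∃ χ, Col w E p χ := by
  classical
  have nn := hG.nn
  obtain ⟨h1, χ0, h2⟩ := hG.first H hp
  obtain ⟨χ, hχ⟩ := Finite.exists_max (Ph w E)
  have big := h2.trans (hχ χ0)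
  have hs : Ex w (iA χ) + Ex w (iB χ) = 1 := by
    rw [← Ex_add, Ex_congr (g := fun _ => 1) (fun x => by simp [iA, iB]), Ex_const hG.tot]
  have a0 := Ex_nonneg nn (iA_nonneg (χ := χ))
  have b0 := Ex_nonneg nn (iB_nonneg (χ := χ))
  have t1 := Tri_le (E := E) nn (iA_nonneg (χ := χ)) (iA_nonneg (χ := χ)) (iB_nonneg (χ := χ))
  have big2 := big
  rw [Ph, show Ex w (iB χ) = 1 - Ex w (iA χ) by linarith] at big2
  rw [show Ex w (iB χ) = 1 - Ex w (iA χ) by linarith] at t1
  set α := Ex w (iA χ)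
  refine ⟨χ, hG, hp.le, h1, ?_, ?_, big, fun z => ?_⟩
  · by_contra g
    push Not at g
    have g1 : 0 ≤ 0.574 - α := by linarith
    nlinarith [mul_nonneg g1 (mul_nonneg a0 g1), mul_nonneg g1 a0]
  · by_contra g
    push Not at g
    have g1 : 0 ≤ α - 0.69 := by linarith
    nlinarith [mul_nonneg g1 (mul_nonneg g1 g1), mul_nonneg g1 g1]
  · have h := hχ (Function.update χ z (!χ z))
    set σ : ℝ := 1 - 2 * iB χ z with hσ
    have e1 : iA (Function.update χ z (!χ z)) =
        fun x => iA χ x + (-σ) * if x = z then 1 else 0 := by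
      funext x
      by_cases g : x = z
      · subst g
        simp only [iA, iB, cN, hσ, Function.update_self]
        cases χ x <;> norm_num
      · simp [iA, cN, g]
    have e2 : iB (Function.update χ z (!χ z)) =
        fun x => iB χ x + σ * if x = z then 1 else 0 := by
      funext x
      by_cases g : x = z
      · subst g
        simp only [iB, cN, hσ, Function.update_self]
        cases χ x <;> norm_num
      · simp [iB, cN, g]
    have e3 := Ex_single (w := w) z (fun _ => 1)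
    simp only [mul_one] at e3
    rw [Ph, Ph, e1, e2, hG.toFree.tri_shift, Ex_add, Ex_mul_left, e3] at h
    have h3 : 0 ≤ w z * (σ * (60000 * Lk w E z (iA χ) (iB χ) -
        30000 * Lk w E z (iA χ) (iA χ) - 1865)) := by linarith
    exact nonneg_of_mul_nonneg_right h3 (hG.pos z)

theorem Xz_bounds {χ : V → Bool} (hG : Good w E p) (z : V) :
    0 ≤ Xz w E χ z ∧ Xz w E χ z ≤ 1 := by
  have nn := hG.nn
  have h : ∀ c d, 0 ≤ iA χ z * (iA χ c * iB χ d * (1 - eN E z c d)) +
      iB χ z * (iA χ c * iB χ d * eN E z c d) ∧ iA χ z * (iA χ c * iB χ d * (1 - eN E z c d)) +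
      iB χ z * (iA χ c * iB χ d * eN E z c d) ≤ 1 := fun c d => by
    simp only [iA, iB, cN, eN]
    cases χ z <;> cases χ c <;> cases χ d <;> cases E z c d <;> simp
  refine ⟨Ex_nonneg nn fun c => Ex_nonneg nn fun d => (h c d).1, ?_⟩
  have := Ex_mono nn fun c => Ex_mono nn fun d => (h c d).2
  simpa only [Xz, Ex_const hG.tot] using this

theorem last_poly {β : ℝ} (h1 : 0.31 ≤ β) (h2 : β ≤ 0.426) :
    3 * (1 - β) ^ 2 * β + (0.2304 * (1 - β) + 0.0484 * β) * (3 * β ^ 2 - (1 - β) ^ 2) ^ 2 ≤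
      (2 * √3 - 3) * (1 - β ^ 3) := by
  have hs : √3 ^ 2 = 3 := Real.sq_sqrt (by norm_num)
  have s0 : 0 ≤ √3 := Real.sqrt_nonneg _
  set s := √3
  have s1 : 1.73205 ≤ s := by nlinarith
  have s2 : s ≤ 1.7321 := by nlinarith
  have e1 : (2 * s - 3) * (1 - β ^ 3) - 3 * (1 - β) ^ 2 * β =
      (2 * s - 3) * (1 - β) * (s * β - (1 - β)) ^ 2 := by
    linear_combination (-(1 - β) * (β ^ 2 * (2 * s + 1) - 4 * β)) * hs
  have e2 : 3 * β ^ 2 - (1 - β) ^ 2 = (s * β - (1 - β)) * (s * β + (1 - β)) := by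
    linear_combination (-β ^ 2) * hs
  have e3 : (0.2304 * (1 - β) + 0.0484 * β) * (s * β + (1 - β)) ^ 2 ≤ (2 * s - 3) * (1 - β) := by
    have g1 : s * β + (1 - β) ≤ 1 + 0.7321 * β := by nlinarith
    have g2 : (s * β + (1 - β)) ^ 2 ≤ (1 + 0.7321 * β) ^ 2 :=
      pow_le_pow_left₀ (by nlinarith) g1 2
    have g3 := mul_le_mul_of_nonneg_left g2 (show 0 ≤ 0.2304 * (1 - β) + 0.0484 * β by linarith)
    have g4 : 0.4641 * (1 - β) ≤ (2 * s - 3) * (1 - β) := by nlinarith
    have g5 := sub_nonneg.2 h1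
    have g6 := sub_nonneg.2 h2
    nlinarith [mul_nonneg g5 g6, mul_nonneg g5 (mul_nonneg g5 g5), mul_nonneg g6 (mul_nonneg g5 g5), mul_nonneg g6 g6]
  have e4 := mul_le_mul_of_nonneg_right e3 (sq_nonneg (s * β - (1 - β)))
  rw [e2]
  nlinarith

end Pool.Agent.P.MP_fc6a29_co
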