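import Pool.Agent.P.MP_fc6a29_co.Entropy

/-! Counting bad triples against missing triples: common part. -/

namespace Pool.Agent.P.MP_fc6a29_co

open Finset

variable {V : Type} {E : V → V → V → Bool} {A B : Finset V}

open Classical in
/-- Real indicator of a proposition. -/
noncomputable def ind (p : Prop) : ℝ := if p then 1 else 0

theorem ind_pos {p : Prop} (h : p) : ind p = 1 := if_pos h

theorem ind_neg {p : Prop} (h : ¬ p) : ind p = 0 := if_neg h

theorem ind_nonneg (p : Prop) : 0 ≤ ind p := by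
  by_cases h : p
  · rw [ind_pos h]; exact zero_le_one
  · rw [ind_neg h]

theorem ind_le (p : Prop) : ind p ≤ 1 := by
  by_cases h : p
  · rw [ind_pos h]
  · rw [ind_neg h]; exact zero_le_one

theorem ind_cases (p : Prop) : ind p = 0 ∨ ind p = 1 := by
  by_cases h : p
  · exact Or.inr (ind_pos h)
  · exact Or.inl (ind_neg h)

theorem markov (s : Finset V) (f : V → ℝ) (t : ℝ) (hf : ∀ x ∈ s, 0 ≤ f x) :
    t * ∑ x ∈ s, ind (t ≤ f x) ≤ ∑ x ∈ s, f x := by
  rw [mul_sum]
  refine sum_le_sum fun x hx => ?_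
  by_cases h : t ≤ f x
  · rw [ind_pos h, mul_one]; exact h
  · rw [ind_neg h, mul_zero]; exact hf x hx

theorem eN_true {a b c : V} (h : E a b c = true) : (eN E a b c : ℝ) = 1 := by simp [eN, h]

theorem eN_false {a b c : V} (h : E a b c = false) : (eN E a b c : ℝ) = 0 := by simp [eN, h]

theorem ms_nonneg (a b c : V) : (0 : ℝ) ≤ 1 - eN E a b c := sub_nonneg.2 (eN_le _ _ _)

/-- Missing triples at a pair with one vertex in each part (the repeated vertex included). -/
def kk (E : V → V → V → Bool) (A : Finset V) (x z : V) : ℝ := ∑ u ∈ A, (1 - eN E x u z)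

/-- Missing triples at a pair of the first part. -/
def nv (E : V → V → V → Bool) (B : Finset V) (x y : V) : ℝ := ∑ z ∈ B, (1 - eN E x y z)

/-- Codegree inside the first part. -/
def cd (E : V → V → V → Bool) (A : Finset V) (x y : V) : ℝ := ∑ u ∈ A, (eN E x y u : ℝ)

/-- Ordered missing triples. -/
def Mm (E : V → V → V → Bool) (A B : Finset V) : ℝ := ∑ x ∈ A, ∑ z ∈ B, (kk E A x z - 1)

/-- A very heavy pair. -/
def Hv (E : V → V → V → Bool) (A : Finset V) (x z : V) : Prop := 0.98 * (A.card : ℝ) ≤ kk E A x z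

/-- A pair of almost twins. -/
def Tw (E : V → V → V → Bool) (B : Finset V) (x y : V) : Prop :=
  x ≠ y ∧ 0.96 * (B.card : ℝ) ≤ nv E B x y

/-- A pair that is not light. -/
def Nl (E : V → V → V → Bool) (B : Finset V) (x y : V) : Prop := 0.02 * (B.card : ℝ) ≤ nv E B x y

/-- The missing triples at very heavy pairs. -/
noncomputable def MV (E : V → V → V → Bool) (A B : Finset V) : ℝ :=
  ∑ x ∈ A, ∑ z ∈ B, ind (Hv E A x z) * (kk E A x z - 1)

/-- A partition with few missing triples at every vertex. -/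
structure Sp (E : V → V → V → Bool) (A B : Finset V) : Prop extends Free E where
  ab : (A.card : ℝ) ≤ 1.74 * B.card
  ba : (B.card : ℝ) ≤ 0.58 * A.card
  big : (1000000000 : ℝ) ≤ A.card
  hA : ∀ x ∈ A, ∑ z ∈ B, kk E A x z ≤ (A.card : ℝ) ^ 2 / 100000000
  hB : ∀ z ∈ B, ∑ x ∈ A, kk E A x z ≤ (A.card : ℝ) ^ 2 / 100000000

theorem kk_nonneg (x z : V) : 0 ≤ kk E A x z := sum_nonneg fun _ _ => ms_nonneg _ _ _

theorem nv_nonneg (x y : V) : 0 ≤ nv E B x y := sum_nonneg fun _ _ => ms_nonneg _ _ _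

theorem cd_nonneg (x y : V) : 0 ≤ cd E A x y := sum_nonneg fun _ _ => eN_nonneg _ _ _

theorem Free.nv_comm (hE : Free E) (x y : V) : nv E B x y = nv E B y x :=
  sum_congr rfl fun z _ => by simp only [eN, hE.s1 x y z]

theorem Free.cd_comm (hE : Free E) (x y : V) : cd E A x y = cd E A y x :=
  sum_congr rfl fun z _ => by simp only [eN, hE.s1 x y z]

theorem Free.cd_self (hE : Free E) (x : V) : cd E A x x = 0 :=
  sum_eq_zero fun z _ => eN_false (hE.irr x z)

theorem Free.off_diag (hE : Free E) {x : V} (hx : x ∈ A) (z : V) :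
    ∑ u ∈ A, ind (x ≠ u) * (1 - eN E x u z) = kk E A x z - 1 := by
  classical
  have h : ∀ u ∈ A, ind (x ≠ u) * (1 - eN E x u z) =
      (1 - eN E x u z) - if x = u then 1 else 0 := fun u _ => by
    by_cases g : x = u
    · subst g
      rw [ind_neg (by simp), eN_false (hE.irr x z)]; simp
    · rw [ind_pos g, if_neg g]; ring
  rw [sum_congr rfl h, sum_sub_distrib, sum_ite_eq, if_pos hx, kk]

theorem Free.one_le_kk (hE : Free E) {x : V} (hx : x ∈ A) (z : V) : 0 ≤ kk E A x z - 1 := by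
  rw [← hE.off_diag hx]
  exact sum_nonneg fun _ _ => mul_nonneg (ind_nonneg _) (ms_nonneg _ _ _)

theorem Free.Mm_nonneg (hE : Free E) : 0 ≤ Mm E A B :=
  sum_nonneg fun _ hx => sum_nonneg fun z _ => hE.one_le_kk hx z

theorem Free.Mm_eq (hE : Free E) :
    Mm E A B = ∑ x ∈ A, ∑ u ∈ A, ind (x ≠ u) * nv E B x u := by
  refine sum_congr rfl fun x hx => ?_
  simp only [nv, mul_sum]
  rw [sum_comm]
  exact sum_congr rfl fun z _ => (hE.off_diag hx z).symm

theorem sum_kk (x : V) : ∑ z ∈ B, kk E A x z = ∑ y ∈ A, nv E B x y := sum_comm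

theorem Free.three (hE : Free E) {x u v y : V} (h1 : E x u v = true) (h2 : E u v y = true) :
    (B.card : ℝ) ≤ nv E B v y + nv E B x y + nv E B x u := by
  have h : ∀ z ∈ B, (1 : ℝ) ≤ (1 - eN E v y z) + (1 - eN E x y z) + (1 - eN E x u z) := fun z _ => by
    have g := hE.free x u v y z h1 h2
    rw [hE.c231 x y z, hE.c312 x u z] at g
    unfold eN
    revert g
    cases E v y z <;> cases E x y z <;> cases E x u z <;> simp
  have := sum_le_sum h
  simpa only [nv, sum_add_distrib, sum_const, nsmul_eq_mul, mul_one] using this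

theorem Free.codeg (hE : Free E) {h : ℝ} (hb : (0 : ℝ) < B.card)
    (H : ∀ x ∈ A, ∑ y ∈ A, ind (Nl E B x y) ≤ h) {u v : V} (hu : u ∈ A) (hv : v ∈ A) :
    cd E A u v ≤ 2 * h := by
  by_cases g : ∃ x ∈ A, E u v x = true ∧ ¬ Nl E B x u
  · obtain ⟨x, hx, g1, g2⟩ := g
    have : cd E A u v ≤ ∑ y ∈ A, (ind (Nl E B v y) + ind (Nl E B x y)) := by
      refine sum_le_sum fun y _ => ?_
      have i1 := ind_nonneg (Nl E B v y)
      have i2 := ind_nonneg (Nl E B x y)
      cases q : E u v y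
      · rw [eN_false q]; linarith
      · rw [eN_true q]
        have t := hE.three (B := B) (x := x) (by rw [hE.c312, g1]) q
        by_cases c1 : Nl E B v y
        · rw [ind_pos c1]; linarith
        · by_cases c2 : Nl E B x y
          · rw [ind_pos c2]; linarith
          · unfold Nl at c1 c2 g2
            linarith
    rw [sum_add_distrib] at this
    linarith [H v hv, H x hx]
  · have : cd E A u v ≤ ∑ y ∈ A, ind (Nl E B u y) := by
      refine sum_le_sum fun y hy => ?_
      cases q : E u v y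
      · rw [eN_false q]; exact ind_nonneg _
      · rw [eN_true q, ind_pos]
        by_contra c
        exact g ⟨y, hy, q, fun d => c (by unfold Nl at d ⊢; rwa [hE.nv_comm])⟩
    have i : 0 ≤ ∑ y ∈ A, ind (Nl E B u y) := sum_nonneg fun _ _ => ind_nonneg _
    linarith [H u hu]

theorem Sp.pair (h : Sp E A B) {x z y : V} (hz : z ∈ B) (hy : y ∈ B) (he : E x z y = true) :
    0.99 * (A.card : ℝ) ≤ kk E A x z + kk E A x y := by
  have hE := h.toFree
  have g : ∀ u ∈ A, ∀ v ∈ A, (1 : ℝ) ≤ (1 - eN E x u y) + (1 - eN E u v y) + (1 - eN E u v z) +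
      (1 - eN E x v z) := fun u _ v _ => by
    have q := hE.free z x y u v (by rw [hE.s1, he])
    rw [hE.s2 x y u, hE.c312 u v y, hE.c231 x v z] at q
    unfold eN
    revert q
    cases E x u y <;> cases E u v y <;> cases E u v z <;> cases E x v z <;> norm_num
  have s := sum_le_sum fun u hu => sum_le_sum (g u hu)
  simp only [sum_add_distrib, sum_const, nsmul_eq_mul, mul_one, ← mul_sum] at s
  have s1 := h.hB z hz
  have s2 := h.hB y hy
  have a0 := h.big
  simp only [kk] at s1 s2 ⊢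
  refine le_of_mul_le_mul_left (a := (A.card : ℝ)) ?_ (by linarith)
  nlinarith

theorem Sp.abb (h : Sp E A B) :
    ∑ x ∈ A, ∑ z ∈ B, ∑ y ∈ B, (eN E x z y : ℝ) ≤
      2 * B.card * (∑ x ∈ A, ∑ z ∈ B, ind (Hv E A x z)) + Mm E A B / 1000 := by
  rw [mul_sum, Mm, sum_div, ← sum_add_distrib]
  refine sum_le_sum fun x hx => ?_
  have a0 := h.big
  set a : ℝ := (A.card : ℝ) with ha
  set s : V → ℝ := fun z => ind (0.01 * a ≤ kk E A x z) with hs
  have g : ∀ z ∈ B, ∀ y ∈ B, (eN E x z y : ℝ) ≤ ind (Hv E A x z) + ind (Hv E A x y) + s z * s y :=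
    fun z hz y hy => by
    have i1 := ind_nonneg (Hv E A x z)
    have i2 := ind_nonneg (Hv E A x y)
    have i3 : 0 ≤ s z * s y := mul_nonneg (ind_nonneg _) (ind_nonneg _)
    cases q : E x z y
    · rw [eN_false q]; linarith
    · rw [eN_true q]
      have p := h.pair hz hy q
      by_cases c1 : 0.01 * a ≤ kk E A x z
      · by_cases c2 : 0.01 * a ≤ kk E A x y
        · simp only [hs, ind_pos c1, ind_pos c2]; linarith
        · rw [ind_pos (show Hv E A x z by unfold Hv; linarith)]; linarith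
      · rw [ind_pos (show Hv E A x y by unfold Hv; linarith)]; linarith
  have t := sum_le_sum fun z hz => sum_le_sum (g z hz)
  simp only [sum_add_distrib, sum_const, nsmul_eq_mul, ← mul_sum, ← sum_mul] at t
  have m1 := (markov B (kk E A x) (0.01 * a) fun z _ => kk_nonneg x z).trans (h.hA x hx)
  have m2 : 0.005 * a * ∑ z ∈ B, s z ≤ ∑ z ∈ B, (kk E A x z - 1) := by
    rw [mul_sum]
    refine sum_le_sum fun z _ => ?_
    by_cases c : 0.01 * a ≤ kk E A x z
    · simp only [hs, ind_pos c]; linarith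
    · simp only [hs, ind_neg c, mul_zero]; exact h.toFree.one_le_kk hx z
  have s0 : 0 ≤ ∑ z ∈ B, s z := sum_nonneg fun _ _ => ind_nonneg _
  set S := ∑ z ∈ B, s z
  have m3 : S ≤ a / 1000000 := by
    refine le_of_mul_le_mul_left (a := a) ?_ (by linarith)
    linarith
  have m4 : S * S ≤ a / 1000000 * S := mul_le_mul_of_nonneg_right m3 s0
  have m5 : 0 ≤ a * S := mul_nonneg (by linarith) s0
  linarith

theorem Sp.hv_le (h : Sp E A B) :
    0.97 * A.card * (∑ x ∈ A, ∑ z ∈ B, ind (Hv E A x z)) ≤ MV E A B := by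
  simp only [mul_sum, MV]
  refine sum_le_sum fun x _ => sum_le_sum fun z _ => ?_
  by_cases c : Hv E A x z
  · rw [ind_pos c]; unfold Hv at c; linarith [h.big]
  · rw [ind_neg c]; simp

theorem Free.MV_nonneg (hE : Free E) : 0 ≤ MV E A B :=
  sum_nonneg fun _ hx => sum_nonneg fun z _ => mul_nonneg (ind_nonneg _) (hE.one_le_kk hx z)

theorem Sp.abb' (h : Sp E A B) :
    3 * ∑ x ∈ A, ∑ z ∈ B, ∑ y ∈ B, (eN E x z y : ℝ) ≤ 3.59 * MV E A B + 0.003 * Mm E A B := by
  have h1 := h.abb
  have h2 := h.hv_le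
  have h3 : 0 ≤ ∑ x ∈ A, ∑ z ∈ B, ind (Hv E A x z) :=
    sum_nonneg fun _ _ => sum_nonneg fun _ _ => ind_nonneg _
  have h4 := mul_le_mul_of_nonneg_right h.ba h3
  have h5 := h.toFree.MV_nonneg (A := A) (B := B)
  linarith

theorem Sp.overlap (h : Sp E A B) :
    1.999 * MV E A B + 0.96 * B.card * (∑ x ∈ A, ∑ y ∈ A, ind (Tw E B x y)) ≤ Mm E A B := by
  have hE := h.toFree
  have a0 := h.big
  have ab := h.ab
  set a : ℝ := (A.card : ℝ) with ha
  set b : ℝ := (B.card : ℝ) with hb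
  set v := ∑ x ∈ A, ∑ z ∈ B, ind (Hv E A x z) with hv
  have g : ∀ x u z : V, ind (Hv E A x z) * (ind (x ≠ u) * (1 - eN E x u z)) +
      ind (Hv E A u z) * (ind (u ≠ x) * (1 - eN E u x z)) + ind (Tw E B x u) * (1 - eN E x u z) ≤
      ind (x ≠ u) * (1 - eN E x u z) + ind (Hv E A x z) * ind (Hv E A u z) +
        ind (Hv E A x z) * ind (Tw E B x u) + ind (Hv E A u z) * ind (Tw E B u x) := fun x u z => by
    have e1 : (eN E u x z : ℝ) = eN E x u z := by simp only [eN, hE.s1 x u z]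
    have e2 : Tw E B u x ↔ Tw E B x u := by unfold Tw; rw [hE.nv_comm, ne_comm]
    have m0 := ms_nonneg (E := E) x u z
    have m1 := eN_nonneg (E := E) x u z
    rw [e1, e2]
    by_cases c : x = u
    · rw [ind_neg (show ¬ x ≠ u by simp [c]), ind_neg (show ¬ u ≠ x by simp [c]),
        ind_neg (show ¬ Tw E B x u from fun q => q.1 c)]
      simpa using mul_nonneg (ind_nonneg _) (ind_nonneg _)
    · rw [ind_pos (show x ≠ u from c), ind_pos (show u ≠ x from Ne.symm c)]
      rcases ind_cases (Hv E A x z) with q1 | q1 <;> rcases ind_cases (Hv E A u z) with q2 | q2 <;>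
        rcases ind_cases (Tw E B x u) with q3 | q3 <;> rw [q1, q2, q3] <;> linarith
  have t := sum_le_sum fun x (_ : x ∈ A) => sum_le_sum fun u (_ : u ∈ A) =>
    sum_le_sum fun z (_ : z ∈ B) => g x u z
  simp only [sum_add_distrib] at t
  have e1 : ∑ x ∈ A, ∑ u ∈ A, ∑ z ∈ B, ind (Hv E A x z) * (ind (x ≠ u) * (1 - eN E x u z)) =
      MV E A B := sum_congr rfl fun x hx => by
    rw [sum_comm]
    exact sum_congr rfl fun z _ => by rw [← mul_sum, hE.off_diag hx]
  have e2 : ∑ x ∈ A, ∑ u ∈ A, ∑ z ∈ B, ind (Hv E A u z) * (ind (u ≠ x) * (1 - eN E u x z)) =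
      MV E A B := by rw [sum_comm, e1]
  have e3 : 0.96 * b * (∑ x ∈ A, ∑ y ∈ A, ind (Tw E B x y)) ≤
      ∑ x ∈ A, ∑ u ∈ A, ∑ z ∈ B, ind (Tw E B x u) * (1 - eN E x u z) := by
    simp only [mul_sum]
    refine sum_le_sum fun x _ => sum_le_sum fun u _ => ?_
    rw [← mul_sum]
    by_cases c : Tw E B x u
    · rw [ind_pos c, mul_one, one_mul]; exact c.2
    · rw [ind_neg c]; simp
  have e4 : ∑ x ∈ A, ∑ u ∈ A, ∑ z ∈ B, ind (x ≠ u) * (1 - eN E x u z) = Mm E A B := by
    rw [hE.Mm_eq]; simp only [nv, mul_sum]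
  have e5 : ∑ x ∈ A, ∑ u ∈ A, ∑ z ∈ B, ind (Hv E A x z) * ind (Hv E A u z) ≤ a / 10000000 * v := by
    simp only [hv, mul_sum]
    refine sum_le_sum fun x _ => ?_
    rw [sum_comm]
    refine sum_le_sum fun z hz => ?_
    rw [← mul_sum, mul_comm]
    refine mul_le_mul_of_nonneg_right ?_ (ind_nonneg _)
    have m := (markov A (fun u => kk E A u z) (0.98 * a) fun u _ => kk_nonneg u z).trans (h.hB z hz)
    refine le_of_mul_le_mul_left (a := 0.98 * a) (m.trans ?_) (by linarith)
    nlinarith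
  have e6 : ∑ x ∈ A, ∑ u ∈ A, ∑ z ∈ B, ind (Hv E A x z) * ind (Tw E B x u) ≤ a / 10000000 * v := by
    simp only [hv, mul_sum]
    refine sum_le_sum fun x hx => ?_
    rw [sum_comm]
    refine sum_le_sum fun z _ => ?_
    rw [← mul_sum, mul_comm]
    refine mul_le_mul_of_nonneg_right ?_ (ind_nonneg _)
    have m := (markov A (nv E B x) (0.96 * b) fun u _ => nv_nonneg x u).trans
      ((sum_kk x).symm.trans_le (h.hA x hx))
    have m2 : ∑ u ∈ A, ind (Tw E B x u) ≤ ∑ u ∈ A, ind (0.96 * b ≤ nv E B x u) :=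
      sum_le_sum fun u _ => by
        by_cases c : Tw E B x u
        · rw [ind_pos c, ind_pos c.2]
        · rw [ind_neg c]; exact ind_nonneg _
    refine m2.trans (le_of_mul_le_mul_left (a := 0.96 * b) (m.trans ?_) (by linarith))
    nlinarith
  have e7 : ∑ x ∈ A, ∑ u ∈ A, ∑ z ∈ B, ind (Hv E A u z) * ind (Tw E B u x) ≤ a / 10000000 * v := by
    rw [sum_comm]; exact e6
  have h2 := h.hv_le
  have h5 := hE.MV_nonneg (A := A) (B := B)
  rw [e1, e2, e4] at t
  linarith

end Pool.Agent.P.MP_fc6a29_co
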