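import Pool.Agent.P.MP_fc6a29_co.Count1

/-! Counting the triples inside the first part. -/

namespace Pool.Agent.P.MP_fc6a29_co

open Finset

variable {V : Type} {E F : V → V → V → Bool} {A B : Finset V}

/-- The number of ordered edges inside a set. -/
def S3 (F : V → V → V → Bool) (A : Finset V) : ℝ := ∑ x ∈ A, ∑ y ∈ A, ∑ u ∈ A, (eN F x y u : ℝ)

theorem sum_swap (s2 : ∀ a b c, F a b c = F a c b) (g : V → V → V → ℝ) :
    ∑ x ∈ A, ∑ y ∈ A, ∑ u ∈ A, (eN F x y u : ℝ) * g x u y =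
      ∑ x ∈ A, ∑ y ∈ A, ∑ u ∈ A, (eN F x y u : ℝ) * g x y u := by
  refine sum_congr rfl fun x _ => ?_
  rw [sum_comm]
  exact sum_congr rfl fun y _ => sum_congr rfl fun u _ => by simp only [eN, s2 x u y]

theorem sum_rot (s1 : ∀ a b c, F a b c = F b a c) (s2 : ∀ a b c, F a b c = F a c b)
    (g : V → V → V → ℝ) :
    ∑ x ∈ A, ∑ y ∈ A, ∑ u ∈ A, (eN F x y u : ℝ) * g y u x =
      ∑ x ∈ A, ∑ y ∈ A, ∑ u ∈ A, (eN F x y u : ℝ) * g x y u := by
  rw [sum_comm]
  refine sum_congr rfl fun y _ => ?_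
  rw [sum_comm]
  exact sum_congr rfl fun u _ => sum_congr rfl fun x _ => by simp only [eN, s1 x y u, s2 y x u]

theorem Free.pair_sum (hE : Free E) (f : V → V → ℝ) :
    ∑ x ∈ A, ∑ y ∈ A, ∑ u ∈ A, (eN E x y u : ℝ) * (f x y + f y u + f x u) =
      3 * ∑ x ∈ A, ∑ y ∈ A, f x y * cd E A x y := by
  have e1 := sum_swap (A := A) hE.s2 (fun x y _ => f x y)
  have e2 := sum_rot (A := A) hE.s1 hE.s2 (fun x y _ => f x y)
  have e3 : ∑ x ∈ A, ∑ y ∈ A, ∑ u ∈ A, (eN E x y u : ℝ) * f x y =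
      ∑ x ∈ A, ∑ y ∈ A, f x y * cd E A x y := by
    simp only [← sum_mul]
    exact sum_congr rfl fun x _ => sum_congr rfl fun y _ => mul_comm _ _
  simp only [mul_add, sum_add_distrib, e1, e2, e3]
  ring

theorem sum_ind [Fintype V] (f : V → ℝ) : ∑ x, ind (x ∈ A) * f x = ∑ x ∈ A, f x := by
  classical
  rw [← sum_subset (subset_univ A) (fun x _ hx => by rw [ind_neg hx, zero_mul])]
  exact sum_congr rfl fun x hx => by rw [ind_pos hx, one_mul]

theorem sum_ind3 [Fintype V] (f : V → V → V → ℝ) :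
    ∑ x, ∑ y, ∑ u, ind (x ∈ A) * ind (y ∈ A) * ind (u ∈ A) * f x y u =
      ∑ x ∈ A, ∑ y ∈ A, ∑ u ∈ A, f x y u := by
  simp only [mul_assoc, ← mul_sum, sum_ind]

theorem Free.tetra [Fintype V] (hE : Free E) (z : V) :
    ∑ x ∈ A, ∑ y ∈ A, ∑ u ∈ A, (eN E x y u : ℝ) *
      (1 - ((1 - eN E x y z) + (1 - eN E y u z) + (1 - eN E x u z))) ≤
      ∑ x ∈ A, kk E A x z * (A.card - kk E A x z) := by
  have h := hE.entropy_sum (fun x => ind (x ∈ A)) (fun _ => ind_nonneg _) z
  rw [sum_ind3, sum_ind3] at h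
  refine le_trans ?_ (h.trans ?_)
  · refine sum_le_sum fun x _ => sum_le_sum fun y _ => sum_le_sum fun u _ => ?_
    simp only [eN, hE.c312 x y z, hE.c312 y u z, hE.c312 x u z]
    cases E x y u <;> cases E x y z <;> cases E y u z <;> cases E x u z <;> norm_num
  · refine sum_le_sum fun x _ => ?_
    have e : (A.card : ℝ) - kk E A x z = ∑ y ∈ A, (eN E x y z : ℝ) := by
      simp only [kk, sum_sub_distrib, sum_const, nsmul_eq_mul]; ring
    rw [e, kk, mul_comm, sum_mul_sum]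
    refine sum_le_sum fun y _ => sum_le_sum fun u _ => ?_
    simp only [eN, hE.c312 x y z, hE.c312 y u z, hE.c312 x u z]
    cases E x y u <;> cases E x y z <;> cases E y u z <;> cases E x u z <;> norm_num

theorem Sp.large [Fintype V] (h : Sp E A B) :
    S3 E A + 3 * ∑ x ∈ A, ∑ z ∈ B, ∑ y ∈ B, (eN E x z y : ℝ) ≤
      (A.card : ℝ) ^ 2 + 2.7 * Mm E A B := by
  have hE := h.toFree
  have a0 := h.big
  have ab := h.ab
  have M0 := hE.Mm_nonneg (A := A) (B := B)
  have V0 := hE.MV_nonneg (A := A) (B := B)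
  have ov := h.overlap
  have g0 : 0 ≤ ∑ x ∈ A, ∑ y ∈ A, ind (Tw E B x y) :=
    sum_nonneg fun _ _ => sum_nonneg fun _ _ => ind_nonneg _
  set a : ℝ := (A.card : ℝ) with ha
  set b : ℝ := (B.card : ℝ) with hb
  have b0 : 0 < b := by linarith
  have g1 := mul_nonneg b0.le g0
  have H : ∀ x ∈ A, ∑ y ∈ A, ind (Nl E B x y) ≤ b / 500000 := fun x hx => by
    have m := (markov A (nv E B x) (0.02 * b) fun u _ => nv_nonneg x u).trans
      ((sum_kk x).symm.trans_le (h.hA x hx))
    refine le_of_mul_le_mul_left (a := 0.02 * b) (m.trans ?_) (by linarith)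
    nlinarith
  have t := sum_le_sum fun z (_ : z ∈ B) => hE.tetra (A := A) z
  have e1 : ∑ z ∈ B, ∑ x ∈ A, ∑ y ∈ A, ∑ u ∈ A, (eN E x y u : ℝ) *
      (1 - ((1 - eN E x y z) + (1 - eN E y u z) + (1 - eN E x u z))) =
      b * S3 E A - 3 * ∑ x ∈ A, ∑ y ∈ A, nv E B x y * cd E A x y := by
    rw [← hE.pair_sum, sum_comm]
    simp only [S3, mul_sum, ← sum_sub_distrib]
    refine sum_congr rfl fun x _ => ?_
    rw [sum_comm]
    refine sum_congr rfl fun y _ => ?_
    rw [sum_comm]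
    refine sum_congr rfl fun u _ => ?_
    rw [← mul_sum, sum_sub_distrib, sum_add_distrib, sum_add_distrib, sum_const, nsmul_eq_mul]
    simp only [nv, ← hb]
    ring
  have e2 : ∑ x ∈ A, ∑ y ∈ A, nv E B x y * cd E A x y ≤ b / 250000 * Mm E A B := by
    simp only [hE.Mm_eq, mul_sum]
    refine sum_le_sum fun x hx => sum_le_sum fun y hy => ?_
    by_cases c : x = y
    · subst c
      rw [hE.cd_self, ind_neg (by simp)]; simp
    · rw [ind_pos c, one_mul, mul_comm]
      exact mul_le_mul_of_nonneg_right ((hE.codeg b0 H hx hy).trans (by linarith)) (nv_nonneg x y)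
  have e3 : ∑ z ∈ B, ∑ x ∈ A, kk E A x z * (a - kk E A x z) ≤
      a ^ 2 * b + a * (Mm E A B - 0.98 * MV E A B) := by
    have : a ^ 2 * b + a * (Mm E A B - 0.98 * MV E A B) = ∑ x ∈ A, ∑ z ∈ B,
        (a + a * ((kk E A x z - 1) - 0.98 * (ind (Hv E A x z) * (kk E A x z - 1)))) := by
      simp only [sum_add_distrib, sum_const, nsmul_eq_mul, ← mul_sum, sum_sub_distrib (kk E A _ · - 1),
        sum_sub_distrib (fun x => ∑ z ∈ B, (kk E A x z - 1)), Mm, MV, ← ha, ← hb]
      ring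
    rw [this, sum_comm]
    refine sum_le_sum fun x hx => sum_le_sum fun z _ => ?_
    have k1 := hE.one_le_kk hx z
    by_cases c : Hv E A x z
    · rw [ind_pos c]
      have : kk E A x z * (a - kk E A x z) ≤ kk E A x z * (0.02 * a) :=
        mul_le_mul_of_nonneg_left (by unfold Hv at c; linarith) (by linarith)
      linarith
    · rw [ind_neg c]
      nlinarith [sq_nonneg (kk E A x z)]
  have e4 : a * (Mm E A B - 0.98 * MV E A B) ≤ 1.74 * b * (Mm E A B - 0.98 * MV E A B) :=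
    mul_le_mul_of_nonneg_right ab (by linarith)
  have e5 : S3 E A ≤ a ^ 2 + 1.74 * (Mm E A B - 0.98 * MV E A B) + 0.0001 * Mm E A B := by
    refine le_of_mul_le_mul_left (a := b) ?_ b0
    have := mul_nonneg b0.le M0
    rw [e1] at t
    linarith
  have e6 := h.abb'
  linarith

/-- A 3-graph that is linear on a set of vertices. -/
structure Lin (F : V → V → V → Bool) (A : Finset V) : Prop where
  s1 : ∀ a b c, F a b c = F b a c
  s2 : ∀ a b c, F a b c = F a c b
  irr : ∀ a c, F a a c = false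
  lin : ∀ x ∈ A, ∀ y ∈ A, ∀ u v, F x u v = true → F y u v = true → x = y

open Classical in
/-- The edges all of whose pairs are light. -/
noncomputable def F0 (E : V → V → V → Bool) (B : Finset V) (x y u : V) : Bool :=
  E x y u && decide (¬ Nl E B x y ∧ ¬ Nl E B y u ∧ ¬ Nl E B x u)

open Classical in
/-- The edges that avoid a set of vertices. -/
noncomputable def F1 (F : V → V → V → Bool) (U : V → Prop) (x y u : V) : Bool :=
  F x y u && decide (¬ U x ∧ ¬ U y ∧ ¬ U u)

theorem F0_iff {x y u : V} : F0 E B x y u = true ↔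
    E x y u = true ∧ ¬ Nl E B x y ∧ ¬ Nl E B y u ∧ ¬ Nl E B x u := by
  simp only [F0, Bool.and_eq_true, decide_eq_true_eq]

theorem F1_iff {U : V → Prop} {x y u : V} :
    F1 F U x y u = true ↔ F x y u = true ∧ ¬ U x ∧ ¬ U y ∧ ¬ U u := by
  simp only [F1, Bool.and_eq_true, decide_eq_true_eq]

theorem Free.Nl_comm (hE : Free E) (x y : V) : Nl E B x y ↔ Nl E B y x := by
  unfold Nl; rw [hE.nv_comm]

theorem Free.Tw_comm (hE : Free E) (x y : V) : Tw E B x y ↔ Tw E B y x := by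
  unfold Tw; rw [hE.nv_comm, ne_comm]

theorem Free.F0_s1 (hE : Free E) (a b c : V) : F0 E B a b c = F0 E B b a c := by
  rw [Bool.eq_iff_iff, F0_iff, F0_iff, hE.s1 a b c, hE.Nl_comm a b]
  tauto

theorem Free.F0_s2 (hE : Free E) (a b c : V) : F0 E B a b c = F0 E B a c b := by
  rw [Bool.eq_iff_iff, F0_iff, F0_iff, hE.s2 a b c, hE.Nl_comm b c]
  tauto

theorem Free.conflict (hE : Free E) {x y u v : V} (h1 : F0 E B x y u = true)
    (h2 : F0 E B x y v = true) (h : v ≠ u) : Tw E B v u := by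
  rw [F0_iff] at h1 h2
  have t := hE.three (B := B) (x := v) (by rw [hE.c312, h2.1]) h1.1
  have n1 := h1.2.2.1
  have n2 := h2.2.2.2
  rw [hE.Nl_comm] at n2
  unfold Nl at n1 n2
  exact ⟨h, by linarith⟩

theorem sum_ind_eq (u : V) : ∑ y ∈ A, ind (u = y) ≤ 1 := by
  classical
  have : ∀ y ∈ A, ind (u = y) = if u = y then 1 else 0 := fun y _ => by
    by_cases c : u = y
    · rw [ind_pos c, if_pos c]
    · rw [ind_neg c, if_neg c]
  rw [sum_congr rfl this, sum_ite_eq]
  split_ifs <;> norm_num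

theorem Sp.small [LinearOrder V] (h : Sp E A B) (hM : Mm E A B ≤ 10 * A.card) :
    ∃ F, Lin F A ∧ S3 E A + 3 * ∑ x ∈ A, ∑ z ∈ B, ∑ y ∈ B, (eN E x z y : ℝ) ≤
      S3 F A + 2.8 * Mm E A B := by
  have hE := h.toFree
  have a0 := h.big
  have ab := h.ab
  have M0 := hE.Mm_nonneg (A := A) (B := B)
  have V0 := hE.MV_nonneg (A := A) (B := B)
  have ov := h.overlap
  set a : ℝ := (A.card : ℝ) with ha
  set b : ℝ := (B.card : ℝ) with hb
  set g := ∑ x ∈ A, ∑ y ∈ A, ind (Tw E B x y) with hg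
  have g0 : 0 ≤ g := sum_nonneg fun _ _ => sum_nonneg fun _ _ => ind_nonneg _
  have b0 : 0 < b := by linarith
  have g1 : g ≤ 19 := by
    refine le_of_mul_le_mul_left (a := b) ?_ b0
    linarith
  set r : V → V → ℝ := fun x y => ind (0.02 * b ≤ ind (x ≠ y) * nv E B x y) with hr
  have r0 : ∀ x, 0 ≤ ∑ y ∈ A, r x y := fun _ => sum_nonneg fun _ _ => ind_nonneg _
  have r1 : 0.02 * b * ∑ x ∈ A, ∑ y ∈ A, r x y ≤ Mm E A B := by
    rw [hE.Mm_eq, mul_sum]
    exact sum_le_sum fun x _ => markov A _ _ fun y _ => mul_nonneg (ind_nonneg _) (nv_nonneg x y)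
  have r2 : ∀ x y, x ≠ y → ind (Nl E B x y) = r x y := fun x y c => by
    simp only [hr, ind_pos c, one_mul]; rfl
  have H : ∀ x ∈ A, ∑ y ∈ A, ind (Nl E B x y) ≤ 871 := fun x hx => by
    have m1 : ∑ y ∈ A, ind (Nl E B x y) ≤ ∑ y ∈ A, (ind (x = y) + r x y) :=
      sum_le_sum fun y _ => by
        by_cases c : x = y
        · rw [ind_pos c]
          exact (ind_le _).trans (le_add_of_nonneg_right (ind_nonneg _))
        · rw [ind_neg c, zero_add, r2 x y c]
    have m2 := single_le_sum (f := fun x => ∑ y ∈ A, r x y) (fun x _ => r0 x) hx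
    have m3 : ∑ x ∈ A, ∑ y ∈ A, r x y ≤ 870 := by
      refine le_of_mul_le_mul_left (a := 0.02 * b) ?_ (by linarith)
      linarith
    rw [sum_add_distrib] at m1
    linarith [sum_ind_eq (A := A) x]
  have cdl : ∀ x ∈ A, ∀ y ∈ A, cd E A x y ≤ 1742 := fun x hx y hy =>
    (hE.codeg b0 H hx hy).trans (by norm_num)
  have s2 : ∑ x ∈ A, ∑ y ∈ A, ind (Nl E B x y) * cd E A x y ≤ Mm E A B / 1000 := by
    have m1 : ∑ x ∈ A, ∑ y ∈ A, ind (Nl E B x y) * cd E A x y ≤
        1742 * ∑ x ∈ A, ∑ y ∈ A, r x y := by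
      simp only [mul_sum]
      refine sum_le_sum fun x hx => sum_le_sum fun y hy => ?_
      by_cases c : x = y
      · subst c
        rw [hE.cd_self, mul_zero]
        exact mul_nonneg (by norm_num) (ind_nonneg _)
      · rw [r2 x y c, mul_comm]
        exact mul_le_mul_of_nonneg_right (cdl x hx y hy) (ind_nonneg _)
    have m2 : 0 ≤ ∑ x ∈ A, ∑ y ∈ A, r x y := sum_nonneg fun x _ => r0 x
    have m3 : 100000000 * ∑ x ∈ A, ∑ y ∈ A, r x y ≤ b * ∑ x ∈ A, ∑ y ∈ A, r x y :=
      mul_le_mul_of_nonneg_right (by linarith) m2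
    linarith
  set G : V → Prop := fun u => ∃ v ∈ A, Tw E B u v with hG
  have s3 : ∑ u ∈ A, ind (G u) ≤ g := sum_le_sum fun u _ => by
    by_cases c : G u
    · obtain ⟨v, hv, q⟩ := id c
      rw [ind_pos c, ← ind_pos q]
      exact single_le_sum (f := fun v => ind (Tw E B u v)) (fun _ _ => ind_nonneg _) hv
    · rw [ind_neg c]; exact sum_nonneg fun _ _ => ind_nonneg _
  have s4 : ∀ x ∈ A, ∑ y ∈ A, ∑ u ∈ A, (eN (F0 E B) x y u : ℝ) ≤ 1.001 * a := fun x hx => by
    have m1 : ∀ y ∈ A, ∑ u ∈ A, (eN (F0 E B) x y u : ℝ) ≤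
        1 + ∑ u ∈ A, ind (G u) * eN E x u y := fun y _ => by
      have i0 : ∀ u, 0 ≤ ind (G u) * eN E x u y := fun u =>
        mul_nonneg (ind_nonneg _) (eN_nonneg _ _ _)
      by_cases c : ∃ v, F0 E B x y v = true ∧ ¬ G v
      · obtain ⟨v, c1, c2⟩ := c
        have : ∑ u ∈ A, (eN (F0 E B) x y u : ℝ) ≤ ∑ u ∈ A, ind (v = u) := sum_le_sum fun u hu => by
          cases q : F0 E B x y u
          · rw [eN_false q]; exact ind_nonneg _
          · rw [eN_true q, ind_pos]
            by_contra d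
            exact c2 ⟨u, hu, hE.conflict q c1 d⟩
        linarith [sum_ind_eq (A := A) v, sum_nonneg fun u (_ : u ∈ A) => i0 u]
      · refine le_trans (sum_le_sum fun u _ => ?_) (le_add_of_nonneg_left zero_le_one)
        cases q : F0 E B x y u
        · rw [eN_false q]; exact i0 u
        · rw [eN_true q, ind_pos (by by_contra d; exact c ⟨u, q, d⟩),
            eN_true (by rw [hE.s2]; exact (F0_iff.1 q).1), mul_one]
    have m2 := sum_le_sum m1
    rw [sum_add_distrib, sum_const, nsmul_eq_mul, mul_one,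
      sum_comm (f := fun y u => ind (G u) * eN E x u y)] at m2
    have m3 : ∑ u ∈ A, ∑ y ∈ A, ind (G u) * eN E x u y ≤ 1742 * ∑ u ∈ A, ind (G u) := by
      rw [mul_sum]
      refine sum_le_sum fun u hu => ?_
      rw [← mul_sum, mul_comm]
      exact mul_le_mul_of_nonneg_right (cdl x hx u hu) (ind_nonneg _)
    linarith
  set U : V → Prop := fun y => ∃ x ∈ A, x < y ∧ Tw E B x y with hU
  have s5 : 2 * ∑ y ∈ A, ind (U y) ≤ g := by
    have m1 : ∑ y ∈ A, ind (U y) ≤ ∑ y ∈ A, ∑ x ∈ A, ind (x < y ∧ Tw E B x y) :=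
      sum_le_sum fun y _ => by
        by_cases c : U y
        · obtain ⟨x, hx, q⟩ := id c
          rw [ind_pos c, ← ind_pos q]
          exact single_le_sum (f := fun x => ind (x < y ∧ Tw E B x y)) (fun _ _ => ind_nonneg _) hx
        · rw [ind_neg c]; exact sum_nonneg fun _ _ => ind_nonneg _
    have m2 : ∑ x ∈ A, ∑ y ∈ A, (ind (x < y ∧ Tw E B x y) + ind (y < x ∧ Tw E B y x)) ≤ g :=
      sum_le_sum fun x _ => sum_le_sum fun y _ => by
        by_cases c : x < y ∧ Tw E B x y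
        · rw [ind_pos c, ind_pos c.2, ind_neg fun d => lt_asymm c.1 d.1, add_zero]
        · rw [ind_neg c, zero_add]
          by_cases d : y < x ∧ Tw E B y x
          · rw [ind_pos d, ind_pos ((hE.Tw_comm x y).2 d.2)]
          · rw [ind_neg d]; exact ind_nonneg _
    simp only [sum_add_distrib] at m2
    rw [sum_comm] at m2
    linarith
  refine ⟨F1 (F0 E B) U, ⟨fun x y u => ?_, fun x y u => ?_, fun x u => ?_, ?_⟩, ?_⟩
  · rw [Bool.eq_iff_iff, F1_iff, F1_iff, hE.F0_s1 x y u]; tauto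
  · rw [Bool.eq_iff_iff, F1_iff, F1_iff, hE.F0_s2 x y u]; tauto
  · simp [F1, F0, hE.irr]
  · intro x hx y hy u v h1 h2
    rw [F1_iff, hE.F0_s1, hE.F0_s2] at h1 h2
    by_contra c
    have t := hE.conflict h2.1 h1.1 c
    rcases lt_or_gt_of_ne c with d | d
    · exact h2.2.1 ⟨x, hx, d, t⟩
    · exact h1.2.1 ⟨y, hy, d, (hE.Tw_comm y x).2 t⟩
  · have p : ∀ x y u, (eN E x y u : ℝ) ≤ eN (F1 (F0 E B) U) x y u +
        eN E x y u * (ind (Nl E B x y) + ind (Nl E B y u) + ind (Nl E B x u)) +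
        (eN (F0 E B) x y u * ind (U x) + eN (F0 E B) x y u * ind (U y) +
          eN (F0 E B) x y u * ind (U u)) := fun x y u => by
      have i1 := ind_nonneg (Nl E B x y)
      have i2 := ind_nonneg (Nl E B y u)
      have i3 := ind_nonneg (Nl E B x u)
      have j0 := eN_nonneg (E := F1 (F0 E B) U) x y u
      have j1 := ind_nonneg (U x)
      have j2 := ind_nonneg (U y)
      have j3 := ind_nonneg (U u)
      cases q0 : F0 E B x y u
      · rw [eN_false q0]
        cases q : E x y u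
        · rw [eN_false q]; linarith
        · rw [eN_true q]
          have : Nl E B x y ∨ Nl E B y u ∨ Nl E B x u := by
            by_contra d
            push Not at d
            rw [F0_iff.2 ⟨q, d⟩] at q0
            exact absurd q0 (by simp)
          rcases this with d | d | d <;> rw [ind_pos d] <;> linarith
      · rw [eN_true q0, eN_true (F0_iff.1 q0).1]
        by_cases d : ¬ U x ∧ ¬ U y ∧ ¬ U u
        · rw [eN_true (F1_iff.2 ⟨q0, d⟩)]; linarith
        · have : U x ∨ U y ∨ U u := by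
            by_contra c
            exact d ⟨fun q => c (Or.inl q), fun q => c (Or.inr (Or.inl q)),
              fun q => c (Or.inr (Or.inr q))⟩
          rcases this with d | d | d <;> rw [ind_pos d] <;> linarith
    have t := sum_le_sum fun x (_ : x ∈ A) => sum_le_sum fun y (_ : y ∈ A) =>
      sum_le_sum fun u (_ : u ∈ A) => p x y u
    have e1 := sum_rot (A := A) (hE.F0_s1 (B := B)) hE.F0_s2 (fun x _ _ => ind (U x))
    have e2 := sum_rot (A := A) (hE.F0_s1 (B := B)) hE.F0_s2 (fun _ y _ => ind (U y))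
    have e3 : ∑ x ∈ A, ∑ y ∈ A, ∑ u ∈ A, (eN (F0 E B) x y u : ℝ) * ind (U x) ≤
        1.001 * a * ∑ x ∈ A, ind (U x) := by
      simp only [← sum_mul]
      rw [mul_sum]
      exact sum_le_sum fun x hx => mul_le_mul_of_nonneg_right (s4 x hx) (ind_nonneg _)
    simp only [sum_add_distrib, hE.pair_sum fun x y => ind (Nl E B x y), e1, e2] at t
    have e4 := mul_le_mul_of_nonneg_left s5 (show 0 ≤ a by linarith)
    have e5 := mul_le_mul_of_nonneg_right ab g0
    have e6 := h.abb'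
    have e7 := mul_nonneg b0.le g0
    unfold S3
    linarith

end Pool.Agent.P.MP_fc6a29_co
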