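import Pool.Agent.P.MP_fc6a29_co.TabC
import Pool.Agent.P.MP_fc6a29_co.Tab4

/-! The certificate on six vertices. -/

namespace Pool.Agent.P.MP_fc6a29_co

open Finset Equiv

noncomputable section

def y0_0 : List ℤ := [.ofNat 1875519]
def y0_1 : List ℤ := [.negSucc 7174691, .ofNat 21345164]
def y0_2 : List ℤ := [.negSucc 7174506, .negSucc 4560943, .ofNat 20852172]
def y0_3 : List ℤ := [.negSucc 12012663, .ofNat 7962097, .ofNat 9891848, .ofNat 844781]
def y0_4 : List ℤ := [.negSucc 7174496, .negSucc 4560948, .negSucc 5666297, .negSucc 19986544, .ofNat 1801618]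
def y0_5 : List ℤ := [.negSucc 12012658, .ofNat 7962094, .negSucc 3497685, .negSucc 9255180, .ofNat 815531, .ofNat 73508]
def y0_6 : List ℤ := [.negSucc 12012565, .negSucc 5118249, .ofNat 7030858, .negSucc 9255180, .ofNat 815531, .negSucc 24003, .ofNat 69479]
def y0_7 : List ℤ := [.negSucc 21303918, .ofNat 6507601, .ofNat 8084874, .negSucc 10638789, .ofNat 980630, .ofNat 27701, .ofNat 38879, .ofNat 14050]
def y0_8 : List ℤ := [.negSucc 7174551, .negSucc 4560812, .negSucc 5666301, .ofNat 7468735, .ofNat 16746158, .negSucc 4496965, .negSucc 6311479, .ofNat 9211, .ofNat 2536760]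
def y0_9 : List ℤ := [.negSucc 12012684, .ofNat 7962155, .negSucc 2385400, .ofNat 3212326, .ofNat 8163660, .negSucc 2714010, .negSucc 2650345, .ofNat 7737, .ofNat 1228662, .ofNat 92054]
def y0_10 : List ℤ := [.negSucc 12012600, .negSucc 4031586, .ofNat 7268522, .ofNat 3212325, .ofNat 8163662, .negSucc 1618774, .negSucc 3430708, .ofNat 7737, .ofNat 1228662, .negSucc 90114, .ofNat 18795]
def y0_11 : List ℤ := [.ofNat 4612289, .ofNat 1765328, .ofNat 2193172, .ofNat 1077358, .ofNat 2402435, .negSucc 670458, .negSucc 940987, .negSucc 3692, .ofNat 365762, .negSucc 217, .negSucc 2114, .ofNat 14185]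
def y0_12 : List ℤ := [.negSucc 1426940, .negSucc 9564982, .negSucc 11883244, .negSucc 13128250, .ofNat 19419832, .negSucc 4751977, .negSucc 6669388, .ofNat 943, .ofNat 2663598, .negSucc 183, .negSucc 1779, .ofNat 14850, .ofNat 21610]
def y0_13 : List ℤ := [.negSucc 6645635, .ofNat 16113540, .negSucc 13700384, .negSucc 11317226, .ofNat 16738382, .negSucc 8305203, .negSucc 2757258, .ofNat 187, .ofNat 2294359, .ofNat 687385, .negSucc 73030, .ofNat 17244, .ofNat 16199, .ofNat 20899174]
def y0_14 : List ℤ := [.negSucc 6645413, .negSucc 16827039, .ofNat 12813922, .negSucc 11317231, .ofNat 16738393, .ofNat 106002, .negSucc 8750298, .ofNat 187, .ofNat 2294359, .negSucc 687815, .ofNat 68856, .ofNat 17244, .ofNat 16199, .negSucc 1293187, .ofNat 20859126]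
def y0_15 : List ℤ := [.ofNat 31623423, .ofNat 4803179, .ofNat 5967291, .negSucc 7584446, .ofNat 14516502, .negSucc 3740915, .negSucc 5250365, .negSucc 26495, .ofNat 2029889, .negSucc 1702, .negSucc 16501, .ofNat 47495, .ofNat 35131, .ofNat 13, .ofNat 14, .ofNat 33788]
def y0_16 : List ℤ := [.negSucc 7174495, .negSucc 4560891, .negSucc 4172054, .ofNat 6262613, .negSucc 9228858, .ofNat 15708137, .negSucc 6311478, .ofNat 9211, .negSucc 1268096, .negSucc 2176911, .ofNat 231101, .negSucc 22069, .negSucc 16797, .negSucc 487, .ofNat 446, .negSucc 13867, .ofNat 183756]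
def y0_17 : List ℤ := [.negSucc 12012655, .ofNat 7962115, .negSucc 1725421, .ofNat 2531655, .negSucc 4950273, .ofNat 7491891, .negSucc 2650344, .ofNat 7737, .negSucc 693188, .negSucc 1008877, .ofNat 108940, .negSucc 12846, .negSucc 10410, .negSucc 228, .ofNat 208, .negSucc 7683, .ofNat 86029, .ofNat 11635]
def y0_18 : List ℤ := [.negSucc 1426890, .negSucc 9565060, .ofNat 17490190, .ofNat 6564493, .negSucc 9705362, .ofNat 16434048, .negSucc 6669387, .ofNat 943, .negSucc 1331778, .negSucc 2286671, .ofNat 237620, .negSucc 9038, .negSucc 9596, .negSucc 503, .ofNat 469, .negSucc 3542, .ofNat 189792, .ofNat 3254, .ofNat 16065]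
def y0_19 : List ℤ := [.negSucc 6645585, .ofNat 16113461, .ofNat 16016468, .ofNat 8605753, .negSucc 12727327, .ofNat 13128517, .negSucc 2757257, .ofNat 187, .negSucc 1747732, .negSucc 1625837, .ofNat 169166, .negSucc 6924, .negSucc 10677, .negSucc 5266188, .ofNat 955148, .ofNat 1452, .ofNat 120987, .ofNat 4733, .ofNat 4380, .ofNat 20202265]
def y0_20 : List ℤ := [.negSucc 12012570, .negSucc 4031625, .negSucc 4348746, .negSucc 6626205, .negSucc 3058929, .ofNat 7761503, .negSucc 3430707, .ofNat 7737, .negSucc 535149, .negSucc 1099517, .ofNat 117322, .negSucc 12365, .negSucc 7488, .negSucc 246, .ofNat 225, .negSucc 9061, .ofNat 92546, .ofNat 2136, .ofNat 2451, .ofNat 0, .ofNat 11264]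
def y0_21 : List ℤ := [.ofNat 4612299, .ofNat 1765316, .negSucc 1421024, .negSucc 1983464, .negSucc 1088975, .ofNat 2247798, .negSucc 940987, .negSucc 3692, .negSucc 182968, .negSucc 314248, .ofNat 30192, .ofNat 3535, .ofNat 2481, .negSucc 68, .ofNat 67, .ofNat 2550, .ofNat 26738, .ofNat 691, .ofNat 768, .ofNat 0, .ofNat 419, .ofNat 10229]
def y0_22 : List ℤ := [.negSucc 6645369, .negSucc 16827099, .ofNat 8811553, .negSucc 16075974, .negSucc 2317027, .ofNat 15199082, .negSucc 8750298, .ofNat 187, .negSucc 546744, .negSucc 2313735, .ofNat 237225, .negSucc 784, .ofNat 1499, .ofNat 1278308, .negSucc 2828815, .negSucc 856, .ofNat 202286, .ofNat 2903, .ofNat 10165, .negSucc 870592, .ofNat 3932, .ofNat 841, .ofNat 20648828]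
def y0_23 : List ℤ := [.ofNat 31623468, .ofNat 4803116, .ofNat 6902257, .negSucc 8746657, .negSucc 6257247, .ofNat 12432091, .negSucc 5250364, .negSucc 26495, .negSucc 1015590, .negSucc 1744582, .ofNat 164376, .ofNat 28390, .ofNat 18482, .negSucc 377, .ofNat 371, .ofNat 21161, .ofNat 146453, .ofNat 2958, .ofNat 7065, .ofNat 3, .ofNat 1280, .ofNat 2262, .ofNat 3, .ofNat 15188]
def y0_24 : List ℤ := [.negSucc 12012585, .negSucc 5118161, .negSucc 4586413, .ofNat 6398022, .ofNat 3468728, .ofNat 5180349, .negSucc 5792858, .ofNat 12286, .ofNat 584543, .negSucc 1002504, .ofNat 110952, .negSucc 13880, .negSucc 8914, .negSucc 225, .ofNat 204, .negSucc 10474, .ofNat 84327, .ofNat 1881, .ofNat 2126, .ofNat 0, .ofNat 1202, .negSucc 206, .ofNat 0, .negSucc 1227, .ofNat 11206]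
def y0_25 : List ℤ := [.negSucc 21303942, .ofNat 6507701, .negSucc 5237695, .ofNat 7312144, .ofNat 4023289, .ofNat 5996001, .negSucc 6682339, .ofNat 16454, .ofNat 674497, .negSucc 1156536, .ofNat 129141, .negSucc 16272, .negSucc 11367, .negSucc 262, .ofNat 238, .negSucc 11683, .ofNat 98662, .ofNat 3545, .ofNat 1477, .ofNat 1, .ofNat 1382, .negSucc 23, .ofNat 0, .negSucc 1109, .ofNat 2642, .ofNat 11961]
def y0_26 : List ℤ := [.negSucc 6645420, .negSucc 16826972, .ofNat 8811550, .ofNat 9732180, .ofNat 11730996, .ofNat 10971322, .negSucc 14683947, .ofNat 8595, .ofNat 1834399, .negSucc 2313042, .ofNat 243940, .negSucc 1538, .ofNat 203, .ofNat 1278308, .negSucc 2828816, .negSucc 2146, .ofNat 202298, .ofNat 2989, .ofNat 10053, .negSucc 870592, .ofNat 1707, .negSucc 129, .ofNat 10641, .ofNat 681, .ofNat 3986, .ofNat 2488, .ofNat 20648826]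
def y0_27 : List ℤ := [.ofNat 31623429, .ofNat 4803203, .ofNat 9962746, .ofNat 9376270, .ofNat 5153199, .ofNat 7416706, .negSucc 8821162, .negSucc 21436, .ofNat 882017, .negSucc 1478246, .ofNat 141053, .ofNat 30986, .ofNat 19705, .negSucc 317, .ofNat 316, .ofNat 22353, .ofNat 123788, .ofNat 2451, .ofNat 6705, .ofNat 3, .negSucc 750, .ofNat 1400, .ofNat 1, .ofNat 5957, .ofNat 892, .ofNat 1139, .ofNat 2, .ofNat 13105]
def y0_28 : List ℤ := [.negSucc 6645402, .negSucc 16826990, .negSucc 10709022, .negSucc 5430384, .ofNat 8062629, .ofNat 14871668, .negSucc 14683947, .ofNat 8595, .ofNat 1104092, .negSucc 2730988, .ofNat 285838, .negSucc 6945, .negSucc 474, .negSucc 1293650, .ofNat 429432, .negSucc 7853, .ofNat 224513, .ofNat 4227, .ofNat 6986, .ofNat 965619, .ofNat 4277, .ofNat 886, .negSucc 2758634, .ofNat 2783, .ofNat 3986, .ofNat 2488, .negSucc 2757213, .ofNat 1424, .ofNat 20463914]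
def y0_29 : List ℤ := [.ofNat 31623437, .ofNat 4803199, .negSucc 11249021, .negSucc 6633708, .ofNat 6339017, .ofNat 7616053, .negSucc 8821162, .negSucc 21436, .ofNat 848937, .negSucc 1497179, .ofNat 141431, .ofNat 29892, .ofNat 23096, .negSucc 325, .ofNat 322, .ofNat 18985, .ofNat 127322, .ofNat 2866, .ofNat 3632, .ofNat 2, .ofNat 1632, .ofNat 2212, .ofNat 2, .ofNat 7131, .ofNat 892, .ofNat 1139, .ofNat 1, .ofNat 3395, .ofNat 2, .ofNat 12658]
def y0_30 : List ℤ := [.negSucc 8581589, .negSucc 3746215, .ofNat 1098120, .negSucc 1283993, .ofNat 1919407, .ofNat 2309657, .negSucc 2581401, .ofNat 5669, .ofNat 260889, .negSucc 447537, .ofNat 49128, .negSucc 4909, .negSucc 2696, .negSucc 99, .ofNat 91, .negSucc 4013, .ofNat 37176, .ofNat 735, .ofNat 1482, .ofNat 0, .ofNat 804, .negSucc 135, .ofNat 1, .negSucc 460, .ofNat 777, .ofNat 571, .ofNat 1, .negSucc 193, .ofNat 1, .negSucc 148, .ofNat 10233]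
def y0_31 : List ℤ := [.ofNat 23710823, .ofNat 4029565, .ofNat 5788421, .negSucc 6782691, .ofNat 9956883, .ofNat 11967218, .negSucc 13903961, .negSucc 20643, .ofNat 1372621, .negSucc 2358647, .ofNat 230322, .ofNat 36197, .ofNat 26566, .negSucc 510, .ofNat 501, .ofNat 23718, .ofNat 198106, .ofNat 4433, .ofNat 8720, .ofNat 3, .ofNat 1842, .ofNat 2174, .ofNat 4, .ofNat 8175, .ofNat 1508, .ofNat 1949, .ofNat 3, .ofNat 4884, .ofNat 3, .ofNat 3747, .ofNat 609, .ofNat 12290]
def y0_32 : List ℤ := [.negSucc 7174466, .negSucc 3101149, .negSucc 5347000, .ofNat 6262627, .negSucc 9228894, .negSucc 11095033, .ofNat 12785956, .ofNat 9211, .negSucc 1268096, .ofNat 2178239, .negSucc 218240, .negSucc 22069, .negSucc 16797, .ofNat 475, .negSucc 459, .negSucc 13867, .negSucc 182968, .negSucc 4401, .negSucc 7595, .negSucc 2, .negSucc 2133, .negSucc 1546, .negSucc 2, .negSucc 5713, .negSucc 1865, .negSucc 2388, .negSucc 2, .negSucc 3505, .negSucc 2, .negSucc 2688, .negSucc 837, .negSucc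 3629, .ofNat 11369]
def y0_33 : List ℤ := [.negSucc 1427054, .ofNat 19130085, .negSucc 5606894, .ofNat 6564508, .negSucc 9705400, .negSucc 11670370, .ofNat 13355196, .ofNat 943, .negSucc 1331778, .ofNat 2287018, .negSucc 234269, .negSucc 9038, .negSucc 9596, .ofNat 499, .negSucc 473, .negSucc 3542, .negSucc 189720, .negSucc 2626, .negSucc 9093, .ofNat 0, .negSucc 2810, .negSucc 656, .negSucc 3, .negSucc 3106, .negSucc 2547, .negSucc 952, .negSucc 3, .negSucc 1988, .negSucc 3, .negSucc 1525, .negSucc 1554, .negSucc 3048, .ofNat 2317, .ofNat 12533]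
def y0_34 : List ℤ := [.negSucc 12012556, .negSucc 3386888, .ofNat 7409552, .ofNat 2531662, .negSucc 4950289, .negSucc 4951558, .ofNat 6215695, .ofNat 7737, .negSucc 693189, .ofNat 1009868, .negSucc 99343, .negSucc 12846, .negSucc 10410, .ofNat 222, .negSucc 214, .negSucc 7683, .negSucc 85938, .negSucc 2179, .negSucc 2141, .negSucc 0, .negSucc 1194, .negSucc 1146, .negSucc 0, .negSucc 3464, .negSucc 1055, .negSucc 1343, .negSucc 0, .negSucc 1899, .negSucc 0, .negSucc 2662, .negSucc 74, .negSucc 1486, .ofNat 847, .ofNat 193, .ofNat 10493]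
def y0_35 : List ℤ := [.negSucc 6645528, .ofNat 12203514, .ofNat 19163651, .ofNat 8605764, .negSucc 12727354, .negSucc 6893276, .ofNat 11508401, .ofNat 187, .negSucc 1747733, .ofNat 1626128, .negSucc 166354, .negSucc 6924, .negSucc 10677, .ofNat 1279176, .negSucc 5196994, .ofNat 1452, .negSucc 121049, .negSucc 2372, .negSucc 1525, .negSucc 2424194, .negSucc 2960, .negSucc 1054, .ofNat 400859, .negSucc 2186, .negSucc 2494, .negSucc 1489, .ofNat 400653, .negSucc 618, .negSucc 4413762, .negSucc 3423, .negSucc 199, .negSucc 652, .ofNat 299, .ofNat 1038, .ofNat 1428, .ofNat 19556387]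
def y0_36 : List ℤ := [.negSucc 12012554, .negSucc 3386887, .negSucc 4867695, .negSucc 6626198, .negSucc 3058947, .negSucc 5777183, .ofNat 6215695, .ofNat 7737, .negSucc 535149, .ofNat 1100310, .negSucc 109644, .negSucc 12365, .negSucc 7488, .ofNat 240, .negSucc 232, .negSucc 9061, .negSucc 92432, .negSucc 2129, .negSucc 4203, .negSucc 1, .ofNat 50, .negSucc 737, .negSucc 0, .negSucc 2980, .negSucc 1055, .negSucc 1343, .negSucc 0, .negSucc 3063, .negSucc 0, .negSucc 1145, .negSucc 74, .negSucc 1486, .ofNat 847, .ofNat 193, .ofNat 316, .ofNat 0, .ofNat 10488]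
def y0_37 : List ℤ := [.negSucc 6645534, .ofNat 12203533, .negSucc 14555570, .negSucc 16075959, .negSucc 2317066, .negSucc 13233917, .ofNat 11508401, .ofNat 187, .negSucc 546744, .ofNat 2313431, .negSucc 240181, .negSucc 784, .ofNat 1499, .negSucc 2902493, .ofNat 1100819, .negSucc 856, .negSucc 202311, .negSucc 2879, .negSucc 10894, .ofNat 514189, .negSucc 435, .negSucc 158, .negSucc 4977300, .negSucc 1202, .negSucc 2494, .negSucc 1489, .negSucc 4427735, .negSucc 3400, .negSucc 192298, .ofNat 586, .negSucc 199, .negSucc 652, .ofNat 299, .ofNat 1038, .negSucc 303, .negSucc 686273, .ofNat 1426, .ofNat 19544342]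
def y0_38 : List ℤ := [.ofNat 4612330, .negSucc 1765422, .ofNat 1420916, .negSucc 1983462, .negSucc 1088980, .negSucc 1623428, .ofNat 1817287, .negSucc 3692, .negSucc 182968, .ofNat 313794, .negSucc 34605, .ofNat 3535, .ofNat 2481, .ofNat 71, .negSucc 64, .ofNat 2550, .negSucc 26762, .negSucc 932, .negSucc 439, .ofNat 0, .negSucc 341, .negSucc 27, .ofNat 0, .ofNat 160, .negSucc 679, .negSucc 925, .ofNat 0, .negSucc 273, .ofNat 0, .negSucc 209, .negSucc 111, .negSucc 242, .ofNat 282, .negSucc 16, .ofNat 171, .ofNat 0, .ofNat 166, .ofNat 0, .ofNat 10084]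
def y0_39 : List ℤ := [.ofNat 31623493, .ofNat 5716491, .ofNat 6167084, .negSucc 8746646, .negSucc 6257276, .negSucc 9022284, .ofNat 10036019, .negSucc 26495, .negSucc 1015590, .ofNat 1741394, .negSucc 195288, .ofNat 28390, .ofNat 18482, .ofNat 394, .negSucc 353, .ofNat 21161, .negSucc 146694, .negSucc 3813, .negSucc 3460, .ofNat 0, .negSucc 2424, .ofNat 510, .negSucc 0, .ofNat 2773, .negSucc 4035, .negSucc 3960, .negSucc 1, .negSucc 178, .negSucc 2, .negSucc 136, .negSucc 1179, .negSucc 995, .ofNat 1471, .ofNat 2016, .ofNat 459, .ofNat 1, .ofNat 445, .ofNat 1, .ofNat 723, .ofNat 11967]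
def y0_40 : List ℤ := [.negSucc 12012579, .negSucc 3386821, .negSucc 5979983, .ofNat 6398029, .ofNat 3468711, .negSucc 7166948, .ofNat 3004672, .ofNat 12286, .ofNat 584543, .ofNat 1004040, .negSucc 96072, .negSucc 13880, .negSucc 8914, .ofNat 218, .negSucc 212, .negSucc 10474, .negSucc 84186, .negSucc 1884, .negSucc 4157, .negSucc 1, .negSucc 899, .negSucc 1160, .negSucc 1, .negSucc 4503, .ofNat 395, .ofNat 86, .ofNat 0, .negSucc 1420, .negSucc 0, .negSucc 1316, .negSucc 74, .negSucc 1486, .ofNat 847, .ofNat 193, .ofNat 173, .ofNat 0, .ofNat 111, .ofNat 0, .negSucc 118, .negSucc 773, .ofNat 10461]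
def y0_41 : List ℤ := [.negSucc 6645586, .ofNat 12203661, .negSucc 14555573, .ofNat 9732195, .ofNat 11730957, .negSucc 17461677, .ofNat 5574751, .ofNat 8595, .ofNat 1834399, .ofNat 2314124, .negSucc 233466, .negSucc 1538, .ofNat 203, .negSucc 2902494, .ofNat 1100819, .negSucc 2146, .negSucc 202300, .negSucc 2792, .negSucc 11007, .ofNat 514189, .negSucc 2660, .negSucc 1129, .negSucc 4430300, .negSucc 4588, .ofNat 155, .ofNat 1159, .negSucc 4975017, .ofNat 3, .negSucc 192298, .negSucc 104, .negSucc 199, .negSucc 652, .ofNat 299, .ofNat 1038, .negSucc 427, .negSucc 686273, .negSucc 318, .negSucc 2244828, .negSucc 377, .negSucc 1150, .ofNat 1298, .ofNat 19414995]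
def y0_42 : List ℤ := [.negSucc 21303828, .negSucc 6507221, .ofNat 5238200, .ofNat 7312151, .ofNat 4023270, .negSucc 8274020, .ofNat 3485145, .ofNat 16454, .ofNat 674497, .ofNat 1158541, .negSucc 109716, .negSucc 16272, .negSucc 11367, .ofNat 254, .negSucc 246, .negSucc 11683, .negSucc 98548, .negSucc 2439, .negSucc 2975, .negSucc 1, .negSucc 1421, .negSucc 1796, .negSucc 1, .negSucc 5885, .ofNat 213, .negSucc 254, .ofNat 0, .negSucc 1659, .negSucc 0, .negSucc 3088, .ofNat 264, .negSucc 1385, .ofNat 556, .negSucc 488, .ofNat 955, .ofNat 1, .ofNat 34, .ofNat 0, .negSucc 51, .negSucc 799, .ofNat 882, .ofNat 0, .ofNat 10873]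
def y0_43 : List ℤ := [.ofNat 31623428, .ofNat 8706397, .ofNat 6821026, .ofNat 9376280, .ofNat 5153174, .negSucc 10759526, .ofNat 4129523, .negSucc 21436, .ofNat 882017, .ofNat 1475906, .negSucc 163740, .ofNat 30986, .ofNat 19705, .ofNat 335, .negSucc 296, .ofNat 22353, .negSucc 124055, .negSucc 2945, .negSucc 2798, .ofNat 0, .negSucc 3810, .ofNat 55, .negSucc 1, .ofNat 1223, .negSucc 1864, .negSucc 1483, .negSucc 0, .ofNat 2762, .negSucc 2, .negSucc 227, .negSucc 1127, .negSucc 483, .ofNat 1091, .ofNat 2132, .ofNat 233, .ofNat 1, .negSucc 926, .negSucc 0, .ofNat 277, .ofNat 1995, .ofNat 391, .ofNat 1, .ofNat 536, .ofNat 11740]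
def y0_44 : List ℤ := [.negSucc 6645424, .negSucc 6866161, .negSucc 18726601, .negSucc 5430366, .ofNat 8062584, .negSucc 18735352, .ofNat 9261276, .ofNat 8595, .ofNat 1104092, .ofNat 2731819, .negSucc 277785, .negSucc 6945, .negSucc 474, .ofNat 508657, .negSucc 1264599, .negSucc 7853, .negSucc 224404, .negSucc 5530, .negSucc 10265, .negSucc 4696216, .negSucc 1152, .negSucc 1285, .ofNat 891653, .negSucc 5578, .negSucc 1117, .negSucc 1466, .ofNat 891194, .negSucc 3492, .negSucc 800082, .negSucc 894, .negSucc 453, .negSucc 2480, .ofNat 1661, .ofNat 974, .negSucc 40, .ofNat 198261, .ofNat 1038, .negSucc 2405930, .ofNat 136, .ofNat 422, .ofNat 1021, .negSucc 2700141, .ofNat 411, .ofNat 130, .ofNat 19937753]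
def y0_45 : List ℤ := [.negSucc 8581621, .ofNat 1873239, .negSucc 3425049, .negSucc 1283991, .ofNat 1919399, .negSucc 3194112, .ofNat 1340071, .ofNat 5669, .ofNat 260889, .ofNat 448141, .negSucc 43283, .negSucc 4909, .negSucc 2696, .ofNat 97, .negSucc 93, .negSucc 4013, .negSucc 37144, .negSucc 416, .negSucc 2224, .ofNat 0, .negSucc 11, .negSucc 344, .negSucc 0, .negSucc 1601, .ofNat 15, .ofNat 273, .ofNat 0, .negSucc 943, .ofNat 0, .negSucc 323, .negSucc 2, .negSucc 405, .ofNat 120, .ofNat 352, .negSucc 18, .ofNat 0, .ofNat 223, .ofNat 0, .negSucc 85, .negSucc 273, .ofNat 199, .ofNat 0, .ofNat 132, .negSucc 187, .ofNat 0, .ofNat 10108]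
def y0_46 : List ℤ := [.ofNat 31623584, .negSucc 12015554, .ofNat 2288630, .negSucc 6633699, .ofNat 6338992, .negSucc 10824623, .ofNat 4317941, .negSucc 21436, .ofNat 848937, .ofNat 1494518, .negSucc 167236, .ofNat 29892, .ofNat 23096, .ofNat 342, .negSucc 305, .ofNat 18985, .negSucc 127528, .negSucc 4868, .negSucc 2121, .negSucc 1, .negSucc 1991, .negSucc 77, .ofNat 0, .ofNat 961, .negSucc 2246, .negSucc 3844, .ofNat 0, .ofNat 311, .ofNat 0, .ofNat 45, .negSucc 405, .negSucc 465, .ofNat 1028, .negSucc 835, .ofNat 421, .ofNat 0, .ofNat 398, .ofNat 0, .ofNat 742, .ofNat 2431, .ofNat 275, .ofNat 0, .ofNat 386, .ofNat 1500, .ofNat 1, .negSucc 284, .ofNat 11680]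
def y0_47 : List ℤ := [.ofNat 23710860, .ofNat 4793740, .ofNat 5173348, .negSucc 6782676, .ofNat 9956844, .negSucc 17049665, .ofNat 6770759, .negSucc 20643, .ofNat 1372621, .ofNat 2355987, .negSucc 256109, .ofNat 36197, .ofNat 26566, .ofNat 532, .negSucc 479, .ofNat 23718, .negSucc 198451, .negSucc 4776, .negSucc 5427, .negSucc 0, .negSucc 3179, .negSucc 215, .negSucc 0, .ofNat 258, .negSucc 2981, .negSucc 2849, .negSucc 0, .ofNat 467, .negSucc 1, .negSucc 516, .negSucc 814, .negSucc 456, .ofNat 885, .ofNat 1409, .ofNat 488, .ofNat 0, .ofNat 157, .ofNat 0, .ofNat 537, .ofNat 2714, .ofNat 219, .ofNat 1, .ofNat 615, .ofNat 2318, .ofNat 1, .ofNat 134, .ofNat 1922, .ofNat 11291]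
def y0_48 : List ℤ := [.negSucc 12012554, .negSucc 3386858, .negSucc 4207718, .ofNat 6659340, .negSucc 8570723, .ofNat 2140847, .ofNat 3004673, .ofNat 12286, .negSucc 1168432, .ofNat 839, .ofNat 8132, .negSucc 24825, .negSucc 18705, .negSucc 6, .negSucc 7, .negSucc 15848, .ofNat 127, .negSucc 29, .negSucc 1087, .negSucc 0, .ofNat 237, .negSucc 611, .negSucc 0, .negSucc 2656, .ofNat 395, .ofNat 86, .negSucc 0, .negSucc 1639, .ofNat 0, .negSucc 1030, .negSucc 74, .negSucc 1486, .ofNat 847, .ofNat 193, .ofNat 116, .ofNat 0, .ofNat 170, .ofNat 0, .negSucc 118, .negSucc 773, .ofNat 255, .ofNat 0, .negSucc 27, .negSucc 682, .ofNat 0, .negSucc 62, .negSucc 514, .negSucc 1009, .ofNat 10374]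
def y0_49 : List ℤ := [.negSucc 6645518, .ofNat 12203563, .negSucc 4359292, .ofNat 14492610, .negSucc 21403118, .ofNat 7872389, .ofNat 5574752, .ofNat 8595, .negSucc 2937999, .negSucc 417044, .ofNat 50627, .negSucc 31114, .negSucc 27351, .ofNat 1278712, .negSucc 4655085, .negSucc 15190, .ofNat 51894, .ofNat 1981, .ofNat 496, .negSucc 2449786, .ofNat 125, .ofNat 130, .ofNat 473976, .negSucc 252, .ofNat 155, .ofNat 1159, .ofNat 473731, .negSucc 441, .negSucc 4956143, .ofNat 43, .negSucc 199, .negSucc 652, .ofNat 299, .ofNat 1038, .negSucc 319, .negSucc 2219363, .negSucc 456, .negSucc 764626, .negSucc 377, .negSucc 1150, .negSucc 448, .negSucc 858129, .negSucc 779, .negSucc 978, .ofNat 8054, .negSucc 144, .negSucc 2209, .negSucc 1901, .ofNat 936, .ofNat 19396020]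
def y0_50 : List ℤ := [.negSucc 6645374, .negSucc 6866241, .ofNat 10990251, .ofNat 14492613, .negSucc 21403125, .ofNat 2698368, .ofNat 9261277, .ofNat 8595, .negSucc 2937999, .ofNat 418596, .negSucc 35589, .negSucc 31114, .negSucc 27351, .negSucc 4725288, .ofNat 988217, .negSucc 15190, .negSucc 51620, .negSucc 1511, .negSucc 1212, .negSucc 752834, .negSucc 1448, .negSucc 1020, .negSucc 912388, .negSucc 2988, .negSucc 1117, .negSucc 1466, .negSucc 911917, .negSucc 1700, .ofNat 776379, .negSucc 3087, .negSucc 453, .negSucc 2480, .ofNat 1661, .ofNat 974, .ofNat 1033, .negSucc 2411406, .negSucc 114, .ofNat 113710, .ofNat 136, .ofNat 422, .negSucc 77, .ofNat 127615, .ofNat 516, .ofNat 177, .negSucc 5346298, .negSucc 250, .negSucc 245, .negSucc 557, .ofNat 936, .negSucc 2694917, .ofNat 19207889]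
def y0_51 : List ℤ := [.negSucc 8581611, .ofNat 1873223, .ofNat 2327236, .ofNat 2572496, .negSucc 3784272, .ofNat 954808, .ofNat 1340071, .ofNat 5669, .negSucc 521536, .ofNat 371, .ofNat 3598, .negSucc 9587, .negSucc 7901, .negSucc 1, .negSucc 2, .negSucc 5649, .ofNat 34, .ofNat 322, .negSucc 123, .ofNat 0, .negSucc 55, .negSucc 286, .ofNat 0, .negSucc 1043, .ofNat 15, .ofNat 273, .ofNat 0, .negSucc 557, .ofNat 0, .negSucc 827, .negSucc 2, .negSucc 405, .ofNat 120, .ofNat 352, .ofNat 222, .ofNat 0, .negSucc 25, .ofNat 0, .negSucc 85, .negSucc 273, .negSucc 43, .ofNat 0, .ofNat 131, .negSucc 203, .ofNat 0, .ofNat 20, .negSucc 578, .negSucc 249, .ofNat 136, .ofNat 0, .ofNat 0, .ofNat 10089]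
def y0_52 : List ℤ := [.negSucc 21303793, .negSucc 6507265, .negSucc 8084366, .negSucc 3970576, .negSucc 8846683, .ofNat 2483186, .ofNat 3485145, .ofNat 16454, .negSucc 1348223, .ofNat 967, .ofNat 9375, .negSucc 29543, .negSucc 20078, .negSucc 7, .negSucc 8, .negSucc 20247, .ofNat 144, .negSucc 24, .negSucc 1697, .negSucc 0, .ofNat 1598, .negSucc 581, .ofNat 0, .negSucc 2929, .ofNat 213, .negSucc 254, .negSucc 0, .negSucc 3413, .ofNat 1, .negSucc 802, .ofNat 264, .negSucc 1385, .ofNat 556, .negSucc 488, .ofNat 63, .ofNat 0, .ofNat 954, .ofNat 1, .negSucc 51, .negSucc 799, .negSucc 7, .ofNat 0, .negSucc 360, .negSucc 1979, .ofNat 0, .ofNat 105, .negSucc 429, .negSucc 1065, .ofNat 634, .ofNat 0, .ofNat 0, .ofNat 64, .ofNat 10640]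
def y0_53 : List ℤ := [.ofNat 31623473, .ofNat 8706340, .negSucc 10395284, .negSucc 5204015, .negSucc 11478240, .ofNat 3141656, .ofNat 4129524, .negSucc 21436, .negSucc 1731878, .negSucc 19987, .negSucc 9842, .ofNat 13836, .ofNat 8448, .negSucc 3, .ofNat 11, .ofNat 11286, .ofNat 3482, .ofNat 175, .negSucc 1146, .ofNat 1, .ofNat 92, .ofNat 1624, .ofNat 0, .ofNat 5043, .negSucc 1864, .negSucc 1483, .negSucc 1, .ofNat 496, .negSucc 0, .ofNat 2727, .negSucc 1127, .negSucc 483, .ofNat 1091, .ofNat 2132, .negSucc 918, .negSucc 0, .ofNat 261, .ofNat 1, .ofNat 277, .ofNat 1995, .negSucc 758, .negSucc 0, .negSucc 2094, .ofNat 120, .ofNat 0, .negSucc 187, .ofNat 207, .negSucc 290, .ofNat 396, .ofNat 1, .ofNat 0, .negSucc 177, .ofNat 489, .ofNat 11519]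
def y0_54 : List ℤ := [.ofNat 31623622, .negSucc 12015607, .ofNat 6284088, .negSucc 5204015, .negSucc 11478240, .ofNat 2877212, .ofNat 4317942, .negSucc 21436, .negSucc 1731878, .ofNat 17557, .negSucc 13716, .ofNat 13836, .ofNat 8448, .ofNat 11, .negSucc 2, .ofNat 11286, .negSucc 3523, .negSucc 2162, .ofNat 2602, .negSucc 0, .negSucc 471, .ofNat 678, .ofNat 1, .ofNat 3605, .negSucc 2246, .negSucc 3844, .ofNat 0, .ofNat 124, .ofNat 0, .ofNat 289, .negSucc 405, .negSucc 465, .ofNat 1028, .negSucc 835, .ofNat 411, .ofNat 0, .ofNat 409, .ofNat 0, .ofNat 742, .ofNat 2431, .negSucc 664, .negSucc 0, .negSucc 695, .ofNat 193, .ofNat 0, .negSucc 670, .ofNat 2103, .negSucc 90, .ofNat 396, .ofNat 0, .ofNat 1, .negSucc 177, .ofNat 489, .ofNat 1295, .ofNat 11446]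
def y0_55 : List ℤ := [.ofNat 23710922, .ofNat 4793654, .ofNat 5955586, .negSucc 8718057, .negSucc 18106730, .ofNat 4824206, .ofNat 6770760, .negSucc 20643, .negSucc 2746266, .negSucc 1187, .negSucc 11514, .ofNat 10339, .ofNat 4130, .ofNat 3, .ofNat 3, .ofNat 10570, .negSucc 33, .negSucc 358, .ofNat 1287, .ofNat 1, .negSucc 132, .ofNat 1202, .ofNat 1, .ofNat 4779, .negSucc 2981, .negSucc 2849, .negSucc 1, .negSucc 377, .negSucc 1, .ofNat 585, .negSucc 814, .negSucc 456, .ofNat 885, .ofNat 1409, .ofNat 171, .ofNat 0, .ofNat 483, .ofNat 0, .ofNat 537, .ofNat 2714, .negSucc 1332, .negSucc 0, .negSucc 1515, .negSucc 234, .negSucc 0, .negSucc 386, .ofNat 341, .negSucc 111, .ofNat 238, .ofNat 1, .ofNat 1, .ofNat 127, .ofNat 542, .ofNat 1993, .ofNat 1780, .ofNat 11184]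
def y0_56 : List ℤ := [.ofNat 4612323, .negSucc 1765395, .negSucc 2193281, .ofNat 2886337, .negSucc 263556, .negSucc 4325, .negSucc 6070, .negSucc 1109, .ofNat 4, .negSucc 24, .negSucc 237, .negSucc 296, .negSucc 278, .ofNat 0, .ofNat 0, .negSucc 169, .ofNat 15, .negSucc 252, .negSucc 127, .ofNat 0, .negSucc 204, .ofNat 3, .ofNat 0, .negSucc 42, .ofNat 144, .negSucc 113, .ofNat 0, .ofNat 267, .ofNat 0, .ofNat 204, .negSucc 111, .negSucc 242, .ofNat 282, .negSucc 16, .negSucc 109, .ofNat 0, .negSucc 105, .ofNat 0, .ofNat 11, .negSucc 35, .ofNat 172, .ofNat 0, .negSucc 39, .ofNat 224, .ofNat 0, .negSucc 79, .ofNat 232, .negSucc 152, .ofNat 180, .ofNat 0, .ofNat 0, .negSucc 67, .negSucc 0, .ofNat 217, .ofNat 194, .negSucc 131, .ofNat 10071]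
def y0_57 : List ℤ := [.ofNat 31623463, .ofNat 5716621, .negSucc 11049230, .ofNat 14450750, .negSucc 2325347, .negSucc 1309648, .ofNat 1350411, .negSucc 14190, .negSucc 143993, .ofNat 246513, .negSucc 31575, .ofNat 10138, .ofNat 5333, .ofNat 54, .negSucc 45, .ofNat 8208, .negSucc 19139, .negSucc 575, .negSucc 1971, .ofNat 0, .negSucc 1772, .ofNat 661, .negSucc 1, .ofNat 1805, .negSucc 111, .negSucc 91, .negSucc 0, .ofNat 2396, .negSucc 0, .ofNat 1838, .negSucc 1179, .negSucc 995, .ofNat 1471, .ofNat 2016, .negSucc 878, .negSucc 0, .negSucc 852, .negSucc 0, .negSucc 22, .ofNat 583, .ofNat 526, .ofNat 0, .negSucc 761, .ofNat 1893, .ofNat 0, .negSucc 253, .ofNat 359, .negSucc 288, .ofNat 629, .ofNat 1, .ofNat 0, .negSucc 233, .negSucc 455, .ofNat 1765, .ofNat 272, .negSucc 241, .ofNat 595, .ofNat 11547]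
def y0_58 : List ℤ := [.ofNat 31623585, .negSucc 12015507, .ofNat 3223594, .ofNat 14450749, .negSucc 2325343, .ofNat 1704050, .negSucc 796869, .negSucc 14190, .negSucc 143993, .negSucc 247766, .ofNat 19421, .ofNat 10138, .ofNat 5333, .negSucc 49, .ofNat 51, .ofNat 8208, .ofNat 19158, .negSucc 1538, .ofNat 2799, .negSucc 0, .negSucc 1692, .ofNat 122, .ofNat 0, .ofNat 1465, .ofNat 64, .negSucc 1566, .ofNat 1, .ofNat 2572, .ofNat 0, .ofNat 237, .negSucc 405, .negSucc 465, .ofNat 1028, .negSucc 835, .ofNat 97, .ofNat 0, .negSucc 842, .negSucc 1, .ofNat 303, .ofNat 649, .ofNat 481, .ofNat 0, .ofNat 269, .ofNat 1720, .ofNat 0, .negSucc 702, .ofNat 1747, .negSucc 371, .ofNat 629, .ofNat 0, .ofNat 1, .negSucc 233, .negSucc 455, .ofNat 468, .ofNat 1723, .negSucc 241, .ofNat 595, .ofNat 1941, .ofNat 11382]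
def y0_59 : List ℤ := [.ofNat 23710860, .ofNat 4793805, .ofNat 5955582, .ofNat 21869704, .negSucc 1457046, .negSucc 186522, .negSucc 261784, .negSucc 10681, .ofNat 75859, .negSucc 367, .negSucc 3568, .ofNat 9446, .ofNat 2599, .ofNat 3, .ofNat 3, .ofNat 9043, .negSucc 19, .negSucc 263, .ofNat 1155, .ofNat 1, .negSucc 2764, .ofNat 54, .negSucc 1, .ofNat 903, .ofNat 195, .ofNat 283, .ofNat 1, .ofNat 3542, .negSucc 1, .negSucc 207, .negSucc 814, .negSucc 456, .ofNat 885, .ofNat 1409, .ofNat 22, .ofNat 0, .negSucc 1528, .negSucc 1, .negSucc 66, .ofNat 264, .ofNat 524, .ofNat 0, .ofNat 454, .ofNat 2622, .negSucc 0, .negSucc 423, .ofNat 68, .negSucc 44, .ofNat 375, .ofNat 1, .ofNat 1, .ofNat 78, .negSucc 1209, .ofNat 205, .ofNat 183, .negSucc 380, .ofNat 444, .ofNat 2178, .ofNat 1838, .ofNat 11172]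
def y0_60 : List ℤ := [.ofNat 31623585, .negSucc 12015501, .negSucc 14927682, .ofNat 1032664, .ofNat 1816990, .negSucc 567773, .negSucc 796869, .negSucc 14190, .ofNat 287590, .negSucc 779, .negSucc 7558, .ofNat 12093, .ofNat 10725, .ofNat 2, .ofNat 2, .ofNat 6808, .ofNat 20, .negSucc 1677, .negSucc 565, .negSucc 1, .negSucc 3, .ofNat 656, .ofNat 0, .ofNat 1961, .ofNat 64, .negSucc 1566, .ofNat 0, .ofNat 895, .ofNat 1, .ofNat 2423, .negSucc 405, .negSucc 465, .ofNat 1028, .negSucc 835, .negSucc 839, .negSucc 1, .ofNat 123, .ofNat 0, .ofNat 303, .ofNat 649, .ofNat 476, .ofNat 0, .negSucc 810, .ofNat 476, .ofNat 1, .negSucc 339, .ofNat 2035, .negSucc 349, .ofNat 568, .ofNat 0, .ofNat 0, .negSucc 598, .ofNat 396, .ofNat 1564, .ofNat 1397, .negSucc 349, .ofNat 595, .ofNat 1941, .ofNat 1638, .ofNat 70, .ofNat 11264]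
def y0_61 : List ℤ := [.ofNat 23710872, .ofNat 4793798, .negSucc 22705986, .ofNat 194400, .negSucc 325648, .ofNat 450565, .negSucc 261784, .negSucc 10681, .negSucc 38079, .negSucc 65576, .ofNat 1053, .ofNat 7534, .ofNat 6806, .negSucc 17, .ofNat 19, .ofNat 4269, .ofNat 8091, .ofNat 372, .negSucc 2885, .ofNat 0, .ofNat 507, .ofNat 1176, .negSucc 0, .ofNat 2567, .ofNat 195, .ofNat 283, .negSucc 0, .ofNat 717, .ofNat 0, .ofNat 3475, .negSucc 814, .negSucc 456, .ofNat 885, .ofNat 1409, .negSucc 1527, .negSucc 1, .ofNat 68, .ofNat 0, .negSucc 66, .ofNat 264, .ofNat 215, .ofNat 0, .negSucc 1674, .ofNat 153, .ofNat 1, .ofNat 50, .ofNat 219, .negSucc 503, .ofNat 491, .ofNat 0, .ofNat 0, .negSucc 437, .ofNat 410, .ofNat 2363, .ofNat 9, .negSucc 115, .ofNat 444, .ofNat 2178, .ofNat 333, .negSucc 5, .ofNat 1809, .ofNat 11172]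
def y0_62 : List ℤ := [.ofNat 23711073, .negSucc 23205920, .negSucc 168638, .ofNat 194400, .negSucc 325649, .negSucc 394566, .ofNat 340378, .negSucc 10681, .negSucc 38079, .ofNat 64411, .negSucc 12358, .ofNat 7534, .ofNat 6806, .ofNat 20, .negSucc 16, .ofNat 4269, .negSucc 8043, .negSucc 2942, .ofNat 1944, .negSucc 2, .negSucc 338, .negSucc 141, .ofNat 1, .ofNat 491, .negSucc 396, .negSucc 2988, .ofNat 1, .ofNat 140, .ofNat 1, .ofNat 107, .ofNat 138, .negSucc 509, .ofNat 858, .negSucc 2554, .ofNat 294, .negSucc 0, .ofNat 285, .negSucc 0, .ofNat 573, .ofNat 900, .ofNat 360, .negSucc 0, .ofNat 240, .ofNat 288, .ofNat 0, .negSucc 596, .ofNat 2815, .negSucc 195, .ofNat 491, .ofNat 0, .ofNat 0, .negSucc 437, .ofNat 410, .ofNat 275, .ofNat 2347, .negSucc 115, .ofNat 444, .ofNat 695, .ofNat 2091, .negSucc 5, .ofNat 1809, .negSucc 16, .ofNat 11172]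
def y0_63 : List ℤ := [.negSucc 3196104, .ofNat 31, .ofNat 38, .ofNat 560, .ofNat 6770, .ofNat 8734, .ofNat 12258, .ofNat 2111, .ofNat 30, .ofNat 121, .ofNat 1172, .negSucc 2408, .negSucc 1650, .negSucc 0, .negSucc 0, .negSucc 1697, .ofNat 8, .ofNat 79, .negSucc 107, .ofNat 0, .ofNat 91, .negSucc 94, .ofNat 0, .negSucc 385, .ofNat 100, .ofNat 139, .ofNat 0, .negSucc 210, .ofNat 0, .negSucc 161, .ofNat 56, .negSucc 40, .negSucc 39, .negSucc 34, .ofNat 33, .ofNat 0, .ofNat 32, .ofNat 0, .negSucc 31, .negSucc 152, .ofNat 20, .ofNat 0, .ofNat 61, .negSucc 119, .ofNat 0, .ofNat 32, .negSucc 117, .negSucc 38, .ofNat 3, .ofNat 0, .ofNat 0, .ofNat 24, .ofNat 34, .negSucc 104, .negSucc 93, .negSucc 36, .negSucc 21, .negSucc 98, .negSucc 83, .negSucc 43, .negSucc 71, .negSucc 42, .negSucc 42, .ofNat 10003]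
def y4_0 : List (List ℤ) :=
  [y0_0, y0_1, y0_2, y0_3, y0_4, y0_5, y0_6, y0_7, y0_8, y0_9, y0_10, y0_11, y0_12, y0_13, y0_14, y0_15, y0_16, y0_17, y0_18, y0_19, y0_20, y0_21, y0_22, y0_23, y0_24, y0_25, y0_26, y0_27, y0_28, y0_29, y0_30, y0_31, y0_32, y0_33, y0_34, y0_35, y0_36, y0_37, y0_38, y0_39, y0_40, y0_41, y0_42, y0_43, y0_44, y0_45, y0_46, y0_47, y0_48, y0_49, y0_50, y0_51, y0_52, y0_53, y0_54, y0_55, y0_56, y0_57, y0_58, y0_59, y0_60, y0_61, y0_62, y0_63]

def y1_0 : List ℤ := [.ofNat 5430510]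
def y1_1 : List ℤ := [.ofNat 23868631, .ofNat 36556759]
def y1_2 : List ℤ := [.ofNat 23867860, .ofNat 18525196, .ofNat 31515640]
def y1_3 : List ℤ := [.ofNat 57721039, .ofNat 33788387, .ofNat 19332086, .ofNat 13905377]
def y1_4 : List ℤ := [.ofNat 23869710, .ofNat 18526847, .ofNat 10599972, .negSucc 3159629, .ofNat 29511680]
def y1_5 : List ℤ := [.ofNat 57722292, .ofNat 33789507, .ofNat 5107283, .ofNat 11747199, .ofNat 20069978, .ofNat 508512]
def y1_6 : List ℤ := [.ofNat 57721772, .ofNat 21526189, .ofNat 26541158, .ofNat 11747201, .ofNat 20069980, .ofNat 254169, .ofNat 440434]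
def y1_7 : List ℤ := [.ofNat 135951196, .ofNat 44613647, .ofNat 25525406, .ofNat 24250933, .ofNat 20689568, .ofNat 484088, .ofNat 279551, .ofNat 70975]
def y1_8 : List ℤ := [.ofNat 2837532, .negSucc 6055659, .negSucc 3463891, .negSucc 20637321, .negSucc 33749161, .ofNat 16382920, .ofNat 9460822, .ofNat 116469, .ofNat 1327221]
def y1_9 : List ℤ := [.ofNat 7571868, .ofNat 19266808, .negSucc 25998583, .ofNat 5348608, .negSucc 36275951, .ofNat 275358, .ofNat 18692315, .ofNat 19785, .ofNat 14910316, .ofNat 58319283]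
def y1_10 : List ℤ := [.ofNat 7570109, .negSucc 12649778, .ofNat 29785412, .ofNat 5348403, .negSucc 36276194, .ofNat 16327540, .negSucc 9104453, .ofNat 19785, .ofNat 14910324, .negSucc 26834705, .ofNat 51778734]
def y1_11 : List ℤ := [.negSucc 35771301, .ofNat 36293796, .ofNat 20765216, .ofNat 49560853, .negSucc 29939580, .negSucc 20233548, .negSucc 11684485, .negSucc 271743, .negSucc 3351594, .negSucc 138589, .negSucc 227921, .ofNat 952730]
def y1_12 : List ℤ := [.ofNat 247815, .negSucc 2803632, .negSucc 1603908, .negSucc 5920575, .negSucc 6535421, .ofNat 4327405, .ofNat 2498994, .ofNat 31382, .negSucc 6867076, .negSucc 580949, .negSucc 955415, .ofNat 3983732, .ofNat 196690]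
def y1_13 : List ℤ := [.ofNat 48834214, .ofNat 17306512, .ofNat 5560060, .ofNat 9175578, .negSucc 16657956, .negSucc 10050084, .negSucc 14843587, .ofNat 46324, .ofNat 4189341, .ofNat 15379130, .negSucc 8394530, .negSucc 2913877, .negSucc 125309, .ofNat 16064879]
def y1_14 : List ℤ := [.ofNat 48834157, .ofNat 13563310, .ofNat 12102332, .ofNat 9175547, .negSucc 16657939, .negSucc 17879723, .negSucc 1285342, .ofNat 46325, .ofNat 4189345, .negSucc 14529544, .ofNat 9791737, .negSucc 2913880, .negSucc 125310, .negSucc 16064712, .ofNat 72925]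
def y1_15 : List ℤ := [.ofNat 65711275, .ofNat 104821665, .ofNat 59973895, .ofNat 55336477, .negSucc 13788254, .ofNat 1243426, .ofNat 718047, .negSucc 233260, .ofNat 33489280, .negSucc 475760, .negSucc 782420, .negSucc 20170020, .negSucc 1052931, .negSucc 69, .negSucc 30595, .ofNat 38147331]
def y1_16 : List ℤ := [.ofNat 2840308, .negSucc 6053312, .negSucc 30696160, .negSucc 24135571, .ofNat 4741177, .negSucc 17258700, .ofNat 9460823, .ofNat 116469, .negSucc 662123, .ofNat 632618, .negSucc 385519, .ofNat 560, .ofNat 39044, .ofNat 657727, .ofNat 33016, .negSucc 17, .ofNat 582286]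
def y1_17 : List ℤ := [.ofNat 7573387, .ofNat 19268155, .negSucc 43248297, .ofNat 2751852, .negSucc 11935918, .negSucc 221724, .ofNat 18692314, .ofNat 19785, .ofNat 20359313, .ofNat 3540134, .negSucc 13150081, .negSucc 14383304, .negSucc 718239, .ofNat 38174985, .negSucc 98016, .negSucc 1320901, .ofNat 1530380, .ofNat 36805925]
def y1_18 : List ℤ := [.ofNat 248286, .negSucc 2803270, .negSucc 6065050, .negSucc 6431793, .negSucc 223392, .negSucc 4566582, .ofNat 2498990, .ofNat 31382, .ofNat 3433930, .negSucc 4080011, .ofNat 3135002, .negSucc 1991748, .negSucc 87183, .negSucc 4697725, .ofNat 20431, .ofNat 4, .ofNat 73708, .ofNat 6, .ofNat 11099]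
def y1_19 : List ℤ := [.ofNat 48835760, .ofNat 17307948, .negSucc 14648197, .ofNat 5750143, .ofNat 11815579, .ofNat 10313644, .negSucc 14843592, .ofNat 46324, .ofNat 15635133, .ofNat 11527541, .negSucc 4190296, .negSucc 8582192, .negSucc 414193, .ofNat 11055275, .negSucc 23249, .ofNat 35, .negSucc 420729, .ofNat 18, .ofNat 4849, .ofNat 23842]
def y1_20 : List ℤ := [.ofNat 7575369, .negSucc 12645110, .negSucc 24485844, .negSucc 2253535, .ofNat 40363810, .negSucc 16262876, .negSucc 9104432, .ofNat 19785, .negSucc 35269426, .ofNat 918214, .negSucc 16654981, .ofNat 16385143, .ofNat 825969, .negSucc 15655892, .ofNat 53698, .negSucc 1107958, .negSucc 534237, .negSucc 368904, .negSucc 16347, .negSucc 21019, .ofNat 39816799]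
def y1_21 : List ℤ := [.negSucc 35767626, .ofNat 36297233, .negSucc 26021545, .ofNat 41721725, .ofNat 35993071, .ofNat 21915093, .negSucc 11684487, .negSucc 271743, .ofNat 1672593, .negSucc 1789663, .ofNat 1246153, .negSucc 477261, .negSucc 90655, .negSucc 1969915, .negSucc 68204, .ofNat 33, .negSucc 732504, .ofNat 3, .ofNat 1627, .ofNat 17737, .ofNat 9, .ofNat 24058]
def y1_22 : List ℤ := [.ofNat 48835986, .ofNat 13565139, .negSucc 12447690, .ofNat 4807918, .ofNat 17911133, .ofNat 18137971, .negSucc 1285332, .ofNat 46325, .negSucc 19823926, .negSucc 6354697, .ofNat 87681, .ofNat 11496206, .ofNat 555472, .negSucc 5009574, .negSucc 11942, .negSucc 38, .negSucc 420113, .negSucc 63, .negSucc 10392, .negSucc 9006, .ofNat 38, .ofNat 14042, .ofNat 30009]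
def y1_23 : List ℤ := [.ofNat 65716534, .ofNat 104826462, .ofNat 1710009, .ofNat 46544479, .ofNat 68422333, .ofNat 727041, .ofNat 718067, .negSucc 233260, .negSucc 16747451, .ofNat 20243953, .negSucc 14469796, .ofNat 9438816, .ofNat 414949, .ofNat 22400353, .negSucc 100548, .ofNat 11427, .ofNat 381638, .negSucc 4592769, .negSucc 3144, .negSucc 550, .negSucc 4632198, .ofNat 11259, .negSucc 1426, .ofNat 38106601]
def y1_24 : List ℤ := [.ofNat 10770812, .negSucc 9876203, .negSucc 38910330, .negSucc 11512979, .negSucc 28811806, .negSucc 266963, .negSucc 20173383, .ofNat 124413, .negSucc 1118623, .negSucc 1241478, .ofNat 672513, .ofNat 249184, .ofNat 42771, .negSucc 1271341, .ofNat 41730, .negSucc 17, .negSucc 597080, .negSucc 55, .negSucc 4256, .ofNat 5623, .ofNat 38, .ofNat 9438, .ofNat 24945, .negSucc 6, .ofNat 20115]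
def y1_25 : List ℤ := [.ofNat 9717257, .ofNat 27298573, .negSucc 55023675, .ofNat 5554598, .negSucc 38403812, .ofNat 26348, .ofNat 12043271, .ofNat 35153, .ofNat 19328483, .ofNat 25697464, .negSucc 12197136, .negSucc 10436360, .negSucc 518577, .ofNat 25940417, .negSucc 56235, .ofNat 48, .ofNat 787191, .ofNat 107, .ofNat 11470, .ofNat 19854, .negSucc 50, .negSucc 4829, .negSucc 31463, .ofNat 12, .negSucc 12741, .ofNat 28301]
def y1_26 : List ℤ := [.negSucc 24733094, .negSucc 12768039, .negSucc 19646122, .negSucc 14492522, .negSucc 50551943, .ofNat 35879964, .ofNat 4582747, .ofNat 77022, .ofNat 18625401, .negSucc 10424543, .ofNat 9299375, .negSucc 9011416, .negSucc 463264, .negSucc 12584727, .negSucc 986, .ofNat 57, .negSucc 673843, .ofNat 30, .ofNat 8348, .ofNat 20961, .negSucc 10, .ofNat 5210, .negSucc 7957, .negSucc 6, .ofNat 2876, .ofNat 4629, .ofNat 20449]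
def y1_27 : List ℤ := [.negSucc 41387777, .ofNat 28348375, .negSucc 2435755, .ofNat 23668718, .negSucc 15168506, .ofNat 5840281, .ofNat 68167472, .negSucc 181335, .ofNat 37294284, .ofNat 27800974, .negSucc 10615865, .negSucc 19139938, .negSucc 1015487, .ofNat 26776693, .negSucc 144829, .ofNat 125, .ofNat 2326488, .ofNat 291, .ofNat 29720, .ofNat 20186, .negSucc 163, .negSucc 28539, .negSucc 105118, .ofNat 27, .negSucc 50863, .ofNat 41116, .ofNat 4904, .ofNat 26727]
def y1_28 : List ℤ := [.negSucc 24729326, .negSucc 12764875, .negSucc 52488597, .negSucc 18127737, .negSucc 4069384, .negSucc 36583595, .ofNat 4582763, .ofNat 77022, .negSucc 23511553, .ofNat 3756361, .negSucc 6192626, .ofNat 11895673, .ofNat 629965, .ofNat 5866580, .ofNat 43468, .negSucc 79, .ofNat 854260, .negSucc 47, .negSucc 9706, .negSucc 21473, .ofNat 26, .ofNat 1843, .ofNat 19027, .ofNat 6, .ofNat 2876, .ofNat 4629, .negSucc 12409, .negSucc 2493, .ofNat 16060]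
def y1_29 : List ℤ := [.negSucc 41386288, .ofNat 28349715, .negSucc 17396853, .ofNat 21607636, .ofNat 5962775, .negSucc 5030483, .ofNat 68167482, .negSucc 181335, .ofNat 11978282, .ofNat 36360442, .negSucc 20294301, .negSucc 5521776, .negSucc 336148, .ofNat 38091029, .negSucc 161901, .ofNat 59, .ofNat 2697704, .ofNat 240, .ofNat 17821, .ofNat 67, .negSucc 137, .negSucc 24764, .negSucc 85451, .ofNat 33, .negSucc 50863, .ofNat 41116, .negSucc 6235, .ofNat 21105, .ofNat 4703, .ofNat 15230]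
def y1_30 : List ℤ := [.ofNat 6922091, .negSucc 6226454, .negSucc 7311022, .negSucc 3510883, .negSucc 5557998, .negSucc 75065, .negSucc 13962601, .ofNat 42719, .negSucc 7526239, .negSucc 9889819, .ofNat 4733578, .ofNat 3895847, .ofNat 204961, .negSucc 9991916, .ofNat 40146, .negSucc 24, .negSucc 567572, .negSucc 63, .negSucc 5964, .negSucc 2784, .ofNat 37, .ofNat 8421, .ofNat 23851, .negSucc 6, .ofNat 11896, .negSucc 7669, .ofNat 655, .negSucc 4875, .ofNat 584, .negSucc 1500, .ofNat 10288]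
def y1_31 : List ℤ := [.negSucc 45452880, .ofNat 86173828, .ofNat 50604442, .ofNat 64626811, .ofNat 42790614, .ofNat 1265640, .ofNat 103849313, .negSucc 491170, .ofNat 33643841, .ofNat 43682076, .negSucc 21088400, .negSucc 16652585, .negSucc 965178, .ofNat 44172325, .negSucc 262137, .ofNat 149, .ofNat 3722446, .ofNat 406, .ofNat 35805, .ofNat 10207, .negSucc 236, .negSucc 41720, .negSucc 151746, .ofNat 47, .negSucc 83009, .ofNat 53361, .negSucc 2810, .ofNat 34783, .negSucc 348, .ofNat 10891, .negSucc 2289, .ofNat 16610]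
def y1_32 : List ℤ := [.ofNat 2838983, .negSucc 29530358, .ofNat 10337259, .negSucc 24135662, .ofNat 4741017, .negSucc 432139, .negSucc 19676943, .ofNat 116469, .negSucc 662123, .negSucc 633372, .ofNat 384278, .ofNat 560, .ofNat 39044, .negSucc 657569, .ofNat 36002, .negSucc 17, .negSucc 581460, .negSucc 59, .negSucc 4660, .negSucc 1589, .ofNat 32, .negSucc 481, .ofNat 20116, .negSucc 8, .ofNat 13517, .negSucc 13109, .negSucc 685, .negSucc 6167, .negSucc 2361, .negSucc 2048, .negSucc 495, .negSucc 1308, .ofNat 11208]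
def y1_33 : List ℤ := [.ofNat 248051, .negSucc 6649203, .ofNat 656938, .negSucc 6431795, .negSucc 223417, .negSucc 118074, .negSucc 5204290, .ofNat 31382, .ofNat 3433929, .ofNat 4660763, .negSucc 2179912, .negSucc 1991748, .negSucc 87183, .ofNat 4697770, .negSucc 893, .ofNat 4, .negSucc 73691, .negSucc 0, .ofNat 480, .ofNat 2497, .ofNat 1, .negSucc 2015, .ofNat 331, .negSucc 0, .ofNat 1994, .negSucc 1469, .negSucc 389, .negSucc 1092, .negSucc 967, .negSucc 389, .negSucc 333, .negSucc 317, .ofNat 1025, .ofNat 10247]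
def y1_34 : List ℤ := [.ofNat 7571002, .negSucc 27519533, .ofNat 38527486, .ofNat 2751660, .negSucc 11936153, .ofNat 16079082, .negSucc 9534989, .ofNat 19785, .ofNat 20359320, .negSucc 13304227, .negSucc 2907698, .negSucc 14383310, .negSucc 718241, .negSucc 38175034, .ofNat 75276, .negSucc 1320901, .negSucc 1532013, .negSucc 15431990, .ofNat 17457, .ofNat 31272, .negSucc 4014777, .negSucc 4488, .negSucc 22186, .negSucc 1879643, .ofNat 2428, .negSucc 3156, .ofNat 17729, .ofNat 3112, .negSucc 7106, .negSucc 6146, .ofNat 129, .negSucc 2083, .negSucc 355, .negSucc 144, .ofNat 33119044]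
def y1_35 : List ℤ := [.ofNat 48835164, .negSucc 3856996, .ofNat 22343793, .ofNat 5750187, .ofNat 11815709, .negSucc 7701345, .ofNat 16352140, .ofNat 46325, .ofNat 15635136, .negSucc 9024570, .ofNat 8306620, .negSucc 8582193, .negSucc 414194, .negSucc 11055266, .ofNat 26934, .ofNat 35, .ofNat 420030, .ofNat 63, .ofNat 9632, .ofNat 5075, .negSucc 36, .negSucc 10363, .negSucc 24876, .ofNat 0, .negSucc 9209, .ofNat 3160, .ofNat 4098, .ofNat 5970, .negSucc 2178, .negSucc 1243, .ofNat 184, .ofNat 117, .negSucc 648, .negSucc 481, .ofNat 3, .ofNat 13461]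
def y1_36 : List ℤ := [.ofNat 7574742, .negSucc 27516213, .ofNat 1505942, .negSucc 2253522, .ofNat 40363818, .negSucc 16014252, .negSucc 9534967, .ofNat 19785, .negSucc 35269427, .negSucc 15209610, .negSucc 6848296, .ofNat 16385145, .ofNat 825970, .ofNat 15655977, .negSucc 17370, .negSucc 1107958, .ofNat 535897, .negSucc 4188598, .negSucc 12121, .negSucc 23602, .negSucc 21612390, .ofNat 6840, .ofNat 38990, .negSucc 1999734, .ofNat 2428, .negSucc 3156, .negSucc 16720, .negSucc 3364, .ofNat 9131, .ofNat 6166, .ofNat 129, .negSucc 2083, .negSucc 355, .negSucc 144, .negSucc 5094906, .negSucc 761, .ofNat 32724807]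
def y1_37 : List ℤ := [.ofNat 48835447, .negSucc 3856603, .ofNat 18002028, .ofNat 4807994, .ofNat 17911247, .ofNat 7952619, .ofNat 16352154, .ofNat 46324, .negSucc 19823927, .ofNat 3001864, .negSucc 5601669, .ofNat 11496207, .ofNat 555472, .ofNat 5009469, .negSucc 34683, .negSucc 38, .ofNat 420652, .negSucc 12, .negSucc 8291, .negSucc 20022, .ofNat 2, .negSucc 2150, .ofNat 4984, .ofNat 6, .negSucc 9209, .ofNat 3160, .negSucc 4926, .ofNat 3570, .ofNat 1965, .ofNat 4226, .ofNat 184, .ofNat 117, .negSucc 648, .negSucc 481, .negSucc 0, .negSucc 79, .ofNat 3, .ofNat 13461]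
def y1_38 : List ℤ := [.negSucc 35768948, .negSucc 4038138, .ofNat 44476602, .ofNat 41721844, .ofNat 35993276, .ofNat 833566, .ofNat 24821402, .negSucc 271743, .ofNat 1672593, .ofNat 1929883, .negSucc 1015553, .negSucc 477260, .negSucc 90655, .ofNat 1969586, .negSucc 77146, .ofNat 33, .ofNat 731386, .ofNat 90, .ofNat 6095, .negSucc 5507, .negSucc 56, .negSucc 10393, .negSucc 37477, .ofNat 10, .negSucc 23935, .ofNat 6403, .negSucc 1870, .ofNat 11197, .negSucc 2087, .ofNat 3410, .negSucc 343, .ofNat 2487, .negSucc 490, .negSucc 423, .ofNat 2, .ofNat 3076, .ofNat 2, .ofNat 3095, .ofNat 12996]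
def y1_39 : List ℤ := [.ofNat 65714310, .ofNat 54596593, .ofNat 89501916, .ofNat 46544374, .ofNat 68422249, .ofNat 985349, .ofNat 270805, .negSucc 233260, .negSucc 16747444, .negSucc 22161935, .ofNat 11315528, .ofNat 9438813, .ofNat 414948, .negSucc 22400578, .ofNat 1137, .ofNat 11427, .negSucc 381481, .ofNat 484842, .negSucc 6863, .negSucc 16543, .ofNat 1088140, .ofNat 5100, .ofNat 8963, .ofNat 59867, .negSucc 2826, .negSucc 16435, .negSucc 1721, .ofNat 596, .negSucc 3429, .ofNat 20, .negSucc 132, .ofNat 4451, .negSucc 1154, .negSucc 1067, .negSucc 4742813, .ofNat 1893, .negSucc 5538356, .ofNat 1775, .ofNat 2537, .ofNat 37948293]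
def y1_40 : List ℤ := [.ofNat 10769916, .negSucc 38549220, .ofNat 11204337, .negSucc 11512883, .negSucc 28811639, .negSucc 17606120, .ofNat 9852020, .ofNat 124413, .negSucc 1118623, .ofNat 1168338, .negSucc 792799, .ofNat 249184, .ofNat 42771, .ofNat 1271519, .ofNat 35958, .negSucc 17, .ofNat 597575, .ofNat 14, .negSucc 391, .negSucc 12101, .negSucc 13, .negSucc 13560, .negSucc 6492, .ofNat 0, .negSucc 3640, .ofNat 2922, .negSucc 1532, .ofNat 2621, .ofNat 1067, .ofNat 795, .ofNat 220, .negSucc 1868, .ofNat 214, .negSucc 45, .ofNat 1, .ofNat 2845, .ofNat 1, .ofNat 2873, .ofNat 2039, .negSucc 0, .ofNat 12078]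
def y1_41 : List ℤ := [.negSucc 24733250, .negSucc 23407793, .negSucc 1050004, .negSucc 14492392, .negSucc 50551768, .ofNat 21903077, .ofNat 28785847, .ofNat 77022, .ofNat 18625397, .ofNat 13053133, .negSucc 4976461, .negSucc 9011415, .negSucc 463263, .ofNat 12584594, .negSucc 58113, .ofNat 57, .ofNat 672425, .ofNat 114, .ofNat 11559, .ofNat 9273, .negSucc 63, .negSucc 15248, .negSucc 39762, .ofNat 7, .negSucc 17478, .ofNat 17545, .ofNat 8130, .ofNat 8765, .negSucc 2342, .ofNat 2294, .negSucc 330, .negSucc 231, .ofNat 445, .ofNat 264, .ofNat 0, .negSucc 124, .ofNat 0, .ofNat 2069, .ofNat 205, .negSucc 0, .ofNat 2195, .ofNat 12165]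
def y1_42 : List ℤ := [.ofNat 9714382, .negSucc 33601733, .ofNat 51418151, .ofNat 5554427, .negSucc 38404001, .ofNat 10444176, .negSucc 5996749, .ofNat 35153, .ofNat 19328491, .negSucc 22653506, .ofNat 17203154, .negSucc 10436364, .negSucc 518578, .negSucc 25940404, .ofNat 61519, .ofNat 48, .negSucc 788237, .ofNat 7, .ofNat 6922, .ofNat 9473, .negSucc 7, .negSucc 6267, .negSucc 6779, .negSucc 13, .ofNat 6076, .negSucc 9754, .ofNat 14083, .ofNat 775, .negSucc 7605, .negSucc 4204, .ofNat 529, .negSucc 1644, .negSucc 284, .negSucc 407, .ofNat 4, .ofNat 5352, .negSucc 0, .ofNat 563, .ofNat 3112, .ofNat 0, .ofNat 2852, .ofNat 2144, .ofNat 12979]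
def y1_43 : List ℤ := [.negSucc 41389601, .ofNat 12265941, .ofNat 25673604, .ofNat 23668305, .negSucc 15169127, .ofNat 61960757, .negSucc 29013681, .negSucc 181335, .ofNat 37294291, .negSucc 22217475, .ofNat 19798352, .negSucc 19139942, .negSucc 1015489, .negSucc 26777073, .negSucc 23277, .ofNat 125, .negSucc 2329488, .ofNat 12, .ofNat 13680, .ofNat 46998, .ofNat 5, .ofNat 17459, .negSucc 4418, .negSucc 18, .ofNat 13823, .negSucc 13210, .ofNat 24559, .negSucc 3182, .negSucc 13541, .negSucc 6769, .ofNat 81, .ofNat 294, .ofNat 45, .ofNat 94, .ofNat 4, .ofNat 640, .negSucc 3, .negSucc 4534, .ofNat 556, .ofNat 0, .negSucc 3056, .ofNat 1518, .ofNat 3967, .ofNat 14781]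
def y1_44 : List ℤ := [.negSucc 24731431, .negSucc 51718235, .ofNat 15594422, .negSucc 18127880, .negSucc 4069613, .negSucc 14316294, .negSucc 33976467, .ofNat 77022, .negSucc 23511551, .negSucc 7226548, .ofNat 485641, .ofNat 11895672, .ofNat 629965, .negSucc 5866321, .ofNat 70098, .negSucc 79, .negSucc 852318, .negSucc 145, .negSucc 17523, .negSucc 21135, .ofNat 76, .ofNat 4923, .ofNat 50194, .negSucc 12, .ofNat 23569, .negSucc 22458, .negSucc 6404, .negSucc 10842, .ofNat 310, .negSucc 1434, .ofNat 81, .negSucc 2728, .ofNat 1778, .ofNat 561, .negSucc 0, .negSucc 1212, .ofNat 2, .ofNat 2137, .ofNat 1826, .ofNat 0, .ofNat 1821, .ofNat 181, .negSucc 41, .negSucc 1573, .ofNat 11639]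
def y1_45 : List ℤ := [.ofNat 6922208, .negSucc 9458087, .negSucc 1662839, .negSucc 3510775, .negSucc 5557850, .negSucc 12130894, .ofNat 6913895, .ofNat 42719, .negSucc 7526242, .ofNat 8753350, .negSucc 6602587, .ofNat 3895848, .ofNat 204962, .ofNat 9991996, .negSucc 5211, .negSucc 24, .ofNat 568135, .ofNat 6, .negSucc 2929, .negSucc 10986, .negSucc 6, .negSucc 6459, .negSucc 1981, .ofNat 5, .negSucc 4755, .ofNat 4483, .negSucc 5363, .ofNat 1528, .ofNat 2504, .ofNat 2086, .negSucc 91, .negSucc 429, .ofNat 275, .ofNat 131, .negSucc 0, .negSucc 259, .ofNat 1, .ofNat 2046, .ofNat 541, .ofNat 0, .ofNat 1512, .ofNat 423, .negSucc 592, .negSucc 1959, .ofNat 768, .ofNat 10286]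
def y1_46 : List ℤ := [.negSucc 41388799, .negSucc 630818, .ofNat 33255876, .ofNat 21607143, .ofNat 5962063, .ofNat 56527246, .negSucc 38429091, .negSucc 181335, .ofNat 11978293, .negSucc 34748970, .ofNat 22944487, .negSucc 5521781, .negSucc 336149, .negSucc 38091370, .ofNat 11011, .ofNat 59, .negSucc 2699353, .negSucc 86, .ofNat 79, .ofNat 26933, .ofNat 56, .ofNat 26403, .ofNat 29567, .negSucc 23, .ofNat 23877, .negSucc 25547, .ofNat 19223, .negSucc 8044, .negSucc 11024, .negSucc 6359, .ofNat 593, .negSucc 192, .negSucc 597, .negSucc 445, .ofNat 3, .ofNat 170, .negSucc 2, .negSucc 2338, .ofNat 1553, .ofNat 1, .negSucc 3122, .ofNat 558, .ofNat 3358, .ofNat 6858, .negSucc 300, .negSucc 1177, .ofNat 12325]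
def y1_47 : List ℤ := [.negSucc 45454643, .ofNat 87295436, .ofNat 48644749, .ofNat 64626147, .ofNat 42789620, .ofNat 90579186, .negSucc 50810695, .negSucc 491169, .ofNat 33643854, .negSucc 38822948, .ofNat 29079603, .negSucc 16652592, .negSucc 965180, .negSucc 44173059, .negSucc 61618, .ofNat 149, .negSucc 3726261, .negSucc 41, .ofNat 11389, .ofNat 61090, .ofNat 41, .ofNat 42575, .ofNat 13999, .negSucc 24, .ofNat 22769, .negSucc 27396, .ofNat 28932, .negSucc 8270, .negSucc 17466, .negSucc 9080, .negSucc 5, .ofNat 4338, .negSucc 1165, .negSucc 406, .ofNat 3, .negSucc 2853, .negSucc 6, .negSucc 8684, .negSucc 1310, .ofNat 2, .negSucc 9349, .negSucc 1513, .ofNat 2919, .ofNat 12458, .negSucc 2359, .negSucc 2633, .ofNat 6662, .ofNat 15227]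
def y1_48 : List ℤ := [.ofNat 10772478, .negSucc 38546803, .negSucc 22054730, .negSucc 17171528, .ofNat 18048337, .ofNat 17060339, .ofNat 9852019, .ofNat 124413, .ofNat 2239783, .ofNat 72499, .ofNat 119229, .negSucc 497647, .negSucc 14008, .negSucc 41, .negSucc 18503, .ofNat 6, .negSucc 136, .ofNat 12, .ofNat 995, .ofNat 2652, .negSucc 4, .ofNat 308, .negSucc 2431, .ofNat 0, .negSucc 3640, .ofNat 2922, .ofNat 1449, .ofNat 2802, .negSucc 396, .ofNat 938, .ofNat 220, .negSucc 1868, .ofNat 214, .negSucc 45, .ofNat 1, .ofNat 2856, .ofNat 1, .ofNat 2862, .ofNat 2039, .negSucc 0, .ofNat 1112, .ofNat 929, .ofNat 191, .negSucc 139, .negSucc 242, .ofNat 174, .ofNat 23, .negSucc 1609, .ofNat 11876]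
def y1_49 : List ℤ := [.negSucc 24728746, .negSucc 23403923, .negSucc 46233999, .negSucc 20503431, .ofNat 13289558, .negSucc 22616290, .ofNat 28785852, .ofNat 77022, .ofNat 4888068, .ofNat 17650606, .negSucc 9785814, .negSucc 2883688, .negSucc 113085, .ofNat 18451151, .negSucc 25175, .ofNat 0, .ofNat 1526509, .ofNat 89, .ofNat 7034, .negSucc 2813, .negSucc 49, .negSucc 13414, .negSucc 30701, .ofNat 14, .negSucc 17478, .ofNat 17545, .negSucc 7842, .ofNat 7358, .ofNat 5433, .ofNat 2913, .negSucc 330, .negSucc 231, .ofNat 445, .ofNat 264, .ofNat 0, .ofNat 2069, .ofNat 0, .negSucc 112, .ofNat 205, .negSucc 0, .ofNat 1138, .negSucc 750, .negSucc 1665, .negSucc 2611, .negSucc 473, .ofNat 237, .negSucc 1966, .negSucc 2198, .ofNat 1873, .ofNat 11351]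
def y1_50 : List ℤ := [.negSucc 24730694, .negSucc 51717529, .ofNat 3252902, .negSucc 20503703, .ofNat 13289153, .ofNat 13627896, .negSucc 33976478, .ofNat 77022, .ofNat 4888073, .negSucc 16809978, .ofNat 11168289, .negSucc 2883690, .negSucc 113086, .negSucc 18451074, .ofNat 58582, .ofNat 0, .negSucc 1526337, .negSucc 93, .negSucc 3994, .ofNat 9213, .ofNat 55, .ofNat 10123, .ofNat 32270, .negSucc 18, .ofNat 23569, .negSucc 22458, .ofNat 5454, .negSucc 8830, .negSucc 5312, .negSucc 4977, .ofNat 81, .negSucc 2728, .ofNat 1778, .ofNat 561, .ofNat 2, .ofNat 2144, .negSucc 0, .negSucc 1199, .ofNat 1826, .ofNat 0, .negSucc 34, .ofNat 55, .ofNat 1531, .ofNat 2134, .ofNat 974, .negSucc 320, .ofNat 991, .negSucc 3, .ofNat 1873, .ofNat 1178, .ofNat 11290]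
def y1_51 : List ℤ := [.ofNat 6922237, .negSucc 9458015, .negSucc 5411327, .negSucc 4518186, .negSucc 316163, .ofNat 11972499, .ofNat 6913887, .ofNat 42719, .ofNat 15053330, .ofNat 1136255, .ofNat 1868657, .negSucc 7791455, .negSucc 386018, .negSucc 33, .negSucc 15134, .ofNat 40, .negSucc 447, .ofNat 48, .ofNat 7639, .ofNat 12498, .negSucc 23, .negSucc 3213, .negSucc 16488, .ofNat 0, .negSucc 4755, .ofNat 4483, .ofNat 5035, .ofNat 3164, .negSucc 2447, .negSucc 611, .negSucc 91, .negSucc 429, .ofNat 275, .ofNat 131, .ofNat 1, .ofNat 2047, .ofNat 0, .negSucc 246, .ofNat 541, .ofNat 0, .ofNat 318, .ofNat 730, .ofNat 904, .ofNat 1007, .negSucc 580, .negSucc 113, .ofNat 32, .negSucc 360, .ofNat 1389, .ofNat 811, .ofNat 731, .ofNat 10344]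
def y1_52 : List ℤ := [.ofNat 9720967, .negSucc 33595814, .negSucc 19222944, .negSucc 4735625, .ofNat 61310521, .negSucc 10384296, .negSucc 5996726, .ofNat 35153, .negSucc 38656540, .negSucc 3044065, .negSucc 5006196, .ofNat 20872826, .ofNat 1049839, .ofNat 13, .ofNat 5715, .negSucc 101, .ofNat 1024, .negSucc 113, .negSucc 19651, .negSucc 29837, .ofNat 61, .ofNat 10913, .ofNat 41608, .ofNat 1, .ofNat 6076, .negSucc 9754, .negSucc 14614, .negSucc 3726, .ofNat 6060, .ofNat 3204, .ofNat 529, .negSucc 1644, .negSucc 284, .negSucc 407, .negSucc 1, .ofNat 531, .ofNat 4, .ofNat 5356, .ofNat 3112, .ofNat 0, .ofNat 633, .negSucc 1756, .negSucc 2421, .negSucc 3127, .ofNat 1205, .ofNat 535, .negSucc 99, .negSucc 1691, .ofNat 2768, .ofNat 831, .ofNat 749, .negSucc 93, .ofNat 12186]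
def y1_53 : List ℤ := [.negSucc 41385135, .ofNat 12269623, .negSucc 7942558, .ofNat 20842470, .ofNat 32504547, .negSucc 61112538, .negSucc 29013647, .negSucc 181335, .negSucc 49276536, .ofNat 6949002, .negSucc 12326967, .ofNat 24660567, .ofNat 1240527, .ofNat 11314472, .ofNat 42623, .negSucc 140, .ofNat 372194, .negSucc 148, .negSucc 24901, .negSucc 40904, .ofNat 77, .ofNat 8763, .ofNat 51384, .ofNat 4, .ofNat 13823, .negSucc 13210, .negSucc 25151, .negSucc 9868, .ofNat 10302, .ofNat 2518, .ofNat 81, .ofNat 294, .ofNat 45, .ofNat 94, .negSucc 4, .negSucc 4538, .ofNat 3, .ofNat 613, .ofNat 556, .ofNat 0, .negSucc 273, .negSucc 4046, .negSucc 3928, .negSucc 4680, .ofNat 2707, .ofNat 695, .negSucc 1241, .negSucc 278, .negSucc 2748, .negSucc 574, .negSucc 695, .negSucc 1701, .ofNat 1571, .ofNat 12996]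
def y1_54 : List ℤ := [.negSucc 41385821, .negSucc 628476, .ofNat 14600811, .ofNat 20842391, .ofNat 32504456, .negSucc 55675284, .negSucc 38429067, .negSucc 181335, .negSucc 49276532, .negSucc 14141960, .ofNat 497603, .ofNat 24660566, .ofNat 1240527, .negSucc 11314160, .ofNat 93983, .negSucc 140, .negSucc 368886, .negSucc 195, .negSucc 26604, .negSucc 40850, .ofNat 102, .ofNat 13932, .ofNat 65703, .negSucc 5, .ofNat 23877, .negSucc 25547, .negSucc 19343, .negSucc 12852, .ofNat 7532, .negSucc 363, .ofNat 593, .negSucc 192, .negSucc 597, .negSucc 445, .negSucc 2, .negSucc 2339, .ofNat 2, .ofNat 156, .ofNat 1553, .ofNat 1, .negSucc 258, .negSucc 4215, .negSucc 1925, .negSucc 3408, .ofNat 2406, .ofNat 249, .negSucc 156, .ofNat 268, .negSucc 2748, .negSucc 751, .negSucc 499, .negSucc 1701, .ofNat 1571, .ofNat 4918, .ofNat 12029]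
def y1_55 : List ℤ := [.negSucc 45452640, .ofNat 87296731, .ofNat 49945311, .ofNat 68090502, .ofNat 41305295, .negSucc 87986757, .negSucc 50810656, .negSucc 491170, .negSucc 67298410, .negSucc 4856407, .negSucc 7986730, .ofNat 33302074, .ofNat 1629308, .ofNat 173, .ofNat 76090, .negSucc 176, .ofNat 2078, .negSucc 220, .negSucc 33467, .negSucc 54705, .ofNat 112, .ofNat 16574, .ofNat 71769, .ofNat 2, .ofNat 22769, .negSucc 27396, .negSucc 30267, .negSucc 15975, .ofNat 10968, .ofNat 1160, .negSucc 5, .ofNat 4338, .negSucc 1165, .negSucc 406, .negSucc 6, .negSucc 8667, .ofNat 1, .negSucc 2905, .negSucc 1310, .ofNat 2, .negSucc 3082, .negSucc 7086, .negSucc 4313, .negSucc 4288, .ofNat 3124, .ofNat 174, .negSucc 260, .ofNat 3207, .negSucc 8150, .negSucc 3162, .negSucc 2849, .negSucc 3526, .ofNat 176, .ofNat 8846, .ofNat 5940, .ofNat 14654]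
def y1_56 : List ℤ := [.negSucc 27139019, .negSucc 15024079, .negSucc 8596003, .negSucc 4219814, .negSucc 6544633, .negSucc 90000, .negSucc 51973, .negSucc 4444, .ofNat 9, .negSucc 1, .negSucc 3, .ofNat 4, .ofNat 227, .ofNat 0, .ofNat 185, .negSucc 0, .ofNat 4, .ofNat 0, .ofNat 20, .negSucc 5, .ofNat 0, .negSucc 18, .ofNat 36, .negSucc 0, .ofNat 522, .ofNat 291, .ofNat 158, .ofNat 27, .ofNat 327, .ofNat 24, .ofNat 73, .negSucc 540, .ofNat 82, .ofNat 30, .ofNat 0, .ofNat 93, .ofNat 0, .ofNat 94, .ofNat 540, .ofNat 0, .ofNat 387, .ofNat 291, .ofNat 138, .ofNat 2, .ofNat 309, .ofNat 64, .ofNat 43, .negSucc 369, .ofNat 288, .ofNat 288, .ofNat 260, .ofNat 27, .ofNat 153, .ofNat 129, .ofNat 86, .negSucc 231, .ofNat 10087]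
def y1_57 : List ℤ := [.negSucc 74274758, .negSucc 148122, .negSucc 28711742, .negSucc 3059890, .negSucc 20677749, .negSucc 96457, .negSucc 2911567, .negSucc 85076, .ofNat 1997632, .ofNat 2707873, .negSucc 1267658, .negSucc 1152689, .negSucc 70302, .ofNat 2729520, .negSucc 11471, .ofNat 9, .negSucc 33116, .ofNat 8, .ofNat 1746, .ofNat 6034, .negSucc 0, .ofNat 4308, .negSucc 1657, .ofNat 1, .ofNat 1852, .ofNat 3197, .ofNat 826, .negSucc 1198, .ofNat 1505, .negSucc 302, .ofNat 28, .ofNat 231, .negSucc 202, .ofNat 87, .negSucc 0, .negSucc 2532, .negSucc 0, .negSucc 2548, .negSucc 1297, .ofNat 0, .negSucc 1194, .negSucc 93, .negSucc 727, .ofNat 843, .ofNat 1, .negSucc 242, .ofNat 327, .ofNat 751, .negSucc 969, .ofNat 236, .negSucc 271, .negSucc 359, .negSucc 615, .ofNat 915, .ofNat 435, .ofNat 548, .ofNat 323, .ofNat 10617]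
def y1_58 : List ℤ := [.negSucc 74275775, .negSucc 24827243, .ofNat 14422496, .negSucc 3059889, .negSucc 20677735, .negSucc 2569993, .ofNat 1371743, .negSucc 85076, .ofNat 1997633, .negSucc 2371474, .ofNat 1820890, .negSucc 1152689, .negSucc 70302, .negSucc 2729543, .ofNat 918, .ofNat 9, .ofNat 32952, .ofNat 11, .ofNat 1583, .negSucc 2409, .negSucc 9, .negSucc 5143, .negSucc 7349, .negSucc 1, .negSucc 822, .negSucc 2498, .ofNat 1876, .ofNat 693, .negSucc 1265, .negSucc 284, .negSucc 226, .ofNat 390, .ofNat 576, .ofNat 157, .ofNat 0, .negSucc 635, .ofNat 0, .negSucc 637, .ofNat 995, .ofNat 0, .ofNat 700, .ofNat 823, .ofNat 1023, .ofNat 508, .ofNat 1208, .ofNat 34, .ofNat 450, .ofNat 7, .negSucc 969, .negSucc 245, .ofNat 263, .negSucc 359, .negSucc 615, .ofNat 749, .ofNat 682, .ofNat 548, .ofNat 323, .ofNat 643, .ofNat 10598]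
def y1_59 : List ℤ := [.negSucc 80866833, .ofNat 6814837, .ofNat 3898922, .ofNat 11164307, .negSucc 8299638, .negSucc 25988161, .negSucc 15007665, .negSucc 186804, .ofNat 1569704, .ofNat 290483, .ofNat 477721, .negSucc 1991693, .negSucc 103258, .ofNat 51, .ofNat 22506, .negSucc 0, .ofNat 143, .negSucc 8, .ofNat 960, .ofNat 692, .ofNat 4, .negSucc 590, .negSucc 239, .negSucc 1, .ofNat 5478, .negSucc 5543, .negSucc 3333, .negSucc 3252, .ofNat 642, .negSucc 1834, .negSucc 383, .ofNat 1228, .ofNat 634, .ofNat 399, .negSucc 0, .negSucc 1748, .negSucc 0, .negSucc 4492, .negSucc 498, .ofNat 0, .negSucc 1009, .negSucc 1671, .negSucc 183, .ofNat 382, .ofNat 969, .negSucc 284, .negSucc 74, .ofNat 1112, .negSucc 2514, .ofNat 233, .ofNat 210, .negSucc 697, .negSucc 1282, .ofNat 2563, .ofNat 1721, .ofNat 2007, .ofNat 267, .ofNat 920, .ofNat 866, .ofNat 10905]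
def y1_60 : List ℤ := [.negSucc 74273284, .negSucc 24824987, .negSucc 14203954, .negSucc 7474819, .ofNat 19704049, .ofNat 2375394, .ofNat 1371745, .negSucc 85076, .negSucc 3996602, .negSucc 336058, .negSucc 552673, .ofNat 2305017, .ofNat 102545, .negSucc 47, .negSucc 21165, .negSucc 3, .ofNat 30, .negSucc 4, .negSucc 902, .negSucc 1614, .ofNat 2, .ofNat 2617, .ofNat 163, .ofNat 1, .negSucc 822, .negSucc 2498, .negSucc 2216, .ofNat 132, .ofNat 695, .ofNat 516, .negSucc 226, .ofNat 390, .ofNat 576, .ofNat 157, .negSucc 0, .negSucc 633, .ofNat 0, .negSucc 639, .ofNat 995, .ofNat 0, .negSucc 839, .negSucc 581, .negSucc 783, .ofNat 423, .ofNat 636, .negSucc 205, .ofNat 578, .ofNat 151, .ofNat 889, .ofNat 1059, .ofNat 954, .negSucc 33, .ofNat 949, .ofNat 641, .ofNat 431, .negSucc 278, .ofNat 323, .ofNat 643, .ofNat 605, .ofNat 550, .ofNat 10566]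
def y1_61 : List ℤ := [.negSucc 80866378, .ofNat 6815458, .negSucc 7580002, .ofNat 8472607, .ofNat 7794235, .ofNat 26346408, .negSucc 15007664, .negSucc 186804, .negSucc 786630, .ofNat 1151493, .negSucc 1026335, .ofNat 995345, .ofNat 1408, .ofNat 1425255, .negSucc 56019, .ofNat 20, .negSucc 854946, .negSucc 22, .negSucc 1472, .ofNat 10549, .ofNat 17, .ofNat 13008, .ofNat 8640, .negSucc 2, .ofNat 5478, .negSucc 5543, .ofNat 2925, .negSucc 3259, .negSucc 2491, .negSucc 296, .negSucc 383, .ofNat 1228, .ofNat 634, .ofNat 399, .negSucc 0, .negSucc 4482, .negSucc 0, .negSucc 1775, .negSucc 498, .ofNat 0, .negSucc 2872, .ofNat 69, .negSucc 1034, .ofNat 2877, .ofNat 779, .negSucc 377, .ofNat 1832, .ofNat 2196, .negSucc 396, .negSucc 335, .ofNat 207, .negSucc 418, .ofNat 322, .ofNat 1003, .ofNat 102, .ofNat 473, .ofNat 267, .ofNat 920, .ofNat 615, .ofNat 320, .ofNat 816, .ofNat 10887]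
def y1_62 : List ℤ := [.negSucc 80866310, .negSucc 3080797, .ofNat 9716482, .ofNat 8472737, .ofNat 7794476, .ofNat 170179, .ofNat 30320486, .negSucc 186804, .negSucc 786629, .negSucc 1441073, .ofNat 550100, .ofNat 995344, .ofNat 1407, .negSucc 1425494, .negSucc 49549, .ofNat 20, .ofNat 854311, .ofNat 75, .ofNat 5799, .negSucc 5804, .negSucc 47, .negSucc 7045, .negSucc 30935, .ofNat 9, .negSucc 18597, .ofNat 8678, .negSucc 21, .ofNat 8197, .ofNat 1228, .ofNat 2630, .negSucc 197, .ofNat 2858, .negSucc 929, .negSucc 579, .ofNat 0, .negSucc 155, .ofNat 0, .negSucc 156, .ofNat 1025, .ofNat 0, .negSucc 520, .negSucc 154, .ofNat 155, .ofNat 258, .negSucc 133, .negSucc 328, .ofNat 839, .ofNat 526, .negSucc 396, .ofNat 171, .negSucc 355, .negSucc 418, .ofNat 322, .ofNat 474, .ofNat 890, .ofNat 473, .ofNat 267, .ofNat 670, .ofNat 881, .ofNat 320, .ofNat 816, .ofNat 270, .ofNat 10883]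
def y1_63 : List ℤ := [.negSucc 13751000, .negSucc 3064726, .negSucc 1753620, .ofNat 6652254, .negSucc 530255, .ofNat 120637, .ofNat 69666, .negSucc 43403, .negSucc 346, .ofNat 88, .ofNat 145, .negSucc 103, .negSucc 9679, .negSucc 17, .negSucc 7878, .ofNat 3, .negSucc 68, .ofNat 6, .ofNat 352, .ofNat 565, .negSucc 2, .ofNat 641, .negSucc 2038, .ofNat 0, .negSucc 1300, .ofNat 884, .negSucc 44, .ofNat 780, .ofNat 28, .ofNat 246, .ofNat 98, .negSucc 117, .negSucc 229, .negSucc 84, .ofNat 0, .ofNat 311, .ofNat 0, .ofNat 313, .ofNat 831, .ofNat 0, .ofNat 232, .ofNat 27, .ofNat 244, .ofNat 120, .ofNat 181, .ofNat 62, .ofNat 156, .negSucc 137, .ofNat 194, .ofNat 91, .ofNat 82, .negSucc 1, .ofNat 297, .ofNat 275, .ofNat 185, .negSucc 50, .ofNat 104, .ofNat 91, .ofNat 85, .ofNat 49, .ofNat 78, .ofNat 44, .ofNat 43, .ofNat 10067]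
def y4_1 : List (List ℤ) :=
  [y1_0, y1_1, y1_2, y1_3, y1_4, y1_5, y1_6, y1_7, y1_8, y1_9, y1_10, y1_11, y1_12, y1_13, y1_14, y1_15, y1_16, y1_17, y1_18, y1_19, y1_20, y1_21, y1_22, y1_23, y1_24, y1_25, y1_26, y1_27, y1_28, y1_29, y1_30, y1_31, y1_32, y1_33, y1_34, y1_35, y1_36, y1_37, y1_38, y1_39, y1_40, y1_41, y1_42, y1_43, y1_44, y1_45, y1_46, y1_47, y1_48, y1_49, y1_50, y1_51, y1_52, y1_53, y1_54, y1_55, y1_56, y1_57, y1_58, y1_59, y1_60, y1_61, y1_62, y1_63]

def y3_0 : List ℤ := [.ofNat 1712519]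
def y3_1 : List ℤ := [.negSucc 27456564, .ofNat 25463899]
def y3_2 : List ℤ := [.negSucc 10027078, .negSucc 31272655, .ofNat 77708794]
def y3_3 : List ℤ := [.negSucc 50441534, .negSucc 7703312, .ofNat 62076348, .ofNat 82588502]
def y3_4 : List ℤ := [.negSucc 10027154, .negSucc 31272746, .negSucc 23742340, .ofNat 14256422, .ofNat 72606593]
def y3_5 : List ℤ := [.negSucc 50441634, .negSucc 7703363, .negSucc 3814573, .negSucc 11592302, .ofNat 67467564, .ofNat 77288871]
def y3_6 : List ℤ := [.negSucc 16988259, .negSucc 1121455, .ofNat 25349101, .ofNat 24222565, .ofNat 30663367, .ofNat 24360261, .ofNat 60990249]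
def y3_7 : List ℤ := [.negSucc 10645172, .negSucc 21065436, .ofNat 46313682, .ofNat 67988842, .ofNat 51363121, .ofNat 77495657, .ofNat 79965016, .ofNat 40969200]
def y3_8 : List ℤ := [.negSucc 10027097, .negSucc 31272844, .negSucc 45151371, .negSucc 2633722, .negSucc 18036421, .negSucc 2543736, .negSucc 6105739, .ofNat 144580, .ofNat 60199571]
def y3_9 : List ℤ := [.negSucc 50441479, .negSucc 7703680, .negSucc 38867517, .negSucc 16726290, .negSucc 26100344, .negSucc 25545969, .negSucc 41165270, .ofNat 4834128, .ofNat 37161704, .ofNat 66716621]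
def y3_10 : List ℤ := [.negSucc 9489600, .ofNat 24149527, .negSucc 2154240, .ofNat 18006796, .ofNat 659034, .ofNat 3377316, .negSucc 26189169, .ofNat 3077546, .negSucc 5932198, .ofNat 12018771, .ofNat 41589222]
def y3_11 : List ℤ := [.negSucc 22860740, .negSucc 9430196, .negSucc 302542, .ofNat 9498421, .negSucc 2306626, .negSucc 11339575, .ofNat 6741340, .negSucc 792848, .negSucc 686489, .ofNat 13036690, .ofNat 24630212, .ofNat 7606407]
def y3_12 : List ℤ := [.negSucc 70480274, .negSucc 129908, .negSucc 13742228, .negSucc 2164360, .ofNat 9273635, .negSucc 5698528, .ofNat 13814045, .negSucc 1624742, .ofNat 9633183, .ofNat 111315, .negSucc 1068423, .ofNat 4775462, .ofNat 5880077]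
def y3_13 : List ℤ := [.negSucc 12243075, .ofNat 9160527, .negSucc 30250959, .negSucc 31097401, .ofNat 27230767, .ofNat 17705488, .ofNat 13731065, .negSucc 1613416, .ofNat 23663017, .ofNat 42602757, .negSucc 1840224, .ofNat 11487130, .ofNat 30141, .ofNat 722907]
def y3_14 : List ℤ := [.negSucc 29481753, .negSucc 2267947, .ofNat 6382359, .ofNat 21873893, .ofNat 36558565, .ofNat 38344892, .ofNat 10026099, .ofNat 3142310, .ofNat 11511203, .ofNat 29926367, .ofNat 17012756, .negSucc 182436, .negSucc 6988, .ofNat 146724, .ofNat 15674]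
def y3_15 : List ℤ := [.ofNat 5951751, .negSucc 51073697, .ofNat 16989218, .ofNat 27942739, .ofNat 62690026, .ofNat 52583587, .ofNat 66684817, .ofNat 970737, .ofNat 2288315, .ofNat 21237799, .ofNat 32580370, .ofNat 5797324, .ofNat 432765, .ofNat 127819, .ofNat 15643, .ofNat 24173]
def y3_16 : List ℤ := [.negSucc 10026707, .negSucc 31272804, .negSucc 3540310, .negSucc 11998610, .negSucc 47126025, .ofNat 84460, .negSucc 6105836, .ofNat 144585, .negSucc 48563661, .negSucc 4645154, .ofNat 4864050, .negSucc 9338568, .negSucc 17395886, .negSucc 1840194, .negSucc 30572, .negSucc 4857, .ofNat 28759517]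
def y3_17 : List ℤ := [.negSucc 50440800, .negSucc 7703503, .negSucc 15580158, .negSucc 29375057, .negSucc 40925702, .negSucc 18540154, .negSucc 41165525, .ofNat 4834139, .negSucc 35126788, .negSucc 63634567, .ofNat 3688277, .negSucc 23054366, .ofNat 66320, .negSucc 1933353, .negSucc 13440, .negSucc 7524, .ofNat 55, .ofNat 35154]
def y3_18 : List ℤ := [.negSucc 70480186, .negSucc 129884, .ofNat 12466372, .negSucc 6188661, .negSucc 9416334, .negSucc 5443490, .ofNat 13814027, .negSucc 1624742, .negSucc 10306080, .negSucc 1140951, .negSucc 175276, .ofNat 3010404, .negSucc 5858213, .negSucc 633720, .negSucc 21391, .negSucc 11082, .ofNat 78, .ofNat 21427, .ofNat 28578]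
def y3_19 : List ℤ := [.negSucc 12242559, .ofNat 9160678, .ofNat 28980274, .ofNat 22793961, .negSucc 27375975, .negSucc 28780489, .ofNat 13730896, .negSucc 1613409, .negSucc 24338013, .negSucc 43629048, .ofNat 607707, .negSucc 3778541, .negSucc 35599, .negSucc 562076, .negSucc 9418, .negSucc 5241, .ofNat 20, .ofNat 9021, .ofNat 5024, .ofNat 12003]
def y3_20 : List ℤ := [.negSucc 9489860, .ofNat 24149744, .ofNat 4577380, .negSucc 2169703, .negSucc 382679, .ofNat 17746110, .negSucc 26189187, .ofNat 3077545, .ofNat 7218523, .negSucc 10061816, .negSucc 39237767, .negSucc 14708089, .ofNat 5647, .negSucc 165125, .ofNat 1416, .negSucc 9891, .negSucc 14, .negSucc 758, .negSucc 7750, .negSucc 1503, .ofNat 15823]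
def y3_21 : List ℤ := [.negSucc 22860845, .negSucc 9430049, .negSucc 320133, .negSucc 13574753, .ofNat 2236919, .ofNat 5902211, .ofNat 6741304, .negSucc 792847, .ofNat 357985, .negSucc 13539219, .negSucc 25237067, .negSucc 3807483, .ofNat 10064, .negSucc 292970, .negSucc 5075, .negSucc 3240, .ofNat 14, .ofNat 5973, .ofNat 2420, .negSucc 293, .ofNat 2152, .ofNat 11209]
def y3_22 : List ℤ := [.negSucc 29481577, .negSucc 2267778, .ofNat 36221068, .ofNat 35159199, .ofNat 11771624, .ofNat 25285314, .ofNat 10025996, .ofNat 3142314, .negSucc 10194977, .negSucc 27926639, .negSucc 14612870, .negSucc 14825551, .ofNat 24027, .negSucc 644840, .ofNat 2395, .negSucc 2505, .ofNat 6, .ofNat 7863, .negSucc 3523, .ofNat 544, .ofNat 6401, .ofNat 1078, .ofNat 12353]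
def y3_23 : List ℤ := [.ofNat 5951718, .negSucc 51073465, .ofNat 58509578, .ofNat 51737029, .ofNat 27156991, .ofNat 30445322, .ofNat 66684754, .ofNat 970739, .negSucc 1880616, .negSucc 20619439, .negSucc 31839398, .negSucc 10429916, .negSucc 423262, .negSucc 407794, .ofNat 8927, .ofNat 9795, .ofNat 3, .ofNat 3222, .negSucc 2832, .ofNat 74, .ofNat 5649, .ofNat 3606, .ofNat 5117, .ofNat 15372]
def y3_24 : List ℤ := [.negSucc 16987756, .negSucc 1121742, .negSucc 28256241, .negSucc 43222580, .negSucc 30995000, .negSucc 49702354, .ofNat 1848875, .negSucc 7384290, .negSucc 1543379, .negSucc 2347852, .negSucc 2820977, .ofNat 17644733, .negSucc 7395, .ofNat 218215, .negSucc 18560, .negSucc 4964, .ofNat 29, .ofNat 2927, .ofNat 14772, .ofNat 1806, .negSucc 8612, .ofNat 1023, .negSucc 5186, .negSucc 2433, .ofNat 13891]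
def y3_25 : List ℤ := [.negSucc 10644150, .negSucc 21066019, .negSucc 49879196, .negSucc 75737283, .negSucc 54823818, .negSucc 86956616, .negSucc 48325356, .negSucc 13592855, .negSucc 5909117, .negSucc 1075557, .negSucc 4997202, .ofNat 23790224, .ofNat 6170443, .ofNat 451038, .negSucc 14658, .ofNat 3237, .negSucc 10189604, .ofNat 9805, .ofNat 18527, .negSucc 576, .negSucc 15473, .ofNat 2849, .negSucc 8882, .negSucc 723, .ofNat 11694, .ofNat 37465677]
def y3_26 : List ℤ := [.negSucc 29481122, .negSucc 2268088, .negSucc 6054684, .negSucc 1755889, .negSucc 38534880, .negSucc 39232815, .negSucc 32386615, .negSucc 516468, .negSucc 12866149, .negSucc 13828298, .ofNat 16819439, .ofNat 1031669, .ofNat 19524, .negSucc 511925, .negSucc 10604, .negSucc 3551, .ofNat 26, .ofNat 9707, .ofNat 6174, .ofNat 1420, .negSucc 4996, .negSucc 586, .negSucc 1916, .negSucc 2035, .ofNat 2153, .ofNat 1, .ofNat 11369]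
def y3_27 : List ℤ := [.ofNat 5952718, .negSucc 51074029, .negSucc 30555245, .negSucc 41760698, .negSucc 55031548, .negSucc 73747509, .negSucc 14776266, .negSucc 7072119, .negSucc 23899701, .negSucc 22932287, .ofNat 30748478, .ofNat 17546085, .negSucc 420900, .negSucc 473295, .negSucc 20117, .ofNat 6631, .ofNat 53, .ofNat 13180, .ofNat 17097, .ofNat 1893, .negSucc 17247, .ofNat 694, .negSucc 7280, .negSucc 1447, .ofNat 8526, .ofNat 6, .ofNat 4817, .ofNat 16139]
def y3_28 : List ℤ := [.negSucc 29481455, .negSucc 2268067, .negSucc 34476970, .negSucc 41754627, .negSucc 9555481, .negSucc 6362069, .negSucc 32386551, .negSucc 516472, .ofNat 12655267, .ofNat 13502705, .negSucc 17215897, .ofNat 1453481, .negSucc 520, .negSucc 40335, .negSucc 7128, .negSucc 5224, .ofNat 11, .ofNat 3369, .ofNat 3151, .negSucc 1936, .negSucc 325, .ofNat 1513, .negSucc 1707, .negSucc 900, .ofNat 2153, .ofNat 1, .ofNat 573, .ofNat 1305, .ofNat 11280]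
def y3_29 : List ℤ := [.ofNat 5952176, .negSucc 51073946, .negSucc 49743942, .negSucc 69308548, .negSucc 35359961, .negSucc 51149367, .negSucc 14776163, .negSucc 7072124, .ofNat 20948371, .ofNat 18437867, .negSucc 36153752, .ofNat 16268273, .ofNat 426377, .ofNat 317102, .negSucc 13526, .ofNat 2933, .ofNat 18, .negSucc 1250, .ofNat 9473, .negSucc 2251, .negSucc 8156, .ofNat 4406, .negSucc 5688, .ofNat 2331, .ofNat 8526, .ofNat 6, .ofNat 2095, .ofNat 7434, .ofNat 3889, .ofNat 14453]
def y3_30 : List ℤ := [.ofNat 13111463, .negSucc 13652479, .ofNat 75806, .ofNat 495141, .ofNat 8707, .ofNat 660399, .negSucc 1637552, .ofNat 192373, .ofNat 40337, .ofNat 61237, .ofNat 73442, .negSucc 459230, .ofNat 697, .negSucc 20746, .ofNat 2224, .ofNat 3536, .negSucc 1, .negSucc 756, .negSucc 1575, .negSucc 625, .negSucc 722, .ofNat 312, .negSucc 114, .ofNat 990, .ofNat 140, .ofNat 1, .ofNat 384, .ofNat 1249, .ofNat 223, .ofNat 765, .ofNat 10170]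
def y3_31 : List ℤ := [.negSucc 29371779, .negSucc 20169455, .ofNat 101885, .ofNat 659817, .ofNat 12814, .ofNat 879718, .negSucc 2181407, .ofNat 255136, .ofNat 55952, .ofNat 82602, .ofNat 96496, .negSucc 600751, .ofNat 10742, .negSucc 313002, .negSucc 2523, .ofNat 1513, .ofNat 17, .ofNat 6402, .ofNat 3144, .negSucc 364, .negSucc 1240, .ofNat 1082, .negSucc 22, .ofNat 1072, .ofNat 1125, .ofNat 1, .ofNat 1075, .ofNat 1748, .ofNat 827, .ofNat 1033, .ofNat 186, .ofNat 10371]
def y3_32 : List ℤ := [.ofNat 20831023, .negSucc 4758604, .negSucc 704286, .negSucc 4600132, .negSucc 80897, .negSucc 6135467, .ofNat 15213726, .negSucc 1787214, .negSucc 374770, .negSucc 568943, .negSucc 682306, .ofNat 4266396, .negSucc 6705, .ofNat 195592, .ofNat 0, .ofNat 2421, .negSucc 2, .negSucc 2897, .ofNat 987, .ofNat 386, .negSucc 1623, .ofNat 139, .negSucc 776, .ofNat 443, .ofNat 916, .ofNat 0, .negSucc 268, .ofNat 587, .negSucc 325, .ofNat 390, .negSucc 9, .negSucc 289, .ofNat 10180]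
def y3_33 : List ℤ := [.negSucc 16925087, .ofNat 21505392, .negSucc 284231, .negSucc 1856489, .negSucc 32648, .negSucc 2476108, .ofNat 6139853, .negSucc 721276, .negSucc 151247, .negSucc 229607, .negSucc 275360, .ofNat 1721808, .negSucc 2676, .ofNat 78780, .negSucc 3670, .negSucc 5296, .ofNat 3, .ofNat 589, .ofNat 2822, .ofNat 1121, .ofNat 829, .negSucc 484, .ofNat 15, .negSucc 1536, .negSucc 24, .negSucc 0, .negSucc 695, .negSucc 1932, .negSucc 442, .negSucc 1175, .negSucc 558, .negSucc 357, .ofNat 88, .ofNat 10449]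
def y3_34 : List ℤ := [.ofNat 2560510, .ofNat 27716474, .ofNat 21133060, .ofNat 5596686, .negSucc 18067465, .negSucc 17556561, .ofNat 6992145, .negSucc 3275526, .negSucc 22957101, .ofNat 14216712, .ofNat 41868328, .ofNat 14793338, .negSucc 10631086, .ofNat 39269, .negSucc 22392, .negSucc 10707, .ofNat 78, .ofNat 12514, .ofNat 32418, .ofNat 2435, .negSucc 7013, .negSucc 3321, .negSucc 3190, .negSucc 4418, .ofNat 1270, .ofNat 0, .ofNat 454, .ofNat 16, .negSucc 2015, .negSucc 3605, .negSucc 601, .negSucc 727, .ofNat 293, .ofNat 979, .ofNat 17963]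
def y3_35 : List ℤ := [.ofNat 27535398, .ofNat 10574158, .ofNat 26950216, .ofNat 37573444, .ofNat 9948638, .ofNat 3372656, .ofNat 34373898, .ofNat 576698, .negSucc 3004113, .ofNat 3715030, .ofNat 16595738, .ofNat 1428241, .ofNat 24049, .ofNat 293643, .ofNat 8116, .ofNat 4322, .negSucc 16, .negSucc 6603, .negSucc 2936, .ofNat 1733, .ofNat 824, .negSucc 1808, .ofNat 1483, .ofNat 437, .negSucc 2369, .negSucc 1, .negSucc 1156, .negSucc 2374, .negSucc 2410, .negSucc 2467, .negSucc 217, .negSucc 665, .ofNat 441, .ofNat 415, .ofNat 691, .ofNat 10856]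
def y3_36 : List ℤ := [.ofNat 2560122, .ofNat 27716667, .negSucc 22311126, .negSucc 16181133, .ofNat 18499569, .ofNat 3277086, .ofNat 6992140, .negSucc 3275527, .ofNat 21581730, .negSucc 16303100, .negSucc 44368711, .ofNat 839553, .ofNat 10599992, .ofNat 869336, .ofNat 12568, .negSucc 510, .negSucc 83, .negSucc 23786, .negSucc 25067, .ofNat 321, .ofNat 5107, .ofNat 1763, .ofNat 390, .negSucc 636, .ofNat 1270, .ofNat 0, .negSucc 1974, .negSucc 3058, .ofNat 911, .ofNat 1784, .negSucc 601, .negSucc 727, .ofNat 293, .ofNat 979, .negSucc 8432, .ofNat 268, .ofNat 15858]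
def y3_37 : List ℤ := [.ofNat 27535251, .ofNat 10574227, .ofNat 7954596, .negSucc 1214028, .ofNat 31683588, .ofNat 34348576, .ofNat 34373894, .ofNat 576698, .ofNat 3240207, .negSucc 3351115, .negSucc 16153274, .negSucc 4201104, .negSucc 42778, .ofNat 251048, .ofNat 7435, .ofNat 853, .negSucc 17, .negSucc 5179, .negSucc 5285, .negSucc 369, .ofNat 5403, .ofNat 393, .ofNat 2288, .ofNat 1557, .negSucc 2369, .negSucc 1, .negSucc 2722, .negSucc 3221, .negSucc 654, .negSucc 809, .negSucc 217, .negSucc 665, .ofNat 441, .ofNat 415, .negSucc 162, .ofNat 500, .ofNat 688, .ofNat 10843]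
def y3_38 : List ℤ := [.ofNat 9347059, .negSucc 3686800, .ofNat 14101290, .ofNat 22435733, .ofNat 15298144, .ofNat 26006991, .negSucc 4823487, .ofNat 4062611, .ofNat 849397, .ofNat 1291872, .ofNat 1551914, .negSucc 9706656, .ofNat 5169, .negSucc 152150, .ofNat 10006, .ofNat 3310, .negSucc 14, .negSucc 1211, .negSucc 8102, .negSucc 1215, .ofNat 4285, .negSucc 416, .ofNat 2658, .ofNat 1478, .negSucc 3422, .negSucc 0, .negSucc 463, .negSucc 1302, .negSucc 293, .negSucc 792, .ofNat 402, .ofNat 225, .negSucc 287, .negSucc 679, .negSucc 578, .negSucc 67, .negSucc 961, .negSucc 49, .ofNat 10435]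
def y3_39 : List ℤ := [.ofNat 49091950, .negSucc 5831748, .ofNat 55593773, .ofNat 70685633, .ofNat 63800505, .ofNat 77836676, .ofNat 49817321, .ofNat 7211188, .ofNat 1504513, .ofNat 2291293, .ofNat 2755839, .negSucc 17240178, .negSucc 3531, .ofNat 99460, .ofNat 28715, .ofNat 12176, .negSucc 45, .negSucc 9739, .negSucc 18483, .negSucc 1282, .ofNat 10875, .negSucc 1070, .ofNat 7257, .ofNat 5006, .negSucc 8553, .negSucc 3, .negSucc 3168, .negSucc 5128, .negSucc 2439, .negSucc 3028, .ofNat 534, .negSucc 243, .ofNat 105, .negSucc 814, .negSucc 821, .ofNat 1242, .negSucc 1387, .ofNat 1209, .ofNat 1430, .ofNat 11848]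
def y3_40 : List ℤ := [.ofNat 2560323, .ofNat 27716447, .negSucc 26040416, .ofNat 17112032, .ofNat 15175206, .negSucc 12199439, .ofNat 13988874, .ofNat 811798, .ofNat 13945334, .ofNat 17781405, .ofNat 41814324, .ofNat 8225261, .ofNat 10602392, .ofNat 798670, .ofNat 21497, .ofNat 11162, .negSucc 79, .negSucc 20746, .negSucc 23571, .ofNat 2258, .negSucc 2848, .negSucc 3568, .negSucc 840, .negSucc 4297, .negSucc 1849, .negSucc 2, .negSucc 454, .negSucc 2812, .negSucc 2462, .negSucc 3038, .negSucc 601, .negSucc 727, .ofNat 293, .ofNat 979, .negSucc 8776, .ofNat 2423, .ofNat 3932, .negSucc 469, .negSucc 565, .negSucc 21, .ofNat 14958]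
def y3_41 : List ℤ := [.ofNat 27535603, .ofNat 10573927, .negSucc 24378923, .negSucc 21606286, .negSucc 17909157, .negSucc 34207682, .negSucc 4985330, .negSucc 4027991, .ofNat 8251411, .ofNat 24483693, .ofNat 14212467, .ofNat 16355032, .negSucc 59160, .ofNat 730352, .negSucc 3963, .ofNat 556, .negSucc 6, .negSucc 9485, .ofNat 4801, .ofNat 500, .negSucc 6405, .negSucc 1382, .negSucc 4156, .negSucc 2951, .ofNat 2747, .ofNat 1, .ofNat 388, .ofNat 1354, .negSucc 247, .ofNat 500, .negSucc 217, .negSucc 665, .ofNat 441, .ofNat 415, .ofNat 1127, .ofNat 589, .ofNat 605, .negSucc 185, .negSucc 640, .negSucc 823, .ofNat 1206, .ofNat 10666]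
def y3_42 : List ℤ := [.ofNat 35874899, .ofNat 14821663, .ofNat 176432, .ofNat 24376056, .negSucc 3456723, .negSucc 8868990, .negSucc 14766981, .ofNat 1736281, .negSucc 1485796, .ofNat 23395365, .ofNat 46572536, .ofNat 6058681, .negSucc 15364, .ofNat 447127, .ofNat 8906, .ofNat 5902, .negSucc 21, .negSucc 9344, .negSucc 4207, .ofNat 422, .negSucc 3931, .negSucc 4052, .negSucc 1332, .negSucc 3296, .negSucc 2301, .negSucc 0, .ofNat 626, .negSucc 332, .negSucc 2032, .negSucc 2753, .ofNat 192, .negSucc 469, .ofNat 4, .negSucc 309, .ofNat 1187, .ofNat 1076, .negSucc 813, .negSucc 823, .ofNat 465, .ofNat 641, .ofNat 2155, .ofNat 853, .ofNat 11139]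
def y3_43 : List ℤ := [.ofNat 68980076, .negSucc 42295652, .negSucc 8649136, .negSucc 12584158, .ofNat 4248828, .negSucc 19453380, .ofNat 46941703, .negSucc 5514997, .negSucc 12977093, .negSucc 1013918, .ofNat 37107224, .ofNat 18504174, .negSucc 13371, .ofNat 389847, .ofNat 1452, .ofNat 17139, .ofNat 5, .negSucc 4211, .ofNat 5825, .ofNat 1326, .negSucc 12188, .negSucc 787, .negSucc 4372, .ofNat 451, .ofNat 3756, .ofNat 2, .ofNat 1136, .ofNat 5455, .negSucc 1581, .ofNat 712, .ofNat 465, .negSucc 367, .ofNat 1024, .negSucc 515, .ofNat 837, .ofNat 1185, .negSucc 587, .ofNat 377, .negSucc 373, .ofNat 555, .ofNat 1458, .ofNat 1002, .ofNat 854, .ofNat 12097]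
def y3_48 : List ℤ := [.ofNat 2560251, .ofNat 27716727, .ofNat 25274344, .negSucc 19215912, .negSucc 15832595, .ofNat 9556311, .ofNat 13988804, .ofNat 811800, .negSucc 13607572, .negSucc 17266066, .negSucc 41193483, .negSucc 12110208, .negSucc 10607047, .negSucc 662524, .negSucc 20832, .negSucc 19869, .ofNat 71, .ofNat 19928, .ofNat 22120, .ofNat 177, .ofNat 8402, .ofNat 1541, .ofNat 2953, .ofNat 2185, .negSucc 1849, .negSucc 2, .negSucc 2788, .negSucc 3837, .ofNat 127, .negSucc 948, .negSucc 601, .negSucc 727, .ofNat 293, .ofNat 979, .ofNat 7628, .negSucc 462, .negSucc 5877, .ofNat 2375, .negSucc 565, .negSucc 21, .negSucc 3976, .negSucc 265, .negSucc 2239, .negSucc 1527, .ofNat 14160]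
def y3_49 : List ℤ := [.ofNat 27535721, .ofNat 10574073, .negSucc 13248600, .negSucc 32525829, .negSucc 24037976, .negSucc 27217424, .negSucc 4985421, .negSucc 4027987, .negSucc 9939715, .negSucc 27047669, .negSucc 17288367, .ofNat 2879338, .ofNat 32965, .ofNat 35336, .negSucc 9820, .negSucc 5375, .ofNat 4, .negSucc 74, .ofNat 2917, .ofNat 1057, .negSucc 1954, .ofNat 726, .negSucc 2070, .negSucc 1013, .ofNat 2747, .ofNat 1, .negSucc 70, .ofNat 1083, .ofNat 269, .ofNat 1022, .negSucc 217, .negSucc 665, .ofNat 441, .ofNat 415, .ofNat 14, .negSucc 137, .ofNat 1286, .ofNat 587, .negSucc 640, .negSucc 823, .negSucc 509, .ofNat 397, .negSucc 528, .ofNat 483, .ofNat 1106, .ofNat 10633]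
def y3_52 : List ℤ := [.ofNat 35874693, .ofNat 14821931, .ofNat 1188310, .negSucc 15446566, .ofNat 3610440, .ofNat 20779648, .negSucc 14767041, .ofNat 1736282, .ofNat 2207252, .negSucc 22293702, .negSucc 45244324, .negSucc 14371065, .ofNat 1502, .negSucc 44763, .ofNat 3786, .negSucc 5847, .negSucc 23, .negSucc 4217, .negSucc 10531, .negSucc 1838, .ofNat 8796, .ofNat 1610, .ofNat 2695, .ofNat 2018, .negSucc 2301, .negSucc 0, .negSucc 2023, .negSucc 2424, .ofNat 1014, .ofNat 1104, .ofNat 192, .negSucc 469, .ofNat 4, .negSucc 309, .negSucc 1259, .negSucc 761, .ofNat 688, .ofNat 1126, .ofNat 465, .ofNat 641, .negSucc 2255, .negSucc 368, .negSucc 749, .negSucc 832, .ofNat 1427, .ofNat 858, .ofNat 10963]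
def y3_53 : List ℤ := [.ofNat 68979738, .negSucc 42295463, .ofNat 4303928, .negSucc 15802884, .negSucc 4746799, .negSucc 18408412, .ofNat 46941725, .negSucc 5514998, .ofNat 10666673, .negSucc 2495966, .negSucc 41319089, .ofNat 7834905, .negSucc 17993, .ofNat 524407, .ofNat 1246, .ofNat 8764, .negSucc 11, .negSucc 10051, .ofNat 150, .negSucc 656, .negSucc 1490, .ofNat 3558, .negSucc 1032, .ofNat 5923, .ofNat 3756, .ofNat 2, .negSucc 885, .ofNat 3181, .ofNat 822, .ofNat 4741, .ofNat 465, .negSucc 367, .ofNat 1024, .negSucc 515, .negSucc 894, .ofNat 438, .ofNat 465, .ofNat 1177, .negSucc 373, .ofNat 555, .negSucc 1768, .ofNat 673, .negSucc 999, .ofNat 1856, .ofNat 1098, .ofNat 812, .ofNat 757, .ofNat 11821]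
def y3_56 : List ℤ := [.ofNat 9347307, .negSucc 3686941, .negSucc 12311222, .negSucc 10737857, .negSucc 15093674, .negSucc 10404517, .negSucc 33864942, .ofNat 483438, .ofNat 101352, .ofNat 153885, .ofNat 184571, .negSucc 1154131, .ofNat 1717, .negSucc 50254, .negSucc 958, .negSucc 395, .negSucc 2, .negSucc 690, .negSucc 2052, .negSucc 1134, .negSucc 1229, .negSucc 126, .negSucc 1115, .negSucc 770, .ofNat 481, .ofNat 1, .ofNat 1107, .ofNat 1717, .ofNat 861, .ofNat 1011, .ofNat 402, .ofNat 225, .negSucc 287, .negSucc 679, .negSucc 264, .negSucc 715, .negSucc 427, .negSucc 677, .ofNat 402, .negSucc 177, .negSucc 627, .ofNat 54, .ofNat 568, .negSucc 183, .negSucc 768, .ofNat 68, .ofNat 450, .negSucc 201, .ofNat 10351]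
def y3_57 : List ℤ := [.ofNat 49092967, .negSucc 5832328, .negSucc 54789072, .negSucc 65417681, .negSucc 63710421, .negSucc 70809827, .negSucc 67241299, .negSucc 5161937, .negSucc 1079982, .negSucc 1641867, .negSucc 1971578, .ofNat 12330713, .negSucc 9557, .ofNat 279867, .negSucc 13775, .negSucc 2482, .ofNat 3, .negSucc 4203, .ofNat 4059, .negSucc 1023, .negSucc 9777, .negSucc 2, .negSucc 6938, .negSucc 3429, .ofNat 5878, .ofNat 4, .ofNat 2820, .ofNat 6251, .ofNat 1976, .ofNat 3764, .ofNat 534, .negSucc 243, .ofNat 105, .negSucc 814, .ofNat 174, .negSucc 1110, .ofNat 308, .negSucc 1066, .negSucc 206, .negSucc 1605, .negSucc 828, .ofNat 1174, .ofNat 989, .ofNat 814, .negSucc 842, .ofNat 1100, .ofNat 956, .ofNat 608, .ofNat 1258, .ofNat 11593]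
def y4_3 : List (List ℤ) :=
  [y3_0, y3_1, y3_2, y3_3, y3_4, y3_5, y3_6, y3_7, y3_8, y3_9, y3_10, y3_11, y3_12, y3_13, y3_14, y3_15, y3_16, y3_17, y3_18, y3_19, y3_20, y3_21, y3_22, y3_23, y3_24, y3_25, y3_26, y3_27, y3_28, y3_29, y3_30, y3_31, y3_32, y3_33, y3_34, y3_35, y3_36, y3_37, y3_38, y3_39, y3_40, y3_41, y3_42, y3_43, [], [], [], [], y3_48, y3_49, [], [], y3_52, y3_53, [], [], y3_56, y3_57, [], [], [], [], [], []]

def y7_0 : List ℤ := [.ofNat 7170664]
def y7_1 : List ℤ := [.ofNat 36354391, .ofNat 90405395]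
def y7_2 : List ℤ := [.ofNat 36355214, .negSucc 44986955, .ofNat 78417514]
def y7_3 : List ℤ := [.ofNat 50130077, .ofNat 22671475, .ofNat 39143407, .ofNat 45827803]
def y7_4 : List ℤ := [.ofNat 9707213, .ofNat 21528737, .ofNat 37170528, .ofNat 23636987, .ofNat 15117152]
def y7_5 : List ℤ := [.ofNat 18663306, .ofNat 21596557, .ofNat 56225179, .ofNat 46420580, .ofNat 4231948, .ofNat 52556587]
def y7_6 : List ℤ := [.ofNat 18663240, .ofNat 38022943, .ofNat 46710926, .ofNat 46420381, .ofNat 4232152, .negSucc 52556495, .ofNat 98027]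
def y7_7 : List ℤ := [.ofNat 30809716, .ofNat 43007350, .ofNat 74254470, .ofNat 43305337, .ofNat 3867897, .ofNat 56, .ofNat 59937, .ofNat 14274]
def y7_8 : List ℤ := [.ofNat 36354110, .negSucc 44986384, .negSucc 77671595, .ofNat 7268136, .negSucc 7976409, .negSucc 112, .negSucc 120943, .negSucc 19178, .ofNat 29324]
def y7_9 : List ℤ := [.ofNat 50129583, .ofNat 22671793, .negSucc 34524764, .ofNat 11701820, .negSucc 37987426, .ofNat 29169561, .negSucc 482, .ofNat 2792, .ofNat 6666, .ofNat 3114439]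
def y7_10 : List ℤ := [.ofNat 50129990, .negSucc 41228495, .ofNat 2485294, .ofNat 11701708, .negSucc 37987311, .negSucc 29169510, .ofNat 53923, .ofNat 2792, .ofNat 6666, .negSucc 3113895, .ofNat 58135]
def y7_11 : List ℤ := [.negSucc 20006599, .ofNat 1456705, .ofNat 2514925, .ofNat 24510088, .negSucc 26897214, .ofNat 111, .ofNat 118788, .ofNat 13329, .negSucc 9499, .ofNat 217, .ofNat 23242, .ofNat 16142]
def y7_12 : List ℤ := [.ofNat 33730884, .ofNat 25288849, .ofNat 43662503, .negSucc 8014302, .negSucc 69750865, .ofNat 193, .ofNat 207126, .ofNat 30835, .negSucc 22455, .ofNat 517, .ofNat 55355, .ofNat 9755, .ofNat 19375]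
def y7_13 : List ℤ := [.ofNat 3588909, .ofNat 76147764, .ofNat 50439227, .negSucc 3262767, .negSucc 15959287, .ofNat 8018289, .ofNat 121543, .ofNat 20359, .negSucc 20965, .ofNat 863016, .ofNat 8060, .ofNat 3451, .ofNat 7241, .ofNat 12201]
def y7_14 : List ℤ := [.ofNat 3589342, .ofNat 5858771, .ofNat 91149664, .negSucc 3262798, .negSucc 15959256, .negSucc 8018048, .ofNat 136498, .ofNat 20359, .negSucc 20965, .negSucc 862714, .ofNat 24168, .ofNat 3451, .ofNat 7241, .ofNat 2140, .ofNat 12012]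
def y7_15 : List ℤ := [.negSucc 82448967, .ofNat 78021882, .ofNat 134709116, .ofNat 12618553, .negSucc 19218523, .ofNat 320, .ofNat 342635, .ofNat 48332, .negSucc 55260, .ofNat 248, .ofNat 26587, .ofNat 16559, .ofNat 11901, .ofNat 5571, .ofNat 4666, .ofNat 17160]
def y7_16 : List ℤ := [.ofNat 9706717, .ofNat 21529045, .negSucc 36164004, .negSucc 3607980, .negSucc 16568806, .ofNat 23813073, .negSucc 11508, .ofNat 1294, .ofNat 1650, .ofNat 2542400, .negSucc 12274, .ofNat 1564, .ofNat 1697, .ofNat 777, .negSucc 1504, .negSucc 460, .ofNat 11627]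
def y7_17 : List ℤ := [.ofNat 18662547, .ofNat 21596962, .negSucc 51819463, .ofNat 43701726, .negSucc 8351301, .ofNat 57391085, .negSucc 72428, .negSucc 7475, .ofNat 14450, .ofNat 11738091, .negSucc 103399, .ofNat 3019, .negSucc 3791, .negSucc 426, .negSucc 4765, .negSucc 305, .ofNat 12638, .ofNat 28629]
def y7_18 : List ℤ := [.ofNat 33730272, .ofNat 25289067, .negSucc 36897429, .ofNat 54392837, .negSucc 20417821, .negSucc 45557407, .ofNat 58846, .negSucc 3004, .ofNat 12890, .negSucc 4863566, .ofNat 61585, .ofNat 4795, .negSucc 1975, .negSucc 2131, .negSucc 2233, .negSucc 160, .negSucc 4548, .negSucc 9566, .ofNat 15621]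
def y7_19 : List ℤ := [.ofNat 3588194, .ofNat 76148101, .negSucc 48639131, .ofNat 21104958, .negSucc 3021452, .negSucc 7323277, .ofNat 15771, .negSucc 877, .ofNat 3381, .negSucc 788636, .ofNat 10368, .ofNat 2048, .negSucc 1238, .ofNat 910, .negSucc 2770, .ofNat 500, .negSucc 698, .negSucc 3999, .ofNat 4986, .ofNat 11994]
def y7_20 : List ℤ := [.negSucc 3959220, .ofNat 34426580, .negSucc 2684134, .negSucc 27861383, .ofNat 27154883, .negSucc 3967533, .negSucc 65384, .negSucc 6198, .negSucc 103, .negSucc 423766, .negSucc 17774, .negSucc 7267, .negSucc 1619, .ofNat 1535, .ofNat 105, .negSucc 1726, .negSucc 1031, .negSucc 2771, .negSucc 1968, .ofNat 1013, .ofNat 11380]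
def y7_21 : List ℤ := [.negSucc 24268489, .ofNat 37371987, .negSucc 1413402, .negSucc 5241376, .ofNat 22891668, .ofNat 19882376, .negSucc 34958, .negSucc 1581, .negSucc 3754, .ofNat 2122500, .negSucc 36160, .negSucc 1947, .negSucc 2072, .ofNat 1403, .negSucc 722, .ofNat 902, .ofNat 1758, .ofNat 2973, .negSucc 1551, .ofNat 940, .ofNat 1191, .ofNat 10637]
def y7_24 : List ℤ := [.ofNat 18662664, .ofNat 38023367, .negSucc 42395886, .negSucc 24085087, .negSucc 68349832, .ofNat 6611682, .ofNat 135909, .ofNat 21146, .negSucc 13249, .negSucc 4904607, .ofNat 96703, .ofNat 8949, .ofNat 11592, .ofNat 2162, .ofNat 422, .ofNat 946, .negSucc 3913, .negSucc 14148, .ofNat 4647, .ofNat 2690, .negSucc 615, .negSucc 906, .ofNat 14319]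
def y7_25 : List ℤ := [.ofNat 30808724, .ofNat 43007928, .negSucc 69928978, .ofNat 11641701, .negSucc 38471227, .ofNat 29807328, .ofNat 4161, .ofNat 2480, .ofNat 6343, .ofNat 3182500, .negSucc 2124, .ofNat 4586, .ofNat 2906, .ofNat 732, .negSucc 3170, .negSucc 852, .ofNat 4172, .ofNat 4307, .ofNat 2304, .ofNat 2068, .negSucc 489, .ofNat 47, .ofNat 2769, .ofNat 11286]
def y7_26 : List ℤ := [.ofNat 3588061, .ofNat 5859418, .negSucc 88962352, .ofNat 14553723, .negSucc 16570457, .negSucc 15343650, .negSucc 17058, .negSucc 7943, .ofNat 13626, .negSucc 1631150, .ofNat 25237, .ofNat 3276, .negSucc 2399, .negSucc 1815, .negSucc 3162, .negSucc 558, .negSucc 1063, .negSucc 4034, .ofNat 5657, .ofNat 2319, .negSucc 934, .negSucc 399, .ofNat 1909, .ofNat 1038, .ofNat 11112]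
def y7_27 : List ℤ := [.negSucc 82450844, .ofNat 78022847, .negSucc 130304847, .ofNat 28970106, .negSucc 29105780, .negSucc 3115520, .ofNat 131113, .ofNat 10525, .negSucc 7963, .negSucc 332385, .ofNat 27314, .ofNat 17187, .negSucc 132, .ofNat 370, .negSucc 5093, .ofNat 7321, .ofNat 627, .negSucc 3214, .ofNat 10170, .ofNat 5728, .negSucc 2144, .ofNat 675, .ofNat 3888, .ofNat 2323, .ofNat 4345, .ofNat 15194]
def y7_32 : List ℤ := [.ofNat 9707119, .negSucc 42081805, .ofNat 678446, .negSucc 3608071, .negSucc 16568713, .negSucc 23813052, .ofNat 32907, .ofNat 1294, .ofNat 1650, .negSucc 2542185, .ofNat 35184, .ofNat 1564, .ofNat 1697, .negSucc 1344, .ofNat 1029, .negSucc 460, .negSucc 2300, .negSucc 3817, .ofNat 1161, .negSucc 995, .negSucc 1008, .negSucc 1119, .ofNat 424, .negSucc 464, .ofNat 294, .negSucc 346, .ofNat 10493]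
def y7_33 : List ℤ := [.ofNat 33730667, .negSucc 44588635, .ofNat 3575103, .ofNat 54393012, .negSucc 20418000, .ofNat 45557439, .negSucc 26125, .negSucc 3004, .ofNat 12890, .ofNat 4863869, .negSucc 29210, .ofNat 4795, .negSucc 1975, .negSucc 2572, .negSucc 1706, .negSucc 160, .ofNat 5602, .ofNat 12414, .negSucc 26, .negSucc 2024, .negSucc 3155, .negSucc 655, .negSucc 976, .ofNat 944, .negSucc 97, .negSucc 144, .ofNat 221, .ofNat 12422]
def y7_34 : List ℤ := [.ofNat 18663055, .negSucc 55695071, .negSucc 7053243, .ofNat 43701503, .negSucc 8351073, .negSucc 57391119, .ofNat 34615, .negSucc 7475, .ofNat 14450, .negSucc 11737975, .ofNat 115724, .ofNat 3019, .negSucc 3791, .negSucc 4766, .ofNat 415, .negSucc 305, .negSucc 11901, .negSucc 22534, .ofNat 10017, .ofNat 954, .negSucc 2599, .negSucc 1946, .ofNat 2493, .negSucc 1527, .ofNat 2270, .ofNat 1576, .ofNat 1538, .ofNat 946, .ofNat 14093]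
def y7_35 : List ℤ := [.ofNat 3589139, .negSucc 80081769, .ofNat 41847248, .ofNat 21104986, .negSucc 3021480, .ofNat 7323295, .ofNat 2112, .negSucc 877, .ofNat 3381, .ofNat 788693, .negSucc 4354, .ofNat 2048, .negSucc 1238, .negSucc 2567, .ofNat 1381, .ofNat 500, .ofNat 923, .ofNat 5176, .negSucc 1554, .negSucc 3306, .negSucc 2432, .negSucc 1004, .negSucc 1900, .negSucc 894, .negSucc 507, .negSucc 865, .ofNat 851, .ofNat 2693, .ofNat 1188, .ofNat 11067]
def y7_36 : List ℤ := [.negSucc 3958895, .negSucc 19459491, .ofNat 28526010, .negSucc 27861368, .ofNat 27154867, .ofNat 3967405, .negSucc 72784, .negSucc 6198, .negSucc 103, .ofNat 423362, .negSucc 25681, .negSucc 7267, .negSucc 1619, .ofNat 373, .ofNat 1493, .negSucc 1726, .negSucc 155, .ofNat 992, .negSucc 4437, .negSucc 1440, .ofNat 1483, .ofNat 449, .negSucc 1562, .negSucc 965, .negSucc 1341, .negSucc 2067, .negSucc 282, .negSucc 806, .negSucc 810, .negSucc 124, .ofNat 10349]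
def y7_38 : List ℤ := [.negSucc 24268129, .negSucc 19822908, .ofNat 31713032, .negSucc 5241452, .ofNat 22891746, .negSucc 19882406, .ofNat 2125, .negSucc 1581, .negSucc 3754, .negSucc 2122805, .ofNat 3465, .negSucc 1947, .negSucc 2072, .negSucc 464, .ofNat 1508, .ofNat 902, .negSucc 2687, .negSucc 3226, .negSucc 572, .negSucc 767, .ofNat 235, .ofNat 40, .negSucc 1431, .negSucc 1340, .negSucc 165, .negSucc 71, .ofNat 202, .negSucc 527, .ofNat 849, .ofNat 267, .ofNat 262, .ofNat 10301]
def y7_40 : List ℤ := [.ofNat 18663237, .negSucc 55695053, .ofNat 11884586, .negSucc 24085110, .negSucc 68349808, .negSucc 6611416, .ofNat 148241, .ofNat 21146, .negSucc 13249, .ofNat 4905558, .ofNat 5136, .ofNat 8949, .ofNat 11592, .ofNat 795, .ofNat 2055, .ofNat 946, .ofNat 6318, .ofNat 13055, .negSucc 3902, .negSucc 3474, .negSucc 2027, .negSucc 1835, .negSucc 277, .ofNat 953, .negSucc 763, .negSucc 1408, .ofNat 1538, .ofNat 946, .negSucc 3457, .ofNat 1445, .negSucc 531, .negSucc 554,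 .ofNat 13564]
def y7_41 : List ℤ := [.ofNat 3588574, .negSucc 80081459, .negSucc 39186409, .ofNat 14553782, .negSucc 16570518, .ofNat 15343592, .negSucc 45676, .negSucc 7943, .ofNat 13626, .ofNat 1631338, .negSucc 5214, .ofNat 3276, .negSucc 2399, .negSucc 3431, .negSucc 1232, .negSucc 558, .ofNat 2331, .ofNat 5750, .ofNat 381, .negSucc 1927, .negSucc 2785, .negSucc 1016, .negSucc 256, .ofNat 297, .ofNat 644, .ofNat 662, .ofNat 851, .ofNat 2693, .ofNat 843, .ofNat 1727, .negSucc 342, .negSucc 118, .ofNat 1247, .ofNat 10886]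
def y7_42 : List ℤ := [.ofNat 30809504, .negSucc 82057613, .ofNat 2507206, .ofNat 11641587, .negSucc 38471110, .negSucc 29807267, .ofNat 59757, .ofNat 2480, .ofNat 6343, .negSucc 3181984, .ofNat 57281, .ofNat 4586, .ofNat 2906, .negSucc 2993, .ofNat 1276, .negSucc 852, .negSucc 2498, .negSucc 3466, .ofNat 2402, .negSucc 2174, .negSucc 2704, .negSucc 2212, .ofNat 663, .negSucc 443, .ofNat 534, .negSucc 648, .ofNat 1762, .ofNat 1541, .ofNat 1998, .ofNat 1507, .negSucc 497, .negSucc 15, .ofNat 2405, .ofNat 1065, .ofNat 10936]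
def y7_43 : List ℤ := [.negSucc 82449448, .negSucc 151851358, .ofNat 2835363, .ofNat 28970118, .negSucc 29105792, .ofNat 3115760, .ofNat 125302, .ofNat 10525, .negSucc 7963, .ofNat 332838, .ofNat 21104, .ofNat 17187, .negSucc 133, .negSucc 4950, .ofNat 1258, .ofNat 7321, .ofNat 1284, .ofNat 6997, .ofNat 1702, .negSucc 4227, .negSucc 6746, .negSucc 1966, .negSucc 1155, .negSucc 957, .ofNat 1757, .ofNat 4234, .ofNat 2169, .ofNat 4967, .ofNat 2637, .ofNat 4324, .negSucc 876, .ofNat 764, .ofNat 2948, .ofNat 3436, .ofNat 1957, .ofNat 14054]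
def y7_48 : List ℤ := [.negSucc 3959338, .negSucc 19459271, .negSucc 33597391, .negSucc 19860469, .ofNat 28635053, .negSucc 119, .negSucc 128462, .negSucc 16682, .ofNat 12505, .negSucc 233, .negSucc 25075, .negSucc 7494, .negSucc 5350, .negSucc 1107, .negSucc 927, .negSucc 2726, .negSucc 372, .negSucc 348, .negSucc 1590, .negSucc 61, .ofNat 1194, .ofNat 483, .negSucc 929, .negSucc 413, .negSucc 130, .negSucc 591, .negSucc 282, .negSucc 806, .negSucc 204, .negSucc 379, .ofNat 480, .ofNat 167, .negSucc 828, .negSucc 26, .negSucc 339, .negSucc 431, .ofNat 10312]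
def y7_52 : List ℤ := [.ofNat 34852101, .negSucc 2524573, .negSucc 4358543, .negSucc 42477736, .ofNat 46614798, .negSucc 191, .negSucc 206110, .negSucc 23129, .ofNat 16506, .negSucc 375, .negSucc 40286, .negSucc 17260, .negSucc 5407, .ofNat 170, .ofNat 143, .negSucc 6719, .negSucc 913, .negSucc 1491, .negSucc 5185, .negSucc 488, .ofNat 3750, .ofNat 903, .negSucc 1650, .negSucc 829, .negSucc 1782, .negSucc 4001, .negSucc 822, .negSucc 2338, .negSucc 1285, .negSucc 1438, .ofNat 1133, .ofNat 13, .negSucc 1465, .negSucc 1071, .negSucc 798, .negSucc 2793, .ofNat 860, .ofNat 10944]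
def y7_56 : List ℤ := [.negSucc 24268577, .negSucc 19822633, .negSucc 34224802, .negSucc 27770035, .negSucc 3804601, .negSucc 10, .negSucc 11614, .negSucc 638, .negSucc 1696, .ofNat 8, .ofNat 862, .ofNat 594, .ofNat 733, .negSucc 83, .negSucc 70, .ofNat 290, .ofNat 197, .negSucc 349, .negSucc 810, .negSucc 76, .negSucc 28, .negSucc 26, .ofNat 721, .ofNat 110, .ofNat 334, .ofNat 765, .ofNat 202, .negSucc 527, .negSucc 595, .ofNat 52, .ofNat 106, .ofNat 48, .ofNat 731, .ofNat 322, .ofNat 80, .ofNat 642, .ofNat 266, .ofNat 108, .ofNat 10270]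
def y4_7 : List (List ℤ) :=
  [y7_0, y7_1, y7_2, y7_3, y7_4, y7_5, y7_6, y7_7, y7_8, y7_9, y7_10, y7_11, y7_12, y7_13, y7_14, y7_15, y7_16, y7_17, y7_18, y7_19, y7_20, y7_21, [], [], y7_24, y7_25, y7_26, y7_27, [], [], [], [], y7_32, y7_33, y7_34, y7_35, y7_36, [], y7_38, [], y7_40, y7_41, y7_42, y7_43, [], [], [], [], y7_48, [], [], [], y7_52, [], [], [], y7_56, [], [], [], [], [], [], []]

def y15_0 : List ℤ := [.ofNat 640863]
def y15_1 : List ℤ := [.negSucc 4127166, .ofNat 51701418]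
def y15_2 : List ℤ := [.negSucc 4127133, .negSucc 2343469, .ofNat 51648241]
def y15_3 : List ℤ := [.negSucc 5074106, .ofNat 35196270, .ofNat 36829422, .ofNat 44367613]
def y15_4 : List ℤ := [.negSucc 4127260, .negSucc 2343349, .negSucc 2452132, .negSucc 16528721, .ofNat 48870553]
def y15_5 : List ℤ := [.negSucc 5074310, .ofNat 35196460, .negSucc 15947349, .negSucc 8314312, .ofNat 35310622, .ofNat 41888142]
def y15_6 : List ℤ := [.negSucc 5074257, .negSucc 17526279, .ofNat 34437328, .negSucc 8314323, .ofNat 35310587, .ofNat 3166499, .ofNat 41768263]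
def y15_7 : List ℤ := [.ofNat 17967596, .ofNat 25935055, .ofNat 27138415, .ofNat 13608470, .ofNat 34645253, .ofNat 22103124, .ofNat 20490877, .ofNat 397161]
def y15_8 : List ℤ := [.negSucc 4127122, .negSucc 2343490, .negSucc 2452191, .ofNat 12345891, .negSucc 32127796, .negSucc 6532337, .negSucc 6055853, .negSucc 119076, .ofNat 37383863]
def y15_9 : List ℤ := [.negSucc 5074098, .ofNat 35196255, .ofNat 8856931, .ofNat 37974942, .negSucc 16824507, .negSucc 2258213, .negSucc 21838747, .negSucc 60566, .ofNat 20530641, .ofNat 24854478]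
def y15_10 : List ℤ := [.negSucc 5074074, .ofNat 7252463, .ofNat 35561526, .ofNat 37974938, .negSucc 16824518, .negSucc 21946975, .negSucc 600863, .negSucc 60566, .ofNat 20530641, .ofNat 18920058, .ofNat 16117582]
def y15_11 : List ℤ := [.negSucc 17781037, .ofNat 15666568, .ofNat 16393529, .ofNat 24276166, .negSucc 6788990, .negSucc 4883800, .negSucc 4527565, .negSucc 253846, .ofNat 8284858, .ofNat 8832305, .ofNat 3252014, .ofNat 13465]
def y15_12 : List ℤ := [.negSucc 46408366, .negSucc 6170201, .negSucc 6456518, .negSucc 10040941, .ofNat 9042280, .ofNat 3861335, .ofNat 3579684, .negSucc 723844, .ofNat 28599293, .ofNat 30489075, .ofNat 11225937, .ofNat 12640, .ofNat 25121]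
def y15_16 : List ℤ := [.negSucc 4127249, .negSucc 2343370, .negSucc 34234481, .negSucc 4750798, .negSucc 5916097, .ofNat 1931335, .negSucc 6055860, .negSucc 119077, .negSucc 9792668, .negSucc 14742243, .ofNat 17367353, .ofNat 2250, .ofNat 101, .ofNat 27976749]
def y15_17 : List ℤ := [.negSucc 5074302, .ofNat 35196446, .negSucc 28493124, .negSucc 2169818, .ofNat 7196880, .ofNat 30665144, .negSucc 21838756, .negSucc 60567, .negSucc 15179287, .negSucc 23996481, .ofNat 15264659, .ofNat 2747, .negSucc 2419, .ofNat 20, .ofNat 29395]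
def y15_18 : List ℤ := [.negSucc 46408366, .negSucc 6170201, .ofNat 12075854, .ofNat 5020163, .negSucc 4519666, .negSucc 6908206, .ofNat 3579672, .negSucc 723845, .negSucc 14299643, .negSucc 28196396, .ofNat 29563628, .ofNat 15941, .ofNat 6725, .ofNat 28, .ofNat 34038, .ofNat 23166]
def y15_20 : List ℤ := [.negSucc 5074369, .ofNat 7252740, .negSucc 29760978, .negSucc 29304380, .ofNat 26178387, .ofNat 32275218, .negSucc 600870, .negSucc 60567, .negSucc 5351353, .negSucc 16486346, .ofNat 27181154, .ofNat 1317, .ofNat 4281, .ofNat 23, .ofNat 28483, .ofNat 4430, .ofNat 17402]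
def y15_21 : List ℤ := [.negSucc 17781179, .ofNat 15666700, .negSucc 14971186, .negSucc 8028117, .ofNat 13858930, .ofNat 21151082, .negSucc 4527569, .negSucc 253846, .negSucc 4142427, .negSucc 8168142, .ofNat 8564211, .ofNat 5949, .ofNat 4821, .ofNat 10, .ofNat 13115, .ofNat 3945, .ofNat 1320, .ofNat 10911]
def y15_24 : List ℤ := [.negSucc 5074231, .negSucc 17526327, .negSucc 30885312, .negSucc 8714426, .negSucc 37137850, .negSucc 18567603, .negSucc 28647633, .negSucc 195565, .ofNat 8627331, .ofNat 1383229, .ofNat 24609355, .negSucc 267, .ofNat 2814, .ofNat 16, .ofNat 18005, .ofNat 2873, .ofNat 8880, .negSucc 1473, .ofNat 14904]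
def y15_25 : List ℤ := [.ofNat 17967617, .ofNat 25935017, .negSucc 24785669, .ofNat 13290434, .negSucc 22943030, .ofNat 4826978, .negSucc 35481767, .ofNat 241358, .ofNat 6857748, .ofNat 1099511, .ofNat 19561642, .negSucc 6181, .negSucc 5132, .ofNat 14, .ofNat 16769, .negSucc 2508, .ofNat 9589, .negSucc 1202, .ofNat 6871, .ofNat 13282]
def y15_32 : List ℤ := [.negSucc 4127217, .negSucc 34093127, .negSucc 3892713, .negSucc 4750805, .negSucc 5916120, .negSucc 5892548, .ofNat 2383585, .negSucc 119076, .negSucc 9792667, .ofNat 40059, .negSucc 22780629, .ofNat 2250, .ofNat 101, .negSucc 2350330, .negSucc 14866, .negSucc 744, .negSucc 9236, .ofNat 1030, .negSucc 4364, .negSucc 3566, .ofNat 27877842]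
def y15_33 : List ℤ := [.negSucc 46408368, .ofNat 12343111, .negSucc 5616502, .ofNat 5020158, .negSucc 4519686, .ofNat 3047194, .negSucc 7159056, .negSucc 723844, .negSucc 14299642, .negSucc 2292674, .negSucc 40789562, .ofNat 15941, .ofNat 6725, .negSucc 20, .negSucc 22766, .ofNat 3244, .negSucc 23023, .ofNat 4801, .negSucc 12191, .negSucc 8592, .ofNat 4, .ofNat 19767]
def y15_34 : List ℤ := [.negSucc 5074226, .negSucc 30059236, .ofNat 33868678, .negSucc 2169837, .ofNat 7196818, .negSucc 19458184, .ofNat 32228256, .negSucc 60567, .negSucc 15179286, .negSucc 8368126, .negSucc 27181158, .ofNat 2747, .negSucc 2419, .negSucc 16, .negSucc 21296, .ofNat 2403, .negSucc 12667, .ofNat 440, .negSucc 7195, .negSucc 5805, .ofNat 1, .ofNat 3868, .ofNat 11983]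
def y15_36 : List ℤ := [.negSucc 5074317, .negSucc 30059150, .ofNat 5896230, .negSucc 29304395, .ofNat 26178336, .ofNat 1840651, .ofNat 32228258, .negSucc 60566, .negSucc 5351351, .ofNat 5076424, .negSucc 31382234, .ofNat 1317, .ofNat 4281, .negSucc 22, .negSucc 27773, .negSucc 3858, .negSucc 10099, .ofNat 1184, .negSucc 7195, .negSucc 5805, .ofNat 1, .ofNat 3868, .ofNat 2179, .ofNat 11783]
def y15_38 : List ℤ := [.negSucc 17781142, .negSucc 15665930, .ofNat 14971943, .negSucc 8028126, .ofNat 13858901, .negSucc 2915723, .ofNat 21432803, .negSucc 253846, .negSucc 4142427, .negSucc 664159, .negSucc 11816223, .ofNat 5949, .ofNat 4821, .negSucc 7, .negSucc 9584, .ofNat 2696, .negSucc 6827, .ofNat 1108, .negSucc 4724, .negSucc 4065, .ofNat 1, .ofNat 2821, .ofNat 1619, .ofNat 1347, .ofNat 10493]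
def y15_40 : List ℤ := [.negSucc 5074208, .negSucc 30059269, .negSucc 18908187, .negSucc 8714434, .negSucc 37137877, .negSucc 29969292, .negSucc 16348881, .negSucc 195565, .ofNat 8627332, .ofNat 17011586, .negSucc 17836468, .negSucc 267, .ofNat 2814, .negSucc 15, .negSucc 20307, .negSucc 4428, .negSucc 6423, .negSucc 479, .ofNat 506, .negSucc 1805, .ofNat 1, .ofNat 3868, .ofNat 370, .ofNat 1022, .negSucc 72, .ofNat 11933]
def y15_42 : List ℤ := [.ofNat 17967677, .negSucc 25935843, .ofNat 24784885, .ofNat 13290419, .negSucc 22943080, .negSucc 35015378, .ofNat 7495371, .ofNat 241358, .ofNat 6857749, .ofNat 13522280, .negSucc 14177965, .negSucc 6181, .negSucc 5132, .negSucc 15, .negSucc 20810, .negSucc 4576, .negSucc 3899, .negSucc 2258, .ofNat 549, .negSucc 379, .ofNat 0, .negSucc 1102, .ofNat 1529, .ofNat 314, .negSucc 41, .ofNat 1461, .ofNat 11133]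
def y15_48 : List ℤ := [.negSucc 5074300, .negSucc 30059183, .negSucc 31453919, .negSucc 23311828, .negSucc 29445593, .negSucc 17635237, .negSucc 16348888, .negSucc 195566, .negSucc 17254661, .negSucc 18394815, .negSucc 6772885, .ofNat 1049, .negSucc 2482, .ofNat 2, .ofNat 1822, .ofNat 3633, .negSucc 3855, .ofNat 265, .ofNat 506, .negSucc 1805, .ofNat 1, .ofNat 3868, .ofNat 1072, .ofNat 178, .negSucc 72, .ofNat 2139, .ofNat 199, .ofNat 11738]
def y15_52 : List ℤ := [.ofNat 17967443, .negSucc 25935623, .negSucc 27139091, .negSucc 40189002, .ofNat 11239349, .ofNat 8085111, .ofNat 7495365, .ofNat 241358, .negSucc 13715498, .negSucc 14621792, .negSucc 5383676, .negSucc 6327, .negSucc 3337, .ofNat 0, .negSucc 756, .negSucc 2272, .ofNat 2666, .negSucc 346, .ofNat 549, .negSucc 379, .ofNat 0, .negSucc 1102, .ofNat 587, .ofNat 1447, .negSucc 41, .ofNat 447, .negSucc 223, .ofNat 1408, .ofNat 11129]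
def y15_56 : List ℤ := [.negSucc 17781130, .negSucc 15665953, .negSucc 16392838, .negSucc 8220236, .negSucc 20927344, .negSucc 13351391, .negSucc 12377513, .negSucc 347807, .ofNat 1, .ofNat 0, .ofNat 0, .ofNat 4807, .ofNat 4289, .ofNat 1, .ofNat 1059, .ofNat 2926, .negSucc 2482, .ofNat 468, .ofNat 635, .negSucc 1281, .ofNat 1, .ofNat 2821, .ofNat 101, .ofNat 84, .ofNat 153, .ofNat 1616, .negSucc 6, .ofNat 1348, .negSucc 29, .ofNat 10492]
def y4_15 : List (List ℤ) :=
  [y15_0, y15_1, y15_2, y15_3, y15_4, y15_5, y15_6, y15_7, y15_8, y15_9, y15_10, y15_11, y15_12, [], [], [], y15_16, y15_17, y15_18, [], y15_20, y15_21, [], [], y15_24, y15_25, [], [], [], [], [], [], y15_32, y15_33, y15_34, [], y15_36, [], y15_38, [], y15_40, [], y15_42, [], [], [], [], [], y15_48, [], [], [], y15_52, [], [], [], y15_56, [], [], [], [], [], [], []]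

def cs : Cs where
  L4 := [y4_0, y4_1, [], y4_3, [], [], [], y4_7, [], [], [], [], [], [], [], y4_15]
  L2 := [[.ofNat 49735219], [.ofNat 49807267, .negSucc 7565, .ofNat 11960], [.ofNat 49807267, .negSucc 7565, .ofNat 11960], [.ofNat 36858718, .negSucc 5598, .ofNat 2663, .ofNat 0, .ofNat 117, .negSucc 2064, .ofNat 10593], [], [.ofNat 1863407, .negSucc 282, .ofNat 135, .negSucc 25017148, .ofNat 14148], [.ofNat 1863407, .negSucc 282, .ofNat 135, .negSucc 25017148, .ofNat 14148], [.negSucc 11002413, .ofNat 1671, .negSucc 794, .negSucc 28921517, .ofNat 8143, .ofNat 617, .negSucc 343, .negSucc 5083, .ofNat 11914], [], [.ofNat 1838837, .negSucc 278, .ofNat 133, .ofNat 25017153], [.ofNat 1838837, .negSucc 278, .ofNat 133, .ofNat 25017153], [.negSucc 11030818, .ofNat 1676, .negSucc 796, .ofNat 28921518, .negSucc 8212, .ofNat 617, .negSucc 343, .ofNat 12954], [.negSucc 57357204, .ofNat 15264], [.negSucc 53701008, .ofNat 8158, .negSucc 3879, .ofNat 0, .negSucc 169, .ofNat 11617],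 [.negSucc 53701008, .ofNat 8158, .negSucc 3879, .ofNat 0, .negSucc 169, .ofNat 11617], [.negSucc 78166916, .ofNat 11874, .negSucc 5647, .ofNat 0, .negSucc 247, .ofNat 4379, .negSucc 2442, .ofNat 532, .ofNat 806, .ofNat 12165]]
  nu := [.ofNat 533752917970, .ofNat 365847450044, .ofNat 365847450044, .ofNat 169005209875, .ofNat 365847450044, .ofNat 169005209875, .ofNat 169005209875, .ofNat 201321770933, .ofNat 29609393018, .ofNat 32809436308, .ofNat 32809436308, .negSucc 6940896242, .ofNat 32809436308, .negSucc 6940896242, .negSucc 6940896242, .ofNat 335903142693]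
  cu := [[(64817243, [0, 0, 0, 1, 0, 1, 1, 20])], [(174964945, [0, 0, 0, 0, 0, 0, 0, 20]), (33334571, [0, 0, 0, 0, 20, 0, 0, 0])]]
  en := [[(143015169867, [0, 0, 20, 0, 0, 0, 0, 0]), (767899910823, [1, 0, 0, 0, 20, 0, 0, 0])], [(1648641801516, [0, 0, 0, 20, 0, 6, 6, 11])]]
  T4 := z4
  T2 := z2
  TC := zC
  TB := zB

end

end Pool.Agent.P.MP_fc6a29_co
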