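import Pool.Agent.P.MP_fc6a29_co.Phi5

/-! The final certificate. -/

namespace Pool.Agent.P.MP_fc6a29_co

open Finset Equiv

noncomputable section

def cfina : List (List (List ℤ)) :=
  [[[.negSucc 479999], [.negSucc 426464, .ofNat 0, .ofNat 316], [.negSucc 426464, .ofNat 0, .ofNat 316], [.ofNat 1440000], [.ofNat 727707, .ofNat 316], [], [], [.ofNat 164452, .negSucc 0, .ofNat 0, .ofNat 317]], [[.ofNat 1451568, .ofNat 316], [], [], [.ofNat 660000], [.negSucc 219999], [.negSucc 1870200, .ofNat 0, .ofNat 316], [.negSucc 1870200, .ofNat 0, .ofNat 316], [.ofNat 660000]]]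

def cfinb00 : List (List ℤ) :=
  [[], [.ofNat 835752], [.negSucc 369289, .ofNat 749774], [.ofNat 272832, .ofNat 438521, .ofNat 533454], [.negSucc 369244, .negSucc 593494, .negSucc 458153, .ofNat 436], [.ofNat 272869, .negSucc 673117, .ofNat 154303, .ofNat 30, .ofNat 477], [.negSucc 724378, .negSucc 52632, .ofNat 154303, .ofNat 30, .ofNat 123, .ofNat 460], [.negSucc 235663, .negSucc 378834, .ofNat 1110612, .negSucc 180, .ofNat 610, .ofNat 469, .ofNat 709], [.ofNat 149128, .ofNat 239726, .negSucc 702792, .ofNat 115, .negSucc 385, .negSucc 295, .negSucc 358, .ofNat 363], [.ofNat 525805, .ofNat 399744, .negSucc 1171909, .ofNat 169, .negSucc 658, .negSucc 565, .negSucc 624, .ofNat 154, .ofNat 422], [.ofNat 126215, .ofNat 648368, .negSucc 1171909, .ofNat 169, .negSucc 716, .negSucc 490, .negSucc 624, .ofNat 154, .ofNat 169, .ofNat 386], [.ofNat 173193, .ofNat 278380, .ofNat 122264, .negSucc 76, .negSucc 45, .negSucc 35, .negSucc 3, .ofNat 1, .ofNat 8, .ofNat 5, .ofNat 327], [.ofNat 126230, .ofNat 202942, .negSucc 1323832, .ofNat 260, .negSucc 638, .negSucc 490, .negSucc 624, .ofNat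 154, .ofNat 169, .ofNat 111, .negSucc 20, .ofNat 370], [.ofNat 173212, .negSucc 295072, .negSucc 73324, .ofNat 40, .ofNat 54, .negSucc 35, .negSucc 3, .ofNat 1, .ofNat 8, .negSucc 16, .negSucc 10, .ofNat 10, .ofNat 327], [.negSucc 341230, .ofNat 25012, .negSucc 73324, .ofNat 40, .negSucc 20, .ofNat 61, .negSucc 3, .ofNat 1, .negSucc 11, .ofNat 14, .negSucc 10, .ofNat 10, .negSucc 10, .ofNat 326], []]

def cfinb01 : List (List ℤ) :=
  [[], [], [], [], [], [], [], [], [], [], [], [], [], [], [], []]

def cfinb02 : List (List ℤ) :=
  [[.ofNat 1175999], [.ofNat 595343, .ofNat 2575710], [.ofNat 1319889, .negSucc 445265, .ofNat 1493591], [.ofNat 296795, .negSucc 548061, .ofNat 835915, .ofNat 1196137], [.ofNat 1319767, .negSucc 445007, .negSucc 1052295, .negSucc 666368, .ofNat 824156], [.ofNat 296701, .negSucc 547862, .negSucc 1122676, .ofNat 683488, .ofNat 634036, .ofNat 564], [.ofNat 354426, .negSucc 211801, .ofNat 304098, .ofNat 62930, .ofNat 990074, .ofNat 204, .ofNat 880], [.negSucc 1632445, .negSucc 409373, .negSucc 903032, .ofNat 3010310, .negSucc 355122, .ofNat 642, .negSucc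 438, .ofNat 785], [.ofNat 569279, .ofNat 160966, .ofNat 41818, .negSucc 1645824, .negSucc 1201505, .negSucc 616, .negSucc 913, .negSucc 253, .ofNat 547], [.negSucc 502514, .ofNat 59192, .ofNat 272612, .negSucc 1799119, .negSucc 612650, .negSucc 540, .negSucc 161, .negSucc 325, .ofNat 139, .ofNat 393], [.negSucc 388478, .ofNat 821238, .ofNat 1433729, .negSucc 1067854, .negSucc 1168815, .negSucc 614, .negSucc 308, .negSucc 231, .ofNat 153, .ofNat 100, .ofNat 401], [.negSucc 1597314, .ofNat 528249, .ofNat 1036264, .ofNat 564682, .negSucc 836853, .negSucc 158, .negSucc 47, .ofNat 92, .negSucc 28, .ofNat 73, .ofNat 125, .ofNat 389], [.negSucc 388603, .ofNat 821503, .negSucc 1178699, .negSucc 1751640, .negSucc 323118, .negSucc 334, .negSucc 308, .negSucc 231, .ofNat 153, .ofNat 100, .negSucc 11, .negSucc 27, .ofNat 400], [.negSucc 1597433, .ofNat 528500, .negSucc 1443928, .negSucc 84491, .negSucc 33964, .ofNat 106, .negSucc 47, .ofNat 92, .negSucc 28, .ofNat 73, .negSucc 30, .ofNat 30, .ofNat 127, .ofNat 387], [.negSucc 1923678, .ofNat 165137, .negSucc 650214, .ofNat 438243, .negSucc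 1653839, .negSucc 211, .negSucc 1095, .ofNat 224, .ofNat 265, .ofNat 83, .ofNat 71, .ofNat 65, .ofNat 78, .ofNat 63, .ofNat 423], [.negSucc 2360565, .ofNat 167961, .negSucc 83255, .ofNat 125719, .negSucc 155486, .ofNat 0, .ofNat 348, .ofNat 49, .negSucc 144, .ofNat 129, .ofNat 52, .ofNat 124, .ofNat 63, .ofNat 116, .ofNat 4, .ofNat 402]]

def cfinb03 : List (List ℤ) :=
  [[.ofNat 443128], [.ofNat 1155356, .ofNat 949353], [.ofNat 1155356, .ofNat 939021, .ofNat 139682], [], [.ofNat 1356724, .ofNat 1608796, .ofNat 119002, .ofNat 660], [.ofNat 731824, .ofNat 825327, .ofNat 141679, .ofNat 248, .ofNat 430], [.ofNat 731824, .ofNat 837191, .negSucc 18703, .ofNat 248, .negSucc 109, .ofNat 415], [.negSucc 2458550, .negSucc 2194813, .negSucc 162349, .negSucc 406, .negSucc 79, .negSucc 103, .ofNat 462], [], [.negSucc 420637, .negSucc 274091, .negSucc 33975, .ofNat 2, .negSucc 28, .ofNat 17, .ofNat 53, .ofNat 325], [.negSucc 420637, .negSucc 276107, .negSucc 6721, .ofNat 2, .ofNat 23, .negSucc 22, .ofNat 53, .ofNat 13, .ofNat 325], [.negSucc 2198003, .ofNat 1705463, .ofNat 126152, .ofNat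 2256, .ofNat 331, .ofNat 430, .ofNat 614, .ofNat 376, .ofNat 361, .ofNat 1893], [], [.negSucc 420637, .negSucc 274091, .negSucc 33975, .ofNat 2, .negSucc 28, .ofNat 17, .ofNat 53, .ofNat 325], [.negSucc 420637, .negSucc 276107, .negSucc 6721, .ofNat 2, .ofNat 23, .negSucc 22, .ofNat 53, .ofNat 13, .ofNat 325], [.negSucc 2198003, .ofNat 1705463, .ofNat 126152, .ofNat 2256, .ofNat 331, .ofNat 430, .ofNat 614, .ofNat 376, .ofNat 361, .ofNat 1893]]

def cfinb04 : List (List ℤ) :=
  [[.ofNat 145682], [.ofNat 440713, .ofNat 770282], [.ofNat 440730, .negSucc 365906, .ofNat 677832], [.negSucc 294828, .ofNat 387228, .ofNat 649091, .ofNat 104244], [.ofNat 440690, .negSucc 365877, .negSucc 613302, .negSucc 288606, .ofNat 4332], [.negSucc 294868, .ofNat 387258, .negSucc 631683, .negSucc 182049, .ofNat 4170, .ofNat 617], [.negSucc 294851, .negSucc 739814, .ofNat 40709, .negSucc 182049, .ofNat 4170, .ofNat 295, .ofNat 542], [.negSucc 1211751, .negSucc 223791, .negSucc 375120, .ofNat 1677527, .negSucc 39004, .negSucc 2840, .negSucc 1686, .ofNat 2393], [.ofNat 662081, .ofNat 132121, .ofNat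 221462, .negSucc 990364, .ofNat 23138, .ofNat 1700, .ofNat 1009, .negSucc 1388, .ofNat 367], [.ofNat 438629, .ofNat 1077549, .negSucc 54368, .ofNat 243135, .negSucc 5551, .negSucc 390, .negSucc 495, .ofNat 159, .negSucc 19, .ofNat 450], [.ofNat 438654, .negSucc 559710, .ofNat 922394, .ofNat 243135, .negSucc 5551, .negSucc 622, .negSucc 105, .ofNat 159, .negSucc 19, .negSucc 5, .ofNat 450], [.negSucc 116191, .ofNat 163570, .ofNat 274184, .negSucc 14278, .ofNat 1362, .ofNat 172, .ofNat 102, .negSucc 131, .ofNat 12, .negSucc 3, .negSucc 3, .ofNat 331], [.ofNat 438597, .negSucc 559668, .negSucc 938143, .negSucc 172751, .ofNat 599, .negSucc 177, .negSucc 105, .ofNat 159, .negSucc 19, .negSucc 5, .negSucc 5, .negSucc 93, .ofNat 440], [.negSucc 116207, .ofNat 163582, .negSucc 241992, .negSucc 129659, .ofNat 3069, .ofNat 295, .ofNat 102, .negSucc 131, .ofNat 12, .negSucc 3, .negSucc 68, .ofNat 4, .negSucc 3, .ofNat 324], [.negSucc 116200, .negSucc 290649, .ofNat 28994, .negSucc 129659, .ofNat 3069, .ofNat 231, .ofNat 210, .negSucc 131, .ofNat 12, .negSucc 68, .negSucc 4, .ofNat 4, .negSucc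 3, .ofNat 3, .ofNat 324], [.negSucc 506989, .negSucc 18934, .negSucc 31738, .ofNat 141947, .negSucc 2457, .negSucc 66, .negSucc 39, .ofNat 189, .negSucc 5, .negSucc 55, .negSucc 55, .ofNat 25, .negSucc 52, .ofNat 13, .ofNat 13, .ofNat 333]]

def cfinb05 : List (List ℤ) :=
  [[], [], [], [], [], [], [], [], [], [], [], [], [], [], [], []]

def cfinb06 : List (List ℤ) :=
  [[.ofNat 1422270], [.ofNat 687380, .ofNat 2071519], [.ofNat 1195345, .negSucc 27721, .ofNat 1503178], [.negSucc 1224846, .ofNat 223348, .ofNat 1741655, .ofNat 1075496], [.ofNat 1194652, .negSucc 27776, .negSucc 1085075, .negSucc 1039974, .ofNat 474], [.negSucc 1225848, .ofNat 223269, .negSucc 2001721, .negSucc 428613, .ofNat 54, .ofNat 469], [], [.negSucc 2353320, .ofNat 740184, .ofNat 119712, .negSucc 297767, .ofNat 289, .ofNat 207, .ofNat 773], [.ofNat 590722, .negSucc 560192, .negSucc 360197, .ofNat 895945, .negSucc 462, .negSucc 73, .negSucc 645, .ofNat 482], [], [.ofNat 1085378, .negSucc 1612385, .ofNat 409817, .ofNat 361175, .negSucc 216, .negSucc 184, .negSucc 411, .ofNat 107, .ofNat 394], [.negSucc 248896,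 .negSucc 270058, .ofNat 243676, .ofNat 656244, .negSucc 245, .negSucc 32, .negSucc 242, .ofNat 128, .ofNat 26, .ofNat 340], [.ofNat 1085123, .negSucc 1612405, .negSucc 545847, .negSucc 22816, .negSucc 150, .negSucc 103, .negSucc 411, .ofNat 107, .ofNat 129, .ofNat 8, .ofNat 372], [.negSucc 249129, .negSucc 270076, .negSucc 630176, .ofNat 305125, .negSucc 185, .ofNat 41, .negSucc 242, .ofNat 128, .ofNat 15, .ofNat 36, .ofNat 21, .ofNat 338], [.negSucc 859118, .negSucc 867523, .ofNat 337138, .negSucc 838591, .ofNat 374, .negSucc 10, .ofNat 503, .negSucc 234, .ofNat 275, .negSucc 53, .ofNat 197, .negSucc 52, .ofNat 1818105], [.negSucc 2536014, .negSucc 7418, .negSucc 96522, .ofNat 240089, .ofNat 30, .ofNat 187, .ofNat 321, .negSucc 20, .negSucc 30, .ofNat 25, .negSucc 22, .ofNat 23, .ofNat 0, .ofNat 379]]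

def cfinb07 : List (List ℤ) :=
  [[.ofNat 2402028], [.ofNat 547583, .ofNat 739582], [.ofNat 547583, .ofNat 739581, .ofNat 447], [.negSucc 1698230, .ofNat 2165341, .ofNat 655, .ofNat 106816], [.ofNat 3531534, .negSucc 1455671, .negSucc 439, .negSucc 205609, .ofNat 1094], [.ofNat 526061, .ofNat 276752, .ofNat 84, .negSucc 12680, .ofNat 144, .ofNat 327], [.ofNat 526061, .ofNat 276752, .ofNat 84, .negSucc 12680, .ofNat 144, .ofNat 21, .ofNat 326], [.negSucc 6942721, .ofNat 3864958, .ofNat 1169, .ofNat 363196, .negSucc 1430, .negSucc 20, .negSucc 19, .ofNat 601], [.ofNat 163207, .negSucc 718423, .negSucc 216, .ofNat 837270, .negSucc 6125, .negSucc 328, .negSucc 307, .ofNat 329, .ofNat 3042], [.negSucc 337349, .negSucc 1074741, .negSucc 324, .negSucc 13636, .negSucc 159, .negSucc 43, .negSucc 41, .negSucc 28, .ofNat 70, .ofNat 354], [.negSucc 337349, .negSucc 1074741, .negSucc 324, .negSucc 13636, .negSucc 159, .negSucc 43, .negSucc 41, .negSucc 28, .ofNat 70, .ofNat 71, .ofNat 346], [.negSucc 1294880, .negSucc 1957265, .negSucc 591, .negSucc 213742, .ofNat 1069, .negSucc 18, .negSucc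 17, .negSucc 115, .negSucc 592, .ofNat 156, .ofNat 127, .ofNat 433], [.ofNat 163207, .negSucc 718423, .negSucc 216, .ofNat 837270, .negSucc 6125, .negSucc 328, .negSucc 307, .ofNat 329, .ofNat 3042], [.negSucc 337349, .negSucc 1074741, .negSucc 324, .negSucc 13636, .negSucc 159, .negSucc 43, .negSucc 41, .negSucc 28, .ofNat 70, .ofNat 354], [.negSucc 337349, .negSucc 1074741, .negSucc 324, .negSucc 13636, .negSucc 159, .negSucc 43, .negSucc 41, .negSucc 28, .ofNat 70, .ofNat 71, .ofNat 346], [.negSucc 1294880, .negSucc 1957265, .negSucc 591, .negSucc 213742, .ofNat 1069, .negSucc 18, .negSucc 17, .negSucc 115, .negSucc 592, .ofNat 156, .ofNat 127, .ofNat 433]]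

def cfinb10 : List (List ℤ) :=
  [[], [], [], [], [], [], [], [], [], [], [], [], [], [], [], []]

def cfinb11 : List (List ℤ) :=
  [[], [], [], [], [], [], [], [], [], [], [], [], [], [], [], []]

def cfinb12 : List (List ℤ) :=
  [[], [], [], [], [], [], [], [], [], [], [], [], [], [], [], []]

def cfinb13 : List (List ℤ) :=
  [[], [.ofNat 503619], [.negSucc 251808, .ofNat 436146], [.ofNat 61, .ofNat 106, .ofNat 316], [.negSucc 251808, .negSucc 436145, .ofNat 0, .ofNat 548], [.ofNat 61, .negSucc 105, .ofNat 0, .ofNat 0, .ofNat 316], [.negSucc 121, .ofNat 0, .ofNat 0, .ofNat 0, .ofNat 0, .ofNat 316], [.ofNat 0, .ofNat 0, .ofNat 0, .ofNat 0, .ofNat 0, .ofNat 0, .ofNat 316], [], [], [], [], [], [], [], []]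

def cfinb14 : List (List ℤ) :=
  [[], [], [], [], [], [], [], [], [], [], [], [], [], [], [], []]

def cfinb15 : List (List ℤ) :=
  [[], [], [], [], [], [], [], [], [], [], [], [], [], [], [], []]

def cfinb16 : List (List ℤ) :=
  [[], [], [], [], [], [], [], [], [], [], [], [], [], [], [], []]

def cfinb17 : List (List ℤ) :=
  [[], [.ofNat 503619], [.negSucc 251808, .ofNat 436146], [.ofNat 61, .ofNat 106, .ofNat 316], [.negSucc 251808, .negSucc 436145, .ofNat 0, .ofNat 548], [.ofNat 61, .negSucc 105, .ofNat 0, .ofNat 0, .ofNat 316], [.negSucc 121, .ofNat 0, .ofNat 0, .ofNat 0, .ofNat 0, .ofNat 316], [.ofNat 0, .ofNat 0, .ofNat 0, .ofNat 0, .ofNat 0, .ofNat 0, .ofNat 316], [], [], [], [], [], [], [], []]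

def cfin : Cert where
  L1 := cfina
  L3 := [[cfinb00, cfinb01, cfinb02, cfinb03, cfinb04, cfinb05, cfinb06, cfinb07], [cfinb10, cfinb11, cfinb12, cfinb13, cfinb14, cfinb15, cfinb16, cfinb17]]
  mz := 0x387f50380000000000000000000000000000000000000000000000000000387f503800000000000000000000000000000000000000000000000000000000000000000000000000000000000000000000000000000000000000000000000000000000000000000000000000000000000000000000000000000000000000000000000000000000000000000000000000000000000000000000000000000000000000000000000000000000000000000000000000000000000000000000000000000000000000000000000000000000000000005a105319000000000000000000000000000023323cfb000000000000000000000000000000000000000000000000000000000000000000000000000000000000000000000000000000000000000000000000000000000000000030bd78c80000000000000000000000000000000000000000024b4cfd00000000000000000000000000000000000000000000000000000000000000000000000000000000000000000000000000000000000000000822685d00000000000000000000000000000000000000000000000000000822685d000000000000000000000000000000000000000000000000000000000000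
  mx := 0x0
  ms := 0x1bb6c024000000000000000000000000000004a21c02000000000000000000000000000000000000000000000000000000000000000000000000000000000000000000000000000000000000000000000000000000000000000000000000000000000000000000000000000000000000000000000000000000000000000000000000000000000000000000000000000000000000000000000000000000000000000000000000000000000000000000000000000000000000000000000000000000000000000000000000000000000000000000000000000000000000000000000000000000000000000000000000000000000000000000000000000000000000000000000000000000000000000000000000000000000000000000000000000000000000000000000000000000000000000000000000000000000000000000000000000000000000000000000000000000000000000000000000000000000000000000000000000000000000000000000000000000000000000000000000000000000000000000000000000000000000000000000000000000000000000020529211000000000000000000000000000000000000000000000000000000000000000000000000000000000000000048353a7d00000000000000000000000000000000000000002c8592890000000000000000000000000000000000000000000000000000000000000000000000000000000000000000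0000000000000000000000000000000000000000000000000000000000000000000000000000000000000000000000000000000000000000000000000000000000000000000000000000000000000000000000000000000000000000000000000000000000000000000000000000000000000000000000000000000000000000000000000000000000000000000000000000000000000000000000000000000000000000000000000000000000000000000000000b38b033000000000000000000000000000000000000000000000000000000000000000000000000000000000000000000000000000000000000000000000000000000000000000000000000000000000000000000000000000000000000000000000000000000000000000000000000000000000000000000000000000000000000000000000000000000000000000000000000000000000000000000000000000000000000000000000000000000000000000000000000000000000000000000000000000000000000000000000000000000000000000000000000000000000000000000000000000000000000000000000000000000000000000000000000000000000000000000000000000000000000000000000000000000000000000000000000000000000000000000000000000000000000000000000000000000000000000000000000000000000000000000000000000000000000000000000000000000000000000000000000000000000000000000000000000000000000000000000000000000000000000000000000000000000000000000000000000000000000000000000000000000000000000000000000000000000000000000000000000000000000000000000000000000000000000000000000000000000000000000000000000000000000000000000000000000000000000000000000000000000000000000000000000000000000000000000000000000000000000000000000000000000000000000000000000000000000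
  mp := 0x0
  me := 0x11cec308e30000000000000000000000000000000000000007adfd17eb0002dd5ffe860014674619a3000000000000000000000000000000000000000000000000000000000000
  lo := fun _ => 0
  hi := fun c => 372 + 168 * (c : ℤ)


end

end Pool.Agent.P.MP_fc6a29_co
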