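import Pool.Agent.P.MP_fc6a29_co.Phi5

/-! A rooted certificate. -/

namespace Pool.Agent.P.MP_fc6a29_co

open Finset Equiv

noncomputable section

def cm1a : List (List (List ℤ)) :=
  [[[.ofNat 430395], [.negSucc 83978, .ofNat 356], [.negSucc 83978, .ofNat 356], [.ofNat 226826, .negSucc 1, .ofNat 383], [.ofNat 49043, .negSucc 74, .negSucc 15, .ofNat 350], [.negSucc 423625, .ofNat 44, .negSucc 149, .negSucc 16, .ofNat 417], [.negSucc 423625, .ofNat 44, .negSucc 149, .negSucc 16, .ofNat 417], [.negSucc 85032, .negSucc 38, .negSucc 33, .ofNat 33, .ofNat 42, .ofNat 342]], [[], [], [], [], [], [], [], []]]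

def cm1b00 : List (List ℤ) :=
  [[.ofNat 306055], [.ofNat 55937, .ofNat 289354], [.ofNat 55937, .ofNat 126634, .ofNat 260172], [.negSucc 32603, .negSucc 654065, .negSucc 409073, .ofNat 238122], [.ofNat 140792, .ofNat 95632, .ofNat 59811, .negSucc 833751, .ofNat 4220], [.ofNat 251064, .ofNat 112678, .ofNat 171178, .ofNat 143379, .negSucc 2163, .ofNat 420098], [.ofNat 251064, .ofNat 203227, .ofNat 26399, .ofNat 143379, .negSucc 2163, .negSucc 98582, .ofNat 408367], [.ofNat 664407, .negSucc 7174, .negSucc 4486, .ofNat 604866, .negSucc 8215, .ofNat 206907, .ofNat 262800, .ofNat 848234], [.negSucc 344747, .negSucc 163449, .negSucc 102226, .ofNat 168066, .ofNat 3341, .negSucc 116700, .negSucc 148225, .negSucc 236485, .ofNat 684857], [.negSucc 255571, .negSucc 56822, .ofNat 48421, .ofNat 63219, .ofNat 4866, .negSucc 150620, .negSucc 261829, .negSucc 368353, .negSucc 139109, .ofNat 690854], [.negSucc 255571, .ofNat 18670, .negSucc 72282, .ofNat 63219, .ofNat 4866, .negSucc 219172, .negSucc 207857, .negSucc 368353, .negSucc 139109, .negSucc 228439, .ofNat 651992], [.ofNat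 206249, .ofNat 667506, .ofNat 417479, .ofNat 118452, .negSucc 2133, .ofNat 1, .ofNat 1, .ofNat 2, .negSucc 0, .negSucc 0, .negSucc 1, .ofNat 698], [.negSucc 1134799, .ofNat 18330, .ofNat 11464, .negSucc 521666, .ofNat 3120, .negSucc 1, .negSucc 2, .negSucc 3, .ofNat 2, .ofNat 2, .ofNat 3, .negSucc 937, .ofNat 1173], [.negSucc 198232, .negSucc 176176, .negSucc 316072, .negSucc 1071, .ofNat 150, .ofNat 0, .ofNat 0, .ofNat 1, .ofNat 0, .negSucc 0, .negSucc 0, .negSucc 0, .ofNat 93, .ofNat 486], [.negSucc 198232, .negSucc 361299, .negSucc 20081, .negSucc 1071, .ofNat 150, .ofNat 0, .ofNat 0, .ofNat 1, .ofNat 0, .negSucc 0, .negSucc 0, .negSucc 0, .ofNat 93, .ofNat 13, .ofNat 486], [.negSucc 304381, .negSucc 60387, .negSucc 37768, .ofNat 103526, .negSucc 660, .ofNat 0, .ofNat 0, .ofNat 0, .ofNat 0, .ofNat 0, .negSucc 0, .negSucc 15, .ofNat 213, .ofNat 106, .ofNat 103, .ofNat 356]]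

def cm1b01 : List (List ℤ) :=
  [[], [], [], [], [], [], [], [], [], [], [], [], [], [], [], []]

def cm1b02 : List (List ℤ) :=
  [[.ofNat 759558], [.negSucc 340201, .ofNat 1129933], [.negSucc 112084, .negSucc 160949, .ofNat 785521], [.negSucc 382889, .negSucc 278733, .negSucc 361732, .ofNat 791652], [.ofNat 372860, .negSucc 30242, .ofNat 233773, .negSucc 390337, .ofNat 440223], [.negSucc 203202, .negSucc 143912, .negSucc 144192, .ofNat 267930, .negSucc 250814, .ofNat 157930], [.negSucc 27610, .negSucc 90909, .ofNat 118115, .negSucc 104709, .ofNat 70313, .ofNat 375678, .ofNat 415137], [.negSucc 788989, .negSucc 855820, .negSucc 786314, .ofNat 1365465, .negSucc 1141025, .ofNat 523571, .negSucc 558621, .ofNat 2310], [.ofNat 350550, .ofNat 241961, .ofNat 229281, .negSucc 438576, .ofNat 418105, .negSucc 303026, .negSucc 53787, .negSucc 437, .ofNat 415], [.negSucc 421437, .ofNat 558235, .negSucc 15370, .ofNat 39446, .negSucc 315990, .negSucc 136528, .ofNat 554757, .negSucc 1628, .negSucc 257, .ofNat 844], [.ofNat 236378, .ofNat 208772, .ofNat 82789, .negSucc 224028, .ofNat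 227397, .negSucc 399060, .negSucc 255284, .negSucc 264, .ofNat 151, .negSucc 54, .ofNat 395], [.negSucc 690173, .ofNat 33110, .negSucc 415433, .ofNat 707939, .negSucc 801609, .ofNat 61012, .ofNat 56273, .negSucc 93, .negSucc 150, .ofNat 455, .ofNat 15, .ofNat 436], [.ofNat 691605, .negSucc 1044, .ofNat 368858, .negSucc 867306, .ofNat 690085, .negSucc 260926, .negSucc 15831, .negSucc 2052, .negSucc 1260, .negSucc 1254, .negSucc 404, .ofNat 192, .ofNat 337607], [.negSucc 116444, .ofNat 212788, .ofNat 80127, .negSucc 189643, .ofNat 30052, .ofNat 14785, .ofNat 438246, .ofNat 6276, .ofNat 9662, .ofNat 3173, .ofNat 231, .ofNat 2071, .negSucc 74305, .ofNat 331222], [.ofNat 372866, .ofNat 272458, .ofNat 236655, .negSucc 461647, .ofNat 439124, .negSucc 354395, .negSucc 82379, .negSucc 487, .ofNat 180, .negSucc 75, .ofNat 102, .negSucc 7, .negSucc 2, .ofNat 7, .ofNat 365], [.negSucc 179614, .negSucc 139176, .negSucc 204867, .ofNat 245419, .negSucc 200124, .negSucc 29940, .negSucc 148769, .ofNat 552, .ofNat 4899, .ofNat 1957, .negSucc 3199, .negSucc 110, .negSucc 60733, .ofNat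 2497, .negSucc 1322, .ofNat 329894]]

def cm1b03 : List (List ℤ) :=
  [[.ofNat 417189], [.ofNat 375563, .ofNat 106536], [.ofNat 375563, .ofNat 106535, .ofNat 480], [.ofNat 246040, .ofNat 438850, .ofNat 989, .ofNat 77245], [.ofNat 465798, .negSucc 64445, .negSucc 144, .ofNat 110342, .ofNat 156588], [.ofNat 481673, .ofNat 103264, .ofNat 186, .ofNat 66043, .negSucc 7788, .ofNat 190693], [.ofNat 481673, .ofNat 103264, .ofNat 279, .ofNat 66043, .negSucc 7788, .ofNat 5548, .ofNat 190612], [.ofNat 480876, .ofNat 21695, .ofNat 49, .ofNat 114746, .negSucc 3955, .ofNat 1971, .ofNat 1915, .ofNat 74954], [.negSucc 444714, .negSucc 786417, .negSucc 1772, .negSucc 106322, .ofNat 6, .ofNat 5, .ofNat 5, .ofNat 20, .ofNat 789], [.negSucc 739855, .negSucc 98415, .negSucc 555, .ofNat 130123, .negSucc 7805, .negSucc 15625, .negSucc 14062, .negSucc 6726, .ofNat 1882, .ofNat 117861], [.negSucc 739855, .negSucc 98417, .ofNat 112, .ofNat 130123, .negSucc 7805, .negSucc 14511, .negSucc 15209, .negSucc 6726, .ofNat 1882, .negSucc 8057, .ofNat 117585], [.negSucc 920733, .ofNat 478698, .ofNat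 1079, .ofNat 42228, .negSucc 19, .negSucc 12, .negSucc 12, .negSucc 52, .negSucc 1112, .negSucc 13, .negSucc 14, .ofNat 1118], [.negSucc 263376, .negSucc 1004173, .negSucc 2263, .negSucc 76829, .ofNat 25, .ofNat 17, .ofNat 16, .ofNat 78, .ofNat 1607, .ofNat 23, .ofNat 25, .negSucc 987, .ofNat 717], [.negSucc 606810, .negSucc 192974, .negSucc 439, .negSucc 28836, .negSucc 3, .ofNat 0, .ofNat 0, .negSucc 8, .negSucc 64, .negSucc 3, .negSucc 4, .ofNat 290, .ofNat 49, .ofNat 362], [.negSucc 606810, .negSucc 192974, .negSucc 429, .negSucc 28836, .negSucc 3, .ofNat 0, .ofNat 0, .negSucc 8, .negSucc 64, .negSucc 4, .negSucc 3, .ofNat 290, .ofNat 49, .ofNat 65, .ofNat 356], [.negSucc 652540, .ofNat 523071, .ofNat 1179, .negSucc 1277976, .negSucc 346, .negSucc 223, .negSucc 217, .negSucc 1066, .negSucc 15533, .negSucc 436, .negSucc 467, .ofNat 15437, .negSucc 10663, .ofNat 804, .ofNat 672, .ofNat 8254]]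

def cm1b04 : List (List ℤ) :=
  [[.ofNat 1105433], [.ofNat 947650, .ofNat 348410], [.ofNat 947650, .negSucc 182190, .ofNat 296978], [.ofNat 834603, .ofNat 315546, .ofNat 563776, .ofNat 14459], [.ofNat 705320, .negSucc 252935, .negSucc 451910, .negSucc 178892, .ofNat 492305], [.ofNat 388728, .ofNat 319024, .negSucc 71367, .ofNat 1399, .negSucc 100718, .ofNat 597604], [.ofNat 388728, .negSucc 227656, .ofNat 234610, .ofNat 1399, .negSucc 100718, .ofNat 52733, .ofNat 595273], [.ofNat 524444, .ofNat 222841, .ofNat 398143, .negSucc 375835, .negSucc 344231, .ofNat 114367, .ofNat 104684, .ofNat 711096], [.negSucc 1212387, .negSucc 60435, .negSucc 107977, .negSucc 20222, .ofNat 50832, .negSucc 114137, .negSucc 104473, .negSucc 239448, .ofNat 458170], [.negSucc 942103, .negSucc 121632, .negSucc 97922, .ofNat 62682, .ofNat 57891, .negSucc 109232, .negSucc 240151, .negSucc 131852, .negSucc 121905, .ofNat 581661], [.negSucc 942103, .negSucc 19863, .negSucc 154883, .ofNat 62682, .ofNat 57891, .negSucc 248853, .negSucc 87615, .negSucc 131852, .negSucc 121905, .negSucc 119836, .ofNat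 569182], [.negSucc 716790, .negSucc 238154, .negSucc 425502, .ofNat 864526, .negSucc 1956, .negSucc 309, .negSucc 283, .negSucc 4119, .negSucc 2353, .negSucc 763, .negSucc 941, .ofNat 72983], [.negSucc 1570641, .negSucc 422216, .negSucc 754361, .negSucc 20081, .ofNat 7, .ofNat 1, .ofNat 1, .ofNat 15, .ofNat 8, .ofNat 3, .ofNat 3, .negSucc 255, .ofNat 508], [.negSucc 1260340, .negSucc 390087, .ofNat 5470, .negSucc 104282, .ofNat 231, .ofNat 38, .ofNat 34, .ofNat 484, .ofNat 276, .ofNat 90, .ofNat 110, .negSucc 8573, .ofNat 87, .ofNat 496], [.negSucc 1260340, .ofNat 208648, .negSucc 329642, .negSucc 104282, .ofNat 231, .ofNat 37, .ofNat 35, .ofNat 484, .ofNat 276, .ofNat 89, .ofNat 111, .negSucc 8573, .ofNat 87, .negSucc 44, .ofNat 493], [.negSucc 1809107, .ofNat 73305, .ofNat 130971, .negSucc 15323, .ofNat 51, .ofNat 8, .ofNat 8, .ofNat 108, .ofNat 62, .ofNat 20, .ofNat 25, .negSucc 1916, .negSucc 47, .ofNat 170, .ofNat 187, .ofNat 489]]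

def cm1b05 : List (List ℤ) :=
  [[], [], [], [], [], [], [], [], [], [], [], [], [], [], [], []]

def cm1b06 : List (List ℤ) :=
  [[.ofNat 1238876], [.ofNat 686851, .ofNat 1175771], [.ofNat 913286, .ofNat 41472, .ofNat 1186411], [.ofNat 566525, .ofNat 962558, .negSucc 150658, .ofNat 1292600], [.ofNat 300816, .negSucc 53106, .negSucc 50472, .ofNat 51685, .ofNat 793701], [.ofNat 142390, .ofNat 285865, .negSucc 848947, .ofNat 345337, .ofNat 914051, .ofNat 123126], [.ofNat 298517, .ofNat 283133, .negSucc 1201, .ofNat 59654, .ofNat 209393, .ofNat 150526, .ofNat 479265], [.negSucc 1381503, .ofNat 1030464, .negSucc 3402954, .ofNat 925012, .ofNat 923265, .ofNat 319890, .ofNat 1049236, .ofNat 1220], [.negSucc 445011, .negSucc 1062985, .ofNat 465699, .negSucc 1031736, .negSucc 77307, .negSucc 182220, .negSucc 565912, .negSucc 310, .ofNat 488], [.negSucc 293234, .negSucc 447968, .ofNat 330668, .ofNat 44039, .negSucc 462617, .negSucc 313544, .negSucc 988740, .negSucc 422, .ofNat 220, .ofNat 556], [.negSucc 333405, .negSucc 964285, .ofNat 573878, .negSucc 1365168, .negSucc 221969,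 .ofNat 12547, .negSucc 27333, .negSucc 235, .ofNat 71, .negSucc 208, .ofNat 496], [.negSucc 539858, .negSucc 47724, .ofNat 87029, .negSucc 233350, .negSucc 1208177, .negSucc 7273, .negSucc 26341, .negSucc 101, .negSucc 111, .negSucc 13, .ofNat 140, .ofNat 539], [.negSucc 518504, .negSucc 1327611, .ofNat 551102, .negSucc 1306538, .negSucc 17710, .negSucc 72810, .negSucc 631695, .negSucc 854, .ofNat 6153, .negSucc 3655, .ofNat 4128, .ofNat 89, .ofNat 433110], [.negSucc 369982, .negSucc 636923, .ofNat 560086, .negSucc 132416, .negSucc 276362, .negSucc 365432, .negSucc 628066, .negSucc 359, .negSucc 894, .ofNat 216, .ofNat 1694, .negSucc 1648, .ofNat 4732, .ofNat 118274], [.negSucc 809139, .negSucc 825799, .ofNat 696645, .negSucc 309332, .negSucc 382165, .negSucc 396787, .negSucc 17115, .ofNat 1777, .negSucc 462, .ofNat 1102, .ofNat 85, .negSucc 531, .negSucc 81222, .ofNat 3351, .ofNat 452687], [.negSucc 769318, .negSucc 210104, .ofNat 753937, .negSucc 14761, .negSucc 811007, .negSucc 358205, .ofNat 1092041, .ofNat 1512, .ofNat 322, .ofNat 67, .negSucc 557, .negSucc 958,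 .ofNat 10, .ofNat 23, .ofNat 27, .ofNat 2111]]

def cm1b07 : List (List ℤ) :=
  [[.ofNat 262183], [.ofNat 92352, .ofNat 179667], [.ofNat 92352, .negSucc 167662, .ofNat 64571], [.ofNat 117533, .ofNat 46122, .ofNat 248091, .ofNat 523318], [.ofNat 315451, .ofNat 8403, .ofNat 45201, .ofNat 86156, .ofNat 472], [.ofNat 71153, .ofNat 48943, .negSucc 17522, .ofNat 87029, .ofNat 527, .ofNat 199511], [.ofNat 71153, .negSucc 51970, .ofNat 1237, .ofNat 87029, .ofNat 527, .ofNat 2448, .ofNat 199495], [.ofNat 406671, .ofNat 32783, .ofNat 176340, .ofNat 352278, .ofNat 290, .negSucc 1, .negSucc 1, .ofNat 738], [.ofNat 593002, .ofNat 40626, .ofNat 218531, .ofNat 175679, .ofNat 690, .negSucc 41795, .negSucc 41285, .negSucc 11643, .ofNat 337744], [.negSucc 101202, .ofNat 348184, .negSucc 16158, .ofNat 69640, .negSucc 119, .ofNat 2, .ofNat 2, .negSucc 23, .ofNat 3, .ofNat 577], [.negSucc 101202, .negSucc 330727, .ofNat 110056, .ofNat 69640, .negSucc 119, .ofNat 2, .ofNat 2, .negSucc 23, .ofNat 3, .negSucc 258, .ofNat 515], [.negSucc 639947, .negSucc 7398, .negSucc 39796, .negSucc 260822,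 .negSucc 696, .ofNat 1, .ofNat 1, .negSucc 211, .negSucc 2, .ofNat 265, .ofNat 431, .ofNat 814], [.ofNat 1061596, .ofNat 78622, .ofNat 422912, .negSucc 167626, .negSucc 16, .ofNat 11, .ofNat 11, .ofNat 112, .ofNat 26, .ofNat 865, .ofNat 1403, .ofNat 2032, .ofNat 2546], [.negSucc 65470, .ofNat 334786, .negSucc 142033, .negSucc 1243, .ofNat 100, .ofNat 1, .ofNat 1, .ofNat 7, .negSucc 0, .ofNat 209, .negSucc 422, .negSucc 362, .negSucc 306, .ofNat 401], [.negSucc 65470, .negSucc 363462, .negSucc 12223, .negSucc 1243, .ofNat 100, .ofNat 1, .ofNat 1, .ofNat 7, .negSucc 0, .negSucc 471, .negSucc 2, .negSucc 362, .negSucc 306, .negSucc 61, .ofNat 397], [.negSucc 351399, .negSucc 80620, .negSucc 433660, .negSucc 225452, .ofNat 370, .negSucc 4, .negSucc 4, .negSucc 10, .negSucc 18, .negSucc 632, .negSucc 1026, .negSucc 1484, .negSucc 1389, .ofNat 111, .ofNat 130, .ofNat 492]]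

def cm1b10 : List (List ℤ) :=
  [[], [], [], [], [], [], [], [], [], [], [], [], [], [], [], []]

def cm1b11 : List (List ℤ) :=
  [[], [], [], [], [], [], [], [], [], [], [], [], [], [], [], []]

def cm1b12 : List (List ℤ) :=
  [[], [], [], [], [], [], [], [], [], [], [], [], [], [], [], []]

def cm1b13 : List (List ℤ) :=
  [[], [], [], [], [], [], [], [], [], [], [], [], [], [], [], []]

def cm1b14 : List (List ℤ) :=
  [[], [], [], [], [], [], [], [], [], [], [], [], [], [], [], []]

def cm1b15 : List (List ℤ) :=
  [[], [], [], [], [], [], [], [], [], [], [], [], [], [], [], []]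

def cm1b16 : List (List ℤ) :=
  [[], [], [], [], [], [], [], [], [], [], [], [], [], [], [], []]

def cm1b17 : List (List ℤ) :=
  [[], [], [], [], [], [], [], [], [], [], [], [], [], [], [], []]

def cm1 : Cert where
  L1 := cm1a
  L3 := [[cm1b00, cm1b01, cm1b02, cm1b03, cm1b04, cm1b05, cm1b06, cm1b07], [cm1b10, cm1b11, cm1b12, cm1b13, cm1b14, cm1b15, cm1b16, cm1b17]]
  mz := 0xb0000000000000000013c9b1d00000000000000000000000000000233b1c30000000000000000013c9b1d00000000000000000000000000000233b1c300000000000000000000000000000093834a00000000000000000000000000000000000000000ed97d04000000000000000000000000000007a8d02b000000000000000000000000000000000000000000000000000005ba02e4000000000000000000000000000000000000000000000000000005ba02e4000000000000000000000000000000000000000000000000000000521b47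
  mx := 0x337dab20000000000000000000000000000000000000000009485b20000000000000000039362c000000186cb14000000000000000007f992d0000000000000000000e6df7f0000000000000000038b1139000000000000
  ms := 0x45fa430000004a8e5b000000000034000000b6a171000000000000000000000000000000bc88e2000001fa732e0000000000000000000000000000000000000000000000000000000000000000000000000000000000000000000000000000000000000000000000000000000000000000000000000000000000000000000000000000000000000000000000000000000000000000000000000000000000000000000000000000000000000000000000000000000000000000000000000000000000000000000000000000000000000000000000000000000000000000000000000000000000000000000000490000000000000000000000000000000000000000000000000000000000000000000000000000020fce0800001460474400000000000000000000000000000000000000000000000000000000000000000000000000000000000000000000000000000000000000000000000000000000000000000000000000000000000000000000000000000000000000000000000000000000000000000000000000000000000000000000000000000000000000000000000000000000000000000000000000000000000000000000000000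00000000000000000000000000000000000000000000000000000000000000000000000000026db92a0000190b32820000000000000000000000000000000000000000000000000000000000000000000000000000000000000000000000000000000000000000000000000000000000000000000000000000000000000000000000000000000000000000000000000000018a76130000029a9d680000000000000000000000000000039b70dc00000656694700000289e9c5000002cd2b2d0000000000000000000000000000000000000000000000000000000000000000000000000000000000000000000000000000000000000000000000000000000000000000000000000000000000000000000000000000000000000000000000000000000000000000000000000000000000000000000000000000000000000000000000000000000000000000000000000000001a5f4400000047da9a000000000000000000000000000000b33ac700000280b83c000000963c900000012201dc00000000000000000000000000000000000000000000000000000000000000000000000d000000000000000000000000000000000000000000000000000000000000000000000000000000000000000000000000000000000000000000000000000000000000000000000000000000000000000000000000000000000000000000000000000000000000000000000000000000000000000000000000000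0000000000000000000000000000000000000000000000000000000000000000000000000000000000000000000000000000000000000000000000000018c7af50000086e203b0000000000000000000000000000000000000000000000000000000000000000000000000000000000000000000000000000000000000000000000000000000000000000000000000000000000000000000000000000000000000000000000000000000000000000000000000000000000000000000000000000000000000000000000000000000000000000000000000000000000000000000000000000000000000000000000000000000000000000000000000000000000000000000000000000028d8b8e00000b0eafc7000000000000000000000000000000000000000000000000000000000000000000000000000000000000000000000000000000000000000000000000000000000000000000000000000000000000000000000000000000000000000000000000000000000000000000000000000000000000000000000000000000000000000000000000000000c2d23b000000000000000000000000000000000000000000000000000000000000000000000000000000000000000000000000000000000000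
  mp := 0x55b4dca00000650a93c
  me := 0x0
  lo := fun _ => 480
  hi := fun _ => 10000

theorem cm1_ok : allP (chkRoot cm1 0) 11 0 = true := by decide +kernel

end

end Pool.Agent.P.MP_fc6a29_co
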