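import Pool.Agent.P.MP_fc6a29_co.Phi5

/-! A rooted certificate. -/

namespace Pool.Agent.P.MP_fc6a29_co

open Finset Equiv

noncomputable section

def cm2a : List (List (List ℤ)) :=
  [[[.ofNat 640951], [.negSucc 289908, .ofNat 396], [.negSucc 289908, .ofNat 396], [.ofNat 484344, .negSucc 73, .ofNat 409], [.ofNat 177510, .negSucc 121, .ofNat 19, .ofNat 361], [.negSucc 650881, .ofNat 107, .negSucc 178, .negSucc 22, .ofNat 401], [.negSucc 650881, .ofNat 107, .negSucc 178, .negSucc 22, .ofNat 401], [.negSucc 122666, .negSucc 28, .negSucc 52, .ofNat 29, .ofNat 40, .ofNat 338]], [[], [], [], [], [], [], [], []]]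

def cm2b00 : List (List ℤ) :=
  [[.ofNat 315113], [.negSucc 220332, .ofNat 709122], [.negSucc 220332, .ofNat 709121, .ofNat 502], [.negSucc 1719275, .negSucc 889148, .negSucc 314, .ofNat 691285], [.ofNat 887182, .negSucc 254572, .negSucc 89, .negSucc 575632, .ofNat 1412], [.ofNat 67263, .ofNat 234949, .ofNat 12, .ofNat 4343, .negSucc 114, .ofNat 414], [.ofNat 67263, .ofNat 234949, .ofNat 154, .ofNat 4343, .negSucc 114, .negSucc 59, .ofNat 409], [.negSucc 514695, .ofNat 103428, .ofNat 37, .ofNat 1192207, .negSucc 3577, .ofNat 55, .ofNat 64, .ofNat 493686], [.negSucc 290043, .negSucc 53226, .negSucc 18, .ofNat 65987, .ofNat 206, .negSucc 77, .negSucc 89, .negSucc 95840, .ofNat 639387], [.negSucc 86256, .ofNat 71307, .ofNat 5, .negSucc 17623, .ofNat 405, .ofNat 84, .ofNat 97, .negSucc 172171, .negSucc 131285, .ofNat 695631], [.negSucc 86256, .ofNat 71307, .ofNat 46, .negSucc 17623, .ofNat 405, .ofNat 84, .ofNat 97, .negSucc 172171, .negSucc 131285, .negSucc 246437, .ofNat 650516], [.ofNat 445824, .ofNat 603724, .ofNat 214, .ofNat 176063, .negSucc 1580, .ofNat 51, .ofNat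 60, .ofNat 0, .ofNat 0, .ofNat 0, .ofNat 0, .ofNat 571], [.negSucc 94868, .ofNat 49123, .ofNat 17, .negSucc 1160887, .ofNat 3830, .negSucc 333, .negSucc 385, .negSucc 2, .ofNat 0, .negSucc 0, .negSucc 0, .negSucc 980, .ofNat 1181], [.negSucc 138152, .negSucc 482574, .negSucc 220, .negSucc 8921, .ofNat 237, .negSucc 33, .negSucc 140, .ofNat 0, .ofNat 0, .ofNat 0, .ofNat 0, .negSucc 59, .ofNat 134, .ofNat 378], [.negSucc 138152, .negSucc 482574, .negSucc 120, .negSucc 8921, .ofNat 237, .negSucc 133, .negSucc 53, .ofNat 0, .ofNat 0, .ofNat 0, .ofNat 0, .negSucc 59, .ofNat 134, .ofNat 61, .ofNat 373], [.negSucc 461618, .negSucc 179551, .negSucc 63, .ofNat 204042, .negSucc 336, .negSucc 55, .negSucc 63, .ofNat 0, .ofNat 0, .ofNat 0, .ofNat 0, .ofNat 31, .ofNat 102, .ofNat 64, .ofNat 55, .ofNat 353]]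

def cm2b01 : List (List ℤ) :=
  [[], [], [], [], [], [], [], [], [], [], [], [], [], [], [], []]

def cm2b02 : List (List ℤ) :=
  [[.ofNat 725904], [.ofNat 256764, .ofNat 2758456], [.ofNat 73575, .ofNat 143598, .ofNat 815430], [.negSucc 218517, .ofNat 242775, .negSucc 413413, .ofNat 1082510], [.ofNat 496794, .negSucc 21727, .ofNat 353882, .negSucc 250917, .ofNat 433550], [.negSucc 184645, .ofNat 319035, .negSucc 254457, .ofNat 654622, .negSucc 222818, .ofNat 291053], [.ofNat 97756, .ofNat 65257, .ofNat 382130, .negSucc 505080, .negSucc 16111, .ofNat 40469, .ofNat 635014], [.negSucc 872396, .negSucc 367164, .negSucc 932690, .ofNat 1743684, .negSucc 767356, .ofNat 592289, .negSucc 248494, .ofNat 1449], [.ofNat 62494, .negSucc 188949, .negSucc 48413, .negSucc 97463, .ofNat 136849, .negSucc 173268, .negSucc 318507, .negSucc 95, .ofNat 411], [.negSucc 400413, .negSucc 179012, .negSucc 172215, .negSucc 501573, .negSucc 270713, .negSucc 406749, .negSucc 82527, .negSucc 347, .ofNat 139, .ofNat 867], [.negSucc 216792, .ofNat 108984, .negSucc 415184, .ofNat 675299, .negSucc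 153151, .ofNat 114988, .negSucc 409635, .ofNat 128, .ofNat 50, .negSucc 61, .ofNat 414], [.negSucc 839156, .negSucc 18638, .negSucc 535666, .ofNat 254075, .negSucc 731529, .negSucc 55553, .ofNat 74541, .ofNat 49, .ofNat 11, .ofNat 335, .ofNat 35, .ofNat 558], [.ofNat 483054, .negSucc 504627, .ofNat 371288, .negSucc 827820, .ofNat 558244, .negSucc 434024, .negSucc 301727, .negSucc 253, .ofNat 184, .ofNat 34, .negSucc 44, .negSucc 127, .ofNat 511], [.negSucc 257810, .negSucc 80426, .ofNat 244214, .negSucc 711176, .negSucc 306662, .negSucc 119029, .ofNat 728171, .negSucc 20, .negSucc 70, .ofNat 186, .negSucc 189, .ofNat 258, .ofNat 15, .ofNat 589], [.ofNat 8279, .negSucc 431268, .negSucc 134443, .negSucc 244360, .ofNat 171666, .negSucc 375816, .negSucc 576917, .negSucc 134, .ofNat 227, .ofNat 136, .ofNat 51, .ofNat 22, .ofNat 233, .negSucc 65, .ofNat 431], [.negSucc 782695, .negSucc 810031, .negSucc 333054, .negSucc 32172, .negSucc 557465, .ofNat 26182, .ofNat 408930, .ofNat 12974, .ofNat 2807, .ofNat 4949, .negSucc 5694, .negSucc 3134, .ofNat 5550, .negSucc 2225, .negSucc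 1889, .ofNat 385767]]

def cm2b03 : List (List ℤ) :=
  [[.ofNat 130320], [.negSucc 7575, .ofNat 314296], [.negSucc 7575, .ofNat 314295, .ofNat 754], [.negSucc 217415, .ofNat 286784, .ofNat 344, .ofNat 97730], [.negSucc 9318, .ofNat 119596, .ofNat 143, .ofNat 23193, .ofNat 371], [.ofNat 10316, .ofNat 281501, .ofNat 327, .ofNat 19484, .ofNat 90, .ofNat 472], [.ofNat 10316, .ofNat 281501, .ofNat 348, .ofNat 19484, .ofNat 90, .ofNat 161, .ofNat 444], [.negSucc 162832, .negSucc 29529, .negSucc 34, .ofNat 5490, .negSucc 84, .negSucc 94, .negSucc 65, .ofNat 833], [.ofNat 511069, .negSucc 517035, .negSucc 619, .negSucc 131926, .ofNat 45, .ofNat 55, .ofNat 38, .negSucc 294, .ofNat 729], [.ofNat 56304, .negSucc 230048, .negSucc 239, .ofNat 163127, .ofNat 221, .ofNat 248, .negSucc 3, .negSucc 785, .ofNat 360, .ofNat 209360], [.ofNat 56304, .negSucc 230048, .negSucc 311, .ofNat 163127, .ofNat 221, .ofNat 80, .ofNat 235, .negSucc 785, .ofNat 360, .negSucc 18524, .ofNat 208539], [.negSucc 812263, .ofNat 669312, .ofNat 803, .ofNat 192689, .negSucc 148, .negSucc 147, .negSucc 103,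 .ofNat 417, .negSucc 912, .ofNat 0, .ofNat 0, .ofNat 618], [.ofNat 697120, .negSucc 656875, .negSucc 787, .negSucc 163171, .ofNat 103, .ofNat 103, .ofNat 72, .negSucc 429, .ofNat 824, .ofNat 1, .ofNat 1, .negSucc 307, .ofNat 414], [.negSucc 64017, .negSucc 359715, .negSucc 544, .negSucc 16609, .negSucc 136, .negSucc 227, .negSucc 182, .ofNat 62, .negSucc 68, .ofNat 0, .ofNat 0, .ofNat 61, .negSucc 7, .ofNat 463], [.negSucc 64017, .negSucc 359716, .negSucc 317, .negSucc 16609, .negSucc 136, .negSucc 249, .negSucc 151, .ofNat 62, .negSucc 68, .ofNat 0, .ofNat 0, .ofNat 61, .negSucc 7, .ofNat 79, .ofNat 456], [.negSucc 1720243, .negSucc 206764, .negSucc 247, .negSucc 756433, .negSucc 2567, .negSucc 1724, .negSucc 1209, .ofNat 4077, .negSucc 3896, .negSucc 34, .negSucc 37, .ofNat 1476, .negSucc 1948, .ofNat 808, .ofNat 680, .ofNat 6299]]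

def cm2b04 : List (List ℤ) :=
  [[.ofNat 1031985], [.ofNat 633047, .ofNat 793980], [.ofNat 633047, .negSucc 622289, .ofNat 493112], [.negSucc 60090, .ofNat 456172, .ofNat 1310173, .ofNat 202347], [.ofNat 1002435, .negSucc 309210, .negSucc 888086, .ofNat 129601, .ofNat 2406], [.ofNat 26764, .ofNat 514736, .negSucc 158203, .ofNat 71628, .ofNat 408, .ofNat 388495], [.ofNat 26764, .negSucc 501684, .ofNat 195690, .ofNat 71628, .ofNat 408, .ofNat 15286, .ofNat 388194], [.negSucc 543988, .ofNat 135165, .ofNat 388208, .ofNat 1043338, .ofNat 7734, .ofNat 0, .ofNat 0, .ofNat 1853], [.negSucc 667660, .negSucc 165397, .negSucc 475040, .negSucc 252698, .negSucc 1591, .ofNat 4, .ofNat 4, .negSucc 215, .ofNat 1708], [.negSucc 591404, .ofNat 276490, .negSucc 249344, .negSucc 70478, .negSucc 308, .negSucc 49179, .negSucc 171415, .negSucc 5, .negSucc 1115, .ofNat 482786], [.negSucc 591404, .negSucc 371560, .negSucc 23708, .negSucc 70478, .negSucc 308, .negSucc 173218, .negSucc 42396, .negSucc 5, .negSucc 1115, .negSucc 58474, .ofNat 479232], [.negSucc 1019689, .negSucc 362, .negSucc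 1043, .ofNat 197985, .ofNat 1370, .ofNat 1, .ofNat 1, .ofNat 406, .negSucc 0, .ofNat 0, .ofNat 0, .ofNat 498], [.negSucc 438236, .negSucc 312977, .negSucc 898906, .negSucc 641841, .negSucc 4153, .ofNat 0, .ofNat 0, .negSucc 924, .ofNat 30, .ofNat 0, .ofNat 0, .ofNat 23, .ofNat 425], [.negSucc 690811, .negSucc 525867, .negSucc 210853, .negSucc 60821, .negSucc 228, .negSucc 1, .ofNat 5, .ofNat 9, .negSucc 69, .ofNat 5, .ofNat 0, .ofNat 55, .ofNat 87, .ofNat 862], [.negSucc 690811, .ofNat 281200, .negSucc 491855, .negSucc 60821, .negSucc 228, .ofNat 5, .negSucc 1, .ofNat 9, .negSucc 69, .ofNat 0, .ofNat 5, .ofNat 55, .ofNat 87, .ofNat 32, .ofNat 862], [.negSucc 1823915, .ofNat 34168, .ofNat 98133, .ofNat 126957, .ofNat 504, .ofNat 0, .ofNat 0, .ofNat 341, .ofNat 23, .ofNat 0, .ofNat 0, .ofNat 158, .ofNat 78, .ofNat 38, .ofNat 37, .ofNat 448]]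

def cm2b05 : List (List ℤ) :=
  [[], [], [], [], [], [], [], [], [], [], [], [], [], [], [], []]

def cm2b06 : List (List ℤ) :=
  [[.ofNat 1026597], [.ofNat 1327811, .ofNat 1597749], [.ofNat 645995, .negSucc 236491, .ofNat 1027329], [.ofNat 975336, .ofNat 740933, .negSucc 452296, .ofNat 1424837], [.ofNat 301819, .negSucc 187422, .negSucc 111884, .ofNat 374993, .ofNat 761851], [.ofNat 553407, .ofNat 527417, .negSucc 970687, .ofNat 540314, .ofNat 688211, .ofNat 330158], [.ofNat 225048, .negSucc 129536, .ofNat 206402, .ofNat 149798, .ofNat 107421, .ofNat 283953, .ofNat 411216], [.negSucc 1338350, .ofNat 570651, .negSucc 3135053, .ofNat 530142, .ofNat 367638, .ofNat 1390859, .ofNat 1771574, .ofNat 2283], [.negSucc 496660, .negSucc 130589, .negSucc 19008, .negSucc 461560, .negSucc 73493, .negSucc 394897, .negSucc 481353, .negSucc 532, .ofNat 592], [.negSucc 149839, .ofNat 199248, .ofNat 56364, .negSucc 375435, .negSucc 279778, .negSucc 539242, .negSucc 835679, .negSucc 268, .negSucc 118, .ofNat 748], [.negSucc 553578, .negSucc 195075, .negSucc 300382, .ofNat 226039,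 .ofNat 228565, .negSucc 784601, .negSucc 660823, .negSucc 1919, .ofNat 986, .negSucc 1338, .ofNat 1295], [.negSucc 580878, .ofNat 301235, .negSucc 90597, .negSucc 498834, .negSucc 1023779, .negSucc 56083, .negSucc 56092, .negSucc 41, .ofNat 53, .negSucc 13, .ofNat 67, .ofNat 542], [.negSucc 749826, .negSucc 898520, .ofNat 589940, .negSucc 1345750, .ofNat 554160, .negSucc 386619, .negSucc 546940, .negSucc 582, .ofNat 152, .ofNat 24, .ofNat 104, .negSucc 194, .ofNat 592], [.negSucc 586790, .negSucc 558505, .ofNat 575813, .negSucc 367140, .negSucc 142046, .negSucc 550952, .negSucc 319305, .negSucc 272, .ofNat 101, .ofNat 14, .ofNat 155, .negSucc 174, .negSucc 117, .ofNat 1002], [.negSucc 1057503, .negSucc 565396, .ofNat 256659, .negSucc 243821, .negSucc 420354, .negSucc 293201, .ofNat 139706, .ofNat 741, .negSucc 514, .ofNat 420, .negSucc 7, .negSucc 318, .ofNat 1579, .negSucc 592, .ofNat 459349], [.negSucc 1693660, .negSucc 1116109, .ofNat 394252, .negSucc 97121, .negSucc 758390, .ofNat 253406, .ofNat 1370318, .negSucc 215, .negSucc 4874, .negSucc 2748, .ofNat 4305,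 .ofNat 1434, .negSucc 5479, .ofNat 4195, .negSucc 90375, .ofNat 377923]]

def cm2b07 : List (List ℤ) :=
  [[.ofNat 437925], [.ofNat 5429, .ofNat 361152], [.ofNat 5429, .negSucc 352596, .ofNat 78140], [.ofNat 108748, .ofNat 27190, .ofNat 248361, .ofNat 1489], [.ofNat 213757, .negSucc 12224, .negSucc 111660, .negSucc 640, .ofNat 451], [.negSucc 270933, .ofNat 35548, .ofNat 127728, .ofNat 574, .negSucc 36, .ofNat 231636], [.negSucc 270933, .negSucc 7069, .ofNat 132394, .ofNat 574, .negSucc 36, .ofNat 2992, .ofNat 231617], [.negSucc 389589, .ofNat 16800, .ofNat 153454, .ofNat 938, .ofNat 506, .ofNat 3764, .ofNat 3716, .ofNat 255446], [.ofNat 524150, .negSucc 46187, .negSucc 421884, .negSucc 2504, .ofNat 219, .negSucc 39116, .negSucc 38614, .negSucc 59313, .ofNat 265699], [.ofNat 147137, .ofNat 688060, .negSucc 133700, .negSucc 307, .ofNat 65, .negSucc 0, .ofNat 0, .ofNat 0, .ofNat 0, .ofNat 560], [.ofNat 147137, .negSucc 700689, .ofNat 18338, .negSucc 307, .ofNat 65, .ofNat 0, .negSucc 0, .ofNat 0, .ofNat 0, .negSucc 296, .ofNat 475], [.negSucc 624970, .ofNat 11094,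 .ofNat 101338, .ofNat 556, .negSucc 179, .ofNat 0, .ofNat 0, .ofNat 1, .ofNat 0, .negSucc 103, .negSucc 187, .ofNat 547], [.ofNat 1037970, .negSucc 83140, .negSucc 759421, .negSucc 4199, .negSucc 616, .ofNat 3, .ofNat 3, .negSucc 3, .negSucc 3, .ofNat 471, .ofNat 849, .negSucc 1738, .ofNat 2544], [.ofNat 46179, .ofNat 717949, .negSucc 169285, .negSucc 491, .ofNat 44, .ofNat 0, .ofNat 0, .ofNat 0, .ofNat 0, .ofNat 389, .negSucc 133, .negSucc 45, .ofNat 52, .ofNat 396], [.ofNat 46179, .negSucc 737570, .negSucc 9936, .negSucc 491, .ofNat 44, .ofNat 0, .ofNat 0, .ofNat 0, .ofNat 0, .negSucc 319, .ofNat 258, .negSucc 45, .ofNat 52, .negSucc 81, .ofNat 388], [.negSucc 797512, .negSucc 17149, .negSucc 156649, .negSucc 908, .negSucc 199, .ofNat 1, .ofNat 1, .ofNat 1, .ofNat 0, .negSucc 67, .negSucc 121, .ofNat 267, .ofNat 168, .ofNat 41, .ofNat 50, .ofNat 526]]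

def cm2b10 : List (List ℤ) :=
  [[], [], [], [], [], [], [], [], [], [], [], [], [], [], [], []]

def cm2b11 : List (List ℤ) :=
  [[], [], [], [], [], [], [], [], [], [], [], [], [], [], [], []]

def cm2b12 : List (List ℤ) :=
  [[], [], [], [], [], [], [], [], [], [], [], [], [], [], [], []]

def cm2b13 : List (List ℤ) :=
  [[], [], [], [], [], [], [], [], [], [], [], [], [], [], [], []]

def cm2b14 : List (List ℤ) :=
  [[], [], [], [], [], [], [], [], [], [], [], [], [], [], [], []]

def cm2b15 : List (List ℤ) :=
  [[], [], [], [], [], [], [], [], [], [], [], [], [], [], [], []]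

def cm2b16 : List (List ℤ) :=
  [[], [], [], [], [], [], [], [], [], [], [], [], [], [], [], []]

def cm2b17 : List (List ℤ) :=
  [[], [], [], [], [], [], [], [], [], [], [], [], [], [], [], []]

def cm2 : Cert where
  L1 := cm2a
  L3 := [[cm2b00, cm2b01, cm2b02, cm2b03, cm2b04, cm2b05, cm2b06, cm2b07], [cm2b10, cm2b11, cm2b12, cm2b13, cm2b14, cm2b15, cm2b16, cm2b17]]
  mz := 0x1b8091c0000000000000000000000000000039010a70000000000000000000000000000001764910000000000000000039010a700000000000000000000000000000017649100001827cef40000000000000000000000000000059de96a0000000000000000000000000000102bca4b000000000000000000000000000008b1354700000000000000000000000000000000000000000000000000000167ba7600000000000000000000000000000000000000000000000000000167ba7600000000000000000000000000000000000000000000000000000513587d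
  mx := 0x3305d68000000000016000000000000000000000000000000ff26ae00000000000000000dc524010000025f8d4a0000000000000000072b8d1f00000000000000000000000000000015b55e00000675fd6f000000000000
  ms := 0x1e0000000000250000000000000000000000000000000000000000000000000000000000000000000000000000006ca49b00000171d38e0000008506b600000a586b1c000000000000000000000000000000f1e7180000065de63b00000000001b0000000000000000000000000000000000000000000000000000000000000000000000000000000000000000000000000000000000000000000000000000000000000000000000000000000000000000000000000000000000000000000000000000000000000000000000000000000000000000000000000000000000000000000000000000000000000000000000000000000000000000000000000000000000000000000000000000000000000000000000a400001328f2bc000000000000000000000000000000000000000000000000000000000000000000000000000001dc93ce000026a5a38c0000000000000000000000000000000000000000000000000000000000000000000000000000000000000000000000000000000000000000000000000000000000000000000000000000000000000000000000000000000000000000000000000000000000000000000000000000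0000000000000000000000000000000000000000000000000000000000000000000000000000000000000000000000000000000d00000000006c0000000000000000000000000000000000000000000000000000022f8f810000226dd6fc00000000000000000000000000000000000000000000000000000000000000000000000000000000000000000000000000000000000000000000000000000000000000000000000000000000000000000000000000000000000000000000000000000000001100000000000000000000000000000000000000000892599b000002334cef00000000002f000000000000000000000000000000000000000000000000000000000000000000000000000000000000000000000000000000000000000000000000000000000000000000000000000000000000000000000000000000000000000000000000000000000000000000000000000000000000000000000000000000000000000000000000000000000000000000000000000000000000000000000058000000000def000000000000000000000000000000000016000000b2528300000000000000000000001200000000000000000000000000000000000000000000000000000000002a00000000008c00000000000000000695536d000000000000000000000000000000000000000000000000000000000000000000000000000000000000000000000000000000000000000000000000000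000000000000000000000000000000000000000000000000000000000000000000000000000000000000000000000000000000000000000000000000000000000000000000000000000000000000000000000000000000000000000000000000000000000000000000000000000000d60000000001ad60000000000000000000000000000000000000000000000000000000000000000000000000000000000000000000000000000000000000000000000000000000000000000000000000000000000000000000000000000000000000000000000000000000000000000000000000000000000000000000000000000000000000000000000000000000000000000000000000000000000000000000000000000000000000000000000000000000000000000000000000000000000000000000000000000022737ae000014e0542500000000000000000000000000000000000000000000000000000000000000000000000000000000000000000000000000000000000000000000000000000000000000000000000000000000000000000000000000000000000000000000000000000000000000000000000000000000000000000000000000000000000000000000000000000000000b000000000000000000000000000000000000000000000000000000000000000000000000000000000000000000000000000000000000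
  mp := 0x39127450000075dbbcb
  me := 0x0
  lo := fun _ => 372
  hi := fun _ => 480

theorem cm2_ok : allP (chkRoot cm2 0) 11 0 = true := by decide +kernel

end

end Pool.Agent.P.MP_fc6a29_co
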