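import Pool.Agent.P.MP_fc6a29_co.Basic

/-! The cubic inequality of an optimal weighting and the entropy inequality for tetrahedra. -/

namespace Pool.Agent.P.MP_fc6a29_co

open Finset

variable {V : Type} [Fintype V] {w : V → ℝ} {E : V → V → V → Bool} {p : ℝ}

theorem Good.cubic (hG : Good w E p) (g : V → ℝ) (hg : ∀ v, 0 ≤ g v) :
    0 ≤ Ex w fun a => Ex w fun b => Ex w fun c => g a * g b * g c * (p - (eN E a b c : ℝ)) := by
  have h := hG.opt g hg
  have h2 : (Ex w fun a => Ex w fun b => Ex w fun c => g a * g b * g c * (p - (eN E a b c : ℝ))) =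
      p * Ex w g ^ 3 - Tri w E g g g := by
    have h3 : p * Ex w g ^ 3 = Ex w fun a => Ex w fun b => Ex w fun c => g a * g b * g c * p := by
      simp only [Ex_mul_right, Ex_mul_left]; ring
    rw [h3]
    simp only [Tri, ← Ex_sub]
    exact Ex_congr fun a => Ex_congr fun b => Ex_congr fun c => by ring
  rw [h2]; linarith

omit [Fintype V] in
theorem Free.c231 (hE : Free E) (a b c : V) : E b c a = E a b c := by
  rw [hE.s2 b c a, hE.s1 b a c]

omit [Fintype V] in
theorem Free.c312 (hE : Free E) (a b c : V) : E c a b = E a b c := by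
  rw [hE.s1 c a b, hE.s2 a c b]

omit [Fintype V] in
theorem Free.c321 (hE : Free E) (a b c : V) : E c b a = E a b c := by
  rw [hE.s1 c b a, hE.c231]

theorem amgm3 {a b c : ℝ} (ha : 0 < a) (hb : 0 < b) (hc : 0 < c) :
    3 ≤ b / a + c / b + a / c := by
  have h1 := Real.log_le_sub_one_of_pos (div_pos hb ha)
  have h2 := Real.log_le_sub_one_of_pos (div_pos hc hb)
  have h3 := Real.log_le_sub_one_of_pos (div_pos ha hc)
  rw [Real.log_div (by positivity) (by positivity)] at h1 h2 h3
  linarith

theorem sum_cyc (F : V → V → V → ℝ) :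
    ∑ x, ∑ y, ∑ z, F x y z = ∑ x, ∑ y, ∑ z, F y z x := by
  symm
  rw [sum_comm]
  exact sum_congr rfl fun y _ => sum_comm

/-- The entropy inequality: tetrahedra through `b` are at most as many as triples spanning with
`b` exactly two edges, both through `b` and a marked vertex. -/
theorem Free.entropy_sum (hE : Free E) (v : V → ℝ) (hv : ∀ x, 0 ≤ v x) (b : V) :
    ∑ x, ∑ y, ∑ u, v x * v y * v u *
        ((eN E b x y : ℝ) * eN E b y u * eN E b x u * eN E x y u) ≤
      ∑ x, ∑ y, ∑ u, v x * v y * v u *
        ((eN E b x y : ℝ) * eN E b y u * ((1 - eN E b x u) * (1 - eN E x y u))) := by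
  set K : V → V → V → ℝ := fun x y u =>
    (eN E b x y : ℝ) * eN E b y u * eN E b x u * eN E x y u with hK
  have K0 : ∀ x y u, 0 ≤ K x y u := fun x y u => by simp only [hK]; positivity
  have Kc : ∀ x y z, K y z x = K x y z := fun x y z => by
    simp only [hK, eN, hE.c231 x y z, hE.s2 b z x, hE.s2 b y x]; ring
  have Kd : ∀ x y z, K x y z = 0 ∨ (K x y z = 1 ∧ E b x y = true ∧ E b y z = true ∧
      E b x z = true ∧ E x y z = true) := fun x y z => by
    simp only [hK, eN]
    cases E b x y <;> cases E b y z <;> cases E b x z <;> cases E x y z <;> simp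
  set t : V → V → ℝ := fun x y => ∑ u, v u * K x y u with ht
  set m : V → V → ℝ := fun x y =>
    ∑ u, v u * ((eN E b y u : ℝ) * ((1 - eN E b x u) * (1 - eN E x y u))) with hm
  have q0 : ∀ x y u, 0 ≤ (eN E b y u : ℝ) * ((1 - eN E b x u) * (1 - eN E x y u)) :=
    fun x y u => mul_nonneg (eN_nonneg _ _ _)
      (mul_nonneg (sub_nonneg.2 (eN_le _ _ _)) (sub_nonneg.2 (eN_le _ _ _)))
  have m0 : ∀ x y, 0 ≤ m x y := fun x y => sum_nonneg fun u _ => mul_nonneg (hv u) (q0 x y u)
  have t0 : ∀ x y, 0 ≤ t x y := fun x y => sum_nonneg fun u _ => mul_nonneg (hv u) (K0 x y u)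
  have ha : ∀ x y z, K x y z * t y z ≤ K x y z * ((eN E b x y : ℝ) * m x y) := by
    intro x y z
    rcases Kd x y z with h | ⟨h, h1, h2, h3, h4⟩
    · simp [h]
    · rw [h, one_mul, one_mul]
      have : (eN E b x y : ℝ) = 1 := by simp [eN, h1]
      rw [this, one_mul]
      refine sum_le_sum fun u _ => mul_le_mul_of_nonneg_left ?_ (hv u)
      rcases Kd y z u with g | ⟨g, -, g2, g3, g4⟩
      · rw [g]; exact q0 x y u
      · have n1 : E b x u = false := by
          by_contra hc
          rw [Bool.not_eq_false] at hc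
          exact hE.free u b x z y (by rw [hE.c312, hc]) h3 (by rw [← hE.s2, h4])
            (by rw [← hE.s1, g4]) (by rw [hE.c231, g3])
        have n2 : E x y u = false := by
          by_contra hc
          rw [Bool.not_eq_false] at hc
          exact hE.free u y x z b (by rw [hE.c321, hc]) (by rw [← hE.s1, h4])
            (by rw [hE.c231, h3]) (by rw [← hE.s1, g2]) (by rw [← hE.s2, g3])
        rw [g]; simp [eN, n1, n2, g3]
  have hb : ∀ x y, ∑ z, v z * K x y z * (t y z / t x y) ≤ (eN E b x y : ℝ) * m x y := by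
    intro x y
    have h0 : 0 ≤ (eN E b x y : ℝ) * m x y := mul_nonneg (eN_nonneg _ _ _) (m0 x y)
    calc ∑ z, v z * K x y z * (t y z / t x y)
        ≤ ∑ z, v z * K x y z * ((eN E b x y : ℝ) * m x y / t x y) := by
          refine sum_le_sum fun z _ => ?_
          have := mul_le_mul_of_nonneg_left (ha x y z) (div_nonneg (hv z) (t0 x y))
          calc v z * K x y z * (t y z / t x y) = v z / t x y * (K x y z * t y z) := by ring
            _ ≤ _ := this
            _ = _ := by ring
      _ = t x y / t x y * ((eN E b x y : ℝ) * m x y) := by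
          rw [← sum_mul]; simp only [ht]; ring
      _ ≤ 1 * ((eN E b x y : ℝ) * m x y) :=
          mul_le_mul_of_nonneg_right (div_self_le_one _) h0
      _ = _ := one_mul _
  set F : V → V → V → ℝ := fun x y z => v x * v y * v z * K x y z * (t y z / t x y) with hF
  have hc : ∑ x, ∑ y, ∑ z, F x y z ≤ ∑ x, ∑ y, ∑ u, v x * v y * v u *
        ((eN E b x y : ℝ) * eN E b y u * ((1 - eN E b x u) * (1 - eN E x y u))) := by
    refine sum_le_sum fun x _ => sum_le_sum fun y _ => ?_
    have := mul_le_mul_of_nonneg_left (hb x y) (mul_nonneg (hv x) (hv y))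
    calc ∑ z, F x y z = v x * v y * ∑ z, v z * K x y z * (t y z / t x y) := by
          rw [mul_sum]; exact sum_congr rfl fun z _ => by simp only [hF]; ring
      _ ≤ _ := this
      _ = _ := by
          simp only [hm, mul_sum]; exact sum_congr rfl fun z _ => by ring
  have hd : ∀ x y z, 3 * (v x * v y * v z * K x y z) ≤ F x y z + F y z x + F z x y := by
    intro x y z
    have e : F x y z + F y z x + F z x y =
        v x * v y * v z * K x y z * (t y z / t x y + t z x / t y z + t x y / t z x) := by
      simp only [hF, Kc x y z, ← Kc z x y]; ring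
    rw [e]
    rcases (mul_nonneg (mul_nonneg (mul_nonneg (hv x) (hv y)) (hv z)) (K0 x y z)).eq_or_lt
      with h | h
    · rw [← h]; simp
    · have hK1 : 0 < K x y z := by
        rcases (K0 x y z).eq_or_lt with g | g
        · rw [← g] at h; simp at h
        · exact g
      have pos : ∀ a, (v a = 0 → v x * v y * v z = 0) → 0 < v a := fun a ha => by
        rcases (hv a).eq_or_lt with g | g
        · rw [ha g.symm] at h; simp at h
        · exact g
      have px := pos x (fun g => by simp [g])
      have py := pos y (fun g => by simp [g])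
      have pz := pos z (fun g => by simp [g])
      have tp : ∀ a c d, 0 < v d → 0 < K a c d → 0 < t a c := fun a c d h1 h2 =>
        lt_of_lt_of_le (mul_pos h1 h2)
          (single_le_sum (f := fun u => v u * K a c u)
            (fun u _ => mul_nonneg (hv u) (K0 a c u)) (mem_univ d))
      have := amgm3 (tp x y z pz hK1) (tp y z x px (by rwa [Kc]))
        (tp z x y py (by rwa [← Kc z x y]))
      nlinarith
  have he : 3 * ∑ x, ∑ y, ∑ z, v x * v y * v z * K x y z ≤ 3 * ∑ x, ∑ y, ∑ z, F x y z := by
    have c1 := sum_cyc F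
    have c2 := sum_cyc (fun x y z => F y z x)
    calc 3 * ∑ x, ∑ y, ∑ z, v x * v y * v z * K x y z
        = ∑ x, ∑ y, ∑ z, 3 * (v x * v y * v z * K x y z) := by simp only [mul_sum]
      _ ≤ ∑ x, ∑ y, ∑ z, (F x y z + F y z x + F z x y) :=
          sum_le_sum fun x _ => sum_le_sum fun y _ => sum_le_sum fun z _ => hd x y z
      _ = _ := by
          simp only [sum_add_distrib]
          rw [← c2, ← c1]; ring
  have : ∑ x, ∑ y, ∑ z, v x * v y * v z * K x y z ≤ ∑ x, ∑ y, ∑ z, F x y z := by linarith
  exact this.trans hc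

theorem Good.entropy (hG : Good w E p) (g : V → ℝ) (hg : ∀ v, 0 ≤ g v) (b : V) :
    0 ≤ Ex w fun x => Ex w fun y => Ex w fun u => g x * g y * g u *
      ((eN E b x y : ℝ) * eN E b y u * ((1 - eN E b x u) * (1 - eN E x y u) -
        eN E b x u * eN E x y u)) := by
  have h := sub_nonneg.2 (hG.toFree.entropy_sum (fun x => w x * g x)
    (fun x => mul_nonneg (hG.nn x) (hg x)) b)
  simp only [← sum_sub_distrib] at h
  simp only [Ex, mul_sum]
  convert h using 4
  ring

end Pool.Agent.P.MP_fc6a29_co
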