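import Mathlib

/-! The iterated construction without tight 5-cycle. -/

namespace Pool.Agent.P.MP_fc6a29_co

open Finset

theorem step_ineq (k a : ℝ) (hk : 0 ≤ k) (ha : 1 ≤ a) (h1 : (√3 + 1) * k ≤ a + k)
    (h2 : a + k ≤ (√3 + 1) * (k + 1)) :
    (2 * √3 - 3) * (a + k) ^ 3 / 6 - (a + k) ^ 2 ≤
      (2 * √3 - 3) * k ^ 3 / 6 - k ^ 2 + a * (a - 1) / 2 * k := by
  have hs : √3 ^ 2 = 3 := Real.sq_sqrt (by norm_num)
  have s0 : 0 ≤ √3 := Real.sqrt_nonneg _
  set s := √3
  have s1 : 1.73205 ≤ s := by nlinarith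
  have s2 : s ≤ 1.7321 := by nlinarith
  have e1 : (2 * s - 3) * ((a + k) ^ 3 - k ^ 3) - 3 * a ^ 2 * k =
      (2 * s - 3) * a * (a - s * k) ^ 2 := by
    linear_combination (-a * (k ^ 2 * (2 * s - 3) - 4 * k * a)) * hs
  have u1 : 0 ≤ a - s * k := by linarith
  have u2 : a - s * k ≤ 2.7321 := by linarith
  have u3 : (a - s * k) ^ 2 ≤ 8 := by nlinarith
  have u4 : (2 * s - 3) * (a - s * k) ^ 2 ≤ 4 := by nlinarith [sq_nonneg (a - s * k)]
  have u5 : a * ((2 * s - 3) * (a - s * k) ^ 2) ≤ a * 4 :=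
    mul_le_mul_of_nonneg_left u4 (by linarith)
  nlinarith [mul_nonneg hk (show 0 ≤ a by linarith)]

/-- The alternative satisfied by every edge of the construction. -/
def Alt (h x y z : Prop) : Prop :=
  (h ∧ x ∧ y ∧ z) ∨ ((x ∨ y ∨ z) ∧ ¬ (x ∧ y) ∧ ¬ (x ∧ z) ∧ ¬ (y ∧ z))

theorem alt5 {h0 h1 h2 h3 h4 a b c d e : Prop} (w0 : Alt h0 a b c) (w1 : Alt h1 b c d)
    (w2 : Alt h2 c d e) (w3 : Alt h3 d e a) (w4 : Alt h4 e a b) : h0 ∧ h1 ∧ h2 ∧ h3 ∧ h4 := by
  unfold Alt at *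
  by_cases a <;> by_cases b <;> by_cases c <;> by_cases d <;> by_cases e <;> simp_all

theorem construction {α : Type} [DecidableEq α] (m : ℕ) : ∀ s : Finset α, s.card = m →
    ∃ H : Finset (Finset α), (∀ e ∈ H, e ⊆ s ∧ e.card = 3) ∧
      (¬ ∃ f : Fin 5 → α, ∀ i : Fin 5, ({f i, f (i + 1), f (i + 2)} : Finset α) ∈ H) ∧
      (2 * √3 - 3) * (m : ℝ) ^ 3 / 6 - (m : ℝ) ^ 2 ≤ H.card := by
  induction m using Nat.strong_induction_on with
  | _ m ih =>
  intro s hs
  rcases Nat.eq_zero_or_pos m with rfl | hm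
  · exact ⟨∅, by simp, by simp, by simp⟩
  have s0 : 0 < √3 := Real.sqrt_pos.2 (by norm_num)
  have m0 : (0 : ℝ) < m := Nat.cast_pos.2 hm
  set k := ⌊(m : ℝ) / (√3 + 1)⌋₊ with hk
  have k1 : (√3 + 1) * k ≤ m := by
    have := Nat.floor_le (show 0 ≤ (m : ℝ) / (√3 + 1) by positivity)
    rwa [le_div_iff₀ (by positivity), mul_comm] at this
  have k2 : (m : ℝ) ≤ (√3 + 1) * (k + 1) := by
    have := (Nat.lt_floor_add_one ((m : ℝ) / (√3 + 1))).le
    rwa [div_le_iff₀ (by positivity), mul_comm] at this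
  have k3 : k < m := by
    by_contra g
    have : (m : ℝ) ≤ k := by exact_mod_cast not_lt.1 g
    nlinarith
  obtain ⟨B, hB, cB⟩ := exists_subset_card_eq (s := s) (n := k) (by omega)
  obtain ⟨HB, b1, b2, b3⟩ := ih k k3 B cB
  set A := s \ B with hA
  have cA : A.card = m - k := by rw [hA, card_sdiff_of_subset hB, hs, cB]
  set N := (powersetCard 2 A ×ˢ B).image fun q => insert q.2 q.1 with hN
  have hq : ∀ q ∈ powersetCard 2 A ×ˢ B, (∀ x ∈ q.1, x ∈ s ∧ x ∉ B) ∧ q.1.card = 2 ∧ q.2 ∈ B := by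
    intro q hq
    obtain ⟨q1, q2⟩ := mem_product.1 hq
    obtain ⟨q3, q4⟩ := mem_powersetCard.1 q1
    exact ⟨fun x hx => mem_sdiff.1 (q3 hx), q4, q2⟩
  have n1 : ∀ e ∈ N, e ⊆ s ∧ e.card = 3 ∧ ∃ b ∈ e, b ∈ B ∧ ∀ x ∈ e, x ∈ B → x = b := by
    intro e he
    obtain ⟨q, h, rfl⟩ := mem_image.1 he
    obtain ⟨q1, q2, q3⟩ := hq q h
    refine ⟨insert_subset (hB q3) fun x hx => (q1 x hx).1, ?_, q.2, mem_insert_self _ _, q3, ?_⟩
    · rw [card_insert_of_notMem fun g => (q1 _ g).2 q3, q2]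
    · intro x hx hxB
      rcases mem_insert.1 hx with g | g
      · exact g
      · exact absurd hxB (q1 x g).2
  have cN : N.card = (m - k).choose 2 * k := by
    rw [hN, card_image_of_injOn, card_product, card_powersetCard, cA, cB]
    intro q h r g e
    obtain ⟨q1, -, q3⟩ := hq q h
    obtain ⟨r1, -, r3⟩ := hq r g
    simp only at e
    have e2 : q.2 = r.2 := by
      have : q.2 ∈ insert r.2 r.1 := e ▸ mem_insert_self _ _
      rcases mem_insert.1 this with t | t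
      · exact t
      · exact absurd q3 (r1 _ t).2
    refine Prod.ext ?_ e2
    rw [← erase_insert (s := q.1) (a := q.2) fun t => (q1 _ t).2 q3, e, e2,
      erase_insert fun t => (r1 _ t).2 r3]
  have hd : Disjoint HB N := by
    rw [disjoint_left]
    intro e h1 h2
    obtain ⟨-, c3, b, -, -, hb⟩ := n1 e h2
    have : e.card ≤ 1 := card_le_one.2 fun x hx y hy => by
      rw [hb x hx ((b1 e h1).1 hx), hb y hy ((b1 e h1).1 hy)]
    omega
  refine ⟨HB ∪ N, fun e he => ?_, ?_, ?_⟩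
  · rcases mem_union.1 he with h | h
    · exact ⟨(b1 e h).1.trans hB, (b1 e h).2⟩
    · exact ⟨(n1 e h).1, (n1 e h).2.1⟩
  · rintro ⟨f, hf⟩
    have w : ∀ x y z : α, ({x, y, z} : Finset α) ∈ HB ∪ N →
        Alt (({x, y, z} : Finset α) ∈ HB) (x ∈ B) (y ∈ B) (z ∈ B) := by
      intro x y z h
      rcases mem_union.1 h with h | h
      · have := (b1 _ h).1
        exact Or.inl ⟨h, this (by simp), this (by simp), this (by simp)⟩
      · obtain ⟨-, c3, b, hb1, hb2, hb⟩ := n1 _ h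
        have hx := hb x (by simp)
        have hy := hb y (by simp)
        have hz := hb z (by simp)
        refine Or.inr ⟨?_, ?_, ?_, ?_⟩
        · simp only [mem_insert, mem_singleton] at hb1
          rcases hb1 with rfl | rfl | rfl <;> simp [hb2]
        · rintro ⟨g1, g2⟩
          have := card_le_two (a := b) (b := z)
          rw [hx g1, hy g2, insert_eq_of_mem (by simp)] at c3
          omega
        · rintro ⟨g1, g2⟩
          have := card_le_two (a := y) (b := b)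
          rw [hx g1, hz g2, insert_eq_of_mem (by simp)] at c3
          omega
        · rintro ⟨g1, g2⟩
          have := card_le_two (a := x) (b := b)
          rw [hy g1, hz g2, pair_eq_singleton] at c3
          omega
    have w0 := w (f 0) (f 1) (f 2) (hf 0)
    have w1 := w (f 1) (f 2) (f 3) (hf 1)
    have w2 := w (f 2) (f 3) (f 4) (hf 2)
    have w3 := w (f 3) (f 4) (f 0) (hf 3)
    have w4 := w (f 4) (f 0) (f 1) (hf 4)
    have all := alt5 w0 w1 w2 w3 w4
    refine b2 ⟨f, fun i => ?_⟩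
    fin_cases i
    exacts [all.1, all.2.1, all.2.2.1, all.2.2.2.1, all.2.2.2.2]
  · rw [card_union_of_disjoint hd, cN]
    have a1 : (1 : ℝ) ≤ (m - k : ℕ) := by exact_mod_cast (show 1 ≤ m - k by omega)
    have a2 : (m : ℝ) = (m - k : ℕ) + k := by exact_mod_cast (show m = m - k + k by omega)
    have := step_ineq k (m - k : ℕ) (Nat.cast_nonneg _) a1 (a2 ▸ k1) (a2 ▸ k2)
    rw [← a2] at this
    rw [Nat.cast_add, Nat.cast_mul, Nat.cast_choose_two]
    linarith

end Pool.Agent.P.MP_fc6a29_co
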