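import Pool.Agent.P.MP_fc6a29_co.Near2

/-! Every vertex of a nearly regular weighting misses few triples of the two-part pattern. -/

namespace Pool.Agent.P.MP_fc6a29_co

open Finset

variable {V : Type} [Fintype V] {w : V → ℝ} {E : V → V → V → Bool} {η τ : ℝ} {χ : V → Bool}

omit [Fintype V] in
theorem Free.path (hE : Free E) (z a b c d : V) :
    (eN E z a b : ℝ) * eN E z a d * eN E z d c ≤ (1 - eN E a b c) + (1 - eN E b c d) := by
  have h := hE.free z a b c d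
  rw [hE.c231 z c d, hE.s2 z c d, hE.c312 z a d] at h
  unfold eN
  revert h
  cases E z a b <;> cases E z a d <;> cases E z d c <;> cases E a b c <;> cases E b c d <;>
    simp

omit [Fintype V] in
theorem col_cases (χ : V → Bool) (x : V) :
    (iA χ x = 1 ∧ iB χ x = 0) ∨ (iA χ x = 0 ∧ iB χ x = 1) := by
  unfold iA iB cN
  cases χ x <;> simp

/-- Degree into the first colour in the link of `z`. -/
def dA (w : V → ℝ) (E : V → V → V → Bool) (χ : V → Bool) (z v : V) : ℝ :=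
  Ex w fun u => iA χ u * eN E z v u

/-- Degree into the second colour in the link of `z`. -/
def dB (w : V → ℝ) (E : V → V → V → Bool) (χ : V → Bool) (z v : V) : ℝ :=
  Ex w fun u => iB χ u * eN E z v u

theorem dA_nonneg (nn : ∀ v, 0 ≤ w v) (z v : V) : 0 ≤ dA w E χ z v :=
  Ex_nonneg nn fun u => mul_nonneg (iA_nonneg u) (eN_nonneg _ _ _)

theorem dB_nonneg (nn : ∀ v, 0 ≤ w v) (z v : V) : 0 ≤ dB w E χ z v :=
  Ex_nonneg nn fun u => mul_nonneg (iB_nonneg u) (eN_nonneg _ _ _)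

theorem dA_le (nn : ∀ v, 0 ≤ w v) (z v : V) : dA w E χ z v ≤ Ex w (iA χ) :=
  Ex_mono nn fun u => mul_le_of_le_one_right (iA_nonneg u) (eN_le _ _ _)

theorem dB_le (nn : ∀ v, 0 ≤ w v) (z v : V) : dB w E χ z v ≤ Ex w (iB χ) :=
  Ex_mono nn fun u => mul_le_of_le_one_right (iB_nonneg u) (eN_le _ _ _)

theorem Lk_AB (z : V) : Lk w E z (iA χ) (iB χ) = Ex w fun v => iA χ v * dB w E χ z v := by
  simp only [Lk, dB, ← Ex_mul_left, mul_assoc]

theorem Lk_BA (z : V) : Lk w E z (iB χ) (iA χ) = Ex w fun v => iB χ v * dA w E χ z v := by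
  simp only [Lk, dA, ← Ex_mul_left, mul_assoc]

theorem NCol.sum_one (hC : NCol w E χ) : Ex w (iA χ) + Ex w (iB χ) = 1 := by
  rw [← Ex_add, Ex_congr (g := fun _ => 1) (fun x => by simp [iA, iB]), Ex_const hC.tot]

theorem NCol.paths1 (hC : NCol w E χ) (z : V) :
    (Ex w fun a => iA χ a * (dA w E χ z a *
      Ex w fun d => iA χ d * eN E z a d * dB w E χ z d)) ≤ 2 * Ms w E χ := by
  have nn := hC.nn
  have e1 : (Ex w fun a => Ex w fun b => Ex w fun d => Ex w fun c =>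
      iA χ a * ((iA χ b * eN E z a b) * (iA χ d * eN E z a d * (iB χ c * eN E z d c)))) =
      Ex w fun a => iA χ a * (dA w E χ z a *
        Ex w fun d => iA χ d * eN E z a d * dB w E χ z d) := by
    simp only [Ex_mul_left, Ex_mul_right, dA, dB]
  have e2 : (Ex w fun a => Ex w fun b => Ex w fun d => Ex w fun c =>
      iA χ a * iA χ b * iB χ c * (1 - eN E a b c) + iA χ b * iA χ d * iB χ c * (1 - eN E b d c)) =
      2 * Ms w E χ := by
    simp only [Ex_add, Ex_const hC.tot, Ms]; ring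
  rw [← e1, ← e2]
  refine Ex_mono nn fun a => Ex_mono nn fun b => Ex_mono nn fun d => Ex_mono nn fun c => ?_
  have h := hC.toFree.path z a b c d
  have h2 : (eN E b c d : ℝ) = eN E b d c := by simp only [eN, hC.s2 b c d]
  have g1 := eN_le (E := E) a b c
  have g2 := eN_le (E := E) b d c
  rcases col_cases χ a with ⟨qa, -⟩ | ⟨qa, -⟩ <;> rcases col_cases χ b with ⟨qb, -⟩ | ⟨qb, -⟩ <;>
    rcases col_cases χ c with ⟨-, qc⟩ | ⟨-, qc⟩ <;> rcases col_cases χ d with ⟨qd, -⟩ | ⟨qd, -⟩ <;>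
    rw [qa, qb, qc, qd] <;> linarith

theorem NCol.paths2 (hC : NCol w E χ) (z : V) :
    (Ex w fun a => Ex w fun d => iB χ a * iB χ d * eN E z a d * (dA w E χ z a * dA w E χ z d)) ≤
      2 * Ms w E χ := by
  have nn := hC.nn
  have e1 : (Ex w fun a => Ex w fun d => Ex w fun b => Ex w fun c =>
      iB χ a * iB χ d * eN E z a d * ((iA χ b * eN E z a b) * (iA χ c * eN E z d c))) =
      Ex w fun a => Ex w fun d => iB χ a * iB χ d * eN E z a d * (dA w E χ z a * dA w E χ z d) := by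
    simp only [Ex_mul_left, Ex_mul_right, dA]
  have e3 : (Ex w fun a => Ex w fun b => Ex w fun c =>
      iA χ b * iA χ c * iB χ a * (1 - eN E b c a)) = Ms w E χ := by
    rw [Ex_comm]
    exact Ex_congr fun b => Ex_comm _
  have e2 : (Ex w fun a => Ex w fun d => Ex w fun b => Ex w fun c =>
      iA χ b * iA χ c * iB χ a * (1 - eN E b c a) + iA χ b * iA χ c * iB χ d * (1 - eN E b c d)) =
      2 * Ms w E χ := by
    simp only [Ex_add, Ex_const hC.tot, e3]; ring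
  rw [← e1, ← e2]
  refine Ex_mono nn fun a => Ex_mono nn fun d => Ex_mono nn fun b => Ex_mono nn fun c => ?_
  have h := hC.toFree.path z a b c d
  have h2 : (eN E b c a : ℝ) = eN E a b c := by simp only [eN, hC.toFree.c231 a b c]
  have g1 := eN_le (E := E) a b c
  have g2 := eN_le (E := E) b c d
  rcases col_cases χ a with ⟨-, qa⟩ | ⟨-, qa⟩ <;> rcases col_cases χ b with ⟨qb, -⟩ | ⟨qb, -⟩ <;>
    rcases col_cases χ c with ⟨qc, -⟩ | ⟨qc, -⟩ <;> rcases col_cases χ d with ⟨-, qd⟩ | ⟨-, qd⟩ <;>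
    rw [qa, qb, qc, qd] <;> linarith

omit [Fintype V] in
theorem eN_cases (a b c : V) : (eN E a b c : ℝ) = 0 ∨ (eN E a b c : ℝ) = 1 := by
  unfold eN; cases E a b c <;> simp

theorem NCol.link_AA (hC : NCol w E χ) (h0 : 0 < τ) (hM : 2 * Ms w E χ ≤ τ ^ 2) (z : V) :
    Ex w (iB χ) ^ 2 * Lk w E z (iA χ) (iA χ) ≤
      (Ex w (iA χ) * Ex w (iB χ) - Lk w E z (iA χ) (iB χ)) ^ 2 + 2 * Ex w (iB χ) * τ := by
  have nn := hC.nn
  have hs := hC.sum_one
  have a0 := Ex_nonneg nn (iA_nonneg (χ := χ))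
  have b0 := Ex_nonneg nn (iB_nonneg (χ := χ))
  set β := Ex w (iB χ) with hβ
  set h : V → ℝ := fun a => Ex w fun d => iA χ d * eN E z a d * dB w E χ z d with hh
  have h1 : ∀ a, 0 ≤ h a := fun a => Ex_nonneg nn fun d =>
    mul_nonneg (mul_nonneg (iA_nonneg d) (eN_nonneg _ _ _)) (dB_nonneg nn z d)
  have h2 : ∀ a, h a ≤ dA w E χ z a := fun a => Ex_mono nn fun d =>
    mul_le_of_le_one_right (mul_nonneg (iA_nonneg d) (eN_nonneg _ _ _))
      ((dB_le nn z d).trans (by linarith))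
  have hQ : (Ex w fun a => iA χ a * h a) ≤ τ := by
    have g : (Ex w fun a => 2 * τ * (iA χ a * h a)) ≤
        Ex w fun a => τ ^ 2 + iA χ a * (dA w E χ z a * h a) := Ex_mono nn fun a => by
      have q := mul_le_mul_of_nonneg_right (h2 a) (h1 a)
      rcases col_cases χ a with ⟨qa, -⟩ | ⟨qa, -⟩ <;> rw [qa] <;>
        nlinarith [sq_nonneg (τ - h a), sq_nonneg τ]
    rw [Ex_mul_left, Ex_add, Ex_const hC.tot] at g
    have := hC.paths1 z
    nlinarith
  have e1 : (Ex w fun a => Ex w fun d => iA χ a * (iA χ d * eN E z a d * dB w E χ z d)) =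
      Ex w fun a => iA χ a * h a := by simp only [Ex_mul_left, hh]
  have e2 : (Ex w fun a => Ex w fun d => iA χ d * (iA χ a * eN E z d a * dB w E χ z a)) =
      Ex w fun a => iA χ a * h a := by rw [Ex_comm, e1]
  have e3 : (Ex w fun a => Ex w fun d =>
      (β * iA χ a - iA χ a * dB w E χ z a) * (β * iA χ d - iA χ d * dB w E χ z d)) =
      (Ex w (iA χ) * β - Lk w E z (iA χ) (iB χ)) ^ 2 := by
    simp only [Ex_mul_left, Ex_mul_right, Ex_sub, Lk_AB]; ring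
  have g : (Ex w fun a => Ex w fun d => β ^ 2 * (iA χ a * iA χ d * eN E z a d)) ≤
      Ex w fun a => Ex w fun d =>
        (β * iA χ a - iA χ a * dB w E χ z a) * (β * iA χ d - iA χ d * dB w E χ z d) +
        β * (iA χ a * (iA χ d * eN E z a d * dB w E χ z d)) +
        β * (iA χ d * (iA χ a * eN E z d a * dB w E χ z a)) :=
    Ex_mono nn fun a => Ex_mono nn fun d => by
      have s : (eN E z d a : ℝ) = eN E z a d := by simp only [eN, hC.s2 z d a]
      have p1 := mul_nonneg (sub_nonneg.2 (dB_le (E := E) (χ := χ) nn z a))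
        (sub_nonneg.2 (dB_le (E := E) (χ := χ) nn z d))
      have p2 := mul_nonneg (dB_nonneg (E := E) (χ := χ) nn z a) (dB_nonneg (E := E) (χ := χ) nn z d)
      rw [s]
      rcases col_cases χ a with ⟨qa, -⟩ | ⟨qa, -⟩ <;> rcases col_cases χ d with ⟨qd, -⟩ | ⟨qd, -⟩ <;>
        rcases eN_cases (E := E) z a d with q | q <;> rw [qa, qd, q] <;> nlinarith
  simp only [Ex_add, e3, Ex_mul_left β, Ex_mul_left (β ^ 2), e1, e2] at g
  have := mul_le_mul_of_nonneg_left hQ b0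
  simp only [Lk]
  simp only [Lk] at g
  linarith

theorem NCol.link_BB (hC : NCol w E χ) (z : V) :
    Ex w (iA χ) ^ 2 * Lk w E z (iB χ) (iB χ) ≤ 2 * Ms w E χ + 2 * Ex w (iA χ) * Ex w (iB χ) *
      (Ex w (iA χ) * Ex w (iB χ) - Lk w E z (iA χ) (iB χ)) := by
  have nn := hC.nn
  have a0 := Ex_nonneg nn (iA_nonneg (χ := χ))
  set α := Ex w (iA χ) with hα
  have g : (Ex w fun a => Ex w fun d => α ^ 2 * (iB χ a * iB χ d * eN E z a d)) ≤
      Ex w fun a => Ex w fun d =>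
        iB χ a * iB χ d * eN E z a d * (dA w E χ z a * dA w E χ z d) +
        α * ((α * iB χ a - iB χ a * dA w E χ z a) * iB χ d) +
        α * (iB χ a * (α * iB χ d - iB χ d * dA w E χ z d)) :=
    Ex_mono nn fun a => Ex_mono nn fun d => by
      have p0 := sub_nonneg.2 (dA_le (E := E) (χ := χ) nn z a)
      have p1 := sub_nonneg.2 (dA_le (E := E) (χ := χ) nn z d)
      have p2 := mul_nonneg p0 p1
      have p3 := mul_nonneg a0 p0
      have p4 := mul_nonneg a0 p1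
      rcases col_cases χ a with ⟨-, qa⟩ | ⟨-, qa⟩ <;> rcases col_cases χ d with ⟨-, qd⟩ | ⟨-, qd⟩ <;>
        rcases eN_cases (E := E) z a d with q | q <;> rw [qa, qd, q] <;> nlinarith
  have e1 : (Ex w fun a => Ex w fun d => (α * iB χ a - iB χ a * dA w E χ z a) * iB χ d) =
      (α * Ex w (iB χ) - Lk w E z (iA χ) (iB χ)) * Ex w (iB χ) := by
    rw [hC.toFree.lk_comm, Lk_BA]
    simp only [Ex_mul_left, Ex_mul_right, Ex_sub]
  have e2 : (Ex w fun a => Ex w fun d => iB χ a * (α * iB χ d - iB χ d * dA w E χ z d)) =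
      Ex w (iB χ) * (α * Ex w (iB χ) - Lk w E z (iA χ) (iB χ)) := by
    rw [hC.toFree.lk_comm, Lk_BA]
    simp only [Ex_mul_left, Ex_mul_right, Ex_sub]
  simp only [Ex_add, Ex_mul_left α, Ex_mul_left (α ^ 2), e1, e2] at g
  have := hC.paths2 z
  simp only [Lk] at g ⊢
  linarith

theorem NCol.deg_split (hC : NCol w E χ) (z : V) :
    Dg w E z = Lk w E z (iA χ) (iA χ) + 2 * Lk w E z (iA χ) (iB χ) + Lk w E z (iB χ) (iB χ) := by
  rw [two_mul]
  nth_rewrite 1 [hC.toFree.lk_comm z (iA χ) (iB χ)]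
  simp only [Dg, Lk, ← Ex_add]
  exact Ex_congr fun c => Ex_congr fun d => by simp only [iA, iB]; ring

theorem last_slack {β : ℝ} (h1 : 0.31 ≤ β) (h2 : β ≤ 0.426) :
    3 * (1 - β) ^ 2 * β + (0.2304 * (1 - β) + 0.0484 * β) * (3 * β ^ 2 - (1 - β) ^ 2) ^ 2 +
      0.003 * (√3 * β - (1 - β)) ^ 2 ≤ PP * (1 - β ^ 3) := by
  have hs := s3_sq
  have s1 := s3_lo
  have s2 := s3_hi
  unfold PP
  set s := √3
  have e1 : (2 * s - 3) * (1 - β ^ 3) - 3 * (1 - β) ^ 2 * β =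
      (2 * s - 3) * (1 - β) * (s * β - (1 - β)) ^ 2 := by
    linear_combination (-(1 - β) * (β ^ 2 * (2 * s + 1) - 4 * β)) * hs
  have e2 : 3 * β ^ 2 - (1 - β) ^ 2 = (s * β - (1 - β)) * (s * β + (1 - β)) := by
    linear_combination (-β ^ 2) * hs
  have e3 : (0.2304 * (1 - β) + 0.0484 * β) * (s * β + (1 - β)) ^ 2 + 0.003 ≤
      (2 * s - 3) * (1 - β) := by
    have g1 : s * β + (1 - β) ≤ 1 + 0.7321 * β := by nlinarith
    have g2 : (s * β + (1 - β)) ^ 2 ≤ (1 + 0.7321 * β) ^ 2 :=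
      pow_le_pow_left₀ (by nlinarith) g1 2
    have g3 := mul_le_mul_of_nonneg_left g2 (show 0 ≤ 0.2304 * (1 - β) + 0.0484 * β by linarith)
    have g4 : 0.4641 * (1 - β) ≤ (2 * s - 3) * (1 - β) := by nlinarith
    have g5 := sub_nonneg.2 h1
    have g6 := sub_nonneg.2 h2
    nlinarith [mul_nonneg g5 g6, mul_nonneg g5 (mul_nonneg g5 g5), mul_nonneg g6 (mul_nonneg g5 g5),
      mul_nonneg g6 g6]
  have e4 := mul_le_mul_of_nonneg_right e3 (sq_nonneg (s * β - (1 - β)))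
  rw [e2]
  nlinarith

theorem Ms_nonneg (nn : ∀ v, 0 ≤ w v) : 0 ≤ Ms w E χ :=
  Ex_nonneg nn fun a => Ex_nonneg nn fun b => Ex_nonneg nn fun c =>
    mul_nonneg (mul_nonneg (mul_nonneg (iA_nonneg a) (iA_nonneg b)) (iB_nonneg c))
      (sub_nonneg.2 (eN_le _ _ _))

theorem Near.stab (hG : Near w E η) (hC : NCol w E χ) :
    0.006 * Ms w E χ + 0.003 * (√3 * Ex w (iB χ) - (1 - Ex w (iB χ))) ^ 2 +
      (PP * Ex w (iB χ) ^ 3 - Tri w E (iB χ) (iB χ) (iB χ)) ≤ η := by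
  have h := hC.slack
  have hs : Ex w (iA χ) = 1 - Ex w (iB χ) := by linarith [hC.sum_one]
  have a1 := hC.alo
  have a2 := hC.ahi
  have p : PP - η ≤ Ex w (Dg w E) := by
    have := Ex_mono hG.nn hG.lo
    rwa [Ex_const hG.tot] at this
  rw [hs] at h a1 a2
  have q := last_slack (β := Ex w (iB χ)) (by linarith) (by linarith)
  linarith

theorem Near.link_BB (hG : Near w E η) (h0 : 0 < τ) (h1 : τ ≤ 1)
    (hb : Ex w (iB χ) ≤ 0.4) (hT : PP * Ex w (iB χ) ^ 3 - Tri w E (iB χ) (iB χ) (iB χ) ≤ τ ^ 2)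
    (z : V) : Lk w E z (iB χ) (iB χ) ≤ PP * Ex w (iB χ) ^ 2 + τ := by
  classical
  have hv := hG.pos z
  have b0 := Ex_nonneg hG.nn (iB_nonneg (χ := χ))
  have h := hG.toFree.opt hG.nn (fun x => iB χ x + τ / w z * if x = z then 1 else 0) (fun x => by
    have := iB_nonneg (χ := χ) x
    split_ifs <;> positivity)
  rw [hG.toFree.tri_shift] at h
  have h2 : Ex w (fun x => iB χ x + τ / w z * if x = z then 1 else 0) = Ex w (iB χ) + τ := by
    rw [Ex_add, Ex_mul_left]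
    have := Ex_single (w := w) z (fun _ => 1)
    simp only [mul_one] at this
    rw [this]; field_simp
  rw [h2] at h
  set L := Lk w E z (iB χ) (iB χ)
  set β := Ex w (iB χ)
  have h3 : w z * (τ / w z * L + τ / w z * L + τ / w z * L) = 3 * τ * L := by
    field_simp; ring
  rw [h3] at h
  have p1 := PP_lo
  have p2 := PP_hi
  have h4 : τ * (3 * L) ≤ τ * (3 * PP * β ^ 2 + PP * (3 * β * τ + τ ^ 2) + τ) := by nlinarith
  have h5 := le_of_mul_le_mul_left h4 h0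
  have h6 : 3 * β * τ + τ ^ 2 ≤ 3 * τ := by nlinarith
  have h7 : PP * (3 * β * τ + τ ^ 2) ≤ PP * (3 * τ) := mul_le_mul_of_nonneg_left h6 (by linarith)
  nlinarith

theorem num_beta {β τ : ℝ} (h0 : 0 < τ) (h1 : τ ≤ 1 / 1000) (b0 : 0 ≤ β)
    (hd : (√3 * β - (1 - β)) ^ 2 ≤ τ ^ 2) :
    0.365 ≤ β ∧ β ≤ 0.367 ∧ 2 * (1 - β) * β ≤ PP + τ ∧ (1 - β) ^ 2 + PP * β ^ 2 ≤ PP + τ := by
  obtain ⟨d1, d2⟩ := abs_le_of_sq_le_sq' hd h0.le
  have s0 := s3_sq
  have s1 := s3_lo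
  have s2 := s3_hi
  unfold PP
  generalize √3 = s at *
  obtain ⟨δ, rfl⟩ : ∃ δ, β = (s - 1) / 2 + δ := ⟨β - (s - 1) / 2, by ring⟩
  have e0 : s * ((s - 1) / 2 + δ) - (1 - ((s - 1) / 2 + δ)) = (s + 1) * δ := by
    linear_combination (1 / 2) * s0
  rw [e0] at d1 d2
  have δ1 : -τ ≤ 2 * δ := by
    by_contra g
    push Not at g
    have : (s - 1) * δ ≤ 0 := mul_nonpos_of_nonneg_of_nonpos (by linarith) (by linarith)
    linarith
  have δ2 : 2 * δ ≤ τ := by
    by_contra g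
    push Not at g
    have : 0 ≤ (s - 1) * δ := mul_nonneg (by linarith) (by linarith)
    linarith
  have g : δ ^ 2 ≤ τ / 1000 := by nlinarith
  refine ⟨by linarith, by linarith, ?_, ?_⟩
  · have : 2 * (1 - ((s - 1) / 2 + δ)) * ((s - 1) / 2 + δ) =
        2 * s - 3 + (2 - s) * (2 * δ) - 2 * δ ^ 2 := by linear_combination (-1 / 2) * s0
    have q : (2 - s) * (2 * δ) ≤ (2 - s) * τ := mul_le_mul_of_nonneg_left δ2 (by linarith)
    have q2 : (2 - s) * τ ≤ 1 * τ := mul_le_mul_of_nonneg_right (by linarith) h0.le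
    linarith [sq_nonneg δ]
  · have : (1 - ((s - 1) / 2 + δ)) ^ 2 + (2 * s - 3) * ((s - 1) / 2 + δ) ^ 2 =
        2 * s - 3 + (2 * s - 3) * (-(2 * δ)) + (2 * s - 2) * δ ^ 2 := by
      linear_combination (s / 2 - 3 / 2 + 2 * δ) * s0
    have q : (2 * s - 3) * (-(2 * δ)) ≤ (2 * s - 3) * τ :=
      mul_le_mul_of_nonneg_left (by linarith) (by linarith)
    have q2 : (2 * s - 3) * τ ≤ 0.5 * τ := mul_le_mul_of_nonneg_right (by linarith) h0.le
    have q3 : (2 * s - 2) * δ ^ 2 ≤ 2 * δ ^ 2 := mul_le_mul_of_nonneg_right (by linarith) (sq_nonneg _)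
    linarith

theorem num_A {β τ x P Q : ℝ} (h0 : 0 < τ) (h1 : τ ≤ 1 / 1000) (b1 : 0.365 ≤ β) (b2 : β ≤ 0.367)
    (x0 : 0 ≤ x) (x1 : 10000 * x ≤ 372) (g1 : β ^ 2 * P ≤ x ^ 2 + 2 * β * τ)
    (g2 : (1 - β) ^ 2 * Q ≤ τ ^ 2 + 2 * (1 - β) * β * x) : P + Q ≤ 1.44 * x + 6.5 * τ := by
  have u1 : P ≤ 0.28 * x + 5.5 * τ := by
    refine le_of_mul_le_mul_left (a := β ^ 2) ?_ (by positivity)
    have v1 : 0.133225 ≤ β ^ 2 := by nlinarith
    have v2 : x * x ≤ 0.0372 * x := mul_le_mul_of_nonneg_right (by linarith) x0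
    have v3 : 0.133225 * x ≤ β ^ 2 * x := mul_le_mul_of_nonneg_right v1 x0
    have v5 : 0 < β * τ := by positivity
    have v4 : 0.365 * (β * τ) ≤ β * (β * τ) := mul_le_mul_of_nonneg_right b1 v5.le
    linarith
  have u2 : Q ≤ 1.16 * x + τ := by
    have a0 : 0.633 ≤ 1 - β := by linarith
    refine le_of_mul_le_mul_left (a := (1 - β) ^ 2) ?_ (pow_pos (by linarith) 2)
    have v1 : 0.4 ≤ (1 - β) ^ 2 := by nlinarith
    have v2 : 0.4 * τ ≤ (1 - β) ^ 2 * τ := mul_le_mul_of_nonneg_right v1 h0.le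
    have v3 : 2 * β * ((1 - β) * x) ≤ 1.16 * (1 - β) * ((1 - β) * x) :=
      mul_le_mul_of_nonneg_right (by linarith) (mul_nonneg (by linarith) x0)
    have v4 : τ * τ ≤ 1 / 1000 * τ := mul_le_mul_of_nonneg_right h1 h0.le
    linarith
  linarith

theorem num_B {β τ y P : ℝ} (h0 : 0 < τ) (b1 : 0.365 ≤ β) (b2 : β ≤ 0.367)
    (y0 : 0 ≤ y) (y1 : 10000 * y ≤ 540) (g1 : β ^ 2 * P ≤ ((1 - β) * β - y) ^ 2 + 2 * β * τ) :
    P ≤ (1 - β) ^ 2 - 3.04 * y + 5.5 * τ := by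
  refine le_of_mul_le_mul_left (a := β ^ 2) ?_ (by positivity)
  have v2 : y * y ≤ 0.054 * y := mul_le_mul_of_nonneg_right (by linarith) y0
  have v3 : (3.04 * β ^ 2 + 0.054) * y ≤ 2 * ((1 - β) * β) * y :=
    mul_le_mul_of_nonneg_right (by nlinarith) y0
  have v5 : 0 < β * τ := by positivity
  have v4 : 0.365 * (β * τ) ≤ β * (β * τ) := mul_le_mul_of_nonneg_right b1 v5.le
  linarith

theorem Near.few_missing (hG : Near w E η) (h0 : 0 < τ) (h1 : τ ≤ 1 / 1000) (h2 : 400 * η ≤ τ ^ 2) :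
    ∃ χ : V → Bool, 0.633 ≤ Ex w (iA χ) ∧ Ex w (iA χ) ≤ 0.635 ∧
      (∀ z, χ z = false →
        (Ex w fun c => Ex w fun d => iA χ c * iB χ d * (1 - eN E z c d)) ≤ 20 * τ) ∧
      (∀ z, χ z = true →
        (Ex w fun c => Ex w fun d => iA χ c * iA χ d * (1 - eN E z c d)) ≤ 20 * τ) := by
  have t2 : τ ^ 2 ≤ τ / 1000 := by nlinarith
  obtain ⟨χ, hC⟩ := hG.col (by linarith)
  have nn := hG.nn
  have st := hG.stab hC
  have m0 := Ms_nonneg (E := E) (χ := χ) nn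
  have o := sub_nonneg.2 (hG.toFree.opt nn (iB χ) iB_nonneg)
  have hs : Ex w (iA χ) = 1 - Ex w (iB χ) := by linarith [hC.sum_one]
  have q0 := sq_nonneg (√3 * Ex w (iB χ) - (1 - Ex w (iB χ)))
  have hM : 2 * Ms w E χ ≤ τ ^ 2 := by linarith
  have hT : PP * Ex w (iB χ) ^ 3 - Tri w E (iB χ) (iB χ) (iB χ) ≤ τ ^ 2 := by linarith
  obtain ⟨b1, b2, k1, k2⟩ := num_beta h0 h1 (Ex_nonneg nn (iB_nonneg (χ := χ))) (by linarith)
  refine ⟨χ, by linarith, by linarith, fun z hz => ?_, fun z hz => ?_⟩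
  · have e : (Ex w fun c => Ex w fun d => iA χ c * iB χ d * (1 - eN E z c d)) =
        Ex w (iA χ) * Ex w (iB χ) - Lk w E z (iA χ) (iB χ) := by
      simp only [mul_sub, mul_one, Ex_sub, Ex_mul_left, Ex_mul_right, Lk]
    have e2 : Xz w E χ z = Ex w (iA χ) * Ex w (iB χ) - Lk w E z (iA χ) (iB χ) := by
      rw [← e]; simp [Xz, iA, iB, cN, hz]
    have x1 : 10000 * Xz w E χ z ≤ 372 := by simpa [cfin, cN, hz] using hC.xz_le z
    have g1 := hC.link_AA h0 hM z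
    have g2 := hC.link_BB z
    have g3 := hC.deg_split z
    have g4 := hG.lo z
    rw [← e2] at g1 g2
    rw [hs] at g2
    have g5 := num_A h0 h1 b1 b2 (hC.xz_bounds z).1 x1 g1 (g2.trans (by linarith))
    rw [e, ← e2]
    rw [hs] at e2
    linarith
  · have e : (Ex w fun c => Ex w fun d => iA χ c * iA χ d * (1 - eN E z c d)) =
        Ex w (iA χ) ^ 2 - Lk w E z (iA χ) (iA χ) := by
      simp only [mul_sub, mul_one, Ex_sub, Ex_mul_left, Ex_mul_right, Lk, sq]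
    have e2 : Xz w E χ z = Lk w E z (iA χ) (iB χ) := by simp [Xz, Lk, iA, iB, cN, hz]
    have x1 : 10000 * Xz w E χ z ≤ 540 := by
      have := hC.xz_le z
      simp [cfin, cN, hz] at this
      linarith
    have g1 := hC.link_AA h0 hM z
    have g2 := hG.link_BB h0 (by linarith) (by linarith) hT z
    have g3 := hC.deg_split z
    have g4 := hG.lo z
    rw [← e2] at g1 g3
    rw [hs] at g1
    have g5 := num_B h0 b1 b2 (hC.xz_bounds z).1 x1 g1
    rw [e, hs]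
    linarith

end Pool.Agent.P.MP_fc6a29_co
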