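import Pool.Agent.P.MP_fc6a29_co.Bridge
import Pool.Agent.P.MP_fc6a29_co.StepA
import Pool.Agent.P.MP_fc6a29_co.Lower

/-! The construction, near regularity of extremal 3-graphs, and their structure. -/

namespace Pool.Agent.P.MP_fc6a29_co

open Finset

/-- The two-part construction. -/
def glue {α β : Type} [DecidableEq α] (F : α → α → α → Bool) (G : β → β → β → Bool) :
    α ⊕ β → α ⊕ β → α ⊕ β → Bool
  | .inl x, .inl y, .inl u => F x y u
  | .inl x, .inl y, .inr _ => decide (x ≠ y)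
  | .inl x, .inr _, .inl y => decide (x ≠ y)
  | .inr _, .inl x, .inl y => decide (x ≠ y)
  | .inr x, .inr y, .inr u => G x y u
  | .inl _, .inr _, .inr _ => false
  | .inr _, .inl _, .inr _ => false
  | .inr _, .inr _, .inl _ => false

theorem free_glue {α β : Type} [DecidableEq α] [Fintype α] {F : α → α → α → Bool}
    {G : β → β → β → Bool} (hF : Lin F univ) (hG : Free G) : Free (glue F G) where
  s1 := by
    rintro (a | a) (b | b) (c | c) <;> simp only [glue, ne_comm]
    exacts [hF.s1 _ _ _, hG.s1 _ _ _]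
  s2 := by
    rintro (a | a) (b | b) (c | c) <;> simp only [glue, ne_comm]
    exacts [hF.s2 _ _ _, hG.s2 _ _ _]
  irr := by
    rintro (a | a) (c | c) <;> simp [glue, hF.irr, hG.irr]
  free := by
    have key : ∀ a b c d, F a b c = true → F b c d = true → a = d := fun a b c d h1 h2 =>
      hF.lin a (mem_univ _) d (mem_univ _) b c h1 (by rw [hF.s1, hF.s2, h2])
    have irr : ∀ a b c, F a b c = true → a ≠ b := fun a b c h e => by
      rw [e, hF.irr] at h; exact absurd h (by simp)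
    rintro (a | a) (b | b) (c | c) (d | d) (e | e) <;>
      simp only [glue, decide_eq_true_eq, Bool.false_eq_true, false_imp_iff, imp_true_iff]
    · exact fun h1 h2 _ h4 _ => irr d a e (by rw [hF.s2, h4]) (key a b c d h1 h2).symm
    · exact fun h1 h2 _ h4 _ => h4 (key a b c d h1 h2).symm
    · exact fun h1 _ h3 _ h5 => h3 (key e a b c h5 h1).symm
    · exact fun _ h2 _ h4 h5 => h2 (key d e a b h4 h5).symm
    · exact fun h1 _ h3 h4 _ => h1 (key c d e a h3 h4).symm
    · exact fun _ h2 h3 _ h5 => h5 (key b c d e h2 h3).symm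
    · exact hG.free a b c d e

theorem sum_ne {α : Type} [DecidableEq α] [Fintype α] :
    ∑ x : α, ∑ y : α, ((decide (x ≠ y)).toNat : ℝ) =
      (Fintype.card α : ℝ) * (Fintype.card α - 1) := by
  have h : ∀ x y : α, ((decide (x ≠ y)).toNat : ℝ) = 1 - if x = y then 1 else 0 := fun x y => by
    by_cases c : x = y <;> simp [c]
  simp only [h, sum_sub_distrib, sum_ite_eq, mem_univ, if_true, sum_const, card_univ, nsmul_eq_mul]
  ring

theorem S3_glue {α β : Type} [DecidableEq α] [Fintype α] [Fintype β] (F : α → α → α → Bool)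
    (G : β → β → β → Bool) :
    S3 (glue F G) univ = S3 F univ + 3 * ((Fintype.card α : ℝ) * (Fintype.card α - 1) *
      Fintype.card β) + S3 G univ := by
  simp only [S3, Fintype.sum_sum_type, eN, glue, sum_add_distrib, sum_ne, Bool.toNat_false,
    Nat.cast_zero, sum_const_zero, sum_const, card_univ, nsmul_eq_mul, ← mul_sum]
  ring

theorem glue_le (a b : ℕ) : a.choose 2 * b + pack a + exC5 b ≤ exC5 (a + b) := by
  obtain ⟨F, f3, fl, fc⟩ := exists_pack a
  obtain ⟨G, g3, g5, gc⟩ := exists_exC5 b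
  have e : F.filter (· ⊆ univ) = F := filter_true_of_mem fun e _ => subset_univ e
  have hF := lin_ef (A := univ) f3 (by rwa [e])
  rw [e] at hF
  have h := (free_glue hF (free_ef g3 g5)).S3_le univ
  rw [S3_glue, S3_ef_univ f3, S3_ef_univ g3, fc, gc, card_univ, Fintype.card_sum,
    Fintype.card_fin, Fintype.card_fin] at h
  have : ((a.choose 2 * b + pack a + exC5 b : ℕ) : ℝ) ≤ exC5 (a + b) := by
    push_cast
    rw [Nat.cast_choose_two]
    linarith
  exact_mod_cast this

variable {V : Type} {E : V → V → V → Bool}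

theorem sum_update [Fintype V] [DecidableEq V] (u v : V) (f : V → ℝ) :
    ∑ a, f (if a = v then u else a) =
      ∑ a, ((1 + 1 * if a = u then 1 else 0) + (-1) * if a = v then 1 else 0) * f a := by
  have h : ∀ a, f (if a = v then u else a) = f a + if a = v then f u - f v else 0 := fun a => by
    split_ifs with c
    · rw [c]; ring
    · ring
  simp only [h, add_mul, sum_add_distrib, one_mul, neg_mul, ite_mul, zero_mul, sum_neg_distrib,
    sum_ite_eq', mem_univ, if_true]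
  ring

theorem Free.clone [Fintype V] (hE : Free E)
    (hm : S3 E univ = 6 * (exC5 (Fintype.card V) : ℝ)) (u v : V) :
    ∑ c, ∑ d, (eN E u c d : ℝ) ≤ ∑ c, ∑ d, (eN E v c d : ℝ) + 2 * Fintype.card V := by
  classical
  have hF : Free fun a b c => E (if a = v then u else a) (if b = v then u else b)
      (if c = v then u else c) :=
    ⟨fun _ _ _ => hE.s1 _ _ _, fun _ _ _ => hE.s2 _ _ _, fun _ _ => hE.irr _ _,
      fun _ _ _ _ _ => hE.free _ _ _ _ _⟩
  have h := hF.S3_le univ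
  rw [card_univ, ← hm] at h
  set g1 : V → ℝ := fun a => 1 + 1 * if a = u then 1 else 0 with hg1
  have e1 : S3 (fun a b c => E (if a = v then u else a) (if b = v then u else b)
      (if c = v then u else c)) univ = Tri (fun _ => 1) E
        (fun a => g1 a + (-1) * if a = v then 1 else 0)
        (fun a => g1 a + (-1) * if a = v then 1 else 0)
        (fun a => g1 a + (-1) * if a = v then 1 else 0) := by
    simp only [Tri, Ex, one_mul, mul_assoc, ← mul_sum]
    refine Eq.trans ?_ (sum_update u v _)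
    refine sum_congr rfl fun a _ => Eq.trans ?_ (sum_update u v _)
    exact sum_congr rfl fun b _ => sum_update u v fun c =>
      (eN E (if a = v then u else a) (if b = v then u else b) c : ℝ)
  have e2 : S3 E univ = Tri (fun _ => 1) E (fun _ => 1) (fun _ => 1) (fun _ => 1) := by
    simp only [Tri, Ex, one_mul, S3]
  have e3 : ∀ x, Lk (fun _ => 1) E x (fun _ => 1) (fun _ => 1) = ∑ c, ∑ d, (eN E x c d : ℝ) :=
    fun x => by simp only [Lk, Ex, one_mul]
  have e4 : Lk (fun _ => 1) E v g1 g1 ≤ ∑ c, ∑ d, (eN E v c d : ℝ) + 2 * Fintype.card V := by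
    have p : ∀ c d, g1 c * g1 d * (eN E v c d : ℝ) ≤
        eN E v c d + (if c = u then 1 else 0) + (if d = u then 1 else 0) := fun c d => by
      have i1 := eN_le (E := E) v c d
      have i2 := eN_nonneg (E := E) v c d
      simp only [hg1]
      split_ifs with c1 c2 c2
      · rw [c1, c2, eN_false (by rw [hE.s1, hE.s2, hE.irr] : E v u u = false)]
        norm_num
      · linarith
      · linarith
      · linarith
    have t := sum_le_sum fun c (_ : c ∈ univ) => sum_le_sum fun d (_ : d ∈ univ) => p c d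
    simp only [sum_add_distrib, sum_const, card_univ, nsmul_eq_mul, ← mul_sum, sum_ite_eq',
      mem_univ, if_true, mul_one] at t
    simp only [Lk, Ex, one_mul]
    linarith
  rw [e1, e2, hE.tri_shift, hg1, hE.tri_shift, e3] at h
  linarith

theorem exC5_lower (n : ℕ) : PP * (n : ℝ) ^ 3 - 6 * (n : ℝ) ^ 2 ≤ 6 * (exC5 n : ℝ) := by
  obtain ⟨H, h1, h2, h3⟩ := construction n (univ : Finset (Fin n)) (by simp)
  have : (H.card : ℝ) ≤ exC5 n := by
    exact_mod_cast le_exC5 (fun e he => (h1 e he).2) fun ⟨f, _, hf⟩ => h2 ⟨f, hf⟩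
  unfold PP
  linarith

theorem exC5_upper (n : ℕ) (hn : 0 < n) : 6 * (exC5 n : ℝ) ≤ PP * (n : ℝ) ^ 3 := by
  obtain ⟨H, h1, h2, h3⟩ := exists_exC5 n
  rw [← h3]
  exact upper_bound hn H h1 h2

theorem Free.near [Fintype V] (hE : Free E) (hn : 0 < Fintype.card V)
    (hm : S3 E univ = 6 * (exC5 (Fintype.card V) : ℝ)) :
    Near (fun _ => ((Fintype.card V : ℝ))⁻¹) E (8 / Fintype.card V) := by
  have n0 : (0 : ℝ) < Fintype.card V := Nat.cast_pos.2 hn
  have lo := exC5_lower (Fintype.card V)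
  have hi := exC5_upper (Fintype.card V) hn
  have c1 := fun v => sum_le_sum fun u (_ : u ∈ univ) => hE.clone hm u v
  have c2 := fun v => sum_le_sum fun u (_ : u ∈ univ) => hE.clone hm v u
  simp only [sum_add_distrib, sum_const, card_univ, nsmul_eq_mul] at c1 c2
  unfold S3 at hm
  set n : ℝ := (Fintype.card V : ℝ) with hnn
  have e : ∀ v, Dg (fun _ => n⁻¹) E v = (n * ∑ c, ∑ d, (eN E v c d : ℝ)) / n ^ 3 := fun v => by
    simp only [Dg, Ex, ← mul_sum]; field_simp
  refine ⟨hE, fun _ => inv_pos.2 n0, ?_, fun v => ?_, fun v => ?_⟩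
  · rw [sum_const, card_univ, nsmul_eq_mul, mul_inv_cancel₀ n0.ne']
  · rw [e, le_div_iff₀ (by positivity)]
    have : (PP - 8 / n) * n ^ 3 = PP * n ^ 3 - 8 * n ^ 2 := by field_simp
    linarith [c1 v]
  · rw [e, div_le_iff₀ (by positivity)]
    have : (PP + 8 / n) * n ^ 3 = PP * n ^ 3 + 8 * n ^ 2 := by field_simp
    linarith [c2 v, sq_nonneg n]

theorem Ex_unif [Fintype V] (t : ℝ) (A B : Finset V) (f : V → V → ℝ) :
    (Ex (fun _ => t) fun c => Ex (fun _ => t) fun d => ind (c ∈ A) * ind (d ∈ B) * f c d) =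
      t * (t * ∑ c ∈ A, ∑ d ∈ B, f c d) := by
  simp only [Ex, mul_assoc, ← mul_sum, sum_ind]

theorem Free.exists_sp [Fintype V] [DecidableEq V] (hE : Free E)
    (hn : 10 ^ 24 ≤ Fintype.card V) (hm : S3 E univ = 6 * (exC5 (Fintype.card V) : ℝ)) :
    ∃ A : Finset V, Sp E A Aᶜ := by
  have n1 : (10 ^ 24 : ℝ) ≤ Fintype.card V := by exact_mod_cast hn
  have hG := hE.near (lt_of_lt_of_le (by norm_num) hn) hm
  have hc := fun A : Finset V => card_add_card_compl A
  set n : ℝ := (Fintype.card V : ℝ) with hnn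
  have n0 : 0 < n := by linarith
  obtain ⟨χ, a1, a2, hA, hB⟩ := hG.few_missing (τ := 1 / 10 ^ 10) (by norm_num) (by norm_num) (by
    rw [← mul_div_assoc, div_le_iff₀ n0]; linarith)
  set A := univ.filter fun x => χ x = false with hAA
  have mA : ∀ x, x ∈ A ↔ χ x = false := fun x => by simp [hAA]
  have mB : ∀ x, x ∈ Aᶜ ↔ χ x = true := fun x => by simp [hAA]
  have eA : iA χ = fun x => ind (x ∈ A) := funext fun x => by
    cases q : χ x
    · rw [ind_pos ((mA x).2 q)]; simp [iA, cN, q]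
    · rw [ind_neg fun d => by simp [(mA x).1 d] at q]; simp [iA, cN, q]
  have eB : iB χ = fun x => ind (x ∈ Aᶜ) := funext fun x => by
    cases q : χ x
    · rw [ind_neg fun d => by simp [(mB x).1 d] at q]; simp [iB, cN, q]
    · rw [ind_pos ((mB x).2 q)]; simp [iB, cN, q]
  have e1 : Ex (fun _ => n⁻¹) (iA χ) = A.card / n := by
    have := sum_ind (A := A) fun _ => 1
    simp only [mul_one, sum_const, nsmul_eq_mul] at this
    simp only [Ex, ← mul_sum, eA, this]
    field_simp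
  rw [e1, le_div_iff₀ n0] at a1
  rw [e1, div_le_iff₀ n0] at a2
  have hs : (A.card : ℝ) + (Aᶜ.card : ℝ) = n := by rw [hnn]; exact_mod_cast hc A
  have sq : 0.4 * n ^ 2 ≤ (A.card : ℝ) ^ 2 := by nlinarith
  refine ⟨A, hE, by linarith, by linarith, by linarith, fun x hx => ?_, fun z hz => ?_⟩
  · have h := hA x ((mA x).1 hx)
    simp only [eA, eB] at h
    rw [Ex_unif, inv_mul_le_iff₀ n0, inv_mul_le_iff₀ n0] at h
    rw [sum_kk]
    unfold nv
    linarith [sq_nonneg n]
  · have h := hB z ((mB z).1 hz)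
    simp only [eA, eN, hE.c312 _ _ z] at h
    rw [Ex_unif, inv_mul_le_iff₀ n0, inv_mul_le_iff₀ n0] at h
    unfold kk eN
    linarith [sq_nonneg n]

theorem Free.split [Fintype V] [DecidableEq V] (hE : Free E) (A : Finset V) :
    S3 E univ = S3 E A + 3 * ((A.card : ℝ) * (A.card - 1) * Aᶜ.card - Mm E A Aᶜ) +
      3 * (∑ x ∈ A, ∑ z ∈ Aᶜ, ∑ y ∈ Aᶜ, (eN E x z y : ℝ)) + S3 E Aᶜ := by
  have e0 : (A.card : ℝ) * (A.card - 1) * Aᶜ.card - Mm E A Aᶜ =
      ∑ x ∈ A, ∑ z ∈ Aᶜ, ∑ u ∈ A, (eN E x u z : ℝ) := by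
    simp only [Mm, kk, sum_sub_distrib, sum_const, nsmul_eq_mul]; ring
  have e1 : ∑ x ∈ A, ∑ u ∈ A, ∑ z ∈ Aᶜ, (eN E x u z : ℝ) =
      ∑ x ∈ A, ∑ z ∈ Aᶜ, ∑ u ∈ A, (eN E x u z : ℝ) := sum_congr rfl fun x _ => sum_comm
  have e2 : ∑ x ∈ A, ∑ z ∈ Aᶜ, ∑ u ∈ A, (eN E x z u : ℝ) =
      ∑ x ∈ A, ∑ z ∈ Aᶜ, ∑ u ∈ A, (eN E x u z : ℝ) :=
    sum_congr rfl fun x _ => sum_congr rfl fun z _ => sum_congr rfl fun u _ => by
      simp only [eN, hE.s2 x z u]
  have e3 : ∑ z ∈ Aᶜ, ∑ x ∈ A, ∑ u ∈ A, (eN E z x u : ℝ) =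
      ∑ x ∈ A, ∑ z ∈ Aᶜ, ∑ u ∈ A, (eN E x u z : ℝ) := by
    rw [sum_comm]
    exact sum_congr rfl fun x _ => sum_congr rfl fun z _ => sum_congr rfl fun u _ => by
      simp only [eN, hE.c312 x u z]
  have e4 : ∑ z ∈ Aᶜ, ∑ x ∈ A, ∑ y ∈ Aᶜ, (eN E z x y : ℝ) =
      ∑ x ∈ A, ∑ z ∈ Aᶜ, ∑ y ∈ Aᶜ, (eN E x z y : ℝ) := by
    rw [sum_comm]
    exact sum_congr rfl fun x _ => sum_congr rfl fun z _ => sum_congr rfl fun u _ => by
      simp only [eN, hE.s1 x z u]
  have e5 : ∑ z ∈ Aᶜ, ∑ y ∈ Aᶜ, ∑ x ∈ A, (eN E z y x : ℝ) =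
      ∑ x ∈ A, ∑ z ∈ Aᶜ, ∑ y ∈ Aᶜ, (eN E x z y : ℝ) := by
    rw [← e4]
    refine sum_congr rfl fun z _ => ?_
    rw [sum_comm]
    exact sum_congr rfl fun x _ => sum_congr rfl fun u _ => by simp only [eN, hE.s2 z u x]
  rw [e0]
  unfold S3
  simp only [← sum_add_sum_compl A, sum_add_distrib]
  linarith

theorem Free.no_missing [Fintype V] [LinearOrder V] (hE : Free E)
    (hn : 10 ^ 24 ≤ Fintype.card V) (hm : S3 E univ = 6 * (exC5 (Fintype.card V) : ℝ)) :
    ∃ A : Finset V, Sp E A Aᶜ ∧ Mm E A Aᶜ = 0 := by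
  obtain ⟨A, h⟩ := hE.exists_sp hn hm
  refine ⟨A, h, ?_⟩
  have g : ((A.card.choose 2 * Aᶜ.card + pack A.card + exC5 Aᶜ.card : ℕ) : ℝ) ≤
      exC5 (Fintype.card V) := by
    rw [← card_add_card_compl A]
    exact_mod_cast glue_le _ _
  push_cast at g
  rw [Nat.cast_choose_two] at g
  have s := hE.split A
  have b := hE.S3_le Aᶜ
  have a0 := h.big
  rcases le_or_gt (Mm E A Aᶜ) (10 * A.card) with c | c
  · obtain ⟨F, hF, t⟩ := h.small c
    have := hF.S3_le
    linarith [hE.Mm_nonneg (A := A) (B := Aᶜ)]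
  · have t := h.large
    have := pack_lower A.card (by exact_mod_cast (show (0 : ℝ) < A.card by linarith))
    linarith

theorem Free.full {A B : Finset V} (hE : Free E) (h : Mm E A B = 0) {x u z : V} (hx : x ∈ A)
    (hu : u ∈ A) (hz : z ∈ B) (hxu : x ≠ u) : E x u z = true := by
  have h1 := (sum_eq_zero_iff_of_nonneg fun x hx =>
    sum_nonneg fun z _ => hE.one_le_kk hx z).1 h x hx
  have h2 := (sum_eq_zero_iff_of_nonneg fun z _ => hE.one_le_kk hx z).1 h1 z hz
  rw [← hE.off_diag hx] at h2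
  have h3 := (sum_eq_zero_iff_of_nonneg fun u _ =>
    mul_nonneg (ind_nonneg _) (ms_nonneg _ _ _)).1 h2 u hu
  rw [ind_pos hxu, one_mul] at h3
  by_contra c
  rw [eN_false (by simpa using c)] at h3
  norm_num at h3

theorem Free.shape [Fintype V] [LinearOrder V] (hE : Free E)
    (hn : 10 ^ 24 ≤ Fintype.card V) (hm : S3 E univ = 6 * (exC5 (Fintype.card V) : ℝ)) :
    ∃ A : Finset V, A.Nonempty ∧ (∀ x ∈ A, ∀ u ∈ A, ∀ z ∉ A, x ≠ u → E x u z = true) ∧
      (∀ x ∈ A, ∀ z ∉ A, ∀ y ∉ A, E x z y = false) ∧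
      ∀ x ∈ A, ∀ y ∈ A, ∀ u ∈ A, ∀ v ∈ A, E x u v = true → E y u v = true → x = y := by
  obtain ⟨A, h, hM⟩ := hE.no_missing hn hm
  have a0 := h.big
  have ab := h.ab
  refine ⟨A, card_pos.1 (by exact_mod_cast (show (0 : ℝ) < A.card by linarith)),
    fun x hx u hu z hz => hE.full hM hx hu (mem_compl.2 hz), fun x hx z hz y hy => ?_,
    fun x hx y hy u hu v hv h1 h2 => ?_⟩
  · by_contra c
    have p := h.pair (mem_compl.2 hz) (mem_compl.2 hy) (show E x z y = true by simpa using c)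
    have k : ∀ z ∉ A, kk E A x z - 1 = 0 := fun z hz => by
      rw [← hE.off_diag hx]
      refine sum_eq_zero fun u hu => ?_
      by_cases d : x = u
      · rw [ind_neg (by simp [d]), zero_mul]
      · rw [eN_true (hE.full hM hx hu (mem_compl.2 hz) d), sub_self, mul_zero]
    linarith [k z hz, k y hy]
  · by_contra c
    have t := hE.three (B := Aᶜ) h1 (show E u v y = true by rw [hE.c231, h2])
    have k : ∀ p ∈ A, ∀ q ∈ A, p ≠ q → nv E Aᶜ p q = 0 := fun p hp q hq d =>
      sum_eq_zero fun z hz => by rw [eN_true (hE.full hM hp hq hz d), sub_self]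
    rw [k x hx y hy c, k v hv y hy, k x hx u hu] at t
    · linarith
    · rintro rfl
      rw [hE.irr] at h1; exact absurd h1 (by simp)
    · rintro rfl
      rw [hE.s2, hE.irr] at h2; exact absurd h2 (by simp)

end Pool.Agent.P.MP_fc6a29_co
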