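import Pool.Agent.P.MP_fc6a29_co.Opt

/-! Nearly regular weighted 3-graphs of nearly extremal density: the first stage. -/

namespace Pool.Agent.P.MP_fc6a29_co

open Finset Equiv

variable {V : Type} [Fintype V] {w : V → ℝ} {E : V → V → V → Bool} {η : ℝ}

/-- The extremal density. -/
noncomputable def PP : ℝ := 2 * √3 - 3

theorem s3_sq : √3 ^ 2 = 3 := Real.sq_sqrt (by norm_num)

theorem s3_lo : 1.7320508 ≤ √3 := by
  have := s3_sq
  have s0 : 0 ≤ √3 := Real.sqrt_nonneg _
  nlinarith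

theorem s3_hi : √3 ≤ 1.7320509 := by
  have := s3_sq
  have s0 : 0 ≤ √3 := Real.sqrt_nonneg _
  nlinarith

theorem PP_lo : 0.4641016 ≤ PP := by unfold PP; linarith [s3_lo]

theorem PP_hi : PP ≤ 0.4641018 := by unfold PP; linarith [s3_hi]

/-- The degree of a vertex. -/
def Dg (w : V → ℝ) (E : V → V → V → Bool) (v : V) : ℝ :=
  Ex w fun c => Ex w fun d => (eN E v c d : ℝ)

/-- All degrees are within `η` of the extremal density. -/
structure Near (w : V → ℝ) (E : V → V → V → Bool) (η : ℝ) : Prop extends Free E where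
  pos : ∀ v, 0 < w v
  tot : ∑ v, w v = 1
  lo : ∀ v, PP - η ≤ Dg w E v
  hi : ∀ v, Dg w E v ≤ PP + η

theorem Near.nn (hG : Near w E η) (v : V) : 0 ≤ w v := (hG.pos v).le

theorem Free.opt (hE : Free E) (hw : ∀ v, 0 ≤ w v) (g : V → ℝ) (hg : ∀ v, 0 ≤ g v) :
    Tri w E g g g ≤ PP * Ex w g ^ 3 := by
  rcases isEmpty_or_nonempty V with h | h
  · simp [Tri, Ex]
  · rw [Tri_weight]
    exact hE.lagr _ fun v => mul_nonneg (hw v) (hg v)

theorem Near.cubic (hG : Near w E η) (g : V → ℝ) (hg : ∀ v, 0 ≤ g v) :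
    0 ≤ Ex w fun a => Ex w fun b => Ex w fun c => g a * g b * g c * (PP - (eN E a b c : ℝ)) := by
  have h := hG.toFree.opt hG.nn g hg
  have h2 : (Ex w fun a => Ex w fun b => Ex w fun c => g a * g b * g c * (PP - (eN E a b c : ℝ))) =
      PP * Ex w g ^ 3 - Tri w E g g g := by
    have h3 : PP * Ex w g ^ 3 = Ex w fun a => Ex w fun b => Ex w fun c => g a * g b * g c * PP := by
      simp only [Ex_mul_right, Ex_mul_left]; ring
    rw [h3]
    simp only [Tri, ← Ex_sub]
    exact Ex_congr fun a => Ex_congr fun b => Ex_congr fun c => by ring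
  rw [h2]; linarith

theorem Free.entropy (hE : Free E) (nn : ∀ v, 0 ≤ w v) (g : V → ℝ) (hg : ∀ v, 0 ≤ g v) (b : V) :
    0 ≤ Ex w fun x => Ex w fun y => Ex w fun u => g x * g y * g u *
      ((eN E b x y : ℝ) * eN E b y u * ((1 - eN E b x u) * (1 - eN E x y u) -
        eN E b x u * eN E x y u)) := by
  have h := sub_nonneg.2 (hE.entropy_sum (fun x => w x * g x)
    (fun x => mul_nonneg (nn x) (hg x)) b)
  simp only [← sum_sub_distrib] at h
  simp only [Ex, mul_sum]
  refine h.trans_eq (sum_congr rfl fun x _ => sum_congr rfl fun y _ => sum_congr rfl fun u _ => ?_)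
  ring

theorem Near.stage1 (hG : Near w E η) {C : Cs} (H : CsOK C)
    (hn : ∀ t, |((C.nu.getD t 0 : ℤ) : ℝ)| ≤ 600000000000) :
    (10000 * PP - 4641) * 100000000000 - 600000000000 * (10000 * η) ≤
      Ex w fun a => Ex w fun b => Ex w fun c =>
      (eN E a b c : ℝ) * Ex w fun x => Ex w fun y => Ex w fun z =>
        (psi (pt E a b c x) (pt E a b c y) (pt E a b c z) (eN E x y z) : ℝ) := by
  have hE := hG.toFree
  have nn := hG.nn
  have hp : 4641 ≤ 10000 * PP := by linarith [PP_lo]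
  set p := PP with hpp
  have hA := six_nonneg hE nn (fA C) (3 * 36028797018963968) fun i hi => by
    have c := H.h6 i hi
    have c1 : Nat.ble 835 i = false := by
      rw [← Bool.not_eq_true, Nat.ble_eq]; omega
    simp only [chk6, frc_eq, c1, Bool.false_or, Bool.and_eq_true, Nat.ble_eq] at c
    exact c.1
  have hB := six_nonneg hE nn (fB C) 36028797018963968 fun i hi => by
    have c := H.h6 i hi
    have c1 : Nat.ble 835 i = false := by
      rw [← Bool.not_eq_true, Nat.ble_eq]; omega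
    simp only [chk6, frc_eq, c1, Bool.false_or, Bool.and_eq_true, Nat.ble_eq] at c
    exact c.2
  set δ := 10000 * p - 4641 with hδ
  have hδ0 : 0 ≤ δ := sub_nonneg.2 hp
  set ty : V → V → V → V → ℕ := fun a b c d => ofL [E a b c, E a b d, E a c d, E b c d] with hty
  set q6 : V → V → V → V → V → List ℤ := fun a b c d x =>
    r4 C (ty a b c d) (ofL [E a b x, E a c x, E b c x, E a d x, E b d x, E c d x]) with hq6
  set q2 : V → V → V → V → List ℤ := fun a b c d => r2 C (ofL [E a b c, E a b d, E a c d, E b c d])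
    with hq2
  set nu : V → V → V → V → ℝ := fun a b c d => ((C.nu.getD (ty a b c d) 0 : ℤ) : ℝ) with hnu
  set wc : V → V → V → V → V → V → ℝ := fun a b c d e f =>
    (ws (C.cu.getD (eN E a b c) []) (pt E a b c d) (pt E a b c e) (pt E a b c f) : ℝ) with hwc
  set we : V → V → V → V → V → V → ℝ := fun a b c d e f =>
    (ws (C.en.getD (eN E a b c) []) (pt E a b c d) (pt E a b c e) (pt E a b c f) : ℝ) with hwe
  set ps : V → V → V → V → V → V → ℝ := fun a b c d e f =>
    (psi (pt E a b c d) (pt E a b c e) (pt E a b c f) (eN E d e f) : ℝ) with hps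
  set ka : V → V → V → V → ℝ := fun a d e f => (eN E a d e : ℝ) * eN E a e f *
    ((1 - eN E a d f) * (1 - eN E d e f) - eN E a d f * eN E d e f) with hka
  set gA : V → V → V → V → V → V → ℝ := fun a b c d e f => (eN E a b c : ℝ) * ps a b c d e f -
        wc a b c d e f * (4641 - 10000 * eN E d e f) - we a b c d e f * ka a d e f -
        (dot (q6 a b c d e) (q6 a b c d f) : ℝ) - (dot (q2 a b c d) (q2 a b e f) : ℝ) -
        nu a b c d * (10000 * eN E a e f - 4641) with hgA
  set gB : V → V → V → V → V → V → ℝ := fun a b c d e f =>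
    nu a b c d - wc a b c d e f - 100000000000 with hgB
  have eA : ∀ x : Fin 6 → V, ((fA C (enc (fun _ => false) E L6 x) : ℝ) -
      (3 * 36028797018963968 : ℕ)) = gA (x 0) (x 1) (x 2) (x 3) (x 4) (x 5) := by
    intro x
    have h := congrArg (Int.cast (R := ℝ)) (H.fA_eq (E (x 0) (x 1) (x 2)) (E (x 0) (x 1) (x 3))
      (E (x 0) (x 2) (x 3)) (E (x 1) (x 2) (x 3)) (E (x 0) (x 1) (x 4)) (E (x 0) (x 2) (x 4))
      (E (x 1) (x 2) (x 4)) (E (x 0) (x 3) (x 4)) (E (x 1) (x 3) (x 4)) (E (x 2) (x 3) (x 4))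
      (E (x 0) (x 1) (x 5)) (E (x 0) (x 2) (x 5)) (E (x 1) (x 2) (x 5)) (E (x 0) (x 3) (x 5))
      (E (x 1) (x 3) (x 5)) (E (x 2) (x 3) (x 5)) (E (x 0) (x 4) (x 5)) (E (x 1) (x 4) (x 5))
      (E (x 2) (x 4) (x 5)) (E (x 3) (x 4) (x 5)))
    rw [enc6]
    simp only [cutA, kap] at h
    simp only [hgA, hps, hwc, hwe, hka, hq6, hq2, hnu, hty, pt, eN]
    push_cast at h ⊢
    linarith
  have eB : ∀ x : Fin 6 → V, ((fB C (enc (fun _ => false) E L6 x) : ℝ) -
      (36028797018963968 : ℕ)) = gB (x 0) (x 1) (x 2) (x 3) (x 4) (x 5) := by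
    intro x
    have h := congrArg (Int.cast (R := ℝ)) (H.fB_eq (E (x 0) (x 1) (x 2)) (E (x 0) (x 1) (x 3))
      (E (x 0) (x 2) (x 3)) (E (x 1) (x 2) (x 3)) (E (x 0) (x 1) (x 4)) (E (x 0) (x 2) (x 4))
      (E (x 1) (x 2) (x 4)) (E (x 0) (x 3) (x 4)) (E (x 1) (x 3) (x 4)) (E (x 2) (x 3) (x 4))
      (E (x 0) (x 1) (x 5)) (E (x 0) (x 2) (x 5)) (E (x 1) (x 2) (x 5)) (E (x 0) (x 3) (x 5))
      (E (x 1) (x 3) (x 5)) (E (x 2) (x 3) (x 5)) (E (x 0) (x 4) (x 5)) (E (x 1) (x 4) (x 5))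
      (E (x 2) (x 4) (x 5)) (E (x 3) (x 4) (x 5)))
    rw [enc6]
    simp only [hgB, hwc, hnu, hty, pt, eN]
    push_cast at h ⊢
    linarith
  rw [funext eA, Exp6 w gA] at hA
  rw [funext eB, Exp6 w gB] at hB
  have t4 : 0 ≤ E6 w fun a b c d e f => (dot (q6 a b c d e) (q6 a b c d f) : ℝ) :=
    Ex_nonneg nn fun a => Ex_nonneg nn fun b => Ex_nonneg nn fun c => Ex_nonneg nn fun d =>
      sos1 w (q6 a b c d)
  have t2 : 0 ≤ E6 w fun a b c d e f => (dot (q2 a b c d) (q2 a b e f) : ℝ) :=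
    Ex_nonneg nn fun a => Ex_nonneg nn fun b => sos2 w (q2 a b)
  have tn : 0 ≤ E6 w fun a b c d e f =>
      nu a b c d * (10000 * eN E a e f - 10000 * p) + 600000000000 * (10000 * η) :=
    Ex_nonneg nn fun a => Ex_nonneg nn fun b => Ex_nonneg nn fun c => Ex_nonneg nn fun d => by
      simp only [Ex_add, Ex_mul_left, Ex_sub, Ex_const hG.tot]
      have g1 := hG.lo a
      have g2 := hG.hi a
      have g3 : |10000 * Dg w E a - 10000 * p| ≤ 10000 * η := abs_le.2 ⟨by linarith, by linarith⟩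
      have g4 := mul_le_mul (hn (ty a b c d)) g3 (abs_nonneg _) (by norm_num)
      rw [← abs_mul] at g4
      have g5 := (abs_le.1 g4).1
      simp only [Dg] at g5
      simp only [hnu]
      linarith
  have tc : 0 ≤ E6 w fun a b c d e f => wc a b c d e f * (p - eN E d e f) :=
    Ex_nonneg nn fun a => Ex_nonneg nn fun b => Ex_nonneg nn fun c =>
      ws_nonneg _ (pt E a b c) (fun d e f => p - eN E d e f) hG.cubic
  have te : 0 ≤ E6 w fun a b c d e f => we a b c d e f * ka a d e f :=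
    Ex_nonneg nn fun a => Ex_nonneg nn fun b => Ex_nonneg nn fun c =>
      ws_nonneg _ (pt E a b c) (ka a) fun g hg => hE.entropy nn g hg a
  have h := add_nonneg (add_nonneg (add_nonneg (add_nonneg (add_nonneg (add_nonneg hA
    (mul_nonneg hδ0 hB)) t4) t2) tn) (mul_nonneg (by norm_num : (0 : ℝ) ≤ 10000) tc)) te
  simp only [E6, ← Ex_mul_left, ← Ex_add] at h
  have h2 : 0 ≤ E6 w fun a b c d e f => (eN E a b c : ℝ) * ps a b c d e f -
      (δ * 100000000000 - 600000000000 * (10000 * η)) :=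
    h.trans_eq (Ex_congr fun a => Ex_congr fun b => Ex_congr fun c => Ex_congr fun d =>
      Ex_congr fun e => Ex_congr fun f => by simp only [hgA, hgB, hδ]; ring)
  simp only [E6, Ex_sub, Ex_const hG.tot, Ex_mul_left] at h2
  exact sub_nonneg.1 h2

theorem Near.psi_le (hG : Near w E η) (a b c : V) :
    (Ex w fun x => Ex w fun y => Ex w fun z =>
      (psi (pt E a b c x) (pt E a b c y) (pt E a b c z) (eN E x y z) : ℝ)) ≤ 884303200000 ∧
    (0 < (Ex w fun x => Ex w fun y => Ex w fun z =>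
      (psi (pt E a b c x) (pt E a b c y) (pt E a b c z) (eN E x y z) : ℝ)) →
      ∃ χ, 5007 ≤ Ph w E χ) := by
  have nn := hG.nn
  rw [psi_ex hG.tot]
  set A : V → ℝ := fun x => pA (pt E a b c x) with hA
  set B : V → ℝ := fun x => pB (pt E a b c x) with hB
  set L : V → ℝ := fun x => pL (pt E a b c x) with hL
  have A0 : ∀ x, 0 ≤ A x := fun x => by simp [hA, pA]
  have B0 : ∀ x, 0 ≤ B x := fun x => by simp [hB, pB]
  have L0 : ∀ x, 0 ≤ L x := fun x => by simp [hL, pL]
  have hs : ∀ x, A x + B x + L x = 1 := fun x => by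
    simp only [hA, hB, hL, pt]; exact_mod_cast p_sum _ _ _
  have hs2 : Ex w A + Ex w B + Ex w L = 1 := by
    rw [← Ex_add, ← Ex_add, Ex_congr hs, Ex_const hG.tot]
  have a0 := Ex_nonneg nn A0
  have b0 := Ex_nonneg nn B0
  have l0 := Ex_nonneg nn L0
  have t1 := Tri_le (E := E) nn A0 A0 B0
  have t2 := cubic_bound a0 b0
  rw [show Ex w A + Ex w B = 1 - Ex w L by linarith] at t2
  set l := Ex w L
  refine ⟨?_, fun h => ?_⟩
  · have : -((10000 * l - 55) * (1000 * l - 634) ^ 2) ≤ 55 * 634 ^ 2 := by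
      rcases le_total l 0.0055 with g | g
      · have g1 : (1000 * l - 634) ^ 2 ≤ 634 ^ 2 := by nlinarith
        nlinarith [mul_nonneg l0 (sq_nonneg (1000 * l - 634))]
      · have := mul_nonneg (show 0 ≤ 10000 * l - 55 by linarith) (sq_nonneg (1000 * l - 634))
        linarith
    linarith
  · have hl : l < 0.0055 := by
      by_contra g
      push Not at g
      have := mul_nonneg (show 0 ≤ 10000 * l - 55 by linarith) (sq_nonneg (1000 * l - 634))
      linarith
    refine ⟨fun x => !Nat.testBit 232 (pt E a b c x), ?_⟩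
    have e1 : iA (fun x => !Nat.testBit 232 (pt E a b c x)) = A := by
      funext x
      simp only [iA, cN, hA, pA, bt_eq]
      cases Nat.testBit 232 (pt E a b c x) <;> simp
    have e2 : iB (fun x => !Nat.testBit 232 (pt E a b c x)) = fun x => B x + L x := by
      funext x
      have h1 := congrFun e1 x
      have h2 := hs x
      simp only [iA] at h1
      simp only [iB]
      linarith
    rw [Ph, e1, e2, Ex_add]
    have t3 : Tri w E A A B ≤ Tri w E A A (fun x => B x + L x) :=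
      Tri_mono3 nn A0 A0 fun x => by linarith [L0 x]
    have t4 : (1 - l) ^ 2 * Ex w B ≤ Ex w B := mul_le_of_le_one_left b0 (by nlinarith)
    have t5 : 50070000000000 ≤ 50961000000000 * (1 - l) ^ 3 +
        40000 * ((10000 * l - 55) * (1000 * l - 634) ^ 2) := by
      nlinarith [mul_nonneg l0 (sub_nonneg.2 hl.le), mul_nonneg l0 (mul_nonneg l0 l0),
        mul_nonneg l0 (mul_nonneg l0 (sub_nonneg.2 hl.le))]
    linarith

theorem nu_bound (t : ℕ) : |((cs.nu.getD t 0 : ℤ) : ℝ)| ≤ 600000000000 := by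
  have h : ∀ t < 16, |cs.nu.getD t 0| ≤ 600000000000 := by decide +kernel
  have l : cs.nu.length = 16 := by decide +kernel
  rcases lt_or_ge t 16 with g | g
  · exact_mod_cast h t g
  · rw [List.getD_eq_default _ _ (by omega)]
    simp

theorem Near.first (hG : Near w E η) (h1 : η ≤ 1 / 10000000) : ∃ χ, 5007 ≤ Ph w E χ := by
  have nn := hG.nn
  have h := hG.stage1 cs_ok nu_bound
  obtain ⟨a, ha⟩ := exists_pos_of_Ex_pos nn (lt_of_lt_of_le (by linarith [PP_lo]) h)
  obtain ⟨b, hb⟩ := exists_pos_of_Ex_pos nn ha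
  obtain ⟨c, hc⟩ := exists_pos_of_Ex_pos nn hb
  refine (hG.psi_le a b c).2 (lt_of_not_ge fun g => ?_)
  exact absurd hc (not_lt.2 (mul_nonpos_of_nonneg_of_nonpos (eN_nonneg a b c) g))

end Pool.Agent.P.MP_fc6a29_co
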