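import Pool.Agent.P.MP_fc6a29_co.Near1
import Pool.Agent.P.MP_fc6a29_co.ChkSa
import Pool.Agent.P.MP_fc6a29_co.ChkSb
import Pool.Agent.P.MP_fc6a29_co.ChkSc

/-! Nearly regular weighted 3-graphs of nearly extremal density: the coloured certificates. -/

namespace Pool.Agent.P.MP_fc6a29_co

open Finset Equiv

variable {V : Type} [Fintype V] {w : V → ℝ} {E : V → V → V → Bool} {η : ℝ} {χ : V → Bool}

/-- A good colouring of a nearly regular weighting. -/
structure NCol (w : V → ℝ) (E : V → V → V → Bool) (χ : V → Bool) : Prop extends Free E where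
  pos : ∀ v, 0 < w v
  tot : ∑ v, w v = 1
  plo : ∀ v, 4641 ≤ 10000 * Dg w E v
  phi : ∀ v, 10000 * Dg w E v ≤ 4646
  alo : 5740 ≤ 10000 * Ex w (iA χ)
  ahi : 10000 * Ex w (iA χ) ≤ 6900
  big : 5007 ≤ 30000 * Tri w E (iA χ) (iA χ) (iB χ) + 1865 * Ex w (iB χ)
  loc : ∀ z, 0 ≤ (1 - 2 * iB χ z) *
    (60000 * Lk w E z (iA χ) (iB χ) - 30000 * Lk w E z (iA χ) (iA χ) - 1865)

theorem NCol.nn (hC : NCol w E χ) (v : V) : 0 ≤ w v := (hC.pos v).le

/-- The weight of the missing triples with two vertices of the first colour. -/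
def Ms (w : V → ℝ) (E : V → V → V → Bool) (χ : V → Bool) : ℝ :=
  Ex w fun a => Ex w fun b => Ex w fun c => iA χ a * iA χ b * iB χ c * (1 - eN E a b c)

theorem NCol.tx_nonneg (hC : NCol w E χ) (C : Cert) (u : ℕ) (v : V) :
    0 ≤ Ex w fun c => Ex w fun d => (tx C u (eN E v c d) : ℝ) := by
  set m0 : ℝ := ((tb 48 281474976710656 C.mx (2 * u) : ℕ) : ℝ) with h0
  set m1 : ℝ := ((tb 48 281474976710656 C.mx (2 * u + 1) : ℕ) : ℝ) with h1
  have : (Ex w fun c => Ex w fun d => (tx C u (eN E v c d) : ℝ)) =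
      Ex w fun c => Ex w fun d => (4646 * m1 - 4641 * m0) + (10000 * m0) * (eN E v c d : ℝ) +
        (-10000 * m1) * (eN E v c d : ℝ) :=
    Ex_congr fun c => Ex_congr fun d => by
      simp only [tx, mm_eq, h0, h1]; push_cast; ring
  rw [this, Ex2_lin hC.tot]
  have a0 : 0 ≤ m0 := Nat.cast_nonneg _
  have a1 : 0 ≤ m1 := Nat.cast_nonneg _
  have b0 := mul_nonneg a0 (sub_nonneg.2 (hC.plo v))
  have b1 := mul_nonneg a1 (sub_nonneg.2 (hC.phi v))
  simp only [Dg] at b0 b1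
  linarith

theorem NCol.ts_nonneg (hC : NCol w E χ) (C : Cert) (s : ℕ) :
    0 ≤ Ex w fun d => (ts C s (cN χ d) : ℝ) := by
  set m0 : ℝ := ((tb 48 281474976710656 C.ms (2 * s) : ℕ) : ℝ) with h0
  set m1 : ℝ := ((tb 48 281474976710656 C.ms (2 * s + 1) : ℕ) : ℝ) with h1
  have : (Ex w fun d => (ts C s (cN χ d) : ℝ)) =
      Ex w fun d => (6900 * m1 - 5740 * m0) + (10000 * m0 - 10000 * m1) * iA χ d :=
    Ex_congr fun d => by
      simp only [ts, mm_eq, h0, h1, iA]; push_cast; ring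
  rw [this, Ex_add, Ex_mul_left, Ex_const hC.tot]
  have a0 : 0 ≤ m0 := Nat.cast_nonneg _
  have a1 : 0 ≤ m1 := Nat.cast_nonneg _
  nlinarith [mul_nonneg a0 (sub_nonneg.2 hC.alo), mul_nonneg a1 (sub_nonneg.2 hC.ahi)]

theorem NCol.tz_nonneg (hC : NCol w E χ) (C : Cert) (u : ℕ) (z : V)
    (hlo : (C.lo (cN χ z) : ℝ) ≤ 10000 * Xz w E χ z)
    (hhi : 10000 * Xz w E χ z ≤ (C.hi (cN χ z) : ℝ)) :
    0 ≤ Ex w fun c => Ex w fun d =>
      (tz C (cN χ z) u (cN χ c) (cN χ d) (eN E z c d) : ℝ) := by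
  set m0 : ℝ := ((tb 48 281474976710656 C.mz (5 * u) : ℕ) : ℝ) with h0
  set m1 : ℝ := ((tb 48 281474976710656 C.mz (5 * u + 1) : ℕ) : ℝ) with h1
  set m2 : ℝ := ((tb 48 281474976710656 C.mz (5 * u + 2) : ℕ) : ℝ) with h2
  set m3 : ℝ := ((tb 48 281474976710656 C.mz (5 * u + 3) : ℕ) : ℝ) with h3
  set m4 : ℝ := ((tb 48 281474976710656 C.mz (5 * u + 4) : ℕ) : ℝ) with h4
  have : (Ex w fun c => Ex w fun d =>
      (tz C (cN χ z) u (cN χ c) (cN χ d) (eN E z c d) : ℝ)) =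
      Ex w fun c => Ex w fun d =>
        ((4646 * m1 - 4641 * m0 - m3 * C.lo (cN χ z) + m4 * C.hi (cN χ z)) +
          (10000 * m0 - 10000 * m1) * (eN E z c d : ℝ) +
          (10000 * m3 - 10000 * m4) * (iA χ z * (iA χ c * iB χ d * (1 - eN E z c d)) +
            iB χ z * (iA χ c * iB χ d * eN E z c d))) +
        ((-1865 * m2 * (1 - 2 * iB χ z)) +
          (60000 * m2 * (1 - 2 * iB χ z)) * (iA χ c * iB χ d * eN E z c d) +
          (-30000 * m2 * (1 - 2 * iB χ z)) * (iA χ c * iA χ d * eN E z c d)) :=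
    Ex_congr fun c => Ex_congr fun d => by
      simp only [tz, xz, mm_eq, h0, h1, h2, h3, h4, iA, iB]; push_cast; ring
  rw [this, Ex2_add, Ex2_lin hC.tot, Ex2_lin hC.tot]
  have a0 : 0 ≤ m0 := Nat.cast_nonneg _
  have a1 : 0 ≤ m1 := Nat.cast_nonneg _
  have a2 : 0 ≤ m2 := Nat.cast_nonneg _
  have a3 : 0 ≤ m3 := Nat.cast_nonneg _
  have a4 : 0 ≤ m4 := Nat.cast_nonneg _
  have b0 := mul_nonneg a0 (sub_nonneg.2 (hC.plo z))
  have b1 := mul_nonneg a1 (sub_nonneg.2 (hC.phi z))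
  have b2 := mul_nonneg a2 (hC.loc z)
  have b3 := mul_nonneg a3 (sub_nonneg.2 hlo)
  have b4 := mul_nonneg a4 (sub_nonneg.2 hhi)
  simp only [Xz, Lk, Dg] at b0 b1 b2 b3 b4
  linarith

theorem NCol.tp_nonneg (hC : NCol w E χ) (C : Cert) (i : V → ℕ) :
    0 ≤ Ex w fun a => Ex w fun b => Ex w fun c => Ex w fun d =>
      (tp C (i d) (cN χ a) (cN χ b) (cN χ c) (eN E a b c) : ℝ) := by
  set m : V → ℝ := fun d => (tb 48 281474976710656 C.mp (i d) : ℕ) with h0
  have : (Ex w fun a => Ex w fun b => Ex w fun c => Ex w fun d =>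
      (tp C (i d) (cN χ a) (cN χ b) (cN χ c) (eN E a b c) : ℝ)) =
      Ex w fun a => Ex w fun b => Ex w fun c => Ex w m *
        (30000 * (iA χ a * iA χ b * iB χ c * eN E a b c) + 1865 * iB χ c - 5007) :=
    Ex_congr fun a => Ex_congr fun b => Ex_congr fun c => by
      rw [← Ex_mul_right]
      exact Ex_congr fun d => by
        simp only [tp, mm_eq, h0, iA, iB]; push_cast; ring
  rw [this]
  simp only [Ex_mul_left, Ex_add, Ex_sub, Ex_const hC.tot]
  have a0 : 0 ≤ Ex w m := Ex_nonneg hC.nn fun d => Nat.cast_nonneg _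
  exact mul_nonneg a0 (sub_nonneg.2 hC.big)

theorem NCol.te1_nonneg (hG : NCol w E χ) (C : Cert) (i r s : ℕ) (z a : V) :
    0 ≤ Ex w fun b => Ex w fun c => Ex w fun d =>
      (te1 C i r s (cN χ b) (cN χ c) (cN χ d) (eN E z a b) (eN E z a c) (eN E z a d)
        (kap (eN E z b c) (eN E z c d) (eN E z b d) (eN E b c d)) : ℝ) := by
  set m : ℝ := ((tb 48 281474976710656 C.me i : ℕ) : ℝ) with h0
  have h := hG.toFree.entropy hG.nn (fun x => iA χ x * (r * (1 - eN E z a x) + s * eN E z a x))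
    (fun x => mul_nonneg (iA_nonneg x) (add_nonneg
      (mul_nonneg (Nat.cast_nonneg _) (sub_nonneg.2 (eN_le _ _ _))) (by positivity))) z
  have h2 := mul_nonneg (Nat.cast_nonneg (α := ℝ) (tb 48 281474976710656 C.me i)) h
  simp only [← Ex_mul_left] at h2
  refine h2.trans_eq (Ex_congr fun b => Ex_congr fun c => Ex_congr fun d => ?_)
  simp only [te1, wt5, kap, mm_eq, iA]; push_cast; ring

theorem NCol.core5_nonneg (hC : NCol w E χ) (C : Cert) (z : V)
    (hlo : (C.lo (cN χ z) : ℝ) ≤ 10000 * Xz w E χ z)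
    (hhi : 10000 * Xz w E χ z ≤ (C.hi (cN χ z) : ℝ)) :
    0 ≤ Ex w fun a => Ex w fun b => Ex w fun c => Ex w fun d =>
      (core5 C (cN χ z) (cN χ a) (cN χ b) (cN χ c) (cN χ d) (eN E z a b) (eN E z a c)
        (eN E z b c) (eN E a b c) (eN E z a d) (eN E z b d) (eN E a b d) (eN E z c d)
        (eN E a c d) (eN E b c d) : ℝ) := by
  have nn := hC.nn
  simp only [core5, te, frc_eq, Int.cast_add, Ex_add]
  refine add_nonneg (add_nonneg (add_nonneg (add_nonneg (add_nonneg (add_nonneg ?_ ?_) ?_) ?_)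
    ?_) ?_) (add_nonneg (add_nonneg ?_ ?_) ?_)
  · exact sos2 w fun a b => r1 C (cN χ z) (fl (cN χ a) (cN χ b) (eN E z a b))
  · exact Ex_nonneg nn fun a => Ex_nonneg nn fun b => sos1 w fun c =>
      r3 C (cN χ z) (fl (cN χ a) (cN χ b) (eN E z a b))
        (gl (eN E z a c) (eN E z b c) (eN E a b c) (cN χ c))
  · exact Ex_nonneg nn fun a => Ex_nonneg nn fun b => hC.tz_nonneg C _ z hlo hhi
  · exact Ex_nonneg nn fun a => Ex_nonneg nn fun b => hC.tx_nonneg C _ a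
  · exact Ex_nonneg nn fun a => Ex_nonneg nn fun b => Ex_nonneg nn fun c => hC.ts_nonneg C _
  · exact hC.tp_nonneg C fun d => 2 * cN χ z + cN χ d
  · exact Ex_nonneg nn fun a => hC.te1_nonneg C _ _ _ z a
  · exact Ex_nonneg nn fun a => hC.te1_nonneg C _ _ _ z a
  · exact Ex_nonneg nn fun a => hC.te1_nonneg C _ _ _ z a

/-- A rooted certificate excludes a range for the quantity `Xz`. -/
theorem NCol.root (hC : NCol w E χ) (C : Cert) (z : V)
    (H : ∀ i < 2 ^ 11, chkRoot C (cN χ z) i = true)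
    (hlo : (C.lo (cN χ z) : ℝ) ≤ 10000 * Xz w E χ z)
    (hhi : 10000 * Xz w E χ z ≤ (C.hi (cN χ z) : ℝ)) : False := by
  classical
  have hE := hC.toFree
  have nn := hC.nn
  set φ : (Fin 5 → V) → ℝ := fun x => (phi5 C (enc χ E L5 x) : ℝ) + 1 / 24 with hφ
  set h : (Fin 5 → V) → ℝ := fun x => if x 0 = z then 1 else 0 with hh
  have h1 := Exp_Sy w 1 h φ (fun x π hπ => by
    simp only [hh, Function.comp, mem_G.1 hπ 0 (by decide)])
  have h2 : ∀ x : Fin 5 → V, 0 ≤ -(h x * Sy 1 φ x) := by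
    intro x
    by_cases hx : x 0 = z
    · obtain ⟨π, hπ, i, hi, e⟩ := coverR (χ := χ) hE x
      have c := H i (by omega)
      have c1 : Nat.ble 1592 i = false := by
        rw [← Bool.not_eq_true, Nat.ble_eq]; omega
      have c2 : bt (ent RT i) 10 = cN χ z := by
        rw [← e, bt_enc χ E L5 _ 10 (0, 0, 0) rfl, ← hx]
        simp [bf, cN, mem_G.1 hπ 0 (by decide)]
      simp only [chkRoot, frc_eq, c1, c2, Nat.beq_refl, Bool.false_or, Bool.not_true,
        decide_eq_true_eq] at c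
      rw [← e, n5_1_enc hE (add := Int.add) (fun _ _ => rfl),
        Sy_inv (fun y => phi5 C (enc χ E L5 y)) x hπ] at c
      have c3 : Sy 1 φ x = ((Sy 1 (fun y => phi5 C (enc χ E L5 y)) x : ℤ) : ℝ) + 1 := by
        simp only [Sy5_1, Sy5_2, Sy5_3, Sy5_4, hφ]; push_cast; ring
      have c4 : ((Sy 1 (fun y => phi5 C (enc χ E L5 y)) x : ℤ) : ℝ) + 1 ≤ 0 := by
        exact_mod_cast c
      simp only [hh, hx, if_true, c3]
      linarith
    · simp [hh, hx]
  have h3 : Exp w (fun x => h x * Sy 1 φ x) ≤ 0 := by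
    have := Exp_nonneg nn h2
    simp only [Exp, mul_neg, sum_neg_distrib] at this
    simp only [Exp]
    linarith
  have h4 : Exp w (fun x => h x * φ x) = w z * ((Ex w fun a => Ex w fun b => Ex w fun c =>
      Ex w fun d => (core5 C (cN χ z) (cN χ a) (cN χ b) (cN χ c) (cN χ d) (eN E z a b)
        (eN E z a c) (eN E z b c) (eN E a b c) (eN E z a d) (eN E z b d) (eN E a b d)
        (eN E z c d) (eN E a c d) (eN E b c d) : ℝ)) + 1 / 24) := by
    simp only [hh, hφ, phi5_enc]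
    rw [Exp5 w (fun y a b c d => (if y = z then (1 : ℝ) else 0) *
      ((core5 C (cN χ y) (cN χ a) (cN χ b) (cN χ c) (cN χ d) (eN E y a b)
        (eN E y a c) (eN E y b c) (eN E a b c) (eN E y a d) (eN E y b d) (eN E a b d)
        (eN E y c d) (eN E a c d) (eN E b c d) : ℝ) + 1 / 24))]
    simp only [Ex_mul_left]
    rw [Ex_single]
    simp only [Ex_add, Ex_const hC.tot]
  have h5 := hC.core5_nonneg C z hlo hhi
  have h6 : 0 < Exp w (fun x => h x * φ x) := by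
    rw [h4]; exact mul_pos (hC.pos z) (by linarith)
  have h7 := mul_pos (card_G_pos (N := 5) 1) h6
  linarith

theorem NCol.final (hC : NCol w E χ) (C : Cert) (H : ∀ i < 430, chkSl C i = true)
    (hlo : ∀ z, (C.lo (cN χ z) : ℝ) ≤ 10000 * Xz w E χ z)
    (hhi : ∀ z, 10000 * Xz w E χ z ≤ (C.hi (cN χ z) : ℝ)) :
    Ex w (Dg w E) - Tri w E (iB χ) (iB χ) (iB χ) + 0.006 * Ms w E χ ≤
      3 * Ex w (iA χ) ^ 2 * Ex w (iB χ) +
      (0.2304 * Ex w (iA χ) + 0.0484 * Ex w (iB χ)) *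
        (3 * Ex w (iB χ) ^ 2 - Ex w (iA χ) ^ 2) ^ 2 := by
  have hE := hC.toFree
  have nn := hC.nn
  have h1 : 0 ≤ Exp w fun x : Fin 5 → V => (tgs C (enc χ E L5 x) : ℝ) := by
    refine Exp_nonneg_of_Sy nn _ fun x => ?_
    obtain ⟨π, hπ, i, hi, e⟩ := coverU (χ := χ) hE x
    have c := H i hi
    have c1 : Nat.ble 430 i = false := by
      rw [← Bool.not_eq_true, Nat.ble_eq]; omega
    simp only [chkSl, frc_eq, c1, Bool.false_or, decide_eq_true_eq] at c
    rw [← e, n5_0_enc hE (add := Int.add) (fun _ _ => rfl),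
      Sy_inv (fun y => tgs C (enc χ E L5 y)) x hπ] at c
    have c3 := Sy_map (Int.castAddHom ℝ) 0 (fun y => tgs C (enc χ E L5 y)) x
    simp only [Int.coe_castAddHom] at c3
    rw [← c3]
    exact_mod_cast c
  have h2 : ∀ x : Fin 5 → V, (tgs C (enc χ E L5 x) : ℝ) =
      (0.2304 * iA χ (x 0) + 0.0484 * iB χ (x 0)) * 1000000000000 *
        ((3 * (iB χ (x 1) * iB χ (x 2)) - iA χ (x 1) * iA χ (x 2)) *
          (3 * (iB χ (x 3) * iB χ (x 4)) - iA χ (x 3) * iA χ (x 4))) -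
      1000000000000 * (1 * 1 * 1 * (eN E (x 0) (x 1) (x 2) : ℝ) -
        iB χ (x 0) * iB χ (x 1) * iB χ (x 2) * eN E (x 0) (x 1) (x 2) -
          3 * (iA χ (x 0) * (iA χ (x 1) * iB χ (x 2)))) -
      (core5 C (cN χ (x 0)) (cN χ (x 1)) (cN χ (x 2)) (cN χ (x 3)) (cN χ (x 4))
        (eN E (x 0) (x 1) (x 2)) (eN E (x 0) (x 1) (x 3)) (eN E (x 0) (x 2) (x 3))
        (eN E (x 1) (x 2) (x 3)) (eN E (x 0) (x 1) (x 4)) (eN E (x 0) (x 2) (x 4))
        (eN E (x 1) (x 2) (x 4)) (eN E (x 0) (x 3) (x 4)) (eN E (x 1) (x 3) (x 4))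
        (eN E (x 2) (x 3) (x 4)) : ℝ) -
      6000000000 * (iA χ (x 0) * iA χ (x 1) * iB χ (x 2) * (1 - eN E (x 0) (x 1) (x 2))) := by
    intro x
    rw [tgs, tgt, phi5_enc, bt_enc χ E L5 x 0 (0, 1, 2) rfl,
      bt_enc χ E L5 x 10 (0, 0, 0) rfl, bt_enc χ E L5 x 11 (1, 1, 1) rfl,
      bt_enc χ E L5 x 12 (2, 2, 2) rfl, bt_enc χ E L5 x 13 (3, 3, 3) rfl,
      bt_enc χ E L5 x 14 (4, 4, 4) rfl]
    show (((tgc (cN χ (x 0)) (cN χ (x 1)) (cN χ (x 2)) (cN χ (x 3)) (cN χ (x 4))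
      (eN E (x 0) (x 1) (x 2)) - _ - msc (cN χ (x 0)) (cN χ (x 1)) (cN χ (x 2))
        (eN E (x 0) (x 1) (x 2)) : ℤ)) : ℝ) = _
    simp only [tgc, msc, uu, iA, iB]
    push_cast
    ring
  simp only [h2] at h1
  rw [Exp5 w (fun y a b c d => (0.2304 * iA χ y + 0.0484 * iB χ y) * 1000000000000 *
        ((3 * (iB χ a * iB χ b) - iA χ a * iA χ b) * (3 * (iB χ c * iB χ d) - iA χ c * iA χ d)) -
      1000000000000 * (1 * 1 * 1 * (eN E y a b : ℝ) - iB χ y * iB χ a * iB χ b * eN E y a b -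
          3 * (iA χ y * (iA χ a * iB χ b))) -
      (core5 C (cN χ y) (cN χ a) (cN χ b) (cN χ c) (cN χ d) (eN E y a b)
        (eN E y a c) (eN E y b c) (eN E a b c) (eN E y a d) (eN E y b d) (eN E a b d)
        (eN E y c d) (eN E a c d) (eN E b c d) : ℝ) -
      6000000000 * (iA χ y * iA χ a * iB χ b * (1 - eN E y a b)))] at h1
  have h3 := Ex_nonneg nn fun z => hC.core5_nonneg C z (hlo z) (hhi z)
  have h4 : (Ex w fun a => Ex w fun b => Ex w fun c => 1 * 1 * 1 * (eN E a b c : ℝ)) =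
      Ex w (Dg w E) := Ex_congr fun a => by simp only [Dg, one_mul]
  simp only [Tri, Ms]
  simp only [Ex_sub, Ex_const hC.tot] at h1
  rw [Ex_congr (g := fun y => (0.2304 * iA χ y + 0.0484 * iB χ y) * (1000000000000 *
      (3 * Ex w (iB χ) ^ 2 - Ex w (iA χ) ^ 2) ^ 2)) (fun y => by
        simp only [Ex_mul_left, Ex_mul_right, Ex_sub]; ring)] at h1
  simp only [Ex_mul_left (1000000000000 : ℝ), Ex_mul_left (6000000000 : ℝ), Ex_sub,
    Ex_mul_left (3 : ℝ), h4] at h1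
  rw [Ex_mul_right, Ex_add, Ex_mul_left, Ex_mul_left] at h1
  have h5 : (Ex w fun y => Ex w fun a => Ex w fun b => iA χ y * (iA χ a * iB χ b)) =
      Ex w (iA χ) ^ 2 * Ex w (iB χ) := by
    simp only [Ex_mul_left, Ex_mul_right]; ring
  rw [h5] at h1
  linarith

theorem Near.col (hG : Near w E η) (h1 : η ≤ 1 / 10000000) : ∃ χ, NCol w E χ := by
  classical
  have nn := hG.nn
  obtain ⟨χ0, h2⟩ := hG.first h1
  obtain ⟨χ, hχ⟩ := Finite.exists_max (Ph w E)
  have big := h2.trans (hχ χ0)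
  have hs : Ex w (iA χ) + Ex w (iB χ) = 1 := by
    rw [← Ex_add, Ex_congr (g := fun _ => 1) (fun x => by simp [iA, iB]), Ex_const hG.tot]
  have a0 := Ex_nonneg nn (iA_nonneg (χ := χ))
  have b0 := Ex_nonneg nn (iB_nonneg (χ := χ))
  have t1 := Tri_le (E := E) nn (iA_nonneg (χ := χ)) (iA_nonneg (χ := χ)) (iB_nonneg (χ := χ))
  have big2 := big
  rw [Ph, show Ex w (iB χ) = 1 - Ex w (iA χ) by linarith] at big2
  rw [show Ex w (iB χ) = 1 - Ex w (iA χ) by linarith] at t1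
  set α := Ex w (iA χ)
  refine ⟨χ, hG.toFree, hG.pos, hG.tot, fun v => by linarith [hG.lo v, PP_lo],
    fun v => by linarith [hG.hi v, PP_hi], ?_, ?_, big, fun z => ?_⟩
  · by_contra g
    push Not at g
    have g1 : 0 ≤ 0.574 - α := by linarith
    nlinarith [mul_nonneg g1 (mul_nonneg a0 g1), mul_nonneg g1 a0]
  · by_contra g
    push Not at g
    have g1 : 0 ≤ α - 0.69 := by linarith
    nlinarith [mul_nonneg g1 (mul_nonneg g1 g1), mul_nonneg g1 g1]
  · have h := hχ (Function.update χ z (!χ z))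
    set σ : ℝ := 1 - 2 * iB χ z with hσ
    have e1 : iA (Function.update χ z (!χ z)) =
        fun x => iA χ x + (-σ) * if x = z then 1 else 0 := by
      funext x
      by_cases g : x = z
      · subst g
        simp only [iA, iB, cN, hσ, Function.update_self]
        cases χ x <;> norm_num
      · simp [iA, cN, g]
    have e2 : iB (Function.update χ z (!χ z)) =
        fun x => iB χ x + σ * if x = z then 1 else 0 := by
      funext x
      by_cases g : x = z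
      · subst g
        simp only [iB, cN, hσ, Function.update_self]
        cases χ x <;> norm_num
      · simp [iB, cN, g]
    have e3 := Ex_single (w := w) z (fun _ => 1)
    simp only [mul_one] at e3
    rw [Ph, Ph, e1, e2, hG.toFree.tri_shift, Ex_add, Ex_mul_left, e3] at h
    have h3 : 0 ≤ w z * (σ * (60000 * Lk w E z (iA χ) (iB χ) -
        30000 * Lk w E z (iA χ) (iA χ) - 1865)) := by linarith
    exact nonneg_of_mul_nonneg_right h3 (hG.pos z)

theorem NCol.xz_bounds (hG : NCol w E χ) (z : V) :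
    0 ≤ Xz w E χ z ∧ Xz w E χ z ≤ 1 := by
  have nn := hG.nn
  have h : ∀ c d, 0 ≤ iA χ z * (iA χ c * iB χ d * (1 - eN E z c d)) +
      iB χ z * (iA χ c * iB χ d * eN E z c d) ∧ iA χ z * (iA χ c * iB χ d * (1 - eN E z c d)) +
      iB χ z * (iA χ c * iB χ d * eN E z c d) ≤ 1 := fun c d => by
    simp only [iA, iB, cN, eN]
    cases χ z <;> cases χ c <;> cases χ d <;> cases E z c d <;> simp
  refine ⟨Ex_nonneg nn fun c => Ex_nonneg nn fun d => (h c d).1, ?_⟩
  have := Ex_mono nn fun c => Ex_mono nn fun d => (h c d).2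
  simpa only [Xz, Ex_const hG.tot] using this

theorem NCol.xz_le (hC : NCol w E χ) (z : V) :
    10000 * Xz w E χ z ≤ ((cfin.hi (cN χ z) : ℤ) : ℝ) := by
  have b := hC.xz_bounds z
  show _ ≤ ((372 + 168 * ((cN χ z : ℕ) : ℤ) : ℤ) : ℝ)
  by_contra g
  push Not at g
  cases hz : χ z
  · have e : cN χ z = 0 := by simp [cN, hz]
    rw [e] at g
    rcases le_total (10000 * Xz w E χ z) 480 with q | q
    · exact hC.root cm2 z (by rw [e]; exact allP_zero cm2_ok)
        (by show ((372 : ℤ) : ℝ) ≤ _; push_cast at g ⊢; linarith)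
        (by show _ ≤ ((480 : ℤ) : ℝ); push_cast; linarith)
    · exact hC.root cm1 z (by rw [e]; exact allP_zero cm1_ok)
        (by show ((480 : ℤ) : ℝ) ≤ _; push_cast; linarith)
        (by show _ ≤ ((10000 : ℤ) : ℝ); push_cast; linarith)
  · have e : cN χ z = 1 := by simp [cN, hz]
    rw [e] at g
    exact hC.root cl1 z (by rw [e]; exact allP_zero cl1_ok)
      (by show ((540 : ℤ) : ℝ) ≤ _; push_cast at g ⊢; linarith)
      (by show _ ≤ ((10000 : ℤ) : ℝ); push_cast; linarith)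

theorem csl_ok (i : ℕ) (hi : i < 430) : chkSl cfin i = true :=
  allP_blocks (k := 5) (m := 14) (fun b hb => by
    interval_cases b
    exacts [csl_ok0, csl_ok1, csl_ok2, csl_ok3, csl_ok4, csl_ok5, csl_ok6, csl_ok7,
      csl_ok8, csl_ok9, csl_ok10, csl_ok11, csl_ok12, csl_ok13]) i (by omega)

theorem NCol.slack (hC : NCol w E χ) :
    Ex w (Dg w E) - Tri w E (iB χ) (iB χ) (iB χ) + 0.006 * Ms w E χ ≤
      3 * Ex w (iA χ) ^ 2 * Ex w (iB χ) +
      (0.2304 * Ex w (iA χ) + 0.0484 * Ex w (iB χ)) *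
        (3 * Ex w (iB χ) ^ 2 - Ex w (iA χ) ^ 2) ^ 2 :=
  hC.final cfin csl_ok (fun z => by
    have b := hC.xz_bounds z
    show ((0 : ℤ) : ℝ) ≤ _
    push_cast; linarith) hC.xz_le

end Pool.Agent.P.MP_fc6a29_co
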