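import Pool.Agent.P.MP_fc6a29_co.Cover5

/-! Certificates on coloured samples of five vertices. -/

namespace Pool.Agent.P.MP_fc6a29_co

open Finset Equiv

/-- Data of a certificate on five vertices. -/
structure Cert where
  L1 : List (List (List ℤ))
  L3 : List (List (List (List ℤ)))
  mz : ℕ
  mx : ℕ
  ms : ℕ
  mp : ℕ
  me : ℕ
  lo : ℕ → ℤ
  hi : ℕ → ℤ

/-- Product with entry `i` of the table `T`. -/
def mm (T i : ℕ) (x : ℤ) : ℤ :=
  Nat.rec 0 (fun k _ => Int.mul (Int.ofNat (Nat.succ k)) x) (tb 48 281474976710656 T i)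

theorem mm_eq (T i : ℕ) (x : ℤ) : mm T i x = (tb 48 281474976710656 T i : ℤ) * x := by
  unfold mm
  cases tb 48 281474976710656 T i with
  | zero => simp
  | succ k => rfl

def fl (a b e : ℕ) : ℕ := Nat.add a (Nat.add (Nat.mul 2 b) (Nat.mul 4 e))

def gl (a b e c : ℕ) : ℕ := Nat.add (fl a b e) (Nat.mul 8 c)

def r1 (C : Cert) (c0 t : ℕ) : List ℤ := (C.L1.getD c0 []).getD t []

def r3 (C : Cert) (c0 t g : ℕ) : List ℤ := ((C.L3.getD c0 []).getD t []).getD g []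

def xz (c0 c3 c4 e : ℤ) : ℤ := (1 - c0) * ((1 - c3) * c4 * (1 - e)) + c0 * ((1 - c3) * c4 * e)

def tz (C : Cert) (c0 u : ℕ) (c3 c4 e : ℤ) : ℤ :=
  mm C.mz (5 * u) (10000 * e - 4641) + mm C.mz (5 * u + 1) (4646 - 10000 * e) +
    mm C.mz (5 * u + 2) ((1 - 2 * (c0 : ℤ)) *
      (60000 * ((1 - c3) * c4 * e) - 30000 * ((1 - c3) * (1 - c4) * e) - 1865)) +
    mm C.mz (5 * u + 3) (10000 * xz c0 c3 c4 e - C.lo c0) +
    mm C.mz (5 * u + 4) (C.hi c0 - 10000 * xz c0 c3 c4 e)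

def tx (C : Cert) (u : ℕ) (e : ℤ) : ℤ :=
  mm C.mx (2 * u) (10000 * e - 4641) + mm C.mx (2 * u + 1) (4646 - 10000 * e)

def ts (C : Cert) (s : ℕ) (c4 : ℤ) : ℤ :=
  mm C.ms (2 * s) (10000 * (1 - c4) - 5740) + mm C.ms (2 * s + 1) (6900 - 10000 * (1 - c4))

def tp (C : Cert) (i : ℕ) (c1 c2 c3 e : ℤ) : ℤ :=
  mm C.mp i (30000 * ((1 - c1) * (1 - c2) * c3 * e) + 1865 * c3 - 5007)

def kap (a b c d : ℤ) : ℤ := a * b * ((1 - c) * (1 - d) - c * d)

def wt5 (r s : ℕ) (c e : ℤ) : ℤ := (1 - c) * (r * (1 - e) + s * e)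

def te1 (C : Cert) (i r s : ℕ) (c2 c3 c4 a b c k : ℤ) : ℤ :=
  mm C.me i (wt5 r s c2 a * wt5 r s c3 b * wt5 r s c4 c * k)

def te (C : Cert) (v : ℕ) (c2 c3 c4 a b c k : ℤ) : ℤ :=
  te1 C (3 * v) 0 4 c2 c3 c4 a b c k + te1 C (3 * v + 1) 1 4 c2 c3 c4 a b c k +
    te1 C (3 * v + 2) 4 1 c2 c3 c4 a b c k

def core5 (C : Cert) (c0 c1 c2 c3 c4 e0 e1 e2 e3 e4 e5 e6 e7 e8 e9 : ℕ) : ℤ :=
  frc (fl c1 c2 e0) fun t => frc (gl e1 e2 e3 c3) fun g => frc (Nat.add (Nat.mul 8 c0) t) fun u =>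
    dot (r1 C c0 t) (r1 C c0 (fl c3 c4 e7)) + dot (r3 C c0 t g) (r3 C c0 t (gl e4 e5 e6 c4)) +
      tz C c0 u c3 c4 e7 + tx C u e8 + ts C (16 * u + g) c4 + tp C (2 * c0 + c4) c1 c2 c3 e3 +
      te C (2 * c0 + c1) c2 c3 c4 e0 e1 e4 (kap e2 e7 e5 e9)

def phi5 (C : Cert) (c : ℕ) : ℤ :=
  frc (bt c 10) fun c0 => frc (bt c 11) fun c1 => frc (bt c 12) fun c2 =>
    frc (bt c 13) fun c3 => frc (bt c 14) fun c4 => frc (bt c 7) fun e7 =>
      core5 C c0 c1 c2 c3 c4 (bt c 0) (bt c 1) (bt c 2) (bt c 3) (bt c 4) (bt c 5) (bt c 6) e7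
        (bt c 8) (bt c 9)

variable {V : Type} [Fintype V] {w : V → ℝ} {E : V → V → V → Bool} {p : ℝ} {χ : V → Bool}

/-- Indicator of the second colour class. -/
def cN (χ : V → Bool) (x : V) : ℕ := (χ x).toNat

/-- Real indicator of the first colour class. -/
def iA (χ : V → Bool) (x : V) : ℝ := 1 - (cN χ x : ℝ)

/-- Real indicator of the second colour class. -/
def iB (χ : V → Bool) (x : V) : ℝ := (cN χ x : ℝ)

omit [Fintype V] in
theorem iA_nonneg (x : V) : 0 ≤ iA χ x := by unfold iA cN; cases χ x <;> simp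

omit [Fintype V] in
theorem iB_nonneg (x : V) : 0 ≤ iB χ x := Nat.cast_nonneg _

omit [Fintype V] in
theorem phi5_enc (C : Cert) (x : Fin 5 → V) : phi5 C (enc χ E L5 x) =
    core5 C (cN χ (x 0)) (cN χ (x 1)) (cN χ (x 2)) (cN χ (x 3)) (cN χ (x 4))
      (eN E (x 0) (x 1) (x 2)) (eN E (x 0) (x 1) (x 3)) (eN E (x 0) (x 2) (x 3))
      (eN E (x 1) (x 2) (x 3)) (eN E (x 0) (x 1) (x 4)) (eN E (x 0) (x 2) (x 4))
      (eN E (x 1) (x 2) (x 4)) (eN E (x 0) (x 3) (x 4)) (eN E (x 1) (x 3) (x 4))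
      (eN E (x 2) (x 3) (x 4)) := by
  simp only [phi5, frc_eq]
  rw [bt_enc χ E L5 x 0 (0, 1, 2) rfl, bt_enc χ E L5 x 1 (0, 1, 3) rfl,
    bt_enc χ E L5 x 2 (0, 2, 3) rfl, bt_enc χ E L5 x 3 (1, 2, 3) rfl,
    bt_enc χ E L5 x 4 (0, 1, 4) rfl, bt_enc χ E L5 x 5 (0, 2, 4) rfl,
    bt_enc χ E L5 x 6 (1, 2, 4) rfl, bt_enc χ E L5 x 7 (0, 3, 4) rfl,
    bt_enc χ E L5 x 8 (1, 3, 4) rfl, bt_enc χ E L5 x 9 (2, 3, 4) rfl,
    bt_enc χ E L5 x 10 (0, 0, 0) rfl, bt_enc χ E L5 x 11 (1, 1, 1) rfl,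
    bt_enc χ E L5 x 12 (2, 2, 2) rfl, bt_enc χ E L5 x 13 (3, 3, 3) rfl,
    bt_enc χ E L5 x 14 (4, 4, 4) rfl]
  rfl

/-- The quantity bounded at a vertex: missing pairs for the first colour, present pairs for the
second. -/
def Xz (w : V → ℝ) (E : V → V → V → Bool) (χ : V → Bool) (z : V) : ℝ :=
  Ex w fun c => Ex w fun d => iA χ z * (iA χ c * iB χ d * (1 - eN E z c d)) +
    iB χ z * (iA χ c * iB χ d * eN E z c d)

/-- A good colouring of an optimal weighting. -/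
structure Col (w : V → ℝ) (E : V → V → V → Bool) (p : ℝ) (χ : V → Bool) : Prop
    extends Good w E p where
  plo : 4641 ≤ 10000 * p
  phi : 10000 * p ≤ 4646
  alo : 5740 ≤ 10000 * Ex w (iA χ)
  ahi : 10000 * Ex w (iA χ) ≤ 6900
  big : 5007 ≤ 30000 * Tri w E (iA χ) (iA χ) (iB χ) + 1865 * Ex w (iB χ)
  loc : ∀ z, 0 ≤ (1 - 2 * iB χ z) *
    (60000 * Lk w E z (iA χ) (iB χ) - 30000 * Lk w E z (iA χ) (iA χ) - 1865)

theorem Ex2_lin (h : ∑ v, w v = 1) (k0 k1 k2 : ℝ) (f g : V → V → ℝ) :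
    (Ex w fun c => Ex w fun d => k0 + k1 * f c d + k2 * g c d) =
      k0 + k1 * (Ex w fun c => Ex w fun d => f c d) + k2 * (Ex w fun c => Ex w fun d => g c d) := by
  simp only [Ex_add, Ex_mul_left, Ex_const h]

theorem Ex2_add (f g : V → V → ℝ) :
    (Ex w fun c => Ex w fun d => f c d + g c d) =
      (Ex w fun c => Ex w fun d => f c d) + (Ex w fun c => Ex w fun d => g c d) := by
  simp only [Ex_add]

theorem Good.deg (hG : Good w E p) (v : V) :
    (Ex w fun c => Ex w fun d => (eN E v c d : ℝ)) = p := by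
  rw [← hG.reg v]; simp [Lk]

theorem Col.tx_nonneg (hC : Col w E p χ) (C : Cert) (u : ℕ) (v : V) :
    0 ≤ Ex w fun c => Ex w fun d => (tx C u (eN E v c d) : ℝ) := by
  set m0 : ℝ := ((tb 48 281474976710656 C.mx (2 * u) : ℕ) : ℝ) with h0
  set m1 : ℝ := ((tb 48 281474976710656 C.mx (2 * u + 1) : ℕ) : ℝ) with h1
  have : (Ex w fun c => Ex w fun d => (tx C u (eN E v c d) : ℝ)) =
      Ex w fun c => Ex w fun d => (4646 * m1 - 4641 * m0) + (10000 * m0) * (eN E v c d : ℝ) +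
        (-10000 * m1) * (eN E v c d : ℝ) :=
    Ex_congr fun c => Ex_congr fun d => by
      simp only [tx, mm_eq, h0, h1]; push_cast; ring
  rw [this, Ex2_lin hC.tot, hC.toGood.deg]
  have a0 : 0 ≤ m0 := Nat.cast_nonneg _
  have a1 : 0 ≤ m1 := Nat.cast_nonneg _
  nlinarith [mul_nonneg a0 (sub_nonneg.2 hC.plo), mul_nonneg a1 (sub_nonneg.2 hC.phi)]

theorem Col.ts_nonneg (hC : Col w E p χ) (C : Cert) (s : ℕ) :
    0 ≤ Ex w fun d => (ts C s (cN χ d) : ℝ) := by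
  set m0 : ℝ := ((tb 48 281474976710656 C.ms (2 * s) : ℕ) : ℝ) with h0
  set m1 : ℝ := ((tb 48 281474976710656 C.ms (2 * s + 1) : ℕ) : ℝ) with h1
  have : (Ex w fun d => (ts C s (cN χ d) : ℝ)) =
      Ex w fun d => (6900 * m1 - 5740 * m0) + (10000 * m0 - 10000 * m1) * iA χ d :=
    Ex_congr fun d => by
      simp only [ts, mm_eq, h0, h1, iA]; push_cast; ring
  rw [this, Ex_add, Ex_mul_left, Ex_const hC.tot]
  have a0 : 0 ≤ m0 := Nat.cast_nonneg _
  have a1 : 0 ≤ m1 := Nat.cast_nonneg _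
  nlinarith [mul_nonneg a0 (sub_nonneg.2 hC.alo), mul_nonneg a1 (sub_nonneg.2 hC.ahi)]

theorem Col.tz_nonneg (hC : Col w E p χ) (C : Cert) (u : ℕ) (z : V)
    (hlo : (C.lo (cN χ z) : ℝ) ≤ 10000 * Xz w E χ z)
    (hhi : 10000 * Xz w E χ z ≤ (C.hi (cN χ z) : ℝ)) :
    0 ≤ Ex w fun c => Ex w fun d =>
      (tz C (cN χ z) u (cN χ c) (cN χ d) (eN E z c d) : ℝ) := by
  set m0 : ℝ := ((tb 48 281474976710656 C.mz (5 * u) : ℕ) : ℝ) with h0
  set m1 : ℝ := ((tb 48 281474976710656 C.mz (5 * u + 1) : ℕ) : ℝ) with h1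
  set m2 : ℝ := ((tb 48 281474976710656 C.mz (5 * u + 2) : ℕ) : ℝ) with h2
  set m3 : ℝ := ((tb 48 281474976710656 C.mz (5 * u + 3) : ℕ) : ℝ) with h3
  set m4 : ℝ := ((tb 48 281474976710656 C.mz (5 * u + 4) : ℕ) : ℝ) with h4
  have : (Ex w fun c => Ex w fun d =>
      (tz C (cN χ z) u (cN χ c) (cN χ d) (eN E z c d) : ℝ)) =
      Ex w fun c => Ex w fun d =>
        ((4646 * m1 - 4641 * m0 - m3 * C.lo (cN χ z) + m4 * C.hi (cN χ z)) +
          (10000 * m0 - 10000 * m1) * (eN E z c d : ℝ) +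
          (10000 * m3 - 10000 * m4) * (iA χ z * (iA χ c * iB χ d * (1 - eN E z c d)) +
            iB χ z * (iA χ c * iB χ d * eN E z c d))) +
        ((-1865 * m2 * (1 - 2 * iB χ z)) +
          (60000 * m2 * (1 - 2 * iB χ z)) * (iA χ c * iB χ d * eN E z c d) +
          (-30000 * m2 * (1 - 2 * iB χ z)) * (iA χ c * iA χ d * eN E z c d)) :=
    Ex_congr fun c => Ex_congr fun d => by
      simp only [tz, xz, mm_eq, h0, h1, h2, h3, h4, iA, iB]; push_cast; ring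
  rw [this, Ex2_add, Ex2_lin hC.tot, Ex2_lin hC.tot, hC.toGood.deg]
  have a0 : 0 ≤ m0 := Nat.cast_nonneg _
  have a1 : 0 ≤ m1 := Nat.cast_nonneg _
  have a2 : 0 ≤ m2 := Nat.cast_nonneg _
  have a3 : 0 ≤ m3 := Nat.cast_nonneg _
  have a4 : 0 ≤ m4 := Nat.cast_nonneg _
  have b0 := mul_nonneg a0 (sub_nonneg.2 hC.plo)
  have b1 := mul_nonneg a1 (sub_nonneg.2 hC.phi)
  have b2 := mul_nonneg a2 (hC.loc z)
  have b3 := mul_nonneg a3 (sub_nonneg.2 hlo)
  have b4 := mul_nonneg a4 (sub_nonneg.2 hhi)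
  simp only [Xz, Lk] at b2 b3 b4
  linarith

theorem Col.tp_nonneg (hC : Col w E p χ) (C : Cert) (i : V → ℕ) :
    0 ≤ Ex w fun a => Ex w fun b => Ex w fun c => Ex w fun d =>
      (tp C (i d) (cN χ a) (cN χ b) (cN χ c) (eN E a b c) : ℝ) := by
  set m : V → ℝ := fun d => (tb 48 281474976710656 C.mp (i d) : ℕ) with h0
  have : (Ex w fun a => Ex w fun b => Ex w fun c => Ex w fun d =>
      (tp C (i d) (cN χ a) (cN χ b) (cN χ c) (eN E a b c) : ℝ)) =
      Ex w fun a => Ex w fun b => Ex w fun c => Ex w m *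
        (30000 * (iA χ a * iA χ b * iB χ c * eN E a b c) + 1865 * iB χ c - 5007) :=
    Ex_congr fun a => Ex_congr fun b => Ex_congr fun c => by
      rw [← Ex_mul_right]
      exact Ex_congr fun d => by
        simp only [tp, mm_eq, h0, iA, iB]; push_cast; ring
  rw [this]
  simp only [Ex_mul_left, Ex_add, Ex_sub, Ex_const hC.tot]
  have a0 : 0 ≤ Ex w m := Ex_nonneg hC.toGood.nn fun d => Nat.cast_nonneg _
  exact mul_nonneg a0 (sub_nonneg.2 hC.big)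

theorem Good.te1_nonneg (hG : Good w E p) (C : Cert) (i r s : ℕ) (z a : V) :
    0 ≤ Ex w fun b => Ex w fun c => Ex w fun d =>
      (te1 C i r s (cN χ b) (cN χ c) (cN χ d) (eN E z a b) (eN E z a c) (eN E z a d)
        (kap (eN E z b c) (eN E z c d) (eN E z b d) (eN E b c d)) : ℝ) := by
  set m : ℝ := ((tb 48 281474976710656 C.me i : ℕ) : ℝ) with h0
  have h := hG.entropy (fun x => iA χ x * (r * (1 - eN E z a x) + s * eN E z a x))
    (fun x => mul_nonneg (iA_nonneg x) (add_nonneg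
      (mul_nonneg (Nat.cast_nonneg _) (sub_nonneg.2 (eN_le _ _ _))) (by positivity))) z
  have h2 := mul_nonneg (Nat.cast_nonneg (α := ℝ) (tb 48 281474976710656 C.me i)) h
  simp only [← Ex_mul_left] at h2
  refine h2.trans_eq (Ex_congr fun b => Ex_congr fun c => Ex_congr fun d => ?_)
  simp only [te1, wt5, kap, mm_eq, iA]; push_cast; ring

theorem Col.core5_nonneg (hC : Col w E p χ) (C : Cert) (z : V)
    (hlo : (C.lo (cN χ z) : ℝ) ≤ 10000 * Xz w E χ z)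
    (hhi : 10000 * Xz w E χ z ≤ (C.hi (cN χ z) : ℝ)) :
    0 ≤ Ex w fun a => Ex w fun b => Ex w fun c => Ex w fun d =>
      (core5 C (cN χ z) (cN χ a) (cN χ b) (cN χ c) (cN χ d) (eN E z a b) (eN E z a c)
        (eN E z b c) (eN E a b c) (eN E z a d) (eN E z b d) (eN E a b d) (eN E z c d)
        (eN E a c d) (eN E b c d) : ℝ) := by
  have nn := hC.toGood.nn
  simp only [core5, te, frc_eq, Int.cast_add, Ex_add]
  refine add_nonneg (add_nonneg (add_nonneg (add_nonneg (add_nonneg (add_nonneg ?_ ?_) ?_) ?_)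
    ?_) ?_) (add_nonneg (add_nonneg ?_ ?_) ?_)
  · exact sos2 w fun a b => r1 C (cN χ z) (fl (cN χ a) (cN χ b) (eN E z a b))
  · exact Ex_nonneg nn fun a => Ex_nonneg nn fun b => sos1 w fun c =>
      r3 C (cN χ z) (fl (cN χ a) (cN χ b) (eN E z a b))
        (gl (eN E z a c) (eN E z b c) (eN E a b c) (cN χ c))
  · exact Ex_nonneg nn fun a => Ex_nonneg nn fun b => hC.tz_nonneg C _ z hlo hhi
  · exact Ex_nonneg nn fun a => Ex_nonneg nn fun b => hC.tx_nonneg C _ a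
  · exact Ex_nonneg nn fun a => Ex_nonneg nn fun b => Ex_nonneg nn fun c => hC.ts_nonneg C _
  · exact hC.tp_nonneg C fun d => 2 * cN χ z + cN χ d
  · exact Ex_nonneg nn fun a => hC.toGood.te1_nonneg C _ _ _ z a
  · exact Ex_nonneg nn fun a => hC.toGood.te1_nonneg C _ _ _ z a
  · exact Ex_nonneg nn fun a => hC.toGood.te1_nonneg C _ _ _ z a

/-- The check of a rooted certificate at one listed sample. -/
noncomputable def chkRoot (C : Cert) (ζ i : ℕ) : Bool :=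
  Nat.ble 1592 i || frc (ent RT i) fun r =>
    !(Nat.beq (bt r 10) ζ) || decide (n5_1 Int.add (phi5 C) r < 0)

/-- A rooted certificate excludes a range for the quantity `Xz`. -/
theorem Col.root (hC : Col w E p χ) (C : Cert) (z : V)
    (H : ∀ i < 2 ^ 11, chkRoot C (cN χ z) i = true)
    (hlo : (C.lo (cN χ z) : ℝ) ≤ 10000 * Xz w E χ z)
    (hhi : 10000 * Xz w E χ z ≤ (C.hi (cN χ z) : ℝ)) : False := by
  classical
  have hE := hC.toFree
  have nn := hC.toGood.nn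
  set φ : (Fin 5 → V) → ℝ := fun x => (phi5 C (enc χ E L5 x) : ℝ) + 1 / 24 with hφ
  set h : (Fin 5 → V) → ℝ := fun x => if x 0 = z then 1 else 0 with hh
  have h1 := Exp_Sy w 1 h φ (fun x π hπ => by
    simp only [hh, Function.comp, mem_G.1 hπ 0 (by decide)])
  have h2 : ∀ x : Fin 5 → V, 0 ≤ -(h x * Sy 1 φ x) := by
    intro x
    by_cases hx : x 0 = z
    · obtain ⟨π, hπ, i, hi, e⟩ := coverR (χ := χ) hE x
      have c := H i (by omega)
      have c1 : Nat.ble 1592 i = false := by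
        rw [← Bool.not_eq_true, Nat.ble_eq]; omega
      have c2 : bt (ent RT i) 10 = cN χ z := by
        rw [← e, bt_enc χ E L5 _ 10 (0, 0, 0) rfl, ← hx]
        simp [bf, cN, mem_G.1 hπ 0 (by decide)]
      simp only [chkRoot, frc_eq, c1, c2, Nat.beq_refl, Bool.false_or, Bool.not_true,
        decide_eq_true_eq] at c
      rw [← e, n5_1_enc hE (add := Int.add) (fun _ _ => rfl),
        Sy_inv (fun y => phi5 C (enc χ E L5 y)) x hπ] at c
      have c3 : Sy 1 φ x = ((Sy 1 (fun y => phi5 C (enc χ E L5 y)) x : ℤ) : ℝ) + 1 := by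
        simp only [Sy5_1, Sy5_2, Sy5_3, Sy5_4, hφ]; push_cast; ring
      have c4 : ((Sy 1 (fun y => phi5 C (enc χ E L5 y)) x : ℤ) : ℝ) + 1 ≤ 0 := by
        exact_mod_cast c
      simp only [hh, hx, if_true, c3]
      linarith
    · simp [hh, hx]
  have h3 : Exp w (fun x => h x * Sy 1 φ x) ≤ 0 := by
    have := Exp_nonneg nn h2
    simp only [Exp, mul_neg, sum_neg_distrib] at this
    simp only [Exp]
    linarith
  have h4 : Exp w (fun x => h x * φ x) = w z * ((Ex w fun a => Ex w fun b => Ex w fun c =>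
      Ex w fun d => (core5 C (cN χ z) (cN χ a) (cN χ b) (cN χ c) (cN χ d) (eN E z a b)
        (eN E z a c) (eN E z b c) (eN E a b c) (eN E z a d) (eN E z b d) (eN E a b d)
        (eN E z c d) (eN E a c d) (eN E b c d) : ℝ)) + 1 / 24) := by
    simp only [hh, hφ, phi5_enc]
    rw [Exp5 w (fun y a b c d => (if y = z then (1 : ℝ) else 0) *
      ((core5 C (cN χ y) (cN χ a) (cN χ b) (cN χ c) (cN χ d) (eN E y a b)
        (eN E y a c) (eN E y b c) (eN E a b c) (eN E y a d) (eN E y b d) (eN E a b d)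
        (eN E y c d) (eN E a c d) (eN E b c d) : ℝ) + 1 / 24))]
    simp only [Ex_mul_left]
    rw [Ex_single]
    simp only [Ex_add, Ex_const hC.tot]
  have h5 := hC.core5_nonneg C z hlo hhi
  have h6 : 0 < Exp w (fun x => h x * φ x) := by
    rw [h4]; exact mul_pos (hC.pos z) (by linarith)
  have h7 := mul_pos (card_G_pos (N := 5) 1) h6
  linarith

def uu (a b : ℤ) : ℤ := 3 * (a * b) - (1 - a) * (1 - b)

def tgc (c0 c1 c2 c3 c4 e : ℤ) : ℤ :=
  ((1 - c0) * 230400000000 + c0 * 48400000000) * (uu c1 c2 * uu c3 c4) -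
    1000000000000 * (e - c0 * c1 * c2 * e - 3 * ((1 - c0) * (1 - c1) * c2))

def tgt (C : Cert) (c : ℕ) : ℤ :=
  tgc (bt c 10) (bt c 11) (bt c 12) (bt c 13) (bt c 14) (bt c 0) - phi5 C c

/-- The check of the final certificate at one listed sample. -/
noncomputable def chkFin (C : Cert) (i : ℕ) : Bool :=
  Nat.ble 430 i || frc (ent UT i) fun r => decide (0 ≤ n5_0 Int.add (tgt C) r)

theorem Col.final (hC : Col w E p χ) (C : Cert) (H : ∀ i < 430, chkFin C i = true)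
    (hlo : ∀ z, (C.lo (cN χ z) : ℝ) ≤ 10000 * Xz w E χ z)
    (hhi : ∀ z, 10000 * Xz w E χ z ≤ (C.hi (cN χ z) : ℝ)) :
    p - Tri w E (iB χ) (iB χ) (iB χ) ≤ 3 * Ex w (iA χ) ^ 2 * Ex w (iB χ) +
      (0.2304 * Ex w (iA χ) + 0.0484 * Ex w (iB χ)) *
        (3 * Ex w (iB χ) ^ 2 - Ex w (iA χ) ^ 2) ^ 2 := by
  have hE := hC.toFree
  have nn := hC.toGood.nn
  have h1 : 0 ≤ Exp w fun x : Fin 5 → V => (tgt C (enc χ E L5 x) : ℝ) := by
    refine Exp_nonneg_of_Sy nn _ fun x => ?_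
    obtain ⟨π, hπ, i, hi, e⟩ := coverU (χ := χ) hE x
    have c := H i hi
    have c1 : Nat.ble 430 i = false := by
      rw [← Bool.not_eq_true, Nat.ble_eq]; omega
    simp only [chkFin, frc_eq, c1, Bool.false_or, decide_eq_true_eq] at c
    rw [← e, n5_0_enc hE (add := Int.add) (fun _ _ => rfl),
      Sy_inv (fun y => tgt C (enc χ E L5 y)) x hπ] at c
    have c3 := Sy_map (Int.castAddHom ℝ) 0 (fun y => tgt C (enc χ E L5 y)) x
    simp only [Int.coe_castAddHom] at c3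
    rw [← c3]
    exact_mod_cast c
  have h2 : ∀ x : Fin 5 → V, (tgt C (enc χ E L5 x) : ℝ) =
      (0.2304 * iA χ (x 0) + 0.0484 * iB χ (x 0)) * 1000000000000 *
        ((3 * (iB χ (x 1) * iB χ (x 2)) - iA χ (x 1) * iA χ (x 2)) *
          (3 * (iB χ (x 3) * iB χ (x 4)) - iA χ (x 3) * iA χ (x 4))) -
      1000000000000 * (1 * 1 * 1 * (eN E (x 0) (x 1) (x 2) : ℝ) -
        iB χ (x 0) * iB χ (x 1) * iB χ (x 2) * eN E (x 0) (x 1) (x 2) -
          3 * (iA χ (x 0) * (iA χ (x 1) * iB χ (x 2)))) -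
      (core5 C (cN χ (x 0)) (cN χ (x 1)) (cN χ (x 2)) (cN χ (x 3)) (cN χ (x 4))
        (eN E (x 0) (x 1) (x 2)) (eN E (x 0) (x 1) (x 3)) (eN E (x 0) (x 2) (x 3))
        (eN E (x 1) (x 2) (x 3)) (eN E (x 0) (x 1) (x 4)) (eN E (x 0) (x 2) (x 4))
        (eN E (x 1) (x 2) (x 4)) (eN E (x 0) (x 3) (x 4)) (eN E (x 1) (x 3) (x 4))
        (eN E (x 2) (x 3) (x 4)) : ℝ) := by
    intro x
    rw [tgt, phi5_enc, bt_enc χ E L5 x 0 (0, 1, 2) rfl,
      bt_enc χ E L5 x 10 (0, 0, 0) rfl, bt_enc χ E L5 x 11 (1, 1, 1) rfl,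
      bt_enc χ E L5 x 12 (2, 2, 2) rfl, bt_enc χ E L5 x 13 (3, 3, 3) rfl,
      bt_enc χ E L5 x 14 (4, 4, 4) rfl]
    show (((tgc (cN χ (x 0)) (cN χ (x 1)) (cN χ (x 2)) (cN χ (x 3)) (cN χ (x 4))
      (eN E (x 0) (x 1) (x 2)) - _ : ℤ)) : ℝ) = _
    simp only [tgc, uu, iA, iB]
    push_cast
    ring
  simp only [h2] at h1
  rw [Exp5 w (fun y a b c d => (0.2304 * iA χ y + 0.0484 * iB χ y) * 1000000000000 *
        ((3 * (iB χ a * iB χ b) - iA χ a * iA χ b) * (3 * (iB χ c * iB χ d) - iA χ c * iA χ d)) -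
      1000000000000 * (1 * 1 * 1 * (eN E y a b : ℝ) - iB χ y * iB χ a * iB χ b * eN E y a b -
          3 * (iA χ y * (iA χ a * iB χ b))) -
      (core5 C (cN χ y) (cN χ a) (cN χ b) (cN χ c) (cN χ d) (eN E y a b)
        (eN E y a c) (eN E y b c) (eN E a b c) (eN E y a d) (eN E y b d) (eN E a b d)
        (eN E y c d) (eN E a c d) (eN E b c d) : ℝ))] at h1
  have h3 := Ex_nonneg nn fun z => hC.core5_nonneg C z (hlo z) (hhi z)
  have h4 := hC.val
  simp only [Tri] at h4 ⊢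
  simp only [Ex_sub, Ex_const hC.tot] at h1
  rw [Ex_congr (g := fun y => (0.2304 * iA χ y + 0.0484 * iB χ y) * (1000000000000 *
      (3 * Ex w (iB χ) ^ 2 - Ex w (iA χ) ^ 2) ^ 2)) (fun y => by
        simp only [Ex_mul_left, Ex_mul_right, Ex_sub]; ring)] at h1
  simp only [Ex_mul_left (1000000000000 : ℝ), Ex_sub, Ex_mul_left (3 : ℝ), h4] at h1
  rw [Ex_mul_right, Ex_add, Ex_mul_left, Ex_mul_left] at h1
  have h5 : (Ex w fun y => Ex w fun a => Ex w fun b => iA χ y * (iA χ a * iB χ b)) =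
      Ex w (iA χ) ^ 2 * Ex w (iB χ) := by
    simp only [Ex_mul_left, Ex_mul_right]; ring
  rw [h5] at h1
  linarith

end Pool.Agent.P.MP_fc6a29_co
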