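import Pool.Agent.P.MP_fc6a29_co.Cover6
import Pool.Agent.P.MP_fc6a29_co.Phi5

/-! Certificates on samples of six vertices. -/

namespace Pool.Agent.P.MP_fc6a29_co

open Finset Equiv

/-- The bits of `c` from position `k` on, reduced modulo `m`. -/
def fld (c k m : ℕ) : ℕ := Nat.mod (Nat.shiftRight c k) m

theorem fld_ofL (l : List Bool) (k n m : ℕ) (h : m = 2 ^ n) :
    fld (ofL l) k m = ofL ((l.drop k).take n) := by
  subst h
  refine Nat.eq_of_testBit_eq fun t => ?_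
  show ((ofL l >>> k) % 2 ^ n).testBit t = _
  rw [Nat.testBit_mod_two_pow, Nat.testBit_shiftRight, testBit_ofL, testBit_ofL]
  by_cases ht : t < n
  · simp [ht, List.getD_eq_getElem?_getD, List.getElem?_drop]
  · simp [ht, List.getD_eq_getElem?_getD]

theorem bt_ofL (l : List Bool) (k : ℕ) : bt (ofL l) k = (l.getD k false).toNat := by
  rw [bt_eq, testBit_ofL]

/-- A sum of cubes of weight functions. -/
def ws : List (ℕ × List ℕ) → ℕ → ℕ → ℕ → ℕ
  | [], _, _, _ => 0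
  | q :: l, a, b, c => q.1 * (q.2.getD a 0 * q.2.getD b 0 * q.2.getD c 0) + ws l a b c

/-- Data of a certificate on six vertices. -/
structure Cs where
  L4 : List (List (List ℤ))
  L2 : List (List ℤ)
  nu : List ℤ
  cu : List (List (ℕ × List ℕ))
  en : List (List (ℕ × List ℕ))
  T4 : ℕ → ℕ
  T2 : ℕ → ℕ
  TC : ℕ → ℕ
  TB : ℕ → ℕ

def r4 (C : Cs) (t a : ℕ) : List ℤ := (C.L4.getD t []).getD a []

def r2 (C : Cs) (t : ℕ) : List ℤ := C.L2.getD t []

def pA (a : ℕ) : ℤ := bt 232 a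

def pB (a : ℕ) : ℤ := bt 22 a

def pL (a : ℕ) : ℤ := bt 1 a

def psi (a b c : ℕ) (e : ℤ) : ℤ :=
  300000000000000 * (pA a * pA b * pB c * e) + 18650000000000 * ((1 - pL a) * (1 - pL b) * pB c) -
    50961000000000 * ((1 - pL a) * (1 - pL b) * (1 - pL c)) -
    40000 * ((10000 * pL a - 55) * (1000 * pL b - 634) * (1000 * pL c - 634))

def cutA (C : Cs) (t a b c : ℕ) (e1 e2 e3 e4 : ℤ) : ℤ :=
  t * psi a b c e4 - ws (C.cu.getD t []) a b c * (4641 - 10000 * e4) -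
    ws (C.en.getD t []) a b c * kap e1 e3 e2 e4

def chkC (C : Cs) (i : ℕ) : Bool :=
  frc (bt i 0) fun t => frc (fld i 1 8) fun a => frc (fld i 4 8) fun b => frc (fld i 8 8) fun c =>
    frc (bt i 13) fun e => decide (Int.ofNat (C.TC i) = 36028797018963968 +
      cutA C t a b c (bt i 7) (bt i 11) (bt i 12) e)

def chk4 (C : Cs) (i : ℕ) : Bool :=
  frc (fld i 0 16) fun t => decide (Int.ofNat (C.T4 i) +
    dot (r4 C t (fld i 4 64)) (r4 C t (fld i 10 64)) = 36028797018963968)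

def chk2 (C : Cs) (i : ℕ) : Bool :=
  decide (Int.ofNat (C.T2 i) + dot (r2 C (fld i 0 16)) (r2 C (fld i 4 16)) +
    C.nu.getD (fld i 0 16) 0 * (10000 * (bt i 6 : ℤ) - 4641) = 36028797018963968)

def chkD (C : Cs) (i : ℕ) : Bool :=
  decide (Int.ofNat (C.TB i) = 36028797018963968 + C.nu.getD (fld i 0 16) 0 -
    ws (C.cu.getD (bt i 0) []) (fld i 1 8) (fld i 4 8) (fld i 7 8) - 100000000000)

def jC (c : ℕ) : ℕ := Nat.add (fld c 0 256) (Nat.add (Nat.mul 256 (fld c 10 16))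
  (Nat.add (Nat.mul 4096 (bt c 16)) (Nat.mul 8192 (bt c 19))))

def j2 (c : ℕ) : ℕ := Nat.add (fld c 0 32) (Nat.add (Nat.mul 32 (bt c 10))
  (Nat.mul 64 (fld c 16 4)))

def jB (c : ℕ) : ℕ := Nat.add (fld c 0 128) (Nat.mul 128 (fld c 10 8))

/-- Table look-up after evaluating the index. -/
def lk (T : ℕ → ℕ) (i : ℕ) : ℕ := frc i fun j => Nat.add 0 (T j)

theorem lk_eq (T : ℕ → ℕ) (i : ℕ) : lk T i = T i := by
  rw [lk, frc_eq]; exact Nat.zero_add _

def fA (C : Cs) (c : ℕ) : ℕ :=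
  Nat.add (lk C.TC (jC c)) (Nat.add (lk C.T4 (fld c 0 65536)) (lk C.T2 (j2 c)))

def fB (C : Cs) (c : ℕ) : ℕ := lk C.TB (jB c)

/-- The check at one listed 3-graph on six vertices. -/
noncomputable def chk6 (C : Cs) (i : ℕ) : Bool :=
  Nat.ble 835 i || frc (ent GT i) fun r =>
    Nat.ble 77822201560962170880 (n6_0 Nat.add (fA C) r) &&
      Nat.ble 25940733853654056960 (n6_0 Nat.add (fB C) r)

/-- All checks of a certificate on six vertices. -/
structure CsOK (C : Cs) : Prop where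
  hC : ∀ i < 2 ^ 14, chkC C i = true
  h4 : ∀ i < 2 ^ 16, chk4 C i = true
  h2 : ∀ i < 2 ^ 8, chk2 C i = true
  hB : ∀ i < 2 ^ 10, chkD C i = true
  h6 : ∀ i < 835, chk6 C i = true

section bits
variable {C : Cs} (b0 b1 b2 b3 b4 b5 b6 b7 b8 b9 b10 b11 b12 b13 b14 b15 b16 b17 b18 b19 : Bool)

theorem jC_ofL : jC (ofL [b0, b1, b2, b3, b4, b5, b6, b7, b8, b9, b10, b11, b12, b13, b14, b15,
    b16, b17, b18, b19]) = ofL [b0, b1, b2, b3, b4, b5, b6, b7, b10, b11, b12, b13, b16, b19] := by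
  rw [jC, fld_ofL _ 0 8 256 rfl, fld_ofL _ 10 4 16 rfl, bt_ofL, bt_ofL]
  simp only [List.drop, List.take, List.getD_cons_succ, List.getD_cons_zero, ofL, Nat.add_eq,
    Nat.mul_eq]
  ring

theorem j2_ofL : j2 (ofL [b0, b1, b2, b3, b4, b5, b6, b7, b8, b9, b10, b11, b12, b13, b14, b15,
    b16, b17, b18, b19]) = ofL [b0, b1, b2, b3, b4, b10, b16, b17] := by
  rw [j2, fld_ofL _ 0 5 32 rfl, fld_ofL _ 16 2 4 rfl, bt_ofL]
  simp only [List.drop, List.take, List.getD_cons_succ, List.getD_cons_zero, ofL, Nat.add_eq,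
    Nat.mul_eq]
  ring

theorem jB_ofL : jB (ofL [b0, b1, b2, b3, b4, b5, b6, b7, b8, b9, b10, b11, b12, b13, b14, b15,
    b16, b17, b18, b19]) = ofL [b0, b1, b2, b3, b4, b5, b6, b10, b11, b12] := by
  rw [jB, fld_ofL _ 0 7 128 rfl, fld_ofL _ 10 3 8 rfl]
  simp only [List.drop, List.take, ofL, Nat.add_eq, Nat.mul_eq]
  ring

theorem CsOK.fA_eq (H : CsOK C) : ((fA C (ofL [b0, b1, b2, b3, b4, b5, b6, b7, b8, b9, b10, b11,
    b12, b13, b14, b15, b16, b17, b18, b19]) : ℕ) : ℤ) = 3 * 36028797018963968 +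
      cutA C b0.toNat (ofL [b1, b2, b3]) (ofL [b4, b5, b6]) (ofL [b10, b11, b12]) b7.toNat
        b13.toNat b16.toNat b19.toNat -
      dot (r4 C (ofL [b0, b1, b2, b3]) (ofL [b4, b5, b6, b7, b8, b9]))
        (r4 C (ofL [b0, b1, b2, b3]) (ofL [b10, b11, b12, b13, b14, b15])) -
      dot (r2 C (ofL [b0, b1, b2, b3])) (r2 C (ofL [b4, b10, b16, b17])) -
      C.nu.getD (ofL [b0, b1, b2, b3]) 0 * (10000 * (b16.toNat : ℤ) - 4641) := by
  have h1 := H.hC _ (ofL_lt [b0, b1, b2, b3, b4, b5, b6, b7, b10, b11, b12, b13, b16, b19])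
  have h2 := H.h4 _ (ofL_lt [b0, b1, b2, b3, b4, b5, b6, b7, b8, b9, b10, b11, b12, b13, b14, b15])
  have h3 := H.h2 _ (ofL_lt [b0, b1, b2, b3, b4, b10, b16, b17])
  simp only [chkC, frc_eq] at h1
  rw [decide_eq_true_eq, fld_ofL _ 1 3 8 rfl, fld_ofL _ 4 3 8 rfl, fld_ofL _ 8 3 8 rfl] at h1
  rw [chk4, frc_eq, decide_eq_true_eq, fld_ofL _ 0 4 16 rfl, fld_ofL _ 4 6 64 rfl,
    fld_ofL _ 10 6 64 rfl] at h2
  rw [chk2, decide_eq_true_eq, fld_ofL _ 0 4 16 rfl, fld_ofL _ 4 4 16 rfl] at h3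
  simp only [bt_ofL, List.drop, List.take, List.getD_cons_succ, List.getD_cons_zero,
    Int.ofNat_eq_natCast] at h1 h2 h3
  rw [fA, lk_eq, lk_eq, lk_eq, jC_ofL, j2_ofL, fld_ofL _ 0 16 65536 rfl]
  simp only [List.drop, List.take, Nat.add_eq]
  push_cast
  linarith

theorem CsOK.fB_eq (H : CsOK C) : ((fB C (ofL [b0, b1, b2, b3, b4, b5, b6, b7, b8, b9, b10, b11,
    b12, b13, b14, b15, b16, b17, b18, b19]) : ℕ) : ℤ) = 36028797018963968 +
      C.nu.getD (ofL [b0, b1, b2, b3]) 0 -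
      ws (C.cu.getD b0.toNat []) (ofL [b1, b2, b3]) (ofL [b4, b5, b6]) (ofL [b10, b11, b12]) -
      100000000000 := by
  have h1 := H.hB _ (ofL_lt [b0, b1, b2, b3, b4, b5, b6, b10, b11, b12])
  rw [chkD, decide_eq_true_eq, fld_ofL _ 0 4 16 rfl, fld_ofL _ 1 3 8 rfl, fld_ofL _ 4 3 8 rfl,
    fld_ofL _ 7 3 8 rfl] at h1
  simp only [bt_ofL, List.drop, List.take, List.getD_cons_zero, Int.ofNat_eq_natCast] at h1
  rw [fB, lk_eq, jB_ofL, h1]

end bits

end Pool.Agent.P.MP_fc6a29_co
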