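import Pool.Agent.P.MP_fc6a29_co.Dcfin

/-! The final certificate with a slack term for the missing triples. -/

namespace Pool.Agent.P.MP_fc6a29_co

open Finset Equiv

def msc (c0 c1 c2 e : ℤ) : ℤ := 6000000000 * ((1 - c0) * (1 - c1) * c2 * (1 - e))

def tgs (C : Cert) (c : ℕ) : ℤ := tgt C c - msc (bt c 10) (bt c 11) (bt c 12) (bt c 0)

/-- The check of the final certificate with slack at one listed sample. -/
noncomputable def chkSl (C : Cert) (i : ℕ) : Bool :=
  Nat.ble 430 i || frc (ent UT i) fun r => decide (0 ≤ n5_0 Int.add (tgs C) r)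

end Pool.Agent.P.MP_fc6a29_co
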