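import Pool.Agent.P.MP_fc6a29_co.Phi6

/-! The first stage: a rough upper bound and a good partition. -/

namespace Pool.Agent.P.MP_fc6a29_co

open Finset Equiv

variable {V : Type} [Fintype V] {w : V → ℝ} {E : V → V → V → Bool} {p : ℝ}

/-- The pattern of `x` on the triple `a b c`. -/
def pt (E : V → V → V → Bool) (a b c x : V) : ℕ := ofL [E a b x, E a c x, E b c x]

theorem ws_nonneg (l : List (ℕ × List ℕ)) (f : V → ℕ) (F : V → V → V → ℝ)
    (hF : ∀ g : V → ℝ, (∀ v, 0 ≤ g v) →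
      0 ≤ Ex w fun x => Ex w fun y => Ex w fun z => g x * g y * g z * F x y z) :
    0 ≤ Ex w fun x => Ex w fun y => Ex w fun z => (ws l (f x) (f y) (f z) : ℝ) * F x y z := by
  induction l with
  | nil => simp [ws, Ex_zero]
  | cons q l ih =>
    have h := mul_nonneg (Nat.cast_nonneg (α := ℝ) q.1)
      (hF (fun x => (q.2.getD (f x) 0 : ℕ)) fun _ => Nat.cast_nonneg _)
    have h2 := add_nonneg h ih
    simp only [← Ex_mul_left, ← Ex_add] at h2
    refine h2.trans_eq (Ex_congr fun x => Ex_congr fun y => Ex_congr fun z => ?_)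
    simp only [ws]; push_cast; ring

theorem card_G6 : (G 6 0).card = 720 := by
  have : G 6 0 = univ := by ext π; simp [mem_G]
  rw [this, card_univ, Fintype.card_perm, Fintype.card_fin]; rfl

theorem six_nonneg (hE : Free E) (hw : ∀ v, 0 ≤ w v) (φ : ℕ → ℕ) (k : ℕ)
    (H : ∀ i < 835, 720 * k ≤ n6_0 Nat.add φ (ent GT i)) :
    0 ≤ Exp w fun x : Fin 6 → V => ((φ (enc (fun _ => false) E L6 x) : ℝ) - k) := by
  refine Exp_nonneg_of_Sy hw _ fun x => ?_
  obtain ⟨π, hπ, i, hi, e⟩ := cover6 (χ := fun _ => false) hE x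
  have c := H i hi
  rw [← e, n6_0_enc hE (add := Nat.add) (fun _ _ => rfl),
    Sy_inv (fun y => φ (enc (fun _ => false) E L6 y)) x hπ] at c
  have c2 : (720 * k : ℝ) ≤ ((Sy 0 (fun y => φ (enc (fun _ => false) E L6 y)) x : ℕ) : ℝ) := by
    exact_mod_cast c
  simp only [Sy, sum_sub_distrib, sum_const, card_G6, nsmul_eq_mul] at c2 ⊢
  push_cast at c2 ⊢
  linarith

omit [Fintype V] in
theorem enc6 (x : Fin 6 → V) : enc (fun _ => false) E L6 x =
    ofL [E (x 0) (x 1) (x 2), E (x 0) (x 1) (x 3), E (x 0) (x 2) (x 3), E (x 1) (x 2) (x 3),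
      E (x 0) (x 1) (x 4), E (x 0) (x 2) (x 4), E (x 1) (x 2) (x 4), E (x 0) (x 3) (x 4),
      E (x 1) (x 3) (x 4), E (x 2) (x 3) (x 4), E (x 0) (x 1) (x 5), E (x 0) (x 2) (x 5),
      E (x 1) (x 2) (x 5), E (x 0) (x 3) (x 5), E (x 1) (x 3) (x 5), E (x 2) (x 3) (x 5),
      E (x 0) (x 4) (x 5), E (x 1) (x 4) (x 5), E (x 2) (x 4) (x 5), E (x 3) (x 4) (x 5)] := rfl

/-- The six-fold expectation. -/
def E6 (w : V → ℝ) (g : V → V → V → V → V → V → ℝ) : ℝ :=
  Ex w fun a => Ex w fun b => Ex w fun c => Ex w fun d => Ex w fun e => Ex w fun f => g a b c d e f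

theorem Good.stage1 (hG : Good w E p) {C : Cs} (H : CsOK C) (hp : 4641 ≤ 10000 * p) :
    (10000 * p - 4641) * 100000000000 ≤ Ex w fun a => Ex w fun b => Ex w fun c =>
      (eN E a b c : ℝ) * Ex w fun x => Ex w fun y => Ex w fun z =>
        (psi (pt E a b c x) (pt E a b c y) (pt E a b c z) (eN E x y z) : ℝ) := by
  have hE := hG.toFree
  have nn := hG.nn
  have hA := six_nonneg hE nn (fA C) (3 * 36028797018963968) fun i hi => by
    have c := H.h6 i hi
    have c1 : Nat.ble 835 i = false := by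
      rw [← Bool.not_eq_true, Nat.ble_eq]; omega
    simp only [chk6, frc_eq, c1, Bool.false_or, Bool.and_eq_true, Nat.ble_eq] at c
    exact c.1
  have hB := six_nonneg hE nn (fB C) 36028797018963968 fun i hi => by
    have c := H.h6 i hi
    have c1 : Nat.ble 835 i = false := by
      rw [← Bool.not_eq_true, Nat.ble_eq]; omega
    simp only [chk6, frc_eq, c1, Bool.false_or, Bool.and_eq_true, Nat.ble_eq] at c
    exact c.2
  set δ := 10000 * p - 4641 with hδ
  have hδ0 : 0 ≤ δ := sub_nonneg.2 hp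
  set ty : V → V → V → V → ℕ := fun a b c d => ofL [E a b c, E a b d, E a c d, E b c d] with hty
  set q6 : V → V → V → V → V → List ℤ := fun a b c d x =>
    r4 C (ty a b c d) (ofL [E a b x, E a c x, E b c x, E a d x, E b d x, E c d x]) with hq6
  set q2 : V → V → V → V → List ℤ := fun a b c d => r2 C (ofL [E a b c, E a b d, E a c d, E b c d])
    with hq2
  set nu : V → V → V → V → ℝ := fun a b c d => ((C.nu.getD (ty a b c d) 0 : ℤ) : ℝ) with hnu
  set wc : V → V → V → V → V → V → ℝ := fun a b c d e f =>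
    (ws (C.cu.getD (eN E a b c) []) (pt E a b c d) (pt E a b c e) (pt E a b c f) : ℝ) with hwc
  set we : V → V → V → V → V → V → ℝ := fun a b c d e f =>
    (ws (C.en.getD (eN E a b c) []) (pt E a b c d) (pt E a b c e) (pt E a b c f) : ℝ) with hwe
  set ps : V → V → V → V → V → V → ℝ := fun a b c d e f =>
    (psi (pt E a b c d) (pt E a b c e) (pt E a b c f) (eN E d e f) : ℝ) with hps
  set ka : V → V → V → V → ℝ := fun a d e f => (eN E a d e : ℝ) * eN E a e f *
    ((1 - eN E a d f) * (1 - eN E d e f) - eN E a d f * eN E d e f) with hka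
  set gA : V → V → V → V → V → V → ℝ := fun a b c d e f => (eN E a b c : ℝ) * ps a b c d e f -
        wc a b c d e f * (4641 - 10000 * eN E d e f) - we a b c d e f * ka a d e f -
        (dot (q6 a b c d e) (q6 a b c d f) : ℝ) - (dot (q2 a b c d) (q2 a b e f) : ℝ) -
        nu a b c d * (10000 * eN E a e f - 4641) with hgA
  set gB : V → V → V → V → V → V → ℝ := fun a b c d e f =>
    nu a b c d - wc a b c d e f - 100000000000 with hgB
  have eA : ∀ x : Fin 6 → V, ((fA C (enc (fun _ => false) E L6 x) : ℝ) -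
      (3 * 36028797018963968 : ℕ)) = gA (x 0) (x 1) (x 2) (x 3) (x 4) (x 5) := by
    intro x
    have h := congrArg (Int.cast (R := ℝ)) (H.fA_eq (E (x 0) (x 1) (x 2)) (E (x 0) (x 1) (x 3))
      (E (x 0) (x 2) (x 3)) (E (x 1) (x 2) (x 3)) (E (x 0) (x 1) (x 4)) (E (x 0) (x 2) (x 4))
      (E (x 1) (x 2) (x 4)) (E (x 0) (x 3) (x 4)) (E (x 1) (x 3) (x 4)) (E (x 2) (x 3) (x 4))
      (E (x 0) (x 1) (x 5)) (E (x 0) (x 2) (x 5)) (E (x 1) (x 2) (x 5)) (E (x 0) (x 3) (x 5))
      (E (x 1) (x 3) (x 5)) (E (x 2) (x 3) (x 5)) (E (x 0) (x 4) (x 5)) (E (x 1) (x 4) (x 5))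
      (E (x 2) (x 4) (x 5)) (E (x 3) (x 4) (x 5)))
    rw [enc6]
    simp only [cutA, kap] at h
    simp only [hgA, hps, hwc, hwe, hka, hq6, hq2, hnu, hty, pt, eN]
    push_cast at h ⊢
    linarith
  have eB : ∀ x : Fin 6 → V, ((fB C (enc (fun _ => false) E L6 x) : ℝ) -
      (36028797018963968 : ℕ)) = gB (x 0) (x 1) (x 2) (x 3) (x 4) (x 5) := by
    intro x
    have h := congrArg (Int.cast (R := ℝ)) (H.fB_eq (E (x 0) (x 1) (x 2)) (E (x 0) (x 1) (x 3))
      (E (x 0) (x 2) (x 3)) (E (x 1) (x 2) (x 3)) (E (x 0) (x 1) (x 4)) (E (x 0) (x 2) (x 4))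
      (E (x 1) (x 2) (x 4)) (E (x 0) (x 3) (x 4)) (E (x 1) (x 3) (x 4)) (E (x 2) (x 3) (x 4))
      (E (x 0) (x 1) (x 5)) (E (x 0) (x 2) (x 5)) (E (x 1) (x 2) (x 5)) (E (x 0) (x 3) (x 5))
      (E (x 1) (x 3) (x 5)) (E (x 2) (x 3) (x 5)) (E (x 0) (x 4) (x 5)) (E (x 1) (x 4) (x 5))
      (E (x 2) (x 4) (x 5)) (E (x 3) (x 4) (x 5)))
    rw [enc6]
    simp only [hgB, hwc, hnu, hty, pt, eN]
    push_cast at h ⊢
    linarith
  rw [funext eA, Exp6 w gA] at hA
  rw [funext eB, Exp6 w gB] at hB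
  have t4 : 0 ≤ E6 w fun a b c d e f => (dot (q6 a b c d e) (q6 a b c d f) : ℝ) :=
    Ex_nonneg nn fun a => Ex_nonneg nn fun b => Ex_nonneg nn fun c => Ex_nonneg nn fun d =>
      sos1 w (q6 a b c d)
  have t2 : 0 ≤ E6 w fun a b c d e f => (dot (q2 a b c d) (q2 a b e f) : ℝ) :=
    Ex_nonneg nn fun a => Ex_nonneg nn fun b => sos2 w (q2 a b)
  have tn : 0 ≤ E6 w fun a b c d e f => nu a b c d * (10000 * eN E a e f - 10000 * p) :=
    Ex_nonneg nn fun a => Ex_nonneg nn fun b => Ex_nonneg nn fun c => Ex_nonneg nn fun d => by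
      simp only [Ex_mul_left, Ex_sub, Ex_const hG.tot, hG.deg, sub_self, mul_zero, le_refl]
  have tc : 0 ≤ E6 w fun a b c d e f => wc a b c d e f * (p - eN E d e f) :=
    Ex_nonneg nn fun a => Ex_nonneg nn fun b => Ex_nonneg nn fun c =>
      ws_nonneg _ (pt E a b c) (fun d e f => p - eN E d e f) hG.cubic
  have te : 0 ≤ E6 w fun a b c d e f => we a b c d e f * ka a d e f :=
    Ex_nonneg nn fun a => Ex_nonneg nn fun b => Ex_nonneg nn fun c =>
      ws_nonneg _ (pt E a b c) (ka a) fun g hg => hG.entropy g hg a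
  have h := add_nonneg (add_nonneg (add_nonneg (add_nonneg (add_nonneg (add_nonneg hA
    (mul_nonneg hδ0 hB)) t4) t2) tn) (mul_nonneg (by norm_num : (0 : ℝ) ≤ 10000) tc)) te
  simp only [E6, ← Ex_mul_left, ← Ex_add] at h
  have h2 : 0 ≤ E6 w fun a b c d e f => (eN E a b c : ℝ) * ps a b c d e f - δ * 100000000000 :=
    h.trans_eq (Ex_congr fun a => Ex_congr fun b => Ex_congr fun c => Ex_congr fun d =>
      Ex_congr fun e => Ex_congr fun f => by simp only [hgA, hgB, hδ]; ring)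
  simp only [E6, Ex_sub, Ex_const hG.tot, Ex_mul_left] at h2
  exact sub_nonneg.1 h2

end Pool.Agent.P.MP_fc6a29_co
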