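import Pool.Agent.P.MP_fc6a29_co.Entropy

/-! Samples, symmetrisation over permutations and binary codes of samples. -/

namespace Pool.Agent.P.MP_fc6a29_co

open Finset Equiv

variable {V : Type} [Fintype V] {N : ℕ}

/-- Expectation over `N` independent samples. -/
def Exp (w : V → ℝ) (f : (Fin N → V) → ℝ) : ℝ := ∑ x, (∏ i, w (x i)) * f x

theorem Exp_perm (w : V → ℝ) (f : (Fin N → V) → ℝ) (π : Perm (Fin N)) :
    Exp w (fun x => f (x ∘ π)) = Exp w f := by
  unfold Exp
  refine Fintype.sum_equiv (arrowCongr π.symm (Equiv.refl V)) _ _ fun x => ?_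
  have h : (arrowCongr π.symm (Equiv.refl V)) x = x ∘ π := by
    funext i; simp [arrowCongr]
  rw [h]
  congr 1
  exact (Equiv.prod_comp π fun i => w (x i)).symm

theorem Exp_succ (w : V → ℝ) (f : (Fin (N + 1) → V) → ℝ) :
    Exp w f = Ex w fun a => Exp w fun y : Fin N → V => f (Fin.cons a y) := by
  unfold Exp Ex
  rw [← (Fin.consEquiv fun _ : Fin (N + 1) => V).sum_comp, Fintype.sum_prod_type]
  refine sum_congr rfl fun a _ => ?_
  rw [mul_sum]
  refine sum_congr rfl fun y _ => ?_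
  simp [Fin.consEquiv, Fin.prod_univ_succ, mul_assoc]

theorem Exp_const0 (w : V → ℝ) (c : ℝ) : Exp w (fun _ : Fin 0 → V => c) = c := by
  simp [Exp]

theorem Exp1 (w : V → ℝ) (g : V → ℝ) :
    Exp w (fun x : Fin 1 → V => g (x 0)) =
      Ex w fun a => g a := by
  rw [Exp_succ]
  refine Ex_congr fun a => ?_
  have h : ∀ y : Fin 0 → V, g ((Fin.cons a y : Fin 1 → V) 0) = g a  := fun _ => rfl
  simp only [h]
  exact Exp_const0 w _

theorem Exp2 (w : V → ℝ) (g : V → V → ℝ) :
    Exp w (fun x : Fin 2 → V => g (x 0) (x 1)) =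
      Ex w fun a => Ex w fun b => g a b := by
  rw [Exp_succ]
  refine Ex_congr fun a => ?_
  have h : ∀ y : Fin 1 → V, g ((Fin.cons a y : Fin 2 → V) 0) ((Fin.cons a y : Fin 2 → V) 1) = g a (y 0) := fun _ => rfl
  simp only [h]
  exact Exp1 w (g a)

theorem Exp3 (w : V → ℝ) (g : V → V → V → ℝ) :
    Exp w (fun x : Fin 3 → V => g (x 0) (x 1) (x 2)) =
      Ex w fun a => Ex w fun b => Ex w fun c => g a b c := by
  rw [Exp_succ]
  refine Ex_congr fun a => ?_
  have h : ∀ y : Fin 2 → V, g ((Fin.cons a y : Fin 3 → V) 0) ((Fin.cons a y : Fin 3 → V) 1) ((Fin.cons a y : Fin 3 → V) 2) = g a (y 0) (y 1) := fun _ => rfl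
  simp only [h]
  exact Exp2 w (g a)

theorem Exp4 (w : V → ℝ) (g : V → V → V → V → ℝ) :
    Exp w (fun x : Fin 4 → V => g (x 0) (x 1) (x 2) (x 3)) =
      Ex w fun a => Ex w fun b => Ex w fun c => Ex w fun d => g a b c d := by
  rw [Exp_succ]
  refine Ex_congr fun a => ?_
  have h : ∀ y : Fin 3 → V, g ((Fin.cons a y : Fin 4 → V) 0) ((Fin.cons a y : Fin 4 → V) 1) ((Fin.cons a y : Fin 4 → V) 2) ((Fin.cons a y : Fin 4 → V) 3) = g a (y 0) (y 1) (y 2) := fun _ => rfl
  simp only [h]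
  exact Exp3 w (g a)

theorem Exp5 (w : V → ℝ) (g : V → V → V → V → V → ℝ) :
    Exp w (fun x : Fin 5 → V => g (x 0) (x 1) (x 2) (x 3) (x 4)) =
      Ex w fun a => Ex w fun b => Ex w fun c => Ex w fun d => Ex w fun e => g a b c d e := by
  rw [Exp_succ]
  refine Ex_congr fun a => ?_
  have h : ∀ y : Fin 4 → V, g ((Fin.cons a y : Fin 5 → V) 0) ((Fin.cons a y : Fin 5 → V) 1) ((Fin.cons a y : Fin 5 → V) 2) ((Fin.cons a y : Fin 5 → V) 3) ((Fin.cons a y : Fin 5 → V) 4) = g a (y 0) (y 1) (y 2) (y 3) := fun _ => rfl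
  simp only [h]
  exact Exp4 w (g a)

theorem Exp6 (w : V → ℝ) (g : V → V → V → V → V → V → ℝ) :
    Exp w (fun x : Fin 6 → V => g (x 0) (x 1) (x 2) (x 3) (x 4) (x 5)) =
      Ex w fun a => Ex w fun b => Ex w fun c => Ex w fun d => Ex w fun e => Ex w fun f => g a b c d e f := by
  rw [Exp_succ]
  refine Ex_congr fun a => ?_
  have h : ∀ y : Fin 5 → V, g ((Fin.cons a y : Fin 6 → V) 0) ((Fin.cons a y : Fin 6 → V) 1) ((Fin.cons a y : Fin 6 → V) 2) ((Fin.cons a y : Fin 6 → V) 3) ((Fin.cons a y : Fin 6 → V) 4) ((Fin.cons a y : Fin 6 → V) 5) = g a (y 0) (y 1) (y 2) (y 3) (y 4) := fun _ => rfl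
  simp only [h]
  exact Exp5 w (g a)

theorem Exp_nonneg {w : V → ℝ} (hw : ∀ v, 0 ≤ w v) {f : (Fin N → V) → ℝ} (hf : ∀ x, 0 ≤ f x) :
    0 ≤ Exp w f :=
  sum_nonneg fun x _ => mul_nonneg (prod_nonneg fun i _ => hw (x i)) (hf x)

/-- Permutations fixing the first `k` points. -/
def G (N k : ℕ) : Finset (Perm (Fin N)) := univ.filter fun π => ∀ i : Fin N, i.val < k → π i = i

theorem mem_G {k : ℕ} {π : Perm (Fin N)} : π ∈ G N k ↔ ∀ i : Fin N, i.val < k → π i = i := by
  simp [G]

theorem one_mem_G (k : ℕ) : (1 : Perm (Fin N)) ∈ G N k := mem_G.2 fun _ _ => rfl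

theorem mul_mem_G {k : ℕ} {π σ : Perm (Fin N)} (h : π ∈ G N k) (g : σ ∈ G N k) :
    π * σ ∈ G N k := mem_G.2 fun i hi => by
  rw [Perm.mul_apply, mem_G.1 g i hi, mem_G.1 h i hi]

theorem inv_mem_G {k : ℕ} {π : Perm (Fin N)} (h : π ∈ G N k) : π⁻¹ ∈ G N k :=
  mem_G.2 fun i hi => by rw [Perm.inv_eq_iff_eq, mem_G.1 h i hi]

theorem G_mono {k l : ℕ} (h : k ≤ l) {π : Perm (Fin N)} (g : π ∈ G N l) : π ∈ G N k :=
  mem_G.2 fun i hi => mem_G.1 g i (by omega)

theorem swap_mem_G {k : ℕ} {i j : Fin N} (hi : k ≤ i.val) (hj : k ≤ j.val) :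
    swap i j ∈ G N k := mem_G.2 fun l hl =>
  swap_apply_of_ne_of_ne (fun h => by subst h; omega) (fun h => by subst h; omega)

variable {α : Type} [AddCommMonoid α]

/-- Symmetrisation of `φ` over the permutations fixing the first `k` points. -/
def Sy (k : ℕ) (φ : (Fin N → V) → α) (x : Fin N → V) : α := ∑ π ∈ G N k, φ (x ∘ π)

omit [Fintype V] in
theorem Sy_inv {k : ℕ} (φ : (Fin N → V) → α) (x : Fin N → V) {π : Perm (Fin N)}
    (h : π ∈ G N k) : Sy k φ (x ∘ π) = Sy k φ x := by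
  unfold Sy
  refine sum_nbij' (fun σ => π * σ) (fun σ => π⁻¹ * σ) (fun σ g => mul_mem_G h g)
    (fun σ g => mul_mem_G (inv_mem_G h) g) (fun σ _ => by simp) (fun σ _ => by simp)
    (fun σ _ => rfl)

omit [Fintype V] in
theorem Sy_last (φ : (Fin N → V) → α) (x : Fin N → V) : Sy N φ x = φ x := by
  have : G N N = {1} := by
    ext π
    simp only [mem_G, mem_singleton]
    exact ⟨fun h => Equiv.ext fun i => h i i.2, fun h i _ => by rw [h]; rfl⟩
  simp [Sy, this]

omit [Fintype V] in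
theorem Sy_succ (k : Fin N) (φ : (Fin N → V) → α) (x : Fin N → V) :
    Sy k.val φ x = ∑ j : Fin N, if k ≤ j then Sy (k.val + 1) φ (x ∘ swap k j) else 0 := by
  rw [← sum_filter]
  unfold Sy
  rw [← sum_fiberwise_of_maps_to (t := univ.filter fun j => k ≤ j) (g := fun π => π k)]
  · refine sum_congr rfl fun j hj => ?_
    have hj' : k ≤ j := (mem_filter.1 hj).2
    symm
    refine sum_nbij' (fun σ => swap k j * σ) (fun σ => swap k j * σ) ?_ ?_
      (fun σ _ => by simp) (fun σ _ => by simp) (fun σ _ => rfl)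
    · intro σ g
      refine mem_filter.2 ⟨mul_mem_G (swap_mem_G le_rfl hj') (G_mono (Nat.le_succ _) g), ?_⟩
      rw [Perm.mul_apply, mem_G.1 g k (Nat.lt_succ_self _), swap_apply_left]
    · intro σ g
      obtain ⟨g1, g2⟩ := mem_filter.1 g
      refine mem_G.2 fun i hi => ?_
      rcases Nat.lt_succ_iff_lt_or_eq.1 hi with h | h
      · exact mem_G.1 (mul_mem_G (swap_mem_G le_rfl hj') g1) i h
      · obtain rfl : i = k := Fin.ext h
        rw [Perm.mul_apply, g2, swap_apply_right]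
  · intro π h
    refine mem_filter.2 ⟨mem_univ _, ?_⟩
    by_contra hc
    have h1 : π (π k) = π k := mem_G.1 h (π k) (not_le.1 hc)
    have h2 := π.injective h1
    exact hc h2.ge

theorem Exp_Sy (w : V → ℝ) (k : ℕ) (h φ : (Fin N → V) → ℝ)
    (hh : ∀ x, ∀ π ∈ G N k, h (x ∘ π) = h x) :
    Exp w (fun x => h x * Sy k φ x) = (G N k).card * Exp w (fun x => h x * φ x) := by
  have : Exp w (fun x => h x * Sy k φ x) =
      ∑ π ∈ G N k, Exp w (fun x => h (x ∘ π) * φ (x ∘ π)) := by
    unfold Exp Sy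
    rw [sum_comm]
    refine sum_congr rfl fun x _ => ?_
    simp only [mul_sum]
    exact sum_congr rfl fun π hπ => by rw [hh x π hπ]
  rw [this, sum_congr rfl fun π _ => Exp_perm w (fun x => h x * φ x) π]
  simp

theorem card_G_pos (k : ℕ) : (0 : ℝ) < (G N k).card :=
  Nat.cast_pos.2 (card_pos.2 ⟨1, one_mem_G k⟩)

/-- If the symmetrisation is nonnegative, so is the expectation. -/
theorem Exp_nonneg_of_Sy {w : V → ℝ} (hw : ∀ v, 0 ≤ w v) (φ : (Fin N → V) → ℝ)
    (h : ∀ x, 0 ≤ Sy 0 φ x) : 0 ≤ Exp w φ := by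
  have h1 := Exp_Sy w 0 (fun _ => 1) φ (fun _ _ _ => rfl)
  simp only [one_mul] at h1
  have h2 := Exp_nonneg hw h
  rw [h1] at h2
  exact nonneg_of_mul_nonneg_right h2 (card_G_pos 0) |> fun h => h

omit [Fintype V] in
theorem Sy_map {β : Type} [AddCommMonoid β] (f : α →+ β) (k : ℕ) (φ : (Fin N → V) → α)
    (x : Fin N → V) : f (Sy k φ x) = Sy k (fun y => f (φ y)) x := by
  simp [Sy, map_sum]

/-! ### Binary codes -/

/-- Evaluate the first argument before applying the second. -/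
def frc {β : Type} (n : ℕ) (k : ℕ → β) : β := Nat.rec (k 0) (fun m _ => k (Nat.succ m)) n

theorem frc_eq {β : Type} (n : ℕ) (k : ℕ → β) : frc n k = k n := by cases n <;> rfl

/-- Check `f` on the `2 ^ k` numbers starting at `b * 2 ^ k`. -/
def allP (f : ℕ → Bool) (k : ℕ) : ℕ → Bool :=
  Nat.rec f (fun _ ih b => frc (Nat.mul 2 b) ih && frc (Nat.succ (Nat.mul 2 b)) ih) k

theorem allP_spec (f : ℕ → Bool) (k : ℕ) :
    ∀ b, allP f k b = true → ∀ i < 2 ^ k, f (b * 2 ^ k + i) = true := by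
  induction k with
  | zero => intro b h i hi; obtain rfl : i = 0 := by omega
            have h' : f b = true := h
            simpa using h'
  | succ k ih =>
    intro b h i hi
    have h' : (frc (Nat.mul 2 b) (allP f k) && frc (Nat.succ (Nat.mul 2 b)) (allP f k)) = true := h
    rw [frc_eq, frc_eq, Bool.and_eq_true] at h'
    rcases lt_or_ge i (2 ^ k) with g | g
    · have := ih _ h'.1 i g
      rwa [show Nat.mul 2 b * 2 ^ k + i = b * 2 ^ (k + 1) + i by
        rw [Nat.mul_eq, pow_succ]; ring] at this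
    · have := ih _ h'.2 (i - 2 ^ k) (by rw [pow_succ] at hi; omega)
      rwa [show Nat.succ (Nat.mul 2 b) * 2 ^ k + (i - 2 ^ k) = b * 2 ^ (k + 1) + i by
        rw [Nat.mul_eq, Nat.succ_eq_add_one, pow_succ, add_mul, one_mul, add_assoc,
          Nat.add_sub_cancel' g]; ring] at this

theorem allP_zero {f : ℕ → Bool} {k : ℕ} (h : allP f k 0 = true) (i : ℕ) (hi : i < 2 ^ k) :
    f i = true := by simpa using allP_spec f k 0 h i hi

/-- Bit `i` of `c`. -/
def bt (c i : ℕ) : ℕ := Nat.mod (Nat.shiftRight c i) 2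

theorem bt_eq (c i : ℕ) : bt c i = (c.testBit i).toNat := by
  rw [Nat.toNat_testBit]
  show c >>> i % 2 = _
  rw [Nat.shiftRight_eq_div_pow]

theorem bt_div (c i : ℕ) : bt c i = c / 2 ^ i % 2 := by rw [bt_eq, Nat.toNat_testBit]

/-- The number with the given binary digits. -/
def ofL : List Bool → ℕ
  | [] => 0
  | b :: l => b.toNat + 2 * ofL l

theorem ofL_lt (l : List Bool) : ofL l < 2 ^ l.length := by
  induction l with
  | nil => simp [ofL]
  | cons b l ih => cases b <;> simp [ofL, pow_succ] <;> omega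

theorem testBit_ofL (l : List Bool) : ∀ t, (ofL l).testBit t = l.getD t false := by
  induction l with
  | nil => simp [ofL]
  | cons b l ih =>
    intro t
    cases t with
    | zero => cases b <;> simp [ofL, Nat.testBit_zero, Nat.add_mul_mod_self_left]
    | succ t =>
      rw [Nat.testBit_succ, List.getD_cons_succ, ← ih t]
      congr 1
      cases b <;> simp only [ofL, Bool.toNat_false, Bool.toNat_true] <;> omega

/-- The number whose digits are the bits of `x` listed in `σ`. -/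
def pv (x : ℕ) : List ℕ → ℕ
  | [] => 0
  | s :: r => Nat.add (bt x s) (Nat.mul 2 (pv x r))

theorem pv_eq (x : ℕ) (σ : List ℕ) : pv x σ = ofL (σ.map x.testBit) := by
  induction σ with
  | nil => rfl
  | cons s r ih => simp only [pv, List.map_cons, ofL, ih, bt_eq]; rfl

/-- Entry `i` of a table of 20-bit numbers. -/
def ent (T i : ℕ) : ℕ := Nat.mod (Nat.shiftRight T (Nat.mul 20 i)) 1048576

/-- A bit permutation through two tables. -/
def sw (l h c : ℕ) : ℕ := Nat.lor (ent l (Nat.mod c 1024)) (ent h (Nat.div c 1024))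

/-- The two tables describe the bit permutation `σ` on numbers with `10 + k` bits. -/
def swOK (k l h : ℕ) (σ : List ℕ) : Bool :=
  allP (fun x => Nat.beq (ent l x) (pv x (σ.map fun s => if s < 10 then s else 63))) 10 0 &&
  allP (fun x => Nat.beq (ent h x) (pv x (σ.map fun s => if s < 10 then 63 else s - 10))) k 0

theorem sw_eq {k l h : ℕ} {σ : List ℕ} (hk : k ≤ 10) (H : swOK k l h σ = true) {c : ℕ}
    (hc : c < 2 ^ (10 + k)) : sw l h c = pv c σ := by
  rw [swOK, Bool.and_eq_true] at H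
  have c1 : c % 1024 < 2 ^ 10 := Nat.mod_lt _ (by norm_num)
  have c2 : c / 1024 < 2 ^ k := by
    rw [pow_add] at hc
    exact Nat.div_lt_of_lt_mul hc
  have h1 := Nat.eq_of_beq_eq_true (allP_zero H.1 _ c1)
  have h2 := Nat.eq_of_beq_eq_true (allP_zero H.2 _ c2)
  have z1 : (c % 1024).testBit 63 = false :=
    Nat.testBit_lt_two_pow (c1.trans_le (by norm_num))
  have z2 : (c / 1024).testBit 63 = false :=
    Nat.testBit_lt_two_pow (c2.trans_le (Nat.pow_le_pow_right (by norm_num) (by omega)))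
  show ent l (c % 1024) ||| ent h (c / 1024) = _
  rw [h1, h2]
  refine Nat.eq_of_testBit_eq fun t => ?_
  simp only [Nat.testBit_or, pv_eq, testBit_ofL, List.map_map, List.getD_eq_getElem?_getD,
    List.getElem?_map]
  cases σ[t]? with
  | none => rfl
  | some s =>
    simp only [Option.map_some, Option.getD_some, Function.comp]
    split_ifs with g
    · rw [z2, Bool.or_false, show 1024 = 2 ^ 10 from rfl, Nat.testBit_mod_two_pow]
      simp [g]
    · rw [z1, Bool.false_or, show 1024 = 2 ^ 10 from rfl, Nat.testBit_div_two_pow]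
      congr 1; omega

/-- A triple of positions; a constant triple stands for the colour of a position. -/
abbrev Tr (N : ℕ) := Fin N × Fin N × Fin N

/-- The bit of a sample at a triple of positions. -/
def bf (χ : V → Bool) (E : V → V → V → Bool) (x : Fin N → V) (τ : Tr N) : Bool :=
  if τ.1 = τ.2.1 ∧ τ.2.1 = τ.2.2 then χ (x τ.1) else E (x τ.1) (x τ.2.1) (x τ.2.2)

/-- The code of a sample. -/
def enc (χ : V → Bool) (E : V → V → V → Bool) (L : List (Tr N)) (x : Fin N → V) : ℕ :=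
  ofL (L.map (bf χ E x))

/-- Two triples agree up to order. -/
def p3 (a b c : Fin N) (τ : Tr N) : Bool :=
  decide (τ = (a, b, c) ∨ τ = (a, c, b) ∨ τ = (b, a, c) ∨ τ = (b, c, a) ∨ τ = (c, a, b) ∨
    τ = (c, b, a))

omit [Fintype V] in
theorem bf_p3 {χ : V → Bool} {E : V → V → V → Bool} (hE : Free E) (x : Fin N → V)
    {a b c : Fin N} {τ : Tr N} (h : p3 a b c τ = true) : bf χ E x τ = bf χ E x (a, b, c) := by
  rw [p3, decide_eq_true_eq] at h
  by_cases g : a = b ∧ b = c
  · obtain ⟨rfl, rfl⟩ := g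
    simp only [or_self] at h
    rw [h]
  · rcases h with rfl | rfl | rfl | rfl | rfl | rfl <;> simp only [bf, if_neg g]
    · rw [if_neg (fun q => g ⟨q.1.trans q.2, q.2.symm⟩), hE.s2]
    · rw [if_neg (fun q => g ⟨q.1.symm, q.1.trans q.2⟩), hE.s1]
    · rw [if_neg (fun q => g ⟨(q.1.trans q.2).symm, q.1⟩), hE.c231]
    · rw [if_neg (fun q => g ⟨q.2, (q.1.trans q.2).symm⟩), hE.c312]
    · rw [if_neg (fun q => g ⟨q.2.symm, q.1.symm⟩), hE.c321]

/-- The list `σ` describes the action of `π` on the triples of `A`, read in the list `L`. -/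
def chkP (π : Perm (Fin N)) (L : List (Tr N)) : List (Tr N) → List ℕ → Bool
  | [], [] => true
  | τ :: A, s :: σ => (match L[s]? with
      | some ρ => p3 (π τ.1) (π τ.2.1) (π τ.2.2) ρ
      | none => false) && chkP π L A σ
  | _, _ => false

omit [Fintype V] in
theorem enc_perm {χ : V → Bool} {E : V → V → V → Bool} (hE : Free E) (x : Fin N → V)
    {π : Perm (Fin N)} {L : List (Tr N)} :
    ∀ (A : List (Tr N)) (σ : List ℕ), chkP π L A σ = true →
      enc χ E A (x ∘ π) = pv (enc χ E L x) σ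
  | [], [], _ => rfl
  | [], _ :: _, h => by simp [chkP] at h
  | _ :: _, [], h => by simp [chkP] at h
  | τ :: A, s :: σ, h => by
    rw [chkP, Bool.and_eq_true] at h
    have ih := enc_perm (χ := χ) hE x A σ h.2
    have h1 : bf χ E (x ∘ π) τ = (enc χ E L x).testBit s := by
      rw [enc, testBit_ofL, List.getD_eq_getElem?_getD, List.getElem?_map]
      have h2 := h.1
      cases hs : L[s]? with
      | none => simp [hs] at h2
      | some ρ =>
        simp only [hs] at h2
        simp only [Option.map_some, Option.getD_some]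
        rw [bf_p3 hE x h2]
        simp [bf]
    show (bf χ E (x ∘ π) τ).toNat + 2 * enc χ E A (x ∘ π) = _
    rw [ih, h1, pv, bt_eq]; rfl

omit [Fintype V] in
theorem enc_lt (χ : V → Bool) (E : V → V → V → Bool) (L : List (Tr N)) (x : Fin N → V) :
    enc χ E L x < 2 ^ L.length := by
  simpa [enc] using ofL_lt (L.map (bf χ E x))

omit [Fintype V] in
theorem enc_sw {χ : V → Bool} {E : V → V → V → Bool} (hE : Free E) {π : Perm (Fin N)}
    {L : List (Tr N)} {k l h : ℕ} {σ : List ℕ} (hk : k ≤ 10) (hL : L.length = 10 + k)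
    (H : swOK k l h σ = true) (HP : chkP π L L σ = true) (x : Fin N → V) :
    sw l h (enc χ E L x) = enc χ E L (x ∘ π) := by
  rw [sw_eq hk H (hL ▸ enc_lt χ E L x), enc_perm hE x L σ HP]

omit [Fintype V] in
theorem bt_enc (χ : V → Bool) (E : V → V → V → Bool) (L : List (Tr N)) (x : Fin N → V)
    (i : ℕ) (τ : Tr N) (h : L[i]? = some τ) : bt (enc χ E L x) i = (bf χ E x τ).toNat := by
  rw [bt_eq, enc, testBit_ofL, List.getD_eq_getElem?_getD, List.getElem?_map, h]; rfl

theorem sw_lt (l h c : ℕ) : sw l h c < 2 ^ 20 :=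
  Nat.or_lt_two_pow (Nat.mod_lt _ (by norm_num)) (Nat.mod_lt _ (by norm_num))

theorem pv_low {σ : List ℕ} (H : ∀ t < 10, ∃ s < 10, σ[t]? = some s) {a b : ℕ}
    (hab : a % 1024 = b % 1024) : pv a σ % 1024 = pv b σ % 1024 := by
  refine Nat.eq_of_testBit_eq fun t => ?_
  rw [show 1024 = 2 ^ 10 from rfl] at hab ⊢
  rw [Nat.testBit_mod_two_pow, Nat.testBit_mod_two_pow]
  by_cases ht : t < 10
  · obtain ⟨s, hs, e⟩ := H t ht
    have := congrArg (fun n => Nat.testBit n s) hab
    simp only [Nat.testBit_mod_two_pow, hs, decide_true, Bool.true_and] at this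
    simp [pv_eq, testBit_ofL, e, this]
  · simp [ht]

theorem sw_low {l h : ℕ} {σ : List ℕ} (H : swOK 10 l h σ = true)
    (H2 : ∀ t < 10, ∃ s < 10, σ[t]? = some s) {a b : ℕ} (ha : a < 2 ^ 20) (hb : b < 2 ^ 20)
    (hab : a % 1024 = b % 1024) : sw l h a % 1024 = sw l h b % 1024 := by
  rw [sw_eq le_rfl H ha, sw_eq le_rfl H hb]
  exact pv_low H2 hab

/-- Entry `i` of a table of numbers with `n` bits, `m = 2 ^ n`. -/
def tb (n m T i : ℕ) : ℕ := Nat.mod (Nat.shiftRight T (Nat.mul n i)) m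

end Pool.Agent.P.MP_fc6a29_co
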