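import Pool.Agent.P.MP_fc6a29_co.Color
import Pool.Agent.P.MP_fc6a29_co.ChkCa
import Pool.Agent.P.MP_fc6a29_co.ChkCb
import Pool.Agent.P.MP_fc6a29_co.Chk4a
import Pool.Agent.P.MP_fc6a29_co.Chk4b
import Pool.Agent.P.MP_fc6a29_co.Chk6a
import Pool.Agent.P.MP_fc6a29_co.Chk6b
import Pool.Agent.P.MP_fc6a29_co.Chk6c
import Pool.Agent.P.MP_fc6a29_co.Chk6d
import Pool.Agent.P.MP_fc6a29_co.ChkFa
import Pool.Agent.P.MP_fc6a29_co.ChkFb
import Pool.Agent.P.MP_fc6a29_co.ChkFc
import Pool.Agent.P.MP_fc6a29_co.Dcm1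
import Pool.Agent.P.MP_fc6a29_co.Dcm2
import Pool.Agent.P.MP_fc6a29_co.Dcl1

/-! The value of an optimal weighting is at most `2 √3 - 3`. -/

namespace Pool.Agent.P.MP_fc6a29_co

open Finset

theorem allP_blocks {f : ℕ → Bool} {k m : ℕ} (h : ∀ b < m, allP f k b = true) (i : ℕ)
    (hi : i < m * 2 ^ k) : f i = true := by
  have h1 := allP_spec f k (i / 2 ^ k) (h _ (Nat.div_lt_of_lt_mul (by rwa [mul_comm] at hi)))
    (i % 2 ^ k) (Nat.mod_lt _ (by positivity))
  rwa [Nat.div_add_mod'] at h1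

theorem cs_ok : CsOK cs where
  hC := fun i hi => allP_blocks (k := 11) (m := 8) (fun b hb => by
    interval_cases b
    exacts [kc0, kc1, kc2, kc3, kc4, kc5, kc6, kc7]) i hi
  h4 := fun i hi => allP_blocks (k := 12) (m := 16) (fun b hb => by
    interval_cases b
    exacts [kf0, kf1, kf2, kf3, kf4, kf5, kf6, kf7, kf8, kf9, kf10, kf11, kf12, kf13, kf14, kf15]) i hi
  h2 := allP_zero k2
  hB := allP_zero kd
  h6 := fun i hi => allP_blocks (k := 4) (m := 53) (fun b hb => by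
    interval_cases b
    exacts [kg0, kg1, kg2, kg3, kg4, kg5, kg6, kg7, kg8, kg9, kg10, kg11, kg12, kg13, kg14, kg15,
      kg16, kg17, kg18, kg19, kg20, kg21, kg22, kg23, kg24, kg25, kg26, kg27, kg28, kg29,
      kg30, kg31, kg32, kg33, kg34, kg35, kg36, kg37, kg38, kg39, kg40, kg41, kg42, kg43,
      kg44, kg45, kg46, kg47, kg48, kg49, kg50, kg51, kg52]) i (by omega)

theorem cfin_ok (i : ℕ) (hi : i < 430) : chkFin cfin i = true :=
  allP_blocks (k := 5) (m := 14) (fun b hb => by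
    interval_cases b
    exacts [cfin_ok0, cfin_ok1, cfin_ok2, cfin_ok3, cfin_ok4, cfin_ok5, cfin_ok6, cfin_ok7,
      cfin_ok8, cfin_ok9, cfin_ok10, cfin_ok11, cfin_ok12, cfin_ok13]) i (by omega)

variable {V : Type} [Fintype V] {w : V → ℝ} {E : V → V → V → Bool} {p : ℝ}

theorem Good.upper (hG : Good w E p) : p ≤ 2 * √3 - 3 := by
  by_contra hp
  push Not at hp
  have hs : √3 ^ 2 = 3 := Real.sq_sqrt (by norm_num)
  have s0 : 0 ≤ √3 := Real.sqrt_nonneg _
  have s1 : 1.73205 ≤ √3 := by nlinarith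
  obtain ⟨χ, hC⟩ := hG.col cs_ok (by linarith)
  have hX : ∀ z, 10000 * Xz w E χ z ≤ ((cfin.hi (cN χ z) : ℤ) : ℝ) := by
    intro z
    have b := Xz_bounds (χ := χ) hG z
    show _ ≤ ((372 + 168 * ((cN χ z : ℕ) : ℤ) : ℤ) : ℝ)
    by_contra g
    push Not at g
    cases hz : χ z
    · have e : cN χ z = 0 := by simp [cN, hz]
      rw [e] at g
      rcases le_total (10000 * Xz w E χ z) 480 with q | q
      · exact hC.root cm2 z (by rw [e]; exact allP_zero cm2_ok)
          (by show ((372 : ℤ) : ℝ) ≤ _; push_cast at g ⊢; linarith)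
          (by show _ ≤ ((480 : ℤ) : ℝ); push_cast; linarith)
      · exact hC.root cm1 z (by rw [e]; exact allP_zero cm1_ok)
          (by show ((480 : ℤ) : ℝ) ≤ _; push_cast; linarith)
          (by show _ ≤ ((10000 : ℤ) : ℝ); push_cast; linarith)
    · have e : cN χ z = 1 := by simp [cN, hz]
      rw [e] at g
      exact hC.root cl1 z (by rw [e]; exact allP_zero cl1_ok)
        (by show ((540 : ℤ) : ℝ) ≤ _; push_cast at g ⊢; linarith)
        (by show _ ≤ ((10000 : ℤ) : ℝ); push_cast; linarith)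
  have h := hC.final cfin cfin_ok (fun z => by
    have b := Xz_bounds (χ := χ) hG z
    show ((0 : ℤ) : ℝ) ≤ _
    push_cast; linarith) hX
  have hsum : Ex w (iA χ) = 1 - Ex w (iB χ) := by
    rw [eq_sub_iff_add_eq, ← Ex_add, Ex_congr (g := fun _ => 1) (fun x => by simp [iA, iB]),
      Ex_const hG.tot]
  have a1 := hC.alo
  have a2 := hC.ahi
  have o := hG.opt (iB χ) iB_nonneg
  rw [hsum] at h a1 a2
  set β := Ex w (iB χ)
  have q := last_poly (β := β) (by linarith) (by linarith)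
  have b3 : β ^ 3 < 1 := pow_lt_one₀ (by linarith) (by linarith) (by norm_num)
  nlinarith [mul_pos (sub_pos.2 hp) (sub_pos.2 b3)]

end Pool.Agent.P.MP_fc6a29_co
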